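import Pool.Agent.Q282.FF.Mv
import Pool.Agent.Q282.CL.Dist
import Pool.Agent.Q282.CL.Lim

/-!
# The law of the upper bound
-/

set_option autoImplicit false
set_option linter.unusedSectionVars false

namespace Q282.FF

open Polynomial Finset Filter
open Q282.JK (Idx fpol)
open Q282.CL
open scoped Topology

/-- a slowly growing function -/
noncomputable def om (n : ℕ) : ℕ := ⌊Real.sqrt (Real.sqrt (Real.log n))⌋₊

/-- the number of degrees which are used -/
noncomputable def hgt (n : ℕ) : ℕ := n / om n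

lemma log_tendsto : Tendsto (fun n : ℕ => Real.log n) atTop atTop := Real.tendsto_log_atTop.comp tendsto_natCast_atTop_atTop

lemma om_tendsto : Tendsto om atTop atTop :=
  tendsto_nat_floor_atTop.comp (Real.tendsto_sqrt_atTop.comp (Real.tendsto_sqrt_atTop.comp log_tendsto))

lemma om_small (δ : ℝ) (hδ : 0 < δ) : ∀ᶠ n : ℕ in atTop, (om n : ℝ) ≤ δ * Real.sqrt (Real.log n) := by
  have h1 : Tendsto (fun n : ℕ => Real.sqrt (Real.sqrt (Real.log n))) atTop atTop :=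
    Real.tendsto_sqrt_atTop.comp (Real.tendsto_sqrt_atTop.comp log_tendsto)
  filter_upwards [h1.eventually_ge_atTop (1 / δ)] with n hn
  have h2 : (om n : ℝ) ≤ Real.sqrt (Real.sqrt (Real.log n)) := Nat.floor_le (Real.sqrt_nonneg _)
  have h3 : Real.sqrt (Real.log n) = Real.sqrt (Real.sqrt (Real.log n)) * Real.sqrt (Real.sqrt (Real.log n)) :=
    (Real.mul_self_sqrt (Real.sqrt_nonneg _)).symm
  rw [h3]
  rw [div_le_iff₀ hδ] at hn
  nlinarith [Real.sqrt_nonneg (Real.sqrt (Real.log n))]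

lemma two_log (n : ℕ) (hn : 1 ≤ n) : 2 * Real.log n ≤ n := by
  have hn' : (0 : ℝ) < n := by exact_mod_cast hn
  have h1 : Real.log (Real.sqrt n) ≤ Real.sqrt n - 1 := Real.log_le_sub_one_of_pos (Real.sqrt_pos.2 hn')
  rw [Real.log_sqrt hn'.le] at h1
  have h2 : Real.sqrt n ^ 2 = n := Real.sq_sqrt hn'.le
  nlinarith [sq_nonneg (Real.sqrt n - 2)]

lemma facts (K : ℕ) (δ : ℝ) (hδ : 0 < δ) : ∀ᶠ n : ℕ in atTop, 1 ≤ om n ∧ (om n : ℝ) ≤ δ * Real.sqrt (Real.log n) ∧ 1 ≤ hgt n ∧ K * hgt n ≤ n ∧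
    (n : ℝ) / hgt n ≤ 2 * om n ∧ K ≤ Real.log n ∧ 1 ≤ Real.log n ∧ Real.log (hgt n) ≤ Real.log n ∧ Real.log n ≤ Real.log (hgt n) + 2 * om n ∧
      1 + Real.log (hgt n) ≤ Real.log n := by
  filter_upwards [om_tendsto.eventually_ge_atTop (K + 3), om_small δ hδ, om_small 1 one_pos, log_tendsto.eventually_ge_atTop (K + 1),
    eventually_ge_atTop 1] with n h1 h2 h3 h4 h5
  have hn' : (0 : ℝ) < n := by exact_mod_cast h5
  have hK0 : (0 : ℝ) ≤ K := Nat.cast_nonneg _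
  obtain ⟨w, hw⟩ : ∃ w : ℕ, w = om n := ⟨_, rfl⟩
  have hh : hgt n = n / w := by rw [hw]; rfl
  rw [← hw] at h1 h2 h3 ⊢
  rw [hh]
  have hw3 : (3 : ℝ) ≤ w := by
    have : 3 ≤ w := by omega
    exact_mod_cast this
  have hwn : 2 * w ≤ n := by
    have h6 : (w : ℝ) ≤ Real.log n := by
      rw [one_mul] at h3
      refine h3.trans ?_
      rw [Real.sqrt_le_left (by linarith)]
      nlinarith
    have h7 := two_log n h5
    have h8 : (2 * w : ℝ) ≤ n := by linarith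
    exact_mod_cast h8
  have hh1 : 1 ≤ n / w := (Nat.one_le_div_iff (by omega)).2 (by omega)
  have hh1' : (1 : ℝ) ≤ (n / w : ℕ) := by exact_mod_cast hh1
  have h6 : (n : ℝ) / (n / w : ℕ) ≤ 2 * w := by
    rw [div_le_iff₀ (by linarith)]
    have h7 : n < (n / w + 1) * w := by
      have := Nat.lt_div_mul_add (a := n) (b := w) (by omega)
      rw [add_mul, one_mul]
      exact this
    have h8 : (n : ℝ) ≤ ((n / w : ℕ) + 1) * w := by exact_mod_cast h7.le
    nlinarith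
  have h7 : Real.log n ≤ Real.log (n / w : ℕ) + 2 * w := by
    have h8 : (n : ℝ) ≤ 2 * w * (n / w : ℕ) := by rwa [div_le_iff₀ (by linarith)] at h6
    have h9 := Real.log_le_log hn' h8
    rw [Real.log_mul (by linarith) (by linarith)] at h9
    have h10 : Real.log (2 * w) ≤ 2 * w - 1 := Real.log_le_sub_one_of_pos (by linarith)
    linarith
  have h8 : 1 + Real.log (n / w : ℕ) ≤ Real.log n := by
    have h9 : (3 : ℝ) * (n / w : ℕ) ≤ n := by
      have : 3 * (n / w) ≤ n := by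
        calc 3 * (n / w) ≤ w * (n / w) := Nat.mul_le_mul_right _ (by omega)
          _ ≤ n := Nat.mul_div_le n w
      exact_mod_cast this
    have h10 : Real.exp 1 * (n / w : ℕ) ≤ n := by
      have := Real.exp_one_lt_three
      nlinarith
    have h11 := Real.log_le_log (by positivity) h10
    rw [Real.log_mul (Real.exp_pos 1).ne' (by linarith), Real.log_exp] at h11
    exact h11
  refine ⟨by omega, h2, hh1, ?_, h6, by linarith, by linarith, by linarith, h7, h8⟩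
  calc K * (n / w) ≤ w * (n / w) := Nat.mul_le_mul_right _ (by omega)
    _ ≤ n := Nat.mul_div_le n w

lemma norm_exp_sub (a b : ℝ) : ‖Complex.exp (a * Complex.I) - Complex.exp (b * Complex.I)‖ ≤ |a - b| := by
  obtain ⟨v, hv⟩ : ∃ v : ℝ, v = a - b := ⟨_, rfl⟩
  have h3 : Complex.exp (a * Complex.I) - Complex.exp (b * Complex.I) =
      Complex.exp (b * Complex.I) * (Complex.exp (v * Complex.I) - 1) := by
    rw [mul_sub, ← Complex.exp_add, hv]
    push_cast
    ring_nf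
  rw [h3, norm_mul, Complex.norm_exp_ofReal_mul_I, one_mul, ← hv]
  have h4 := Q282.CL.taylor v 1
  rw [sum_range_one, pow_zero, Nat.factorial_zero, Nat.factorial_one, Nat.cast_one, Nat.cast_one, div_one, div_one, pow_one] at h4
  exact h4

section

variable {k : Type} [Field k] [Fintype k] [DecidableEq k]

/-- the upper bound, normalised -/
noncomputable def Zn (g : ℕ) (κ : ℝ) {r m n : ℕ} (t : Par k r m n) : ℝ :=
  (κ * (n / hgt n) + 56 * g + (r + 1 / 2) * Real.log n + ∑ v ∈ PB k (hgt n), (loc (w1 (hgt n) (deg v)) (w2 (hgt n) (deg v)) (rt v t) +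
    bd (rt v t) * ((4 * g + 10 * (2 * g + 1)) / Real.sqrt (Nat.card (Res v))))) / Real.sqrt (Real.log n)

end

theorem chr_lim (g r m : ℕ) (hrm : r + m = 2 * g + 1) (hrg : r ≤ g) (hg : 1 ≤ g) (κ : ℝ) (hκ : 0 ≤ κ) (u ε : ℝ)
    (hε : 0 < ε) : ∃ n₀ : ℕ, ∀ (k : Type) [Field k] [Fintype k] [DecidableEq k], (2 : k) ≠ 0 → ∀ n ≥ n₀, ‖av (fun t : Par k r m n => Complex.exp (((u * Zn g κ t : ℝ) : ℂ) * Complex.I)) -
      Complex.exp ((-(u ^ 2 / 2) : ℝ) : ℂ)‖ ≤ ε := by
  obtain ⟨B, hB1, hB⟩ := sums g r m hrm hrg hg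
  have hB0 : 0 < B := by linarith
  obtain ⟨V, hV⟩ : ∃ V : ℝ, V = 24 * B ^ 2 * u ^ 2 + 1 := ⟨_, rfl⟩
  have hV0 : 0 < V := by rw [hV]; positivity
  obtain ⟨K, hK1, hK⟩ := exists_k V (ε / 4) hV0 (by positivity)
  -- the constants
  obtain ⟨c₁, hc₁⟩ : ∃ c₁ : ℝ, c₁ = 2 * ((2 * B * |u|) ^ 3 + (2 * B * |u|) ^ 4) := ⟨_, rfl⟩
  have hc₁0 : 0 ≤ c₁ := by rw [hc₁]; positivity
  obtain ⟨c₂, hc₂⟩ : ∃ c₂ : ℝ, c₂ = |u| * (56 * g + 2 * B) := ⟨_, rfl⟩
  have hc₂0 : 0 ≤ c₂ := by rw [hc₂]; positivity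
  obtain ⟨δ, hδ⟩ : ∃ δ : ℝ, δ = ε / (16 * ((|u| + 1) * (κ + r + 1) + u ^ 2 + 1)) := ⟨_, rfl⟩
  have hden : 0 < 16 * ((|u| + 1) * (κ + r + 1) + u ^ 2 + 1) := by positivity
  have hδ0 : 0 < δ := by rw [hδ]; positivity
  obtain ⟨L₀, hL₀⟩ := exists_nat_ge ((8 * c₁ / ε) ^ 2 + (8 * c₂ / ε) ^ 2 + 8 * (B * u ^ 2) / ε)
  have hfin := (facts (2 * K + L₀) δ hδ0)
  rw [eventually_atTop] at hfin
  obtain ⟨n₀, hn₀⟩ := hfin
  refine ⟨n₀, fun k _ _ _ h2 n hn => ?_⟩
  obtain ⟨f1, f2, f3, f4⟩ := hB k h2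
  obtain ⟨q1, q2, q3, q4, q5, q6, q7, q8, q9, -⟩ := hn₀ n hn
  obtain ⟨h, hh⟩ : ∃ h : ℕ, h = hgt n := ⟨_, rfl⟩
  obtain ⟨L, hL⟩ : ∃ L : ℝ, L = Real.log n := ⟨_, rfl⟩
  obtain ⟨D, hD⟩ : ∃ D : ℝ, D = Real.sqrt L := ⟨_, rfl⟩
  obtain ⟨w, hw⟩ : ∃ w : ℝ, w = om n := ⟨_, rfl⟩
  have hZ : ∀ t : Par k r m n, Zn g κ t = (κ * (n / h) + 56 * g + (r + 1 / 2) * L +
      ∑ v ∈ PB k h, (loc (w1 h (deg v)) (w2 h (deg v)) (rt v t) +
      bd (rt v t) * ((4 * g + 10 * (2 * g + 1)) / Real.sqrt (Nat.card (Res v))))) / D := by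
    intro t
    unfold Zn
    rw [← hh, ← hL, ← hD]
  rw [← hh] at q3 q4 q5 q8 q9
  rw [← hL] at q2 q6 q7 q8 q9
  rw [← hD] at q2
  rw [← hw] at q2 q5 q9
  have hw0 : 0 ≤ w := by rw [hw]; exact Nat.cast_nonneg _
  have hL0 : 0 < L := by linarith
  have hD1 : 1 ≤ D := by
    rw [hD, Real.le_sqrt (by norm_num) hL0.le]
    linarith
  have hD0 : 0 < D := by linarith
  have hDL : D ^ 2 = L := by rw [hD, Real.sq_sqrt hL0.le]
  have hK0 : (0 : ℝ) ≤ K := Nat.cast_nonneg _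
  have hLL : (8 * c₁ / ε) ^ 2 + (8 * c₂ / ε) ^ 2 + 8 * (B * u ^ 2) / ε ≤ L := by
    push_cast at q6
    linarith
  have hp1 : 0 ≤ (8 * c₁ / ε) ^ 2 := sq_nonneg _
  have hp2 : 0 ≤ (8 * c₂ / ε) ^ 2 := sq_nonneg _
  have hp3 : 0 ≤ 8 * (B * u ^ 2) / ε := by positivity
  have hd1 : c₁ / D ≤ ε / 8 := by
    have h3 : 8 * c₁ / ε ≤ D := by
      rw [hD]
      exact Real.le_sqrt_of_sq_le (by linarith)
    rw [div_le_iff₀ hε] at h3
    rw [div_le_iff₀ hD0]
    linarith
  have hd2 : c₂ / D ≤ ε / 8 := by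
    have h3 : 8 * c₂ / ε ≤ D := by
      rw [hD]
      exact Real.le_sqrt_of_sq_le (by linarith)
    rw [div_le_iff₀ hε] at h3
    rw [div_le_iff₀ hD0]
    linarith
  have hd3 : B * u ^ 2 / L ≤ ε / 8 := by
    have h3 : 8 * (B * u ^ 2) / ε ≤ L := by linarith
    rw [div_le_iff₀ hε] at h3
    rw [div_le_iff₀ hL0]
    linarith
  have hh0 : (0 : ℝ) < h := by exact_mod_cast q3
  have hhn : h ≤ n := by
    refine le_trans ?_ q4
    exact Nat.le_mul_of_pos_left _ (by omega)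
  -- the local functions
  obtain ⟨ψ, hψ⟩ : ∃ ψ : ∀ v : Place k, (Idx r m → Res v) → ℝ, ψ = fun v x => loc (w1 h (deg v)) (w2 h (deg v)) x := ⟨_, rfl⟩
  obtain ⟨μ, hμ⟩ : ∃ μ : Place k → ℝ, μ = fun v => av (ψ v) := ⟨_, rfl⟩
  have hneO : ∀ v : Place k, Nonempty (Idx r m → Res v) := fun v => ⟨fun _ => 0⟩
  have hneA : Nonempty (Par k r m n) := ⟨fun _ => 0⟩
  have hs1 : ∀ v : Place k, 1 ≤ Real.sqrt (Nat.card (Res v)) := by
    intro v
    rw [Real.one_le_sqrt]
    exact_mod_cast Nat.card_pos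
  have hψb : ∀ v ∈ PB k h, ∀ x, |ψ v x| ≤ B / Real.sqrt (Nat.card (Res v)) := by
    intro v hv x
    rw [hψ]
    exact f1 h v (mem_PB.1 hv) x
  have hμb : ∀ v ∈ PB k h, |μ v| ≤ B / Real.sqrt (Nat.card (Res v)) := by
    intro v hv
    rw [hμ]
    exact (abs_av_le _).trans ((av_mono (hψb v hv)).trans (le_of_eq (av_const _)))
  have hmean := f2 h q3
  have hvar := f3 h q3
  have hbad := f4 n h (by omega)
  have hmean' : |∑ v ∈ PB k h, μ v + (r + 1 / 2) * Real.log h| ≤ B := by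
    rw [hμ, hψ]
    exact hmean
  have hvar' : |∑ v ∈ PB k h, (av (fun x => ψ v x ^ 2) - μ v ^ 2) - Real.log h| ≤ B := by
    rw [hμ, hψ]
    exact hvar
  -- the normal approximation
  obtain ⟨b, hb⟩ : ∃ b : Place k → ℝ, b = fun v => 2 * B * |u| / (Real.sqrt (Nat.card (Res v)) * D) := ⟨_, rfl⟩
  have hb0 : ∀ v, 0 ≤ b v := by
    intro v
    rw [hb]
    have := hs1 v
    positivity
  have key := chr_normal (α := Par k r m n) (ι := PB k h) (Ω := fun v => Idx r m → Res v.1)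
    (fun v t => (u / D) * (ψ v.1 (rt v.1 t) - μ v.1)) (fun v x => (u / D) * (ψ v.1 x - μ v.1))
    (fun v => by
      show av (fun x => (u / D) * (ψ v.1 x - μ v.1)) = 0
      rw [av_mul, av_sub, av_const, hμ, sub_self, mul_zero])
    (b := fun v => b v.1) (fun v => hb0 v.1)
    (fun v x => by
      show |(u / D) * (ψ v.1 x - μ v.1)| ≤ b v.1
      have h3 := hψb v.1 v.2 x
      have h4 := hμb v.1 v.2
      rw [abs_mul, abs_div, abs_of_pos hD0, hb]
      have h5 : |ψ v.1 x - μ v.1| ≤ 2 * (B / Real.sqrt (Nat.card (Res v.1))) := by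
        have := abs_sub (ψ v.1 x) (μ v.1)
        linarith
      calc |u| / D * |ψ v.1 x - μ v.1| ≤ |u| / D * (2 * (B / Real.sqrt (Nat.card (Res v.1)))) :=
            mul_le_mul_of_nonneg_left h5 (by positivity)
        _ = _ := by
          have := hs1 v.1
          field_simp)
    (V := V) hV0 (by
      rw [Finset.sum_coe_sort (PB k h) (fun v => b v ^ 2)]
      have h3 : ∀ v ∈ PB k h, b v ^ 2 = 4 * B ^ 2 * u ^ 2 / L * ((fun _ => (1 : ℝ)) (deg v) / (Nat.card (Res v) : ℝ)) := by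
        intro v _
        rw [hb]
        show (2 * B * |u| / (Real.sqrt (Nat.card (Res v)) * D)) ^ 2 = _
        rw [div_pow, mul_pow, mul_pow, sq_abs, mul_pow, Real.sq_sqrt (Nat.cast_nonneg _), hDL]
        have : (Nat.card (Res v) : ℝ) ≠ 0 := by
          have : Nat.card (Res v) ≠ 0 := Nat.card_pos.ne'
          exact_mod_cast this
        field_simp
        ring
      rw [sum_congr rfl h3, ← mul_sum]
      have h4 := (abs_le.1 (sum_approx h2 h (fun _ => (1 : ℝ)) (fun _ _ => by norm_num))).2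
      have h5 := (abs_le.1 (harm_log q3)).2
      have h6 : ∑ v ∈ PB k h, (fun _ => (1 : ℝ)) (deg v) / (Nat.card (Res v) : ℝ) ≤ 6 * L := by linarith
      calc 4 * B ^ 2 * u ^ 2 / L * ∑ v ∈ PB k h, (fun _ => (1 : ℝ)) (deg v) / (Nat.card (Res v) : ℝ) ≤ 4 * B ^ 2 * u ^ 2 / L * (6 * L) :=
            mul_le_mul_of_nonneg_left h6 (by positivity)
        _ = 24 * B ^ 2 * u ^ 2 := by
          field_simp
          ring
        _ ≤ V := by rw [hV]; linarith)
    (η := 0) le_rfl (k := K) hK1 (by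
      intro j hj τ
      have h3 := mono (ι := Idx r m) (PB k h) (n := n) (D := h) (m := j) (fun v hv => (mem_PB.1 hv).le)
        (le_trans (Nat.mul_le_mul_right h (by omega : j ≤ 2 * K + L₀)) q4) (fun v x => (u / D) * (ψ v x - μ v)) τ
      rw [h3, sub_self, abs_zero])
  have e1 : ∀ t : Par k r m n, ∑ v : PB k h, (u / D) * (ψ v.1 (rt v.1 t) - μ v.1) = (u / D) * (∑ v ∈ PB k h, ψ v (rt v t) - ∑ v ∈ PB k h, μ v) := by
    intro t
    rw [Finset.sum_coe_sort (PB k h) (fun v => (u / D) * (ψ v (rt v t) - μ v)), ← mul_sum, sum_sub_distrib]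
  simp only [e1] at key
  rw [mul_zero, add_zero, Finset.sum_coe_sort (PB k h) (fun v => b v ^ 3 + b v ^ 4),
    Finset.sum_coe_sort (PB k h) (fun v => av (fun x => ((u / D) * (ψ v x - μ v)) ^ 2))] at key
  -- the error of the normal approximation
  have hberr : ∑ v ∈ PB k h, (b v ^ 3 + b v ^ 4) ≤ c₁ / D := by
    have h3 : ∀ v ∈ PB k h, b v ^ 3 + b v ^ 4 ≤ ((2 * B * |u|) ^ 3 + (2 * B * |u|) ^ 4) / D * (1 / Real.sqrt (Nat.card (Res v)) ^ 3) := by
      intro v _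
      rw [hb]
      obtain ⟨s, hs⟩ : ∃ s : ℝ, s = Real.sqrt (Nat.card (Res v)) := ⟨_, rfl⟩
      obtain ⟨a, ha⟩ : ∃ a : ℝ, a = 2 * B * |u| := ⟨_, rfl⟩
      have ha0 : 0 ≤ a := by rw [ha]; positivity
      have hs1' : 1 ≤ s := by rw [hs]; exact hs1 v
      have hs0 : 0 < s := by linarith
      show (2 * B * |u| / (Real.sqrt (Nat.card (Res v)) * D)) ^ 3 + (2 * B * |u| / (Real.sqrt (Nat.card (Res v)) * D)) ^ 4 ≤ _
      rw [← hs, ← ha]
      have h4 : (a / (s * D)) ^ 3 ≤ a ^ 3 / D * (1 / s ^ 3) := by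
        rw [div_pow, mul_pow]
        have e : a ^ 3 / D * (1 / s ^ 3) = a ^ 3 / (s ^ 3 * D) := by
          field_simp
        rw [e]
        refine div_le_div_of_nonneg_left (by positivity) (by positivity) ?_
        exact mul_le_mul_of_nonneg_left (le_self_pow₀ hD1 (by norm_num)) (by positivity)
      have h5 : (a / (s * D)) ^ 4 ≤ a ^ 4 / D * (1 / s ^ 3) := by
        rw [div_pow, mul_pow]
        have e : a ^ 4 / D * (1 / s ^ 3) = a ^ 4 / (s ^ 3 * D) := by
          field_simp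
        rw [e]
        refine div_le_div_of_nonneg_left (by positivity) (by positivity) ?_
        exact mul_le_mul (pow_le_pow_right₀ hs1' (by norm_num)) (le_self_pow₀ hD1 (by norm_num)) hD0.le (by positivity)
      have e : (a ^ 3 + a ^ 4) / D * (1 / s ^ 3) = a ^ 3 / D * (1 / s ^ 3) + a ^ 4 / D * (1 / s ^ 3) := by ring
      rw [e]
      exact add_le_add h4 h5
    refine (sum_le_sum h3).trans ?_
    rw [← mul_sum]
    have h4 := sum_conv h2 h
    calc ((2 * B * |u|) ^ 3 + (2 * B * |u|) ^ 4) / D * ∑ v ∈ PB k h, 1 / Real.sqrt (Nat.card (Res v)) ^ 3 ≤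
          ((2 * B * |u|) ^ 3 + (2 * B * |u|) ^ 4) / D * 2 := mul_le_mul_of_nonneg_left h4 (by positivity)
      _ = c₁ / D := by rw [hc₁]; ring
  -- the variance
  have hvsum : ∑ v ∈ PB k h, av (fun x => ((u / D) * (ψ v x - μ v)) ^ 2) =
      u ^ 2 / L * ∑ v ∈ PB k h, (av (fun x => ψ v x ^ 2) - μ v ^ 2) := by
    rw [mul_sum]
    refine sum_congr rfl fun v _ => ?_
    have h3 : (fun x => ((u / D) * (ψ v x - μ v)) ^ 2) = fun x => (u ^ 2 / L) * (ψ v x ^ 2 - ((2 * μ v) * ψ v x - μ v ^ 2)) := by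
      funext x
      rw [mul_pow, div_pow, hDL]
      ring
    rw [h3, av_mul, av_sub, av_sub, av_mul, av_const]
    have h4 : av (ψ v) = μ v := by rw [hμ]
    have h5 : av (fun x => ψ v x) = μ v := h4
    rw [h5]
    ring
  have hvar2 : ‖Complex.exp ((-((∑ v ∈ PB k h, av (fun x => ((u / D) * (ψ v x - μ v)) ^ 2)) / 2) : ℝ) : ℂ) -
      Complex.exp ((-(u ^ 2 / 2) : ℝ) : ℂ)‖ ≤ ε / 8 := by
    rw [hvsum, ← Complex.ofReal_exp, ← Complex.ofReal_exp, ← Complex.ofReal_sub, Complex.norm_real, Real.norm_eq_abs]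
    obtain ⟨Vr, hVr⟩ : ∃ Vr : ℝ, Vr = ∑ v ∈ PB k h, (av (fun x => ψ v x ^ 2) - μ v ^ 2) := ⟨_, rfl⟩
    rw [← hVr] at hvar' ⊢
    have hVr0 : 0 ≤ Vr := by
      rw [hVr]
      refine sum_nonneg fun v _ => ?_
      have h3 : 0 ≤ av (fun x => (ψ v x - μ v) ^ 2) := av_nonneg fun _ => sq_nonneg _
      have h4 : (fun x => (ψ v x - μ v) ^ 2) = fun x => (ψ v x ^ 2 - ((2 * μ v) * ψ v x - μ v ^ 2)) := by
        funext x
        ring
      rw [h4, av_sub, av_sub, av_mul, av_const] at h3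
      have h5 : av (fun x => ψ v x) = μ v := by rw [hμ]
      rw [h5] at h3
      linarith
    have hx0 : 0 ≤ u ^ 2 / L * Vr / 2 := by positivity
    have hy0 : 0 ≤ u ^ 2 / 2 := by positivity
    have hlip : ∀ x y : ℝ, 0 ≤ x → 0 ≤ y → |Real.exp (-x) - Real.exp (-y)| ≤ |x - y| := by
      have h3 : ∀ x y : ℝ, 0 ≤ x → x ≤ y → |Real.exp (-x) - Real.exp (-y)| ≤ |x - y| := by
        intro x y hx hxy
        have h4 : Real.exp (-y) ≤ Real.exp (-x) := Real.exp_le_exp.2 (by linarith)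
        rw [abs_of_nonneg (by linarith), abs_of_nonpos (by linarith)]
        have h5 : Real.exp (-x) - Real.exp (-y) = Real.exp (-x) * (1 - Real.exp (-(y - x))) := by
          rw [mul_sub, ← Real.exp_add]
          ring_nf
        have h6 : Real.exp (-x) ≤ 1 := Real.exp_le_one_iff.2 (by linarith)
        have h7 := Real.add_one_le_exp (-(y - x))
        have h8 : 0 ≤ 1 - Real.exp (-(y - x)) := by
          have : Real.exp (-(y - x)) ≤ 1 := Real.exp_le_one_iff.2 (by linarith)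
          linarith
        rw [h5]
        calc Real.exp (-x) * (1 - Real.exp (-(y - x))) ≤ 1 * (1 - Real.exp (-(y - x))) := mul_le_mul_of_nonneg_right h6 h8
          _ ≤ -(x - y) := by linarith
      intro x y hx hy
      rcases le_total x y with h4 | h4
      · exact h3 x y hx h4
      · rw [abs_sub_comm, abs_sub_comm x y]
        exact h3 y x hy h4
    refine (hlip _ _ hx0 hy0).trans ?_
    have e : u ^ 2 / L * Vr / 2 - u ^ 2 / 2 = u ^ 2 / (2 * L) * (Vr - L) := by field_simp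
    rw [e, abs_mul, abs_of_nonneg (by positivity : 0 ≤ u ^ 2 / (2 * L))]
    have h3 : |Vr - L| ≤ B + 2 * w := by
      rw [abs_le] at hvar' ⊢
      constructor <;> linarith [hvar'.1, hvar'.2]
    have h4 : w / L ≤ δ := by
      rw [div_le_iff₀ hL0, ← hDL]
      nlinarith
    calc u ^ 2 / (2 * L) * |Vr - L| ≤ u ^ 2 / (2 * L) * (B + 2 * w) := mul_le_mul_of_nonneg_left h3 (by positivity)
      _ = B * u ^ 2 / L / 2 + u ^ 2 * (w / L) := by field_simp
      _ ≤ ε / 8 / 2 + u ^ 2 * δ := by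
        refine add_le_add (by linarith) (mul_le_mul_of_nonneg_left h4 (sq_nonneg _))
      _ ≤ ε / 8 / 2 + ε / 16 := by
        have : u ^ 2 * δ ≤ ε / 16 := by
          rw [hδ, mul_div_assoc', div_le_div_iff₀ hden (by norm_num)]
          have h5 : u ^ 2 * ε ≤ ((|u| + 1) * (κ + r + 1) + u ^ 2 + 1) * ε := by
            refine mul_le_mul_of_nonneg_right ?_ hε.le
            have : 0 ≤ (|u| + 1) * (κ + r + 1) := by positivity
            linarith
          linarith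
        linarith
      _ = ε / 8 := by ring
  -- the shift
  obtain ⟨Bs, hBs⟩ : ∃ Bs : Par k r m n → ℝ, Bs = fun t => ∑ v ∈ PB k h, bd (rt v t) * ((4 * g + 10 * (2 * g + 1)) / Real.sqrt (Nat.card (Res v))) := ⟨_, rfl⟩
  have hBs0 : ∀ t, 0 ≤ Bs t := by
    intro t
    rw [hBs]
    refine sum_nonneg fun v _ => mul_nonneg ?_ (by positivity)
    unfold bd
    split_ifs <;> norm_num
  have hshift : ‖av (fun t : Par k r m n => Complex.exp (((u * Zn g κ t : ℝ) : ℂ) * Complex.I)) -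
      av (fun t : Par k r m n => Complex.exp (((u / D * (∑ v ∈ PB k h, ψ v (rt v t) - ∑ v ∈ PB k h, μ v) : ℝ) : ℂ) * Complex.I))‖ ≤ ε / 4 := by
    rw [← av_sub]
    refine (norm_av_le _).trans ?_
    have h3 : ∀ t : Par k r m n, ‖Complex.exp (((u * Zn g κ t : ℝ) : ℂ) * Complex.I) -
        Complex.exp (((u / D * (∑ v ∈ PB k h, ψ v (rt v t) - ∑ v ∈ PB k h, μ v) : ℝ) : ℂ) * Complex.I)‖ ≤
        |u| / D * (2 * κ * w + 56 * g + (B + (r + 1 / 2) * (2 * w))) + |u| / D * Bs t := by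
      intro t
      refine (norm_exp_sub _ _).trans ?_
      have e : u * Zn g κ t - u / D * (∑ v ∈ PB k h, ψ v (rt v t) - ∑ v ∈ PB k h, μ v) =
          u / D * (κ * (n / h) + 56 * g + ((∑ v ∈ PB k h, μ v + (r + 1 / 2) * Real.log h) + (r + 1 / 2) * (L - Real.log h)) + Bs t) := by
        rw [hZ t, sum_add_distrib, hBs, hψ]
        field_simp
        ring
      rw [e, abs_mul, abs_div, abs_of_pos hD0]
      have h4 : |κ * (n / h) + 56 * g + ((∑ v ∈ PB k h, μ v + (r + 1 / 2) * Real.log h) + (r + 1 / 2) * (L - Real.log h)) + Bs t| ≤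
          2 * κ * w + 56 * g + (B + (r + 1 / 2) * (2 * w)) + Bs t := by
        have hr0 : (0 : ℝ) ≤ r := Nat.cast_nonneg _
        have hg0 : (0 : ℝ) ≤ g := Nat.cast_nonneg _
        have h5 : κ * (n / h) ≤ 2 * κ * w := by
          have := mul_le_mul_of_nonneg_left q5 hκ
          linarith
        have h6 : 0 ≤ κ * ((n : ℝ) / h) := by positivity
        have h7 : 0 ≤ L - Real.log h := by linarith
        have h8 : (r + 1 / 2) * (L - Real.log h) ≤ (r + 1 / 2) * (2 * w) := mul_le_mul_of_nonneg_left (by linarith) (by positivity)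
        have h9 : 0 ≤ ((r : ℝ) + 1 / 2) * (L - Real.log h) := by positivity
        have h10 := hBs0 t
        have h11 := abs_le.1 hmean'
        rw [abs_le]
        constructor <;> linarith [h11.1, h11.2]
      calc |u| / D * |κ * (n / h) + 56 * g + ((∑ v ∈ PB k h, μ v + (r + 1 / 2) * Real.log h) + (r + 1 / 2) * (L - Real.log h)) + Bs t| ≤
            |u| / D * (2 * κ * w + 56 * g + (B + (r + 1 / 2) * (2 * w)) + Bs t) := mul_le_mul_of_nonneg_left h4 (by positivity)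
        _ = _ := by ring
    refine (av_mono h3).trans ?_
    rw [av_add, av_const, av_mul]
    have h4 : av Bs ≤ B := by
      rw [hBs]
      exact hbad
    have h5 : |u| / D * av Bs ≤ |u| / D * B := mul_le_mul_of_nonneg_left h4 (by positivity)
    have h5' : |u| / D * av (fun t => Bs t) ≤ |u| / D * B := h5
    have h6 : |u| / D * (2 * κ * w + 56 * g + (B + (r + 1 / 2) * (2 * w))) + |u| / D * B ≤ |u| * (2 * (κ + r + 1)) * (w / D) + c₂ / D := by
      have e : |u| * (2 * (κ + r + 1)) * (w / D) + c₂ / D - (|u| / D * (2 * κ * w + 56 * g + (B + (r + 1 / 2) * (2 * w))) + |u| / D * B) =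
          |u| * w / D := by
        rw [hc₂]
        field_simp
        ring
      have h7 : 0 ≤ |u| * w / D := by positivity
      linarith
    have h7 : w / D ≤ δ := by
      rw [div_le_iff₀ hD0]
      exact q2
    have h8 : |u| * (2 * (κ + r + 1)) * (w / D) ≤ ε / 8 := by
      calc |u| * (2 * (κ + r + 1)) * (w / D) ≤ |u| * (2 * (κ + r + 1)) * δ := mul_le_mul_of_nonneg_left h7 (by positivity)
        _ ≤ ε / 8 := by
          rw [hδ, mul_div_assoc', div_le_div_iff₀ hden (by norm_num)]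
          have h9 : |u| * (κ + r + 1) * ε ≤ ((|u| + 1) * (κ + r + 1) + u ^ 2 + 1) * ε := by
            refine mul_le_mul_of_nonneg_right ?_ hε.le
            have h10 : 0 ≤ κ + r + 1 := by positivity
            have h11 := sq_nonneg u
            nlinarith
          linarith
    linarith
  have t1 := norm_sub_le_norm_sub_add_norm_sub (av (fun t : Par k r m n => Complex.exp (((u * Zn g κ t : ℝ) : ℂ) * Complex.I)))
    (av (fun t : Par k r m n => Complex.exp (((u / D * (∑ v ∈ PB k h, ψ v (rt v t) - ∑ v ∈ PB k h, μ v) : ℝ) : ℂ) * Complex.I)))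
    (Complex.exp ((-(u ^ 2 / 2) : ℝ) : ℂ))
  have t2 := norm_sub_le_norm_sub_add_norm_sub
    (av (fun t : Par k r m n => Complex.exp (((u / D * (∑ v ∈ PB k h, ψ v (rt v t) - ∑ v ∈ PB k h, μ v) : ℝ) : ℂ) * Complex.I)))
    (Complex.exp ((-((∑ v ∈ PB k h, av (fun x => ((u / D) * (ψ v x - μ v)) ^ 2)) / 2) : ℝ) : ℂ))
    (Complex.exp ((-(u ^ 2 / 2) : ℝ) : ℂ))
  linarith

end Q282.FF
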