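import Pool.Agent.Q282.JK.Defs

/-!
# The `L`-functions of the Jacobians of hyperelliptic curves over `k(T)`: definitions

Here `k` is a finite field of odd characteristic.
-/

set_option autoImplicit false

namespace Q282.FF

open Polynomial
open Q282.JK (Idx fpol)

/-- The finite places of `k(T)`: the monic irreducible polynomials. -/
def Place (k : Type) [Field k] : Type := {P : k[X] // P.Monic ∧ Irreducible P}

section

variable {k : Type} [Field k]

/-- The degree of a place. -/
def deg (v : Place k) : ℕ := v.1.natDegree

/-- The residue field of a place. -/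
def Res (v : Place k) : Type := AdjoinRoot v.1

noncomputable instance resField (v : Place k) : Field (Res v) := @AdjoinRoot.instField _ _ v.1 ⟨v.2.2⟩

/-- The reduction modulo a place. -/
noncomputable def red (v : Place k) : k[X] →+* Res v := AdjoinRoot.mk v.1

/-- The number of the points of the affine curve `y ^ 2 = f(x)` over the extension of degree `n` of the residue field of `v`.
In the algebraic closure of the residue field with `q` elements this extension consists of the `z` with `z ^ (q ^ n) = z`. -/
noncomputable def points (f : k[X][X]) (v : Place k) (n : ℕ) : ℕ :=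
  Nat.card {P : AlgebraicClosure (Res v) × AlgebraicClosure (Res v) //
    P.1 ^ (Nat.card (Res v) ^ n) = P.1 ∧ P.2 ^ (Nat.card (Res v) ^ n) = P.2 ∧ P.2 ^ 2 = aeval P.1 (f.map (red v))}

/-- `f` has no multiple root modulo `v`. -/
def Good (f : k[X][X]) (v : Place k) : Prop := Squarefree (f.map (red v))

/-- The numbers `α i`, the inverse roots of the Euler factor at `v`: they have absolute value at most the square root of the
number `q_v` of elements of the residue field, and if the curve `y ^ 2 = f(x)` has good reduction at `v` then the sums of their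
powers are given by the numbers of points. -/
def IsLocal (g : ℕ) (f : k[X][X]) (v : Place k) (α : Fin (2 * g) → ℂ) : Prop :=
  (∀ i, ‖α i‖ ≤ Real.sqrt (Nat.card (Res v))) ∧
    (Good f v → ∀ n : ℕ, 1 ≤ n → ∑ i, α i ^ n = (Nat.card (Res v) : ℂ) ^ n - (points f v n : ℂ))

/-- The numbers `β i`, of absolute value one, are the inverse zeros divided by `q` of the `L`-function of the Jacobian of the
curve `y ^ 2 = f(x)`: `L(s)`, the product of `(1 - α_v i q_v ^ (-s))⁻¹` over all places `v` (the numbers at the infinite place
are the `γ i`) and all `i`, is equal to the product of the `1 - β j q ^ (1 - s)`. The equality is written for the coefficients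
of the logarithms. -/
def IsSpectrum (g : ℕ) (f : k[X][X]) {N : ℕ} (β : Fin N → ℂ) : Prop :=
  (∀ i, ‖β i‖ = 1) ∧ ∃ (α : Place k → Fin (2 * g) → ℂ) (γ : Fin (2 * g) → ℂ),
    (∀ v, IsLocal g f v (α v)) ∧ (∀ i, ‖γ i‖ ≤ Real.sqrt (Nat.card k)) ∧
      ∀ m : ℕ, 1 ≤ m → -((Nat.card k : ℂ) ^ m * ∑ i, β i ^ m) =
        ∑ i, γ i ^ m + ∑ᶠ v ∈ {v : Place k | deg v ∣ m}, (deg v : ℂ) * ∑ i, α v i ^ (m / deg v)

end

open Classical in
/-- The order of vanishing of `∏ (1 - β i q ^ (1 - s))` at `s = 1`. -/
noncomputable def order {N : ℕ} (β : Fin N → ℂ) : ℕ := (Finset.univ.filter fun i => β i = 1).card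

open Classical in
/-- The product of the absolute values of the numbers `1 - β i` which are not zero. The leading coefficient of
`∏ (1 - β i q ^ (1 - s))` at `s = 1` has absolute value `(log q) ^ order β * leading β`. -/
noncomputable def leading {N : ℕ} (β : Fin N → ℂ) : ℝ := ∏ i ∈ Finset.univ.filter (fun i => β i ≠ 1), ‖1 - β i‖

/-- The parameters: the tuples of polynomials of degree less than `n`. -/
abbrev Par (k : Type) [Field k] (r m n : ℕ) : Type := Idx r m → degreeLT k n

/-- The polynomial `f_t` with coefficients in `k[T]` given by the parameters `t`. -/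
noncomputable def curve {k : Type} [Field k] {r m n : ℕ} (t : Par k r m n) : k[X][X] := fpol fun i => (t i).1

end Q282.FF
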