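import Pool.Agent.Q282.FF.Pl
import Pool.Agent.Q282.CL.Chr
import Pool.Agent.TH180.RT.Sym2

/-!
# The reductions of the tuples of polynomials of small degree modulo different places are independent
-/

set_option autoImplicit false
set_option linter.unusedSectionVars false

namespace Q282.FF

open Polynomial Finset
open Q282.CL
open Pool.Agent.TH180.RT (card_LT sum_fib)

section

variable {k : Type} [Field k] [Fintype k] [DecidableEq k]

/-- the Chinese remainder theorem -/
lemma crt (S : Finset (Place k)) {n : ℕ} (hn : ∑ v ∈ S, deg v ≤ n) (c : ∀ v : S, Res v.1) :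
    ∃ A : degreeLT k n, ∀ v : S, red v.1 A.1 = c v := by
  classical
  have h1 : ∀ v : S, ∃ f : k[X], red v.1 f = c v := fun v => AdjoinRoot.mk_surjective (c v)
  choose f hf using h1
  obtain ⟨l, hl⟩ := IsDedekindDomain.exists_forall_sub_mem_ideal (s := S)
    (fun v : Place k => Ideal.span {v.1}) (fun _ => 1)
    (fun v _ => by
      rw [Ideal.prime_iff_isPrime (by
        rw [Ne, Ideal.span_singleton_eq_bot]
        exact v.2.2.ne_zero)]
      exact (Ideal.span_singleton_prime v.2.2.ne_zero).2 v.2.2.prime)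
    (fun v _ w _ hne h => by
      apply hne
      rw [Ideal.span_singleton_eq_span_singleton] at h
      exact Subtype.ext (eq_of_monic_of_associated v.2.1 w.2.1 h)) f
  obtain ⟨M, hM⟩ : ∃ M : k[X], M = ∏ v ∈ S, v.1 := ⟨_, rfl⟩
  have hMm : M.Monic := by
    rw [hM]
    exact monic_prod_of_monic _ _ fun v _ => v.2.1
  have hMd : M.natDegree ≤ n := by
    rw [hM, natDegree_prod_of_monic _ _ fun v _ => v.2.1]
    exact hn
  refine ⟨⟨l %ₘ M, ?_⟩, fun v => ?_⟩
  · rw [mem_degreeLT]
    refine (degree_modByMonic_lt l hMm).trans_le ?_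
    rw [degree_eq_natDegree hMm.ne_zero]
    exact_mod_cast hMd
  · rw [← hf v]
    have h2 := hl v.1 v.2
    rw [pow_one, Ideal.mem_span_singleton] at h2
    show AdjoinRoot.mk v.1.1 (l %ₘ M) = AdjoinRoot.mk v.1.1 (f v)
    rw [AdjoinRoot.mk_eq_mk]
    have h3 : v.1.1 ∣ M := by
      rw [hM]
      exact dvd_prod_of_mem (fun w : Place k => w.1) v.2
    have h4 : l %ₘ M - f v = (l - f v) - M * (l /ₘ M) := by
      have := modByMonic_add_div l M
      linear_combination this
    rw [h4]
    exact dvd_sub h2 (h3.mul_right _)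

variable {ι : Type} [Fintype ι] [DecidableEq ι]

/-- the reduction of a tuple -/
noncomputable def rt {n : ℕ} (v : Place k) (t : ι → degreeLT k n) : ι → Res v := fun i => red v (t i).1

/-- averages along surjective homomorphisms -/
lemma av_fib {G H : Type} [AddCommGroup G] [Fintype G] [AddCommGroup H] [Fintype H] [DecidableEq H] (φ : G →+ H)
    (hφ : Function.Surjective φ) (g : H → ℝ) : av (fun x => g (φ x)) = av g := by
  unfold av
  have h1 := sum_fib φ hφ g
  have h2 := sum_fib φ hφ (fun _ => (1 : ℝ))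
  rw [sum_const, sum_const, card_univ, card_univ, nsmul_eq_mul, nsmul_eq_mul, mul_one, mul_one] at h2
  have hG : (0 : ℝ) < Fintype.card G := by exact_mod_cast Fintype.card_pos
  have hH : (0 : ℝ) < Fintype.card H := by exact_mod_cast Fintype.card_pos
  rw [h1, h2, mul_div_mul_left]
  intro h0
  rw [h0, zero_mul] at h2
  exact hG.ne' h2

/-- independence -/
lemma av_prod (S : Finset (Place k)) {n : ℕ} (hn : ∑ v ∈ S, deg v ≤ n) (φ : ∀ v : Place k, (ι → Res v) → ℝ) :
    av (fun t : ι → degreeLT k n => ∏ v ∈ S, φ v (rt v t)) = ∏ v ∈ S, av (φ v) := by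
  classical
  let Φ : (ι → degreeLT k n) →+ (∀ v : S, ι → Res v.1) :=
    { toFun := fun t v => rt v.1 t
      map_zero' := by
        funext v i
        show red v.1 ((0 : ι → degreeLT k n) i).1 = 0
        rw [Pi.zero_apply, ZeroMemClass.coe_zero, map_zero]
      map_add' := by
        intro t t'
        funext v i
        show red v.1 ((t + t') i).1 = red v.1 (t i).1 + red v.1 (t' i).1
        rw [Pi.add_apply, AddMemClass.coe_add, map_add] }
  have hΦ : Function.Surjective Φ := by
    intro c
    have h1 : ∀ i, ∃ A : degreeLT k n, ∀ v : S, red v.1 A.1 = c v i := fun i => crt S hn fun v => c v i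
    choose A hA using h1
    exact ⟨A, by
      funext v i
      exact hA i v⟩
  have h1 := av_fib Φ hΦ (fun ω => ∏ v : S, φ v.1 (ω v))
  rw [av_pi (fun (v : S) => φ v.1), prod_coe_sort S (fun v => av (φ v))] at h1
  rw [← h1]
  congr 1
  funext t
  exact (prod_coe_sort S (fun v => φ v (rt v t))).symm

lemma av_one (v : Place k) {n : ℕ} (hn : deg v ≤ n) (φ : (ι → Res v) → ℝ) :
    av (fun t : ι → degreeLT k n => φ (rt v t)) = av φ := by
  classical
  have h1 := av_prod (ι := ι) {v} (n := n) (by rw [sum_singleton]; exact hn)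
    (fun w => if h : w = v then (h ▸ φ) else fun _ => 1)
  simp only [prod_singleton, dite_true] at h1
  exact h1

/-- the monomials -/
theorem mono (S : Finset (Place k)) {n D m : ℕ} (hS : ∀ v ∈ S, deg v ≤ D) (hn : m * D ≤ n) (φ : ∀ v : Place k, (ι → Res v) → ℝ)
    (τ : Fin m → S) :
    av (fun t : ι → degreeLT k n => ∏ j, φ (τ j).1 (rt (τ j).1 t)) =
      av (fun ω : ∀ v : S, ι → Res v.1 => ∏ j, φ (τ j).1 (ω (τ j))) := by
  classical
  obtain ⟨S', hS'⟩ : ∃ S' : Finset (Place k), S' = univ.image fun j => (τ j).1 := ⟨_, rfl⟩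
  have hsub : S' ⊆ S := by
    intro v hv
    rw [hS', mem_image] at hv
    obtain ⟨j, _, rfl⟩ := hv
    exact (τ j).2
  obtain ⟨e, he⟩ : ∃ e : Place k → ℕ, ∀ v, e v = (univ.filter fun j => (τ j).1 = v).card := ⟨_, fun _ => rfl⟩
  have hfib : ∀ f : Place k → ℝ, ∏ j, f (τ j).1 = ∏ v ∈ S', f v ^ e v := by
    intro f
    have h1 := prod_fiberwise_of_maps_to (s := univ) (t := S') (g := fun j => (τ j).1) (fun j hj => by
      rw [hS']
      exact mem_image_of_mem _ hj) (fun j => f (τ j).1)
    rw [← h1]
    refine prod_congr rfl fun v _ => ?_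
    rw [he, ← prod_const]
    exact prod_congr rfl fun j hj => by rw [(mem_filter.1 hj).2]
  have hdeg : ∑ v ∈ S', deg v ≤ n := by
    calc ∑ v ∈ S', deg v ≤ ∑ v ∈ S', D := sum_le_sum fun v hv => hS v (hsub hv)
      _ = S'.card * D := by rw [sum_const, smul_eq_mul]
      _ ≤ m * D := by
        refine Nat.mul_le_mul_right _ ?_
        rw [hS']
        exact card_image_le.trans (by rw [card_univ, Fintype.card_fin])
      _ ≤ n := hn
  have h1 : av (fun t : ι → degreeLT k n => ∏ j, φ (τ j).1 (rt (τ j).1 t)) = ∏ v ∈ S', av (fun u => φ v u ^ e v) := by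
    rw [← av_prod (ι := ι) S' hdeg (fun v u => φ v u ^ e v)]
    congr 1
    funext t
    exact hfib fun v => φ v (rt v t)
  have h2 : av (fun ω : ∀ v : S, ι → Res v.1 => ∏ j, φ (τ j).1 (ω (τ j))) = ∏ v ∈ S', av (fun u => φ v u ^ e v) := by
    have h3 : (fun ω : ∀ v : S, ι → Res v.1 => ∏ j, φ (τ j).1 (ω (τ j))) =
        fun ω => ∏ v : S, (fun (v : S) (u : ι → Res v.1) => φ v.1 u ^ e v.1) v (ω v) := by
      funext ω
      have h4 := prod_fiberwise (s := univ) (g := τ) (f := fun j => φ (τ j).1 (ω (τ j)))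
      rw [← h4]
      refine prod_congr rfl fun v _ => ?_
      show _ = φ v.1 (ω v) ^ e v.1
      rw [he, ← prod_const]
      have h5 : (univ.filter fun j => τ j = v) = univ.filter fun j => (τ j).1 = v.1 := by
        ext j
        rw [mem_filter, mem_filter, Subtype.ext_iff]
      rw [h5]
      refine prod_congr rfl fun j hj => ?_
      have : τ j = v := Subtype.ext (mem_filter.1 hj).2
      rw [this]
    rw [h3, av_pi (fun (v : S) (u : ι → Res v.1) => φ v.1 u ^ e v.1), prod_coe_sort S (fun v => av fun u => φ v u ^ e v)]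
    symm
    refine prod_subset hsub fun v _ hv => ?_
    have h4 : e v = 0 := by
      rw [he, card_eq_zero, filter_eq_empty_iff]
      intro j _ hj
      apply hv
      rw [hS', ← hj]
      exact mem_image_of_mem _ (mem_univ j)
    rw [h4]
    simp only [pow_zero]
    exact av_const _
  rw [h1, h2]

end

end Q282.FF
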