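import Pool.Agent.Q282.JK.Mean
import Pool.Agent.Q282.CL.Abs

/-!
# The mean square of the trace, and the local functions
-/

set_option autoImplicit false
set_option linter.unusedSectionVars false

namespace Q282.FF

open Polynomial Finset
open Q282.JK
open Pool.Agent.H341R2.Sharp
open Q282.CL (av av_add av_sub av_mul av_mono av_const av_nonneg abs_av_le)

section

variable {F : Type} [Field F] [Fintype F] [DecidableEq F] {r m : ℕ}

lemma pair_zero (hF : ringChar F ≠ 2) (hm : 2 ≤ m) (x y : F) (hxy : x ≠ y) (P : F[X] → Prop) [DecidablePred P] :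
    ∑ u : Idx r m → F, (if P (mpt u) ∧ (mpt u).eval y ≠ 0 then
      (quadraticChar F ((fpol u).eval x) : ℝ) * (quadraticChar F ((fpol u).eval y) : ℝ) else 0) = 0 := by
  have h1 := avg (fun z : F => vv r m (C z * (X - C x))) (fun u : Idx r m → F => (if P (mpt u) ∧ (mpt u).eval y ≠ 0 then
      (quadraticChar F ((fpol u).eval x) : ℝ) * (quadraticChar F ((fpol u).eval y) : ℝ) else 0))
  have h2 : ∀ u : Idx r m → F, ∑ z : F, (if P (mpt (u + vv r m (C z * (X - C x)))) ∧ (mpt (u + vv r m (C z * (X - C x)))).eval y ≠ 0 then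
      (quadraticChar F ((fpol (u + vv r m (C z * (X - C x)))).eval x) : ℝ) *
        (quadraticChar F ((fpol (u + vv r m (C z * (X - C x)))).eval y) : ℝ) else 0) = 0 := by
    intro u
    have h3 : ∀ z : F, fpol (u + vv r m (C z * (X - C x))) = fpol u + mpt u * (C z * (X - C x)) := by
      intro z
      refine fpol_vv u _ ?_
      refine lt_of_le_of_lt ((degree_mul_le _ _).trans (add_le_add degree_C_le (degree_X_sub_C x).le)) ?_
      rw [zero_add]
      exact_mod_cast (by omega : 1 < m)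
    simp only [mpt_vv, h3]
    by_cases h4 : P (mpt u) ∧ (mpt u).eval y ≠ 0
    · simp only [if_pos h4]
      have h5 : ∀ z : F, (quadraticChar F ((fpol u + mpt u * (C z * (X - C x))).eval x) : ℝ) *
          (quadraticChar F ((fpol u + mpt u * (C z * (X - C x))).eval y) : ℝ) =
          (quadraticChar F ((fpol u).eval x) : ℝ) *
            (quadraticChar F ((fpol u).eval y + ((mpt u).eval y * (y - x)) * z) : ℝ) := by
        intro z
        simp only [eval_add, eval_mul, eval_C, eval_sub, eval_X, sub_self, mul_zero, add_zero]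
        congr 3
        ring
      rw [sum_congr rfl fun z _ => h5 z, ← mul_sum,
        sum_char hF _ _ (mul_ne_zero h4.2 (sub_ne_zero.2 fun h => hxy h.symm)), mul_zero]
    · simp only [if_neg h4, sum_const_zero]
  rw [sum_congr rfl fun u _ => h2 u, sum_const_zero] at h1
  exact (mul_eq_zero.1 h1).resolve_left (by exact_mod_cast Fintype.card_ne_zero)

lemma roots_card (f : F[X]) (hf : f ≠ 0) : (((univ : Finset F).filter fun x => f.eval x = 0).card : ℝ) ≤ f.natDegree := by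
  have h5 : ((univ : Finset F).filter fun x => f.eval x = 0) ⊆ f.roots.toFinset := by
    intro x hx
    rw [mem_filter] at hx
    rw [Multiset.mem_toFinset, mem_roots hf]
    exact hx.2
  have h6 := (card_le_card h5).trans ((Multiset.toFinset_card_le _).trans (card_roots' _))
  exact_mod_cast h6

/-- the mean square -/
theorem mom_sq (hF : ringChar F ≠ 2) (hrm : r ≤ m) (hm : 2 ≤ m) :
    |∑ u : Idx r m → F, (T (fpol u) 1 : ℝ) ^ 2 - Fintype.card F * (Fintype.card F : ℝ) ^ Fintype.card (Idx r m)| ≤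
      ((r + m : ℕ) + (r : ℝ) ^ 2) * (Fintype.card F : ℝ) ^ Fintype.card (Idx r m) := by
  classical
  obtain ⟨χ, hχ⟩ : ∃ χ : (Idx r m → F) → F → ℝ, χ = fun u x => (quadraticChar F ((fpol u).eval x) : ℝ) := ⟨_, rfl⟩
  obtain ⟨A, hA⟩ : ∃ A : (Idx r m → F) → F → F → ℝ, A = fun u x y => if x ≠ y ∧ (mpt u).eval y ≠ 0 then χ u x * χ u y else 0 := ⟨_, rfl⟩
  obtain ⟨B, hB⟩ : ∃ B : (Idx r m → F) → F → F → ℝ, B = fun u x y =>
    if x ≠ y ∧ (mpt u).eval y = 0 ∧ (mpt u).eval x ≠ 0 then χ u x * χ u y else 0 := ⟨_, rfl⟩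
  obtain ⟨D, hD⟩ : ∃ D : (Idx r m → F) → F → F → ℝ, D = fun u x y =>
    if x ≠ y ∧ (mpt u).eval y = 0 ∧ (mpt u).eval x = 0 then χ u x * χ u y else 0 := ⟨_, rfl⟩
  have hχ1 : ∀ u x, |χ u x| ≤ 1 := by
    intro u x
    rw [hχ]
    show |((quadraticChar F ((fpol u).eval x) : ℤ) : ℝ)| ≤ 1
    by_cases h0 : (fpol u).eval x = 0
    · rw [h0]
      simp
    · rcases quadraticChar_dichotomy h0 with h | h <;> rw [h] <;> norm_num
  have hsq : ∀ u : Idx r m → F, (T (fpol u) 1 : ℝ) ^ 2 = ∑ x, χ u x ^ 2 + ∑ x, ∑ y, A u x y + ∑ x, ∑ y, B u x y + ∑ x, ∑ y, D u x y := by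
    intro u
    rw [T_one hF, sq, sum_mul_sum, ← sum_add_distrib, ← sum_add_distrib, ← sum_add_distrib]
    refine sum_congr rfl fun x _ => ?_
    have h1 : χ u x ^ 2 = ∑ y, if y = x then χ u x * χ u y else 0 := by
      rw [sum_ite_eq' univ x (fun y => χ u x * χ u y), if_pos (mem_univ x)]
      ring
    rw [h1, ← sum_add_distrib, ← sum_add_distrib, ← sum_add_distrib]
    refine sum_congr rfl fun y _ => ?_
    rw [hA, hB, hD]
    show (quadraticChar F ((fpol u).eval x) : ℝ) * (quadraticChar F ((fpol u).eval y) : ℝ) = _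
    have hxx : ∀ z, (quadraticChar F ((fpol u).eval z) : ℝ) = χ u z := fun z => by rw [hχ]
    rw [hxx, hxx]
    by_cases h2 : x = y
    · subst h2
      simp
    · have h2' : ¬ y = x := fun h => h2 h.symm
      by_cases h3 : (mpt u).eval y = 0
      · by_cases h4 : (mpt u).eval x = 0
        · simp [h2, h2', h3, h4]
        · simp [h2, h2', h3, h4]
      · simp [h2, h2', h3]
  have hAz : ∑ u, ∑ x, ∑ y, A u x y = 0 := by
    rw [sum_comm]
    refine sum_eq_zero fun x _ => ?_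
    rw [sum_comm]
    refine sum_eq_zero fun y _ => ?_
    by_cases hxy : x = y
    · rw [hA]
      simp [hxy]
    · have h1 := pair_zero (r := r) hF hm x y hxy (fun _ => True)
      rw [← h1]
      refine sum_congr rfl fun u _ => ?_
      rw [hA, hχ]
      simp [hxy]
  have hBz : ∑ u, ∑ x, ∑ y, B u x y = 0 := by
    rw [sum_comm]
    refine sum_eq_zero fun x _ => ?_
    rw [sum_comm]
    refine sum_eq_zero fun y _ => ?_
    by_cases hxy : x = y
    · rw [hB]
      simp [hxy]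
    · have h1 := pair_zero (r := r) hF hm y x (fun h => hxy h.symm) (fun f => f.eval y = 0)
      rw [← h1]
      refine sum_congr rfl fun u _ => ?_
      rw [hB]
      show (if x ≠ y ∧ (mpt u).eval y = 0 ∧ (mpt u).eval x ≠ 0 then χ u x * χ u y else 0) = _
      rw [hχ]
      by_cases h3 : (mpt u).eval y = 0 ∧ (mpt u).eval x ≠ 0
      · rw [if_pos ⟨hxy, h3⟩, if_pos h3]
        exact mul_comm _ _
      · rw [if_neg fun h => h3 h.2, if_neg h3]
  have hDb : ∀ u, |∑ x, ∑ y, D u x y| ≤ (r : ℝ) ^ 2 := by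
    intro u
    obtain ⟨S, hS⟩ : ∃ S : Finset F, S = (univ : Finset F).filter fun x => (mpt u).eval x = 0 := ⟨_, rfl⟩
    have hSc : (S.card : ℝ) ≤ r := by
      have := roots_card (mpt u) (mpt_monic u).ne_zero
      rw [mpt_natDegree] at this
      rw [hS]
      exact this
    have h1 : ∀ x y, |D u x y| ≤ (if x ∈ S then 1 else 0) * (if y ∈ S then 1 else 0) := by
      intro x y
      rw [hD, hS]
      show |if x ≠ y ∧ (mpt u).eval y = 0 ∧ (mpt u).eval x = 0 then χ u x * χ u y else 0| ≤ _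
      by_cases h3 : (mpt u).eval y = 0
      · by_cases h4 : (mpt u).eval x = 0
        · have h5 : |χ u x * χ u y| ≤ 1 := by
            rw [abs_mul]
            exact mul_le_one₀ (hχ1 u x) (abs_nonneg _) (hχ1 u y)
          by_cases hxy : x = y
          · simp [hxy, h3]
          · rw [abs_mul] at h5
            simp [hxy, h3, h4, h5]
        · simp [h4]
      · simp [h3]
    calc |∑ x, ∑ y, D u x y| ≤ ∑ x, ∑ y, |D u x y| :=
          (abs_sum_le_sum_abs _ _).trans (sum_le_sum fun x _ => abs_sum_le_sum_abs _ _)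
      _ ≤ ∑ x, ∑ y, (if x ∈ S then (1 : ℝ) else 0) * (if y ∈ S then 1 else 0) := sum_le_sum fun x _ => sum_le_sum fun y _ => h1 x y
      _ = (S.card : ℝ) ^ 2 := by
        rw [← sum_mul_sum, sum_boole, filter_mem_eq_inter, univ_inter, sq]
      _ ≤ (r : ℝ) ^ 2 := pow_le_pow_left₀ (Nat.cast_nonneg _) hSc 2
  have hdiag : ∀ u, |∑ x, χ u x ^ 2 - Fintype.card F| ≤ (r + m : ℕ) := by
    intro u
    have h1 : ∀ x, χ u x ^ 2 = 1 - if (fpol u).eval x = 0 then 1 else 0 := by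
      intro x
      rw [hχ]
      show ((quadraticChar F ((fpol u).eval x) : ℤ) : ℝ) ^ 2 = _
      split_ifs with h0
      · rw [h0]
        simp
      · rcases quadraticChar_dichotomy h0 with h | h <;> rw [h] <;> norm_num
    have h2 : ∑ x, χ u x ^ 2 - Fintype.card F = -(((univ : Finset F).filter fun x => (fpol u).eval x = 0).card : ℝ) := by
      rw [sum_congr rfl fun x _ => h1 x, sum_sub_distrib, sum_const, card_univ, nsmul_eq_mul, mul_one, sum_boole]
      ring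
    rw [h2, abs_neg, Nat.abs_cast]
    have := roots_card (fpol u) (fpol_monic hrm u).ne_zero
    rwa [fpol_natDegree hrm] at this
  have h1 : ∑ u : Idx r m → F, (T (fpol u) 1 : ℝ) ^ 2 - Fintype.card F * (Fintype.card F : ℝ) ^ Fintype.card (Idx r m) =
      ∑ u, ((∑ x, χ u x ^ 2 - Fintype.card F) + ∑ x, ∑ y, D u x y) := by
    rw [sum_congr rfl fun u _ => hsq u, sum_add_distrib, sum_add_distrib, sum_add_distrib, hAz, hBz, sum_add_distrib, sum_sub_distrib,
      sum_const, card_univ, Fintype.card_fun, nsmul_eq_mul]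
    push_cast
    ring
  rw [h1]
  refine (abs_sum_le_sum_abs _ _).trans ?_
  refine (sum_le_sum fun u _ => (abs_add_le _ _).trans (add_le_add (hdiag u) (hDb u))).trans (le_of_eq ?_)
  rw [sum_const, card_univ, Fintype.card_fun, nsmul_eq_mul]
  push_cast
  ring

end

section

variable {F : Type} [Field F] [Fintype F] [DecidableEq F] {r m : ℕ}

/-- the local function with the weights `w₁` and `w₂` -/
noncomputable def loc (w₁ w₂ : ℝ) (u : Idx r m → F) : ℝ :=
  -(w₁ * T (fpol u) 1 / Fintype.card F) - w₂ * T (fpol u) 2 / (Fintype.card F : ℝ) ^ 2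

lemma T_le (hF : ringChar F ≠ 2) {g : ℕ} (hrm : r + m = 2 * g + 1) (hrg : r ≤ g) (u : Idx r m → F) (j : ℕ) (hj : 1 ≤ j) :
    |(T (fpol u) j : ℝ)| ≤ 5 * (2 * g + 1) * Real.sqrt (Fintype.card F) ^ j := by
  have hmon : (fpol u).Monic := fpol_monic (by omega) u
  have hdeg : (fpol u).natDegree = 2 * g + 1 := by
    rw [fpol_natDegree (by omega : r ≤ m)]
    exact hrm
  have h4 := (T_bound hF hmon (by rw [hdeg]; omega) (odd_ns hmon hdeg) j hj).1
  rw [hdeg] at h4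
  refine h4.trans (le_of_eq ?_)
  push_cast
  ring

lemma av_def (f : (Idx r m → F) → ℝ) : av f = (∑ u, f u) / (Fintype.card F : ℝ) ^ Fintype.card (Idx r m) := by
  unfold av
  rw [Fintype.card_fun]
  push_cast
  rfl

end

/-- the local functions: bound, mean and mean square -/
theorem loc_main (g r m : ℕ) (hrm : r + m = 2 * g + 1) (hrg : r ≤ g) (hg : 1 ≤ g) : ∃ B : ℝ, 1 ≤ B ∧
    ∀ (F : Type) [Field F] [Fintype F] [DecidableEq F], ringChar F ≠ 2 → ∀ w₁ w₂ : ℝ, 0 ≤ w₁ → w₁ ≤ 1 → 0 ≤ w₂ → w₂ ≤ 1 →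
    (∀ u : Idx r m → F, |loc w₁ w₂ u| ≤ B / Real.sqrt (Fintype.card F)) ∧
    |av (fun u : Idx r m → F => loc w₁ w₂ u) + (w₁ * r + w₂) / Fintype.card F| ≤ B / Real.sqrt (Fintype.card F) ^ 3 ∧
    |av (fun u : Idx r m → F => loc w₁ w₂ u ^ 2) - w₁ ^ 2 / Fintype.card F| ≤ B / Real.sqrt (Fintype.card F) ^ 3 := by
  obtain ⟨a, ha⟩ : ∃ a : ℝ, a = 5 * (2 * g + 1) := ⟨_, rfl⟩
  have ha1 : 1 ≤ a := by
    rw [ha]
    have : (0 : ℝ) ≤ g := Nat.cast_nonneg _
    linarith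
  obtain ⟨C₁, hC₁⟩ : ∃ C₁ : ℝ, C₁ = r * (r ^ 2 + r) := ⟨_, rfl⟩
  obtain ⟨C₂, hC₂⟩ : ∃ C₂ : ℝ, C₂ = (r + m : ℕ) := ⟨_, rfl⟩
  obtain ⟨C₃, hC₃⟩ : ∃ C₃ : ℝ, C₃ = (r + m : ℕ) + (r : ℝ) ^ 2 := ⟨_, rfl⟩
  have h1 : 0 ≤ C₁ := by rw [hC₁]; positivity
  have h2 : 0 ≤ C₂ := by rw [hC₂]; positivity
  have h3 : 0 ≤ C₃ := by rw [hC₃]; positivity
  refine ⟨4 * a ^ 2 + C₁ + C₂ + C₃, by nlinarith, ?_⟩
  intro F _ _ _ hF w₁ w₂ hw₁ hw₁' hw₂ hw₂'
  obtain ⟨q, hq⟩ : ∃ q : ℝ, q = Fintype.card F := ⟨_, rfl⟩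
  obtain ⟨s, hs⟩ : ∃ s : ℝ, s = Real.sqrt q := ⟨_, rfl⟩
  have hq3 : 3 ≤ q := by rw [hq]; exact card_ge hF
  have hq0 : 0 < q := by linarith
  have hs1 : 1 ≤ s := by
    rw [hs, Real.le_sqrt (by norm_num) hq0.le]
    linarith
  have hs0 : 0 < s := by linarith
  have hsq : q = s ^ 2 := by rw [hs, Real.sq_sqrt hq0.le]
  have hT1 : ∀ u : Idx r m → F, |(T (fpol u) 1 : ℝ)| ≤ a * s := by
    intro u
    have := T_le hF hrm hrg u 1 le_rfl
    rw [← hq, ← hs, ← ha, pow_one] at this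
    exact this
  have hT2 : ∀ u : Idx r m → F, |(T (fpol u) 2 : ℝ)| ≤ a * s ^ 2 := by
    intro u
    have := T_le hF hrm hrg u 2 (by norm_num)
    rw [← hq, ← hs, ← ha] at this
    exact this
  have m1 := mom_one (F := F) (r := r) (m := m) hF (by omega)
  have m2 := mom_two (F := F) (r := r) (m := m) hF (by omega) (by omega)
  have m3 := mom_sq (F := F) (r := r) (m := m) hF (by omega) (by omega)
  obtain ⟨Q, hQ⟩ : ∃ Q : ℝ, Q = (Fintype.card F : ℝ) ^ Fintype.card (Idx r m) := ⟨_, rfl⟩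
  have hQ0 : 0 < Q := by rw [hQ, ← hq]; positivity
  rw [← hQ, ← hq, ← hC₁] at m1
  rw [← hQ, ← hq, ← hC₂] at m2
  rw [← hQ, ← hq, ← hC₃] at m3
  -- the averages
  have a1 : |av (fun u : Idx r m → F => (T (fpol u) 1 : ℝ)) - r| ≤ C₁ / q := by
    rw [av_def, ← hQ]
    have e : (∑ u : Idx r m → F, (T (fpol u) 1 : ℝ)) / Q - r = (∑ u : Idx r m → F, (T (fpol u) 1 : ℝ) - r * Q) / Q := by field_simp
    rw [e, abs_div, abs_of_pos hQ0, div_le_div_iff₀ hQ0 hq0]
    exact m1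
  have a2 : |av (fun u : Idx r m → F => (T (fpol u) 2 : ℝ)) - q| ≤ C₂ := by
    rw [av_def, ← hQ]
    have e : (∑ u : Idx r m → F, (T (fpol u) 2 : ℝ)) / Q - q = (∑ u : Idx r m → F, (T (fpol u) 2 : ℝ) - q * Q) / Q := by field_simp
    rw [e, abs_div, abs_of_pos hQ0, div_le_iff₀ hQ0]
    exact m2
  have a3 : |av (fun u : Idx r m → F => (T (fpol u) 1 : ℝ) ^ 2) - q| ≤ C₃ := by
    rw [av_def, ← hQ]
    have e : (∑ u : Idx r m → F, (T (fpol u) 1 : ℝ) ^ 2) / Q - q = (∑ u : Idx r m → F, (T (fpol u) 1 : ℝ) ^ 2 - q * Q) / Q := by field_simp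
    rw [e, abs_div, abs_of_pos hQ0, div_le_iff₀ hQ0]
    exact m3
  have hneF : Nonempty (Idx r m → F) := ⟨fun _ => 0⟩
  have hloc : ∀ u : Idx r m → F, loc w₁ w₂ u = -(w₁ / q) * T (fpol u) 1 + -(w₂ / q ^ 2) * T (fpol u) 2 := by
    intro u
    unfold loc
    rw [← hq]
    ring
  rw [← hq, ← hs]
  refine ⟨?_, ?_, ?_⟩
  · intro u
    rw [hloc u]
    refine (abs_add_le _ _).trans ?_
    rw [abs_mul, abs_mul, abs_neg, abs_neg, abs_of_nonneg (by positivity : 0 ≤ w₁ / q), abs_of_nonneg (by positivity : 0 ≤ w₂ / q ^ 2)]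
    have b1 : w₁ / q * |(T (fpol u) 1 : ℝ)| ≤ a / s := by
      calc w₁ / q * |(T (fpol u) 1 : ℝ)| ≤ 1 / q * (a * s) :=
            mul_le_mul (div_le_div_of_nonneg_right hw₁' hq0.le) (hT1 u) (abs_nonneg _) (by positivity)
        _ = a / s := by rw [hsq]; field_simp
    have b2 : w₂ / q ^ 2 * |(T (fpol u) 2 : ℝ)| ≤ a / s := by
      calc w₂ / q ^ 2 * |(T (fpol u) 2 : ℝ)| ≤ 1 / q ^ 2 * (a * s ^ 2) :=
            mul_le_mul (div_le_div_of_nonneg_right hw₂' (by positivity)) (hT2 u) (abs_nonneg _) (by positivity)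
        _ = a / s ^ 2 := by rw [hsq]; field_simp
        _ ≤ a / s := div_le_div_of_nonneg_left (by linarith) hs0 (le_self_pow₀ hs1 (by norm_num))
    have b3 : 2 * a / s ≤ (4 * a ^ 2 + C₁ + C₂ + C₃) / s := div_le_div_of_nonneg_right (by nlinarith) hs0.le
    have b4 : 2 * a / s = a / s + a / s := by ring
    linarith
  · have e : av (fun u : Idx r m → F => loc w₁ w₂ u) =
        -(w₁ / q) * av (fun u : Idx r m → F => (T (fpol u) 1 : ℝ)) + -(w₂ / q ^ 2) * av (fun u : Idx r m → F => (T (fpol u) 2 : ℝ)) := by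
      rw [← av_mul, ← av_mul, ← av_add]
      congr 1
      funext u
      exact hloc u
    rw [e]
    have e2 : -(w₁ / q) * av (fun u : Idx r m → F => (T (fpol u) 1 : ℝ)) + -(w₂ / q ^ 2) * av (fun u : Idx r m → F => (T (fpol u) 2 : ℝ)) +
        (w₁ * r + w₂) / q = -(w₁ / q) * (av (fun u : Idx r m → F => (T (fpol u) 1 : ℝ)) - r) +
        -(w₂ / q ^ 2) * (av (fun u : Idx r m → F => (T (fpol u) 2 : ℝ)) - q) := by
      field_simp
      ring
    rw [e2]
    refine (abs_add_le _ _).trans ?_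
    rw [abs_mul, abs_mul, abs_neg, abs_neg, abs_of_nonneg (by positivity : 0 ≤ w₁ / q), abs_of_nonneg (by positivity : 0 ≤ w₂ / q ^ 2)]
    have b1 : w₁ / q * |av (fun u : Idx r m → F => (T (fpol u) 1 : ℝ)) - r| ≤ C₁ / s ^ 3 := by
      calc w₁ / q * |av (fun u : Idx r m → F => (T (fpol u) 1 : ℝ)) - r| ≤ 1 / q * (C₁ / q) :=
            mul_le_mul (div_le_div_of_nonneg_right hw₁' hq0.le) a1 (abs_nonneg _) (by positivity)
        _ = C₁ / s ^ 4 := by rw [hsq]; field_simp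
        _ ≤ C₁ / s ^ 3 := div_le_div_of_nonneg_left h1 (by positivity) (pow_le_pow_right₀ hs1 (by norm_num))
    have b2 : w₂ / q ^ 2 * |av (fun u : Idx r m → F => (T (fpol u) 2 : ℝ)) - q| ≤ C₂ / s ^ 3 := by
      calc w₂ / q ^ 2 * |av (fun u : Idx r m → F => (T (fpol u) 2 : ℝ)) - q| ≤ 1 / q ^ 2 * C₂ :=
            mul_le_mul (div_le_div_of_nonneg_right hw₂' (by positivity)) a2 (abs_nonneg _) (by positivity)
        _ = C₂ / s ^ 4 := by rw [hsq]; field_simp
        _ ≤ C₂ / s ^ 3 := div_le_div_of_nonneg_left h2 (by positivity) (pow_le_pow_right₀ hs1 (by norm_num))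
    have b3 : (C₁ + C₂) / s ^ 3 ≤ (4 * a ^ 2 + C₁ + C₂ + C₃) / s ^ 3 :=
      div_le_div_of_nonneg_right (by nlinarith) (by positivity)
    have b4 : (C₁ + C₂) / s ^ 3 = C₁ / s ^ 3 + C₂ / s ^ 3 := by ring
    linarith
  · obtain ⟨R, hR⟩ : ∃ R : (Idx r m → F) → ℝ, R = fun u => loc w₁ w₂ u ^ 2 - (w₁ / q) ^ 2 * (T (fpol u) 1 : ℝ) ^ 2 := ⟨_, rfl⟩
    have hRb : ∀ u, |R u| ≤ 3 * a ^ 2 / s ^ 3 := by
      intro u
      rw [hR]
      show |loc w₁ w₂ u ^ 2 - (w₁ / q) ^ 2 * (T (fpol u) 1 : ℝ) ^ 2| ≤ _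
      rw [hloc u]
      obtain ⟨x, hx⟩ : ∃ x : ℝ, x = w₁ / q * T (fpol u) 1 := ⟨_, rfl⟩
      obtain ⟨y, hy⟩ : ∃ y : ℝ, y = w₂ / q ^ 2 * T (fpol u) 2 := ⟨_, rfl⟩
      have e : (-(w₁ / q) * T (fpol u) 1 + -(w₂ / q ^ 2) * T (fpol u) 2) ^ 2 - (w₁ / q) ^ 2 * (T (fpol u) 1 : ℝ) ^ 2 = y * (2 * x + y) := by
        rw [hx, hy]
        ring
      rw [e, abs_mul]
      have b1 : |x| ≤ a / s := by
        rw [hx, abs_mul, abs_of_nonneg (by positivity : 0 ≤ w₁ / q)]
        calc w₁ / q * |(T (fpol u) 1 : ℝ)| ≤ 1 / q * (a * s) :=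
              mul_le_mul (div_le_div_of_nonneg_right hw₁' hq0.le) (hT1 u) (abs_nonneg _) (by positivity)
          _ = a / s := by rw [hsq]; field_simp
      have b2 : |y| ≤ a / s ^ 2 := by
        rw [hy, abs_mul, abs_of_nonneg (by positivity : 0 ≤ w₂ / q ^ 2)]
        calc w₂ / q ^ 2 * |(T (fpol u) 2 : ℝ)| ≤ 1 / q ^ 2 * (a * s ^ 2) :=
              mul_le_mul (div_le_div_of_nonneg_right hw₂' (by positivity)) (hT2 u) (abs_nonneg _) (by positivity)
          _ = a / s ^ 2 := by rw [hsq]; field_simp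
      have b3 : |2 * x + y| ≤ 3 * a / s := by
        refine (abs_add_le _ _).trans ?_
        rw [abs_mul, abs_two]
        have : a / s ^ 2 ≤ a / s := div_le_div_of_nonneg_left (by linarith) hs0 (le_self_pow₀ hs1 (by norm_num))
        have e3 : 3 * a / s = 2 * (a / s) + a / s := by ring
        linarith
      calc |y| * |2 * x + y| ≤ a / s ^ 2 * (3 * a / s) := mul_le_mul b2 b3 (abs_nonneg _) (by positivity)
        _ = 3 * a ^ 2 / s ^ 3 := by field_simp
    have e : av (fun u : Idx r m → F => loc w₁ w₂ u ^ 2) = (w₁ / q) ^ 2 * av (fun u : Idx r m → F => (T (fpol u) 1 : ℝ) ^ 2) + av R := by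
      rw [← av_mul, ← av_add]
      congr 1
      funext u
      rw [hR]
      ring
    rw [e]
    have e2 : (w₁ / q) ^ 2 * av (fun u : Idx r m → F => (T (fpol u) 1 : ℝ) ^ 2) + av R - w₁ ^ 2 / q =
        (w₁ / q) ^ 2 * (av (fun u : Idx r m → F => (T (fpol u) 1 : ℝ) ^ 2) - q) + av R := by
      field_simp
      ring
    rw [e2]
    refine (abs_add_le _ _).trans ?_
    have b1 : |(w₁ / q) ^ 2 * (av (fun u : Idx r m → F => (T (fpol u) 1 : ℝ) ^ 2) - q)| ≤ C₃ / s ^ 3 := by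
      rw [abs_mul, abs_of_nonneg (by positivity : 0 ≤ (w₁ / q) ^ 2)]
      calc (w₁ / q) ^ 2 * |av (fun u : Idx r m → F => (T (fpol u) 1 : ℝ) ^ 2) - q| ≤ (1 / q) ^ 2 * C₃ :=
            mul_le_mul (pow_le_pow_left₀ (by positivity) (div_le_div_of_nonneg_right hw₁' hq0.le) 2) a3 (abs_nonneg _) (by positivity)
        _ = C₃ / s ^ 4 := by rw [hsq]; field_simp
        _ ≤ C₃ / s ^ 3 := div_le_div_of_nonneg_left h3 (by positivity) (pow_le_pow_right₀ hs1 (by norm_num))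
    have b2 : |av R| ≤ 3 * a ^ 2 / s ^ 3 := (abs_av_le R).trans ((av_mono hRb).trans (le_of_eq (av_const _)))
    have b3 : (C₃ + 3 * a ^ 2) / s ^ 3 ≤ (4 * a ^ 2 + C₁ + C₂ + C₃) / s ^ 3 :=
      div_le_div_of_nonneg_right (by nlinarith) (by positivity)
    have b4 : (C₃ + 3 * a ^ 2) / s ^ 3 = C₃ / s ^ 3 + 3 * a ^ 2 / s ^ 3 := by ring
    linarith

end Q282.FF
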