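import Pool.Agent.Q282.FF.Maj
import Pool.Agent.Q282.FF.Om
import Pool.Agent.Q282.FF.Sq
import Pool.Agent.Q282.JK.Val

/-!
# The upper bound for the leading coefficient by the first Euler factors
-/

set_option autoImplicit false
set_option linter.unusedSectionVars false

namespace Q282.FF

open Polynomial Finset
open Q282.JK (Idx fpol pts_eq fpol_map)
open Pool.Agent.H341R2.Sharp (T)

lemma re_bound {g : ℕ} {α : Fin (2 * g) → ℂ} {B : ℝ} (h : ∀ i, ‖α i‖ ≤ B) (j : ℕ) :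
    |(∑ i, α i ^ j).re| ≤ 2 * g * B ^ j := by
  refine (Complex.abs_re_le_norm _).trans ((_root_.norm_sum_le _ _).trans ?_)
  refine (sum_le_sum (g := fun _ => B ^ j) fun i _ => ?_).trans (le_of_eq ?_)
  · rw [norm_pow]
    exact pow_le_pow_left₀ (norm_nonneg _) (h i) j
  · rw [sum_const, card_univ, Fintype.card_fin, nsmul_eq_mul]
    push_cast
    ring

/-- the weight of the first powers -/
noncomputable def w1 (h d : ℕ) : ℝ := d * lam h d

/-- the weight of the squares -/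
noncomputable def w2 (h d : ℕ) : ℝ := if 2 * d < h then d * lam h (2 * d) else 0

lemma w1_nonneg {h d : ℕ} (hd : 1 ≤ d) (hdh : d < h) : 0 ≤ w1 h d := mul_nonneg (Nat.cast_nonneg _) (lam_nonneg hd hdh)

lemma w1_le {h d : ℕ} (hd : 1 ≤ d) (hdh : d < h) : w1 h d ≤ 1 := by
  have hd' : (0 : ℝ) < d := by exact_mod_cast hd
  unfold w1
  calc (d : ℝ) * lam h d ≤ d * (1 / d) := mul_le_mul_of_nonneg_left (lam_le hd hdh) hd'.le
    _ = 1 := by field_simp

lemma w1_ge {h d : ℕ} (hd : 1 ≤ d) (hdh : d < h) : 1 - 2 * d / h ≤ w1 h d := by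
  have hd' : (0 : ℝ) < d := by exact_mod_cast hd
  have h1 := mul_le_mul_of_nonneg_left (lam_ge hd hdh) hd'.le
  unfold w1
  refine le_trans (le_of_eq ?_) h1
  field_simp

lemma w2_nonneg {h d : ℕ} (hd : 1 ≤ d) : 0 ≤ w2 h d := by
  unfold w2
  split_ifs with h2
  · exact mul_nonneg (Nat.cast_nonneg _) (lam_nonneg (by omega) h2)
  · exact le_rfl

lemma w2_le {h d : ℕ} (hd : 1 ≤ d) : w2 h d ≤ 1 / 2 := by
  have hd' : (0 : ℝ) < d := by exact_mod_cast hd
  unfold w2
  split_ifs with h2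
  · calc (d : ℝ) * lam h (2 * d) ≤ d * (1 / (2 * d : ℕ)) := mul_le_mul_of_nonneg_left (lam_le (by omega) h2) hd'.le
      _ = 1 / 2 := by
        push_cast
        field_simp
  · norm_num

lemma w2_ge {h d : ℕ} (hh : 1 ≤ h) (hd : 1 ≤ d) : 1 / 2 - 2 * d / h ≤ w2 h d := by
  have hd' : (0 : ℝ) < d := by exact_mod_cast hd
  unfold w2
  split_ifs with h2
  · have h1 := mul_le_mul_of_nonneg_left (lam_ge (h := h) (m := 2 * d) (by omega) h2) hd'.le
    refine le_trans (le_of_eq ?_) h1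
    push_cast
    field_simp
  · rcases Nat.eq_zero_or_pos h with h0 | h0
    · omega
    · have hh : (0 : ℝ) < h := by exact_mod_cast h0
      have h3 : (h : ℝ) ≤ 2 * d := by exact_mod_cast (by omega : h ≤ 2 * d)
      have h4 : (1 : ℝ) ≤ 2 * d / h := by
        rw [le_div_iff₀ hh]
        linarith
      linarith

section

variable {k : Type} [Field k] [Fintype k] [DecidableEq k]

lemma finsum_eq {m : ℕ} (hm : 1 ≤ m) (F : Place k → ℂ) :
    ∑ᶠ v ∈ {v : Place k | deg v ∣ m}, F v = ∑ d ∈ m.divisors, ∑ v ∈ PL k d, F v := by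
  have h1 : {v : Place k | deg v ∣ m} = ((m.divisors.biUnion (PL k) : Finset (Place k)) : Set (Place k)) := by
    ext v
    rw [Set.mem_ofPred_eq, mem_coe, mem_biUnion]
    constructor
    · intro hv
      exact ⟨deg v, Nat.mem_divisors.2 ⟨hv, by omega⟩, mem_PL.2 rfl⟩
    · rintro ⟨d, hd, hv⟩
      rw [mem_PL.1 hv]
      exact (Nat.mem_divisors.1 hd).1
  rw [h1, finsum_mem_coe_finset, sum_biUnion]
  intro a _ b _ hab
  rw [Function.onFun, disjoint_left]
  intro v hv hv'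
  rw [mem_PL] at hv hv'
  exact hab (hv.symm.trans hv')

lemma sqrt_res (v : Place k) : Real.sqrt (Nat.card (Res v)) = Real.sqrt (Nat.card k) ^ deg v := by
  have hq : (0 : ℝ) < Nat.card k := by exact_mod_cast Nat.card_pos
  rw [res_card, Real.sqrt_eq_iff_mul_self_eq (by positivity) (by positivity), ← mul_pow, Real.mul_self_sqrt hq.le]
  push_cast
  rfl

/-- the three parts of a sum over the divisors -/
lemma split {m : ℕ} (hm : 1 ≤ m) (G : ℕ → ℝ) :
    ∑ d ∈ m.divisors, G d = G m + ∑ d ∈ m.divisors, (if 2 * d = m then G d else 0) + ∑ d ∈ m.divisors, (if 3 * d ≤ m then G d else 0) := by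
  have h1 : G m = ∑ d ∈ m.divisors, if d = m then G d else 0 := by
    rw [sum_ite_eq' m.divisors m G, if_pos (Nat.mem_divisors_self m (by omega))]
  rw [h1, ← sum_add_distrib, ← sum_add_distrib]
  refine sum_congr rfl fun d hd => ?_
  obtain ⟨c, hc⟩ := (Nat.mem_divisors.1 hd).1
  rcases c with _ | _ | _ | c
  · omega
  · have hdm : d = m := by omega
    rw [if_pos hdm, if_neg (by omega), if_neg (by omega)]
    ring
  · rw [if_neg (by omega), if_pos (by omega), if_neg (by omega)]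
    ring
  · have h3 : 3 * d ≤ m := by
      rw [hc]
      nlinarith
    rw [if_neg (by omega), if_neg (by omega), if_pos h3]
    ring

lemma geo2 (h : ℕ) : ∑ m ∈ Ico 1 h, (7 / 8 : ℝ) ^ m ≤ 7 := by
  have h1 : ∀ n : ℕ, ∑ d ∈ Ico 1 (n + 1), (7 / 8 : ℝ) ^ d = 7 - 7 * (7 / 8) ^ n := by
    intro n
    induction n with
    | zero => simp
    | succ n ih =>
      rw [sum_Ico_succ_top (by omega), ih]
      ring
  rcases h with _ | n
  · simp
  · rw [h1]
    have : (0 : ℝ) ≤ (7 / 8) ^ n := by positivity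
    linarith

lemma geo_nat (h2 : (2 : k) ≠ 0) (n : ℕ) : ∑ d ∈ Icc 1 n, (Nat.card k : ℝ) ^ d ≤ 2 * (Nat.card k : ℝ) ^ n := by
  have hq : (3 : ℝ) ≤ Nat.card k := by exact_mod_cast three_le h2
  induction n with
  | zero => simp
  | succ n ih =>
    rw [sum_Icc_succ_top (by omega), pow_succ]
    have h3 : 0 < (Nat.card k : ℝ) ^ n := by positivity
    nlinarith

/-- the higher powers -/
lemma rest_le (h2 : (2 : k) ≠ 0) (g : ℕ) (S : Place k → ℕ → ℝ)
    (hS : ∀ v j, |S v j| ≤ 2 * g * Real.sqrt (Nat.card (Res v)) ^ j) {m : ℕ} (hm : 1 ≤ m) :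
    (∑ d ∈ m.divisors, (if 3 * d ≤ m then ∑ v ∈ PL k d, (d : ℝ) * S v (m / d) else 0)) / (Nat.card k : ℝ) ^ m ≤
      4 * g * (7 / 8) ^ m := by
  obtain ⟨q, hq⟩ : ∃ q : ℝ, q = Nat.card k := ⟨_, rfl⟩
  obtain ⟨s, hs⟩ : ∃ s : ℝ, s = Real.sqrt q := ⟨_, rfl⟩
  have hq3 : (3 : ℝ) ≤ q := by
    rw [hq]
    exact_mod_cast three_le h2
  have hs32 : (3 / 2 : ℝ) ≤ s := by
    rw [hs, hq]
    exact sqrt_ge h2
  have hsq : q = s ^ 2 := by rw [hs, Real.sq_sqrt (by linarith)]
  rw [← hq]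
  have h1 : ∑ d ∈ m.divisors, (if 3 * d ≤ m then ∑ v ∈ PL k d, (d : ℝ) * S v (m / d) else 0) ≤
      ∑ d ∈ Icc 1 (m / 3), q ^ d * (2 * g * s ^ m) := by
    rw [← sum_filter]
    refine (sum_le_sum (g := fun d => q ^ d * (2 * g * s ^ m)) fun d hd => ?_).trans ?_
    · rw [mem_filter] at hd
      obtain ⟨hd1, hd2⟩ := hd
      have hdm := (Nat.mem_divisors.1 hd1).1
      have h3 : ∀ v ∈ PL k d, (d : ℝ) * S v (m / d) ≤ d * (2 * g * s ^ m) := by
        intro v hv
        refine mul_le_mul_of_nonneg_left ?_ (Nat.cast_nonneg _)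
        refine (le_abs_self _).trans ((hS v (m / d)).trans (le_of_eq ?_))
        rw [sqrt_res, mem_PL.1 hv, ← pow_mul, Nat.mul_div_cancel' hdm, ← hq, ← hs]
      refine (sum_le_sum h3).trans ?_
      rw [sum_const, nsmul_eq_mul, ← mul_assoc]
      refine mul_le_mul_of_nonneg_right ?_ (by positivity)
      rw [hq]
      exact card_le d
    · refine sum_le_sum_of_subset_of_nonneg ?_ fun _ _ _ => by positivity
      intro d hd
      rw [mem_filter] at hd
      have := Nat.pos_of_mem_divisors hd.1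
      rw [mem_Icc]
      omega
  rw [div_le_iff₀ (by positivity)]
  refine h1.trans ?_
  rw [← sum_mul]
  have h3 : ∑ d ∈ Icc 1 (m / 3), q ^ d ≤ 2 * q ^ (m / 3) := by
    rw [hq]
    exact geo_nat h2 _
  have h4 : q ^ (m / 3) ≤ (7 / 8) ^ m * s ^ m := by
    have h5 : s ^ m = s ^ (m - 2 * (m / 3)) * s ^ (2 * (m / 3)) := by
      rw [← pow_add]
      congr 1
      omega
    rw [h5, hsq, ← pow_mul]
    have h6 : 1 ≤ (7 / 8 : ℝ) ^ m * s ^ (m - 2 * (m / 3)) := by
      have h7 : (1 : ℝ) ≤ (7 / 8) ^ 3 * (3 / 2) := by norm_num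
      have h8 : (1 : ℝ) ≤ ((7 / 8) ^ 3 * (3 / 2)) ^ (m - 2 * (m / 3)) := one_le_pow₀ h7
      rw [mul_pow, ← pow_mul] at h8
      have h9 : (7 / 8 : ℝ) ^ (3 * (m - 2 * (m / 3))) ≤ (7 / 8) ^ m :=
        pow_le_pow_of_le_one (by norm_num) (by norm_num) (by omega)
      have h10 : (3 / 2 : ℝ) ^ (m - 2 * (m / 3)) ≤ s ^ (m - 2 * (m / 3)) := pow_le_pow_left₀ (by norm_num) hs32 _
      exact h8.trans (mul_le_mul h9 h10 (by positivity) (by positivity))
    calc s ^ (2 * (m / 3)) = 1 * s ^ (2 * (m / 3)) := (one_mul _).symm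
      _ ≤ ((7 / 8 : ℝ) ^ m * s ^ (m - 2 * (m / 3))) * s ^ (2 * (m / 3)) := mul_le_mul_of_nonneg_right h6 (by positivity)
      _ = _ := by ring
  calc (∑ d ∈ Icc 1 (m / 3), q ^ d) * (2 * g * s ^ m) ≤ (2 * ((7 / 8) ^ m * s ^ m)) * (2 * g * s ^ m) :=
        mul_le_mul_of_nonneg_right (h3.trans (mul_le_mul_of_nonneg_left h4 (by norm_num))) (by positivity)
    _ = 4 * g * (7 / 8) ^ m * q ^ m := by
      rw [hsq, ← pow_mul, mul_comm 2 m, pow_mul]
      ring

/-- the explicit formula with the weights -/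
lemma main_sum (h2 : (2 : k) ≠ 0) (g h : ℕ) (S : Place k → ℕ → ℝ)
    (hS : ∀ v j, |S v j| ≤ 2 * g * Real.sqrt (Nat.card (Res v)) ^ j) (Γ : ℕ → ℝ)
    (hΓ : ∀ j, |Γ j| ≤ 2 * g * Real.sqrt (Nat.card k) ^ j) :
    ∑ m ∈ Ico 1 h, lam h m * ((Γ m + ∑ d ∈ m.divisors, ∑ v ∈ PL k d, (d : ℝ) * S v (m / d)) / (Nat.card k : ℝ) ^ m) ≤
      56 * g + ∑ v ∈ PB k h, (w1 h (deg v) * S v 1 / Nat.card (Res v) + w2 h (deg v) * S v 2 / (Nat.card (Res v) : ℝ) ^ 2) := by
  obtain ⟨q, hq⟩ : ∃ q : ℝ, q = Nat.card k := ⟨_, rfl⟩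
  have hq3 : (3 : ℝ) ≤ q := by
    rw [hq]
    exact_mod_cast three_le h2
  rw [← hq] at hΓ ⊢
  have e1 : ∀ m ∈ Ico 1 h, lam h m * ((Γ m + ∑ d ∈ m.divisors, ∑ v ∈ PL k d, (d : ℝ) * S v (m / d)) / q ^ m) ≤
      4 * g * (7 / 8) ^ m + lam h m * ((∑ v ∈ PL k m, (m : ℝ) * S v 1) / q ^ m) +
        ∑ d ∈ Ico 1 h, (if 2 * d = m then lam h m * ((∑ v ∈ PL k d, (d : ℝ) * S v 2) / q ^ m) else 0) + 4 * g * (7 / 8) ^ m := by
    intro m hm
    rw [mem_Ico] at hm
    have hl0 := lam_nonneg hm.1 hm.2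
    have hl1 : lam h m ≤ 1 := by
      refine (lam_le hm.1 hm.2).trans ?_
      rw [div_le_one (by exact_mod_cast hm.1)]
      exact_mod_cast hm.1
    have hqm : 0 < q ^ m := by positivity
    rw [split hm.1 fun d => ∑ v ∈ PL k d, (d : ℝ) * S v (m / d), Nat.div_self hm.1]
    have t1 : lam h m * (Γ m / q ^ m) ≤ 4 * g * (7 / 8) ^ m := by
      have h3 : Γ m / q ^ m ≤ 2 * g * (2 / 3) ^ m := by
        rw [div_le_iff₀ hqm]
        refine (le_abs_self _).trans ((hΓ m).trans ?_)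
        have h4 : Real.sqrt q ^ m ≤ (2 / 3) ^ m * q ^ m := by
          rw [← mul_pow]
          refine pow_le_pow_left₀ (Real.sqrt_nonneg _) ?_ m
          have h5 : (3 / 2 : ℝ) ≤ Real.sqrt q := by
            rw [hq]
            exact sqrt_ge h2
          have h6 : q = Real.sqrt q * Real.sqrt q := (Real.mul_self_sqrt (by linarith)).symm
          nlinarith
        calc 2 * g * Real.sqrt q ^ m ≤ 2 * g * ((2 / 3) ^ m * q ^ m) := mul_le_mul_of_nonneg_left h4 (by positivity)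
          _ = _ := by ring
      have h7 : (2 / 3 : ℝ) ^ m ≤ (7 / 8) ^ m := pow_le_pow_left₀ (by norm_num) (by norm_num) m
      have h8 : 2 * (g : ℝ) * (2 / 3) ^ m ≤ 4 * g * (7 / 8) ^ m := by
        have hg0 : (0 : ℝ) ≤ g := Nat.cast_nonneg _
        have : 0 ≤ (7 / 8 : ℝ) ^ m := by positivity
        calc 2 * (g : ℝ) * (2 / 3) ^ m ≤ 2 * g * (7 / 8) ^ m := mul_le_mul_of_nonneg_left h7 (by positivity)
          _ ≤ 4 * g * (7 / 8) ^ m := by nlinarith [mul_nonneg hg0 this]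
      calc lam h m * (Γ m / q ^ m) ≤ lam h m * (4 * g * (7 / 8) ^ m) := mul_le_mul_of_nonneg_left (h3.trans h8) hl0
        _ ≤ 1 * (4 * g * (7 / 8) ^ m) := mul_le_mul_of_nonneg_right hl1 (by positivity)
        _ = _ := one_mul _
    have t2 : lam h m * ((∑ d ∈ m.divisors, (if 3 * d ≤ m then ∑ v ∈ PL k d, (d : ℝ) * S v (m / d) else 0)) / q ^ m) ≤ 4 * g * (7 / 8) ^ m := by
      have h3 := rest_le h2 g S hS hm.1
      rw [← hq] at h3
      calc _ ≤ lam h m * (4 * g * (7 / 8) ^ m) := mul_le_mul_of_nonneg_left h3 hl0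
        _ ≤ 1 * (4 * g * (7 / 8) ^ m) := mul_le_mul_of_nonneg_right hl1 (by positivity)
        _ = _ := one_mul _
    have t3 : lam h m * ((∑ d ∈ m.divisors, (if 2 * d = m then ∑ v ∈ PL k d, (d : ℝ) * S v (m / d) else 0)) / q ^ m) =
        ∑ d ∈ Ico 1 h, (if 2 * d = m then lam h m * ((∑ v ∈ PL k d, (d : ℝ) * S v 2) / q ^ m) else 0) := by
      rw [sum_div, mul_sum]
      have h3 : ∀ d ∈ m.divisors, lam h m * ((if 2 * d = m then ∑ v ∈ PL k d, (d : ℝ) * S v (m / d) else 0) / q ^ m) =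
          if 2 * d = m then lam h m * ((∑ v ∈ PL k d, (d : ℝ) * S v 2) / q ^ m) else 0 := by
        intro d hd
        split_ifs with h4
        · have h5 : m / d = 2 := by
            rw [← h4]
            exact Nat.mul_div_cancel _ (Nat.pos_of_mem_divisors hd)
          rw [h5]
        · rw [zero_div, mul_zero]
      rw [sum_congr rfl h3]
      refine sum_subset ?_ ?_
      · intro d hd
        have h4 := Nat.pos_of_mem_divisors hd
        have h5 := Nat.divisor_le hd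
        rw [mem_Ico]
        omega
      · intro d hd hd'
        rw [if_neg]
        intro h4
        exact hd' (Nat.mem_divisors.2 ⟨⟨2, by omega⟩, by omega⟩)
    have e : lam h m * ((Γ m + (∑ v ∈ PL k m, (m : ℝ) * S v 1 +
        ∑ d ∈ m.divisors, (if 2 * d = m then ∑ v ∈ PL k d, (d : ℝ) * S v (m / d) else 0) +
        ∑ d ∈ m.divisors, (if 3 * d ≤ m then ∑ v ∈ PL k d, (d : ℝ) * S v (m / d) else 0))) / q ^ m) =
        lam h m * (Γ m / q ^ m) + lam h m * ((∑ v ∈ PL k m, (m : ℝ) * S v 1) / q ^ m) +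
        lam h m * ((∑ d ∈ m.divisors, (if 2 * d = m then ∑ v ∈ PL k d, (d : ℝ) * S v (m / d) else 0)) / q ^ m) +
        lam h m * ((∑ d ∈ m.divisors, (if 3 * d ≤ m then ∑ v ∈ PL k d, (d : ℝ) * S v (m / d) else 0)) / q ^ m) := by
      ring
    rw [e, t3]
    linarith
  refine (sum_le_sum e1).trans ?_
  rw [sum_add_distrib, sum_add_distrib, sum_add_distrib, ← mul_sum]
  have s1 : ∑ m ∈ Ico 1 h, lam h m * ((∑ v ∈ PL k m, (m : ℝ) * S v 1) / q ^ m) = ∑ v ∈ PB k h, w1 h (deg v) * S v 1 / Nat.card (Res v) := by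
    rw [sum_PB]
    refine sum_congr rfl fun m _ => ?_
    rw [sum_div, mul_sum]
    refine sum_congr rfl fun v hv => ?_
    rw [res_card, mem_PL.1 hv, hq]
    unfold w1
    push_cast
    ring
  have s2 : ∑ m ∈ Ico 1 h, ∑ d ∈ Ico 1 h, (if 2 * d = m then lam h m * ((∑ v ∈ PL k d, (d : ℝ) * S v 2) / q ^ m) else 0) =
      ∑ v ∈ PB k h, w2 h (deg v) * S v 2 / (Nat.card (Res v) : ℝ) ^ 2 := by
    rw [sum_comm, sum_PB]
    refine sum_congr rfl fun d hd => ?_
    rw [mem_Ico] at hd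
    rw [sum_ite_eq (Ico 1 h) (2 * d) fun m => lam h m * ((∑ v ∈ PL k d, (d : ℝ) * S v 2) / q ^ m)]
    by_cases h3 : 2 * d < h
    · rw [if_pos (mem_Ico.2 ⟨by omega, h3⟩), sum_div, mul_sum]
      refine sum_congr rfl fun v hv => ?_
      rw [res_card, mem_PL.1 hv, hq]
      unfold w2
      rw [if_pos h3, pow_mul']
      push_cast
      ring
    · rw [if_neg fun h4 => h3 (mem_Ico.1 h4).2]
      symm
      refine sum_eq_zero fun v hv => ?_
      rw [mem_PL.1 hv]
      unfold w2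
      rw [if_neg h3]
      ring
  rw [s1, s2, sum_add_distrib]
  have h3 := geo2 h
  have hg0 : (0 : ℝ) ≤ g := Nat.cast_nonneg _
  have h4 : 4 * (g : ℝ) * ∑ m ∈ Ico 1 h, (7 / 8 : ℝ) ^ m ≤ 4 * g * 7 := mul_le_mul_of_nonneg_left h3 (by positivity)
  linarith

open Classical in
/-- the indicator function of the singular members -/
noncomputable def bd {F : Type} [Field F] {r m : ℕ} (u : Idx r m → F) : ℝ := if Squarefree (fpol u) then 0 else 1

lemma term_one {x S Q s c : ℝ} (hx : 0 ≤ x) (hx1 : x ≤ 1) (_ : 0 ≤ c) (hs : 1 ≤ s) (hQ : Q = s ^ 2) (hS : |S| ≤ c * s) :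
    |x * S / Q| ≤ c / s := by
  have hs0 : 0 < s := by linarith
  rw [abs_div, abs_mul, abs_of_nonneg hx, hQ, abs_of_pos (by positivity : 0 < s ^ 2), div_le_div_iff₀ (by positivity) hs0]
  have h1 : x * |S| ≤ 1 * (c * s) := mul_le_mul hx1 hS (abs_nonneg _) zero_le_one
  calc x * |S| * s ≤ 1 * (c * s) * s := mul_le_mul_of_nonneg_right h1 hs0.le
    _ = c * s ^ 2 := by ring

lemma term_two {x S Q s c : ℝ} (hx : 0 ≤ x) (hx1 : x ≤ 1) (hc : 0 ≤ c) (hs : 1 ≤ s) (hQ : Q = s ^ 2) (hS : |S| ≤ c * s ^ 2) :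
    |x * S / Q ^ 2| ≤ c / s := by
  have hs0 : 0 < s := by linarith
  rw [abs_div, abs_mul, abs_of_nonneg hx, hQ, abs_of_pos (by positivity : 0 < (s ^ 2) ^ 2), div_le_div_iff₀ (by positivity) hs0]
  have h1 : x * |S| ≤ 1 * (c * s ^ 2) := mul_le_mul hx1 hS (abs_nonneg _) zero_le_one
  calc x * |S| * s ≤ 1 * (c * s ^ 2) * s := mul_le_mul_of_nonneg_right h1 hs0.le
    _ = c * s ^ 3 := by ring
    _ ≤ c * s ^ 4 := mul_le_mul_of_nonneg_left (pow_le_pow_right₀ hs (by norm_num)) hc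
    _ = c * (s ^ 2) ^ 2 := by ring

lemma harm {h : ℕ} : ∑ m ∈ Ico 1 h, lam h m ≤ 1 + Real.log h := by
  refine (sum_le_sum (g := fun m : ℕ => 1 / (m : ℝ)) fun m hm => ?_).trans ?_
  · rw [mem_Ico] at hm
    exact lam_le hm.1 hm.2
  · have h1 : ∑ m ∈ Ico 1 h, 1 / (m : ℝ) ≤ ∑ m ∈ Icc 1 h, 1 / (m : ℝ) := by
      refine sum_le_sum_of_subset_of_nonneg ?_ fun _ _ _ => by positivity
      intro m hm
      rw [mem_Ico] at hm
      rw [mem_Icc]
      omega
    refine h1.trans ?_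
    have h2 := harmonic_le_one_add_log h
    rw [harmonic_eq_sum_Icc] at h2
    push_cast at h2
    refine le_trans (le_of_eq ?_) h2
    exact sum_congr rfl fun m _ => one_div _

lemma log_leading {N : ℕ} (β : Fin N → ℂ) :
    Real.log (leading β) = ∑ i ∈ univ.filter (fun i => β i ≠ 1), Real.log ‖1 - β i‖ := by
  classical
  unfold leading
  rw [Real.log_prod]
  intro i hi
  rw [norm_ne_zero_iff]
  rw [mem_filter] at hi
  exact sub_ne_zero.2 fun h => hi.2 h.symm

/-- the upper bound for the leading coefficient -/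
theorem upper (h2 : (2 : k) ≠ 0) (g : ℕ) {r m n : ℕ} (hrm : r + m = 2 * g + 1) (hrg : r ≤ g) (t : Par k r m n) {N : ℕ}
    (β : Fin N → ℂ) (hβ : IsSpectrum g (curve t) β) {h : ℕ} (hh : 1 ≤ h) :
    Real.log (leading β) ≤ N / h + order β * (1 + Real.log h) + 56 * g +
      ∑ v ∈ PB k h, (loc (w1 h (deg v)) (w2 h (deg v)) (rt v t) +
        bd (rt v t) * ((4 * g + 10 * (2 * g + 1)) / Real.sqrt (Nat.card (Res v)))) := by
  classical
  obtain ⟨hβ1, α, γ, hα, hγ, hexp⟩ := hβ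
  have hh' : (1 : ℝ) ≤ h := by exact_mod_cast hh
  obtain ⟨q, hq⟩ : ∃ q : ℝ, q = Nat.card k := ⟨_, rfl⟩
  have hq3 : (3 : ℝ) ≤ q := by
    rw [hq]
    exact_mod_cast three_le h2
  obtain ⟨S, hS⟩ : ∃ S : Place k → ℕ → ℝ, S = fun v j => (∑ i, α v i ^ j).re := ⟨_, rfl⟩
  obtain ⟨Γ, hΓ⟩ : ∃ Γ : ℕ → ℝ, Γ = fun j => (∑ i, γ i ^ j).re := ⟨_, rfl⟩
  have hSb : ∀ v j, |S v j| ≤ 2 * g * Real.sqrt (Nat.card (Res v)) ^ j := fun v j => by
    rw [hS]
    exact re_bound (hα v).1 j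
  have hΓb : ∀ j, |Γ j| ≤ 2 * g * Real.sqrt (Nat.card k) ^ j := fun j => by
    rw [hΓ]
    exact re_bound hγ j
  -- the power sums
  have hpow : ∀ m : ℕ, 1 ≤ m → -(∑ i, (β i ^ m).re) =
      (Γ m + ∑ d ∈ m.divisors, ∑ v ∈ PL k d, (d : ℝ) * S v (m / d)) / (Nat.card k : ℝ) ^ m := by
    intro m hm
    have h3 := congrArg Complex.re (hexp m hm)
    rw [finsum_eq hm, Complex.neg_re, Complex.add_re, ← Nat.cast_pow, ← Complex.ofReal_natCast, Complex.re_ofReal_mul] at h3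
    have h4 : (∑ d ∈ m.divisors, ∑ v ∈ PL k d, (deg v : ℂ) * ∑ i, α v i ^ (m / deg v)).re =
        ∑ d ∈ m.divisors, ∑ v ∈ PL k d, (d : ℝ) * S v (m / d) := by
      rw [Complex.re_sum]
      refine sum_congr rfl fun d _ => ?_
      rw [Complex.re_sum]
      refine sum_congr rfl fun v hv => ?_
      rw [mem_PL.1 hv, ← Complex.ofReal_natCast, Complex.re_ofReal_mul, hS]
    rw [h4] at h3
    have h5 : (∑ i, γ i ^ m).re = Γ m := by rw [hΓ]
    rw [h5, Complex.re_sum] at h3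
    rw [← h3]
    have hq0 : ((Nat.card k : ℝ)) ^ m ≠ 0 := by
      rw [← hq]
      positivity
    push_cast
    field_simp
  -- the majorant
  have h3 : Real.log (leading β) ≤ ∑ i ∈ univ.filter (fun i => β i ≠ 1), (1 / (h : ℝ) - ∑ m ∈ Ico 1 h, lam h m * (β i ^ m).re) := by
    rw [log_leading]
    refine sum_le_sum fun i hi => ?_
    exact majorant (hβ1 i) (mem_filter.1 hi).2 hh
  have h4 : ∑ i ∈ univ.filter (fun i => β i ≠ 1), (1 / (h : ℝ) - ∑ m ∈ Ico 1 h, lam h m * (β i ^ m).re) ≤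
      N / h + ∑ m ∈ Ico 1 h, lam h m * (order β - ∑ i, (β i ^ m).re) := by
    rw [sum_sub_distrib, sum_const, nsmul_eq_mul, sum_comm]
    have h5 : ((univ.filter fun i => β i ≠ 1).card : ℝ) * (1 / h) ≤ N / h := by
      rw [mul_one_div]
      refine div_le_div_of_nonneg_right ?_ (by linarith)
      have : (univ.filter fun i => β i ≠ 1).card ≤ N := by
        refine (card_filter_le _ _).trans ?_
        rw [card_univ, Fintype.card_fin]
      exact_mod_cast this
    have h6 : ∀ m ∈ Ico 1 h, ∑ i ∈ univ.filter (fun i => β i ≠ 1), lam h m * (β i ^ m).re = -(lam h m * (order β - ∑ i, (β i ^ m).re)) := by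
      intro m _
      rw [← mul_sum]
      have h7 : ∑ i, (β i ^ m).re = ∑ i ∈ univ.filter (fun i => β i = 1), (β i ^ m).re + ∑ i ∈ univ.filter (fun i => β i ≠ 1), (β i ^ m).re :=
        (sum_filter_add_sum_filter_not univ (fun i => β i = 1) fun i => (β i ^ m).re).symm
      have h8 : ∑ i ∈ univ.filter (fun i => β i = 1), (β i ^ m).re = order β := by
        unfold order
        rw [sum_congr rfl (g := fun _ => (1 : ℝ)) fun i hi => by rw [(mem_filter.1 hi).2, one_pow, Complex.one_re]]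
        rw [sum_const, nsmul_eq_mul, mul_one]
      rw [h7, h8]
      ring
    rw [sum_congr rfl h6, sum_neg_distrib]
    linarith
  have h5 : ∑ m ∈ Ico 1 h, lam h m * (order β - ∑ i, (β i ^ m).re) = order β * ∑ m ∈ Ico 1 h, lam h m +
      ∑ m ∈ Ico 1 h, lam h m * ((Γ m + ∑ d ∈ m.divisors, ∑ v ∈ PL k d, (d : ℝ) * S v (m / d)) / (Nat.card k : ℝ) ^ m) := by
    rw [mul_sum, ← sum_add_distrib]
    refine sum_congr rfl fun m hm => ?_
    rw [← hpow m (mem_Ico.1 hm).1]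
    ring
  have h6 := main_sum h2 g h S hSb Γ hΓb
  have h7 : (order β : ℝ) * ∑ m ∈ Ico 1 h, lam h m ≤ order β * (1 + Real.log h) := mul_le_mul_of_nonneg_left harm (Nat.cast_nonneg _)
  have h8 : ∑ v ∈ PB k h, (w1 h (deg v) * S v 1 / Nat.card (Res v) + w2 h (deg v) * S v 2 / (Nat.card (Res v) : ℝ) ^ 2) ≤
      ∑ v ∈ PB k h, (loc (w1 h (deg v)) (w2 h (deg v)) (rt v t) +
        bd (rt v t) * ((4 * g + 10 * (2 * g + 1)) / Real.sqrt (Nat.card (Res v)))) := by
    refine sum_le_sum fun v hv => ?_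
    rw [mem_PB] at hv
    have hv1 := deg_pos v
    have hw1 := w1_nonneg hv1 hv
    have hw1' := w1_le hv1 hv
    have hw2 := w2_nonneg (h := h) hv1
    have hw2' : w2 h (deg v) ≤ 1 := (w2_le hv1).trans (by norm_num)
    obtain ⟨x, hx⟩ : ∃ x : ℝ, x = w1 h (deg v) := ⟨_, rfl⟩
    obtain ⟨y, hy⟩ : ∃ y : ℝ, y = w2 h (deg v) := ⟨_, rfl⟩
    rw [← hx] at hw1 hw1' ⊢
    rw [← hy] at hw2 hw2' ⊢
    have hchar := ring_char h2 v
    have hcard : (Nat.card (Res v) : ℝ) = Fintype.card (Res v) := by rw [Nat.card_eq_fintype_card]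
    have hmap : (curve t).map (red v) = fpol (rt v t) := fpol_map (red v) _
    obtain ⟨Q, hQ⟩ : ∃ Q : ℝ, Q = (Nat.card (Res v) : ℝ) := ⟨_, rfl⟩
    obtain ⟨s, hs⟩ : ∃ s : ℝ, s = Real.sqrt Q := ⟨_, rfl⟩
    have hQ1 : 1 ≤ Q := by
      rw [hQ]
      exact_mod_cast Nat.card_pos
    have hs1 : 1 ≤ s := by
      rw [hs, Real.le_sqrt (by norm_num) (by linarith)]
      linarith
    have hs0 : 0 < s := by linarith
    have hsq : Q = s ^ 2 := by rw [hs, Real.sq_sqrt (by linarith)]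
    by_cases hgood : Squarefree (fpol (rt v t))
    · have hb : bd (rt v t) = 0 := by
        unfold bd
        rw [if_pos hgood]
      rw [hb, zero_mul, add_zero]
      have hG : Good (curve t) v := by
        unfold Good
        rw [hmap]
        exact hgood
      have hT : ∀ j : ℕ, 1 ≤ j → S v j = -(T (fpol (rt v t)) j : ℝ) := by
        intro j hj
        have h9 := congrArg Complex.re ((hα v).2 hG j hj)
        rw [Complex.sub_re, ← Nat.cast_pow, Complex.natCast_re, Complex.natCast_re] at h9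
        rw [← pts_eq hchar (fpol (rt v t)) j hj]
        have h10 : (∑ i, α v i ^ j).re = S v j := by rw [hS]
        rw [← h10, h9]
        unfold points
        rw [hmap]
        simp only [Nat.card_eq_fintype_card (α := Res v)]
        push_cast
        ring
      rw [hT 1 le_rfl, hT 2 (by norm_num)]
      unfold loc
      rw [hcard]
      refine le_of_eq ?_
      ring
    · have hb : bd (rt v t) = 1 := by
        unfold bd
        rw [if_neg hgood]
      rw [hb, one_mul, ← hQ]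
      have h9 : |S v 1| ≤ 2 * g * s := by
        have := hSb v 1
        rwa [pow_one, ← hQ, ← hs] at this
      have h10 : |S v 2| ≤ 2 * g * s ^ 2 := by
        have := hSb v 2
        rwa [← hQ, ← hs] at this
      have h11 : |(T (fpol (rt v t)) 1 : ℝ)| ≤ 5 * (2 * g + 1) * s := by
        have := T_le hchar hrm hrg (rt v t) 1 le_rfl
        rwa [pow_one, ← hcard, ← hQ, ← hs] at this
      have h12 : |(T (fpol (rt v t)) 2 : ℝ)| ≤ 5 * (2 * g + 1) * s ^ 2 := by
        have := T_le hchar hrm hrg (rt v t) 2 (by norm_num)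
        rwa [← hcard, ← hQ, ← hs] at this
      unfold loc
      rw [← hcard, ← hQ]
      have hg0 : (0 : ℝ) ≤ g := Nat.cast_nonneg _
      have b1 := (abs_le.1 (term_one hw1 hw1' (by positivity) hs1 hsq h9)).2
      have b2 := (abs_le.1 (term_two hw2 hw2' (by positivity) hs1 hsq h10)).2
      have b3 := (abs_le.1 (term_one hw1 hw1' (by positivity) hs1 hsq h11)).2
      have b4 := (abs_le.1 (term_two hw2 hw2' (by positivity) hs1 hsq h12)).2
      rw [← hs]
      have e : (4 * (g : ℝ) + 10 * (2 * g + 1)) / s = 2 * g / s + 2 * g / s + 5 * (2 * g + 1) / s + 5 * (2 * g + 1) / s := by ring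
      rw [e]
      linarith
  linarith

end

end Q282.FF
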