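import Pool.Agent.Q282.FF.Clt

/-!
# The proportion of the parameters with the upper bound
-/

set_option autoImplicit false
set_option linter.unusedSectionVars false

namespace Q282.FF

open Polynomial Finset Filter MeasureTheory ProbabilityTheory
open Q282.JK (Idx fpol)
open Q282.CL
open scoped Topology

/-- the distribution function of the standard normal law -/
noncomputable def Phi (x : ℝ) : ℝ := (gaussianReal 0 1 (Set.Iic x)).toReal

/-- the standard normal law -/
noncomputable def nu1 : ProbabilityMeasure ℝ := ⟨gaussianReal 0 1, inferInstance⟩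

lemma chr_nu1 (u : ℝ) : charFun (nu1 : Measure ℝ) u = Complex.exp ((-(u ^ 2 / 2) : ℝ) : ℂ) := by
  show charFun (gaussianReal 0 1) u = _
  rw [charFun_gaussianReal]
  congr 1
  push_cast
  ring

lemma frontier_nu1 (x : ℝ) : (nu1 : Measure ℝ) (frontier (Set.Iic x)) = 0 := by
  rw [frontier_Iic]
  show gaussianReal 0 1 {x} = 0
  have := nullSingletonClass_gaussianReal (μ := 0) (v := 1) one_ne_zero
  exact measure_singleton x

open Classical in
theorem clt (g r m : ℕ) (hrm : r + m = 2 * g + 1) (hrg : r ≤ g) (hg : 1 ≤ g) (κ : ℝ) (hκ : 0 ≤ κ) (x ε : ℝ)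
    (hε : 0 < ε) : ∃ n₀ : ℕ, ∀ (k : Type) [Field k] [Fintype k] [DecidableEq k], (2 : k) ≠ 0 → ∀ n ≥ n₀,
      |((univ.filter fun t : Par k r m n => Zn g κ t ≤ x).card : ℝ) / Fintype.card (Par k r m n) - Phi x| ≤ ε := by
  have hne : ∀ (k : Type) [Field k] (n : ℕ), Nonempty (Par k r m n) := fun k _ n => ⟨fun _ => 0⟩
  obtain ⟨n₀, hn₀⟩ := levy (E := ℝ)
    (β := {p : ℕ × ProbabilityMeasure ℝ // ∃ (k : Type) (_ : Field k) (_ : Fintype k) (_ : DecidableEq k), (2 : k) ≠ 0 ∧
      p.2 = lw (fun t : Par k r m p.1 => Zn g κ t)})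
    (fun p => p.1.1) (fun p => p.1.2) nu1 (by
    intro u δ hδ
    obtain ⟨n₀, hn₀⟩ := chr_lim g r m hrm hrg hg κ hκ u δ hδ
    refine ⟨n₀, ?_⟩
    rintro ⟨⟨n, μ⟩, k, _, _, _, h2, hμ⟩ hn
    have hμ' : μ = lw (fun t : Par k r m n => Zn g κ t) := hμ
    show ‖charFun (μ : Measure ℝ) u - charFun (nu1 : Measure ℝ) u‖ ≤ δ
    rw [hμ', chr_lw, chr_nu1]
    have h4 : (fun t : Par k r m n => Complex.exp (((inner ℝ (Zn g κ t) u : ℝ) : ℂ) * Complex.I)) =
        fun t : Par k r m n => Complex.exp (((u * Zn g κ t : ℝ) : ℂ) * Complex.I) := by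
      funext t
      rfl
    rw [h4]
    exact hn₀ k h2 n hn) (S := Set.Iic x) (frontier_nu1 x) hε
  refine ⟨n₀, fun k _ _ _ h2 n hn => ?_⟩
  have h3 := hn₀ ⟨⟨n, lw (fun t : Par k r m n => Zn g κ t)⟩, k, _, _, _, h2, rfl⟩ hn
  have h3' : |((lw (fun t : Par k r m n => Zn g κ t) : Measure ℝ) (Set.Iic x)).toReal - ((nu1 : Measure ℝ) (Set.Iic x)).toReal| ≤ ε := h3
  rw [lw_real _ measurableSet_Iic] at h3'
  unfold Phi
  have h5 : ∀ (d : DecidablePred fun t : Par k r m n => Zn g κ t ∈ Set.Iic x),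
      (@Finset.filter _ (fun t : Par k r m n => Zn g κ t ∈ Set.Iic x) d univ).card =
        (univ.filter fun t : Par k r m n => Zn g κ t ≤ x).card := by
    intro d
    congr 1
    ext t
    rw [mem_filter, mem_filter, Set.mem_Iic]
  rw [h5] at h3'
  exact h3'

end Q282.FF
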