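import Pool.Agent.TH180.RT.Fej

/-!
# A majorant of `log |1 - z|` on the unit circle
-/

set_option autoImplicit false

namespace Q282.FF

open Finset Filter
open scoped Topology

/-- summation by parts, twice -/
lemma abel (b c D P : ℕ → ℝ) (hD : ∀ m, D (m + 1) = D m + 2 * c m) (hP : ∀ m, P (m + 1) = P m + D (m + 1)) (h n : ℕ) :
    ∑ m ∈ range n, b (h + m) * c (h + m) =
      (b (h + n) * D (h + n) + (b (h + n) - b (h + n + 1)) * P (h + n) - b h * D h - (b h - b (h + 1)) * P h) / 2 +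
        (1 / 2) * ∑ m ∈ range n, (b (h + m) - 2 * b (h + m + 1) + b (h + m + 2)) * P (h + m + 1) := by
  induction n with
  | zero => simp
  | succ n ih =>
    rw [sum_range_succ, sum_range_succ, ih, ← add_assoc h n 1, hD (h + n)]
    have h1 := hP (h + n)
    rw [hD (h + n)] at h1
    rw [h1]
    ring

lemma conv (m : ℕ) (hm : 1 ≤ m) (x : ℝ) (hx0 : 0 ≤ x) (hx1 : x ≤ 1) :
    0 ≤ x ^ m / m - 2 * (x ^ (m + 1) / (m + 1 : ℕ)) + x ^ (m + 2) / (m + 2 : ℕ) := by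
  have hm' : (1 : ℝ) ≤ m := by exact_mod_cast hm
  have e : x ^ m / m - 2 * (x ^ (m + 1) / (m + 1 : ℕ)) + x ^ (m + 2) / (m + 2 : ℕ) =
      x ^ m * (((m : ℝ) + 1) * (m + 2) - 2 * x * m * (m + 2) + x ^ 2 * m * (m + 1)) / (m * (m + 1) * (m + 2)) := by
    push_cast
    field_simp
    ring
  rw [e]
  refine div_nonneg (mul_nonneg (pow_nonneg hx0 m) ?_) (by positivity)
  obtain ⟨s, hs⟩ : ∃ s : ℝ, x = 1 - s := ⟨1 - x, by ring⟩
  have hs0 : 0 ≤ s := by linarith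
  have e2 : ((m : ℝ) + 1) * (m + 2) - 2 * x * m * (m + 2) + x ^ 2 * m * (m + 1) = 2 + 2 * s * m + s ^ 2 * m * (m + 1) := by
    rw [hs]
    ring
  rw [e2]
  positivity

/-- the Dirichlet kernel -/
noncomputable def dk (z : ℂ) (m : ℕ) : ℝ := 2 * ∑ j ∈ range m, (z ^ j).re - 1

lemma dk_succ (z : ℂ) (m : ℕ) : dk z (m + 1) = dk z m + 2 * (z ^ m).re := by
  unfold dk
  rw [sum_range_succ]
  ring

/-- the Fejér kernel -/
noncomputable def fk (z : ℂ) (m : ℕ) : ℝ := ‖∑ j ∈ range m, z ^ j‖ ^ 2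

lemma fk_succ {z : ℂ} (hz : ‖z‖ = 1) (m : ℕ) : fk z (m + 1) = fk z m + dk z (m + 1) := by
  unfold fk dk
  rw [Pool.Agent.TH180.RT.fejer hz, Pool.Agent.TH180.RT.fejer hz, sum_range_succ, sum_range_succ]
  have h1 : ∑ j ∈ range m, (((m + 1 : ℕ) : ℝ) - j) * (z ^ j).re = ∑ j ∈ range m, ((m : ℝ) - j) * (z ^ j).re + ∑ j ∈ range m, (z ^ j).re := by
    rw [← sum_add_distrib]
    refine sum_congr rfl fun j _ => ?_
    push_cast
    ring
  rw [h1]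
  push_cast
  ring

lemma fk_nonneg (z : ℂ) (m : ℕ) : 0 ≤ fk z m := sq_nonneg _

lemma norm_sum_le {z : ℂ} (hz : ‖z‖ = 1) (m : ℕ) : ‖∑ j ∈ range m, z ^ j‖ ≤ m := by
  refine (_root_.norm_sum_le _ _).trans (le_of_eq ?_)
  simp [hz]

lemma fk_le {z : ℂ} (hz : ‖z‖ = 1) (m : ℕ) : fk z m ≤ (m : ℝ) ^ 2 :=
  pow_le_pow_left₀ (norm_nonneg _) (norm_sum_le hz m) 2

lemma dk_ge {z : ℂ} (hz : ‖z‖ = 1) (m : ℕ) : |dk z m| ≤ 2 * m + 1 := by
  unfold dk
  have h1 : |∑ j ∈ range m, (z ^ j).re| ≤ m := by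
    rw [← Complex.re_sum]
    exact (Complex.abs_re_le_norm _).trans (norm_sum_le hz m)
  rw [abs_le] at h1 ⊢
  constructor <;> linarith [h1.1, h1.2]

/-- the tail of the series -/
lemma tail_ge {z : ℂ} (hz : ‖z‖ = 1) {h : ℕ} (hh : 1 ≤ h) {x : ℝ} (hx0 : 0 ≤ x) (hx1 : x < 1) (n : ℕ) :
    -(x ^ h / h * dk z h + (x ^ h / h - x ^ (h + 1) / (h + 1 : ℕ)) * fk z h) / 2 - x ^ (h + n) / (h + n : ℕ) * (2 * (h + n : ℕ) + 1) / 2 ≤
      ∑ m ∈ range n, x ^ (h + m) / (h + m : ℕ) * (z ^ (h + m)).re := by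
  have hb : ∀ m : ℕ, 1 ≤ m → x ^ (m + 1) / (m + 1 : ℕ) ≤ x ^ m / m := by
    intro m hm
    have hm' : (0 : ℝ) < m := by exact_mod_cast hm
    refine div_le_div₀ (by positivity) ?_ hm' (by push_cast; linarith)
    exact pow_le_pow_of_le_one hx0 hx1.le (by omega)
  rw [abel (fun m => x ^ m / m) (fun m => (z ^ m).re) (dk z) (fk z) (dk_succ z) (fk_succ hz) h n]
  have h1 : 0 ≤ ∑ m ∈ range n, (x ^ (h + m) / (h + m : ℕ) - 2 * (x ^ (h + m + 1) / (h + m + 1 : ℕ)) +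
      x ^ (h + m + 2) / (h + m + 2 : ℕ)) * fk z (h + m + 1) := by
    refine sum_nonneg fun m _ => mul_nonneg ?_ (fk_nonneg _ _)
    exact conv (h + m) (by omega) x hx0 hx1.le
  have h2 : 0 ≤ (x ^ (h + n) / (h + n : ℕ) - x ^ (h + n + 1) / (h + n + 1 : ℕ)) * fk z (h + n) :=
    mul_nonneg (by linarith [hb (h + n) (by omega)]) (fk_nonneg _ _)
  have h3 : -(x ^ (h + n) / (h + n : ℕ) * (2 * (h + n : ℕ) + 1)) ≤ x ^ (h + n) / (h + n : ℕ) * dk z (h + n) := by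
    have h4 := (abs_le.1 (dk_ge hz (h + n))).1
    have h5 : 0 ≤ x ^ (h + n) / (h + n : ℕ) := by positivity
    have h6 := mul_le_mul_of_nonneg_left h4 h5
    linarith
  linarith

lemma ser {z : ℂ} (hz : ‖z‖ = 1) {x : ℝ} (hx0 : 0 ≤ x) (hx1 : x < 1) :
    HasSum (fun m : ℕ => x ^ m / m * (z ^ m).re) (-Real.log ‖1 - x * z‖) := by
  have hn : ‖(x : ℂ) * z‖ < 1 := by
    rw [norm_mul, hz, mul_one, Complex.norm_real, Real.norm_of_nonneg hx0]
    exact hx1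
  have h1 := Complex.hasSum_re (Complex.hasSum_taylorSeries_neg_log hn)
  rw [Complex.neg_re, Complex.log_re] at h1
  convert h1 using 1
  funext m
  rw [mul_pow, ← Complex.ofReal_pow, mul_div_right_comm, ← Complex.ofReal_natCast, ← Complex.ofReal_div, Complex.re_ofReal_mul]

/-- the bound for `log |1 - x z|` -/
lemma log_lt {z : ℂ} (hz : ‖z‖ = 1) {h : ℕ} (hh : 1 ≤ h) {x : ℝ} (hx0 : 0 ≤ x) (hx1 : x < 1) :
    Real.log ‖1 - x * z‖ ≤ -∑ m ∈ range h, x ^ m / m * (z ^ m).re +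
      (x ^ h / h * dk z h + (x ^ h / h - x ^ (h + 1) / (h + 1 : ℕ)) * fk z h) / 2 := by
  have h1 := (ser hz hx0 hx1).tendsto_sum_nat
  have h2 : Tendsto (fun n : ℕ => ∑ m ∈ range (h + n), x ^ m / m * (z ^ m).re) atTop (𝓝 (-Real.log ‖1 - x * z‖)) :=
    h1.comp (tendsto_add_atTop_nat h |>.congr fun n => Nat.add_comm n h)
  have h3 : Tendsto (fun n : ℕ => x ^ (h + n) / (h + n : ℕ) * (2 * (h + n : ℕ) + 1) / 2) atTop (𝓝 0) := by
    have h4 : Tendsto (fun n : ℕ => 3 * x ^ n) atTop (𝓝 (3 * 0)) := (tendsto_pow_atTop_nhds_zero_of_lt_one hx0 hx1).const_mul 3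
    rw [mul_zero] at h4
    refine squeeze_zero (fun n => by positivity) (fun n => ?_) h4
    have h5 : (1 : ℝ) ≤ (h + n : ℕ) := by exact_mod_cast (by omega : 1 ≤ h + n)
    have h6 : x ^ (h + n) ≤ x ^ n := pow_le_pow_of_le_one hx0 hx1.le (by omega)
    have h7 : x ^ (h + n) / (h + n : ℕ) * (2 * (h + n : ℕ) + 1) / 2 = x ^ (h + n) * ((2 * (h + n : ℕ) + 1) / (2 * (h + n : ℕ))) := by
      field_simp
    rw [h7]
    have h8 : (2 * ((h + n : ℕ) : ℝ) + 1) / (2 * (h + n : ℕ)) ≤ 3 := by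
      rw [div_le_iff₀ (by positivity)]
      linarith
    calc x ^ (h + n) * ((2 * (h + n : ℕ) + 1) / (2 * (h + n : ℕ))) ≤ x ^ n * 3 := mul_le_mul h6 h8 (by positivity) (by positivity)
      _ = 3 * x ^ n := by ring
  have h4 : ∀ n : ℕ, ∑ m ∈ range h, x ^ m / m * (z ^ m).re -
      (x ^ h / h * dk z h + (x ^ h / h - x ^ (h + 1) / (h + 1 : ℕ)) * fk z h) / 2 ≤
      ∑ m ∈ range (h + n), x ^ m / m * (z ^ m).re + x ^ (h + n) / (h + n : ℕ) * (2 * (h + n : ℕ) + 1) / 2 := by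
    intro n
    rw [sum_range_add]
    have := tail_ge hz hh hx0 hx1 n
    linarith
  have h5 := ge_of_tendsto' (h2.add h3) h4
  linarith

/-- the bound for `log |1 - z|` -/
lemma log_le {z : ℂ} (hz : ‖z‖ = 1) (hz1 : z ≠ 1) {h : ℕ} (hh : 1 ≤ h) :
    Real.log ‖1 - z‖ ≤ -∑ m ∈ range h, 1 / (m : ℝ) * (z ^ m).re + (1 / h * dk z h + (1 / h - 1 / (h + 1 : ℕ)) * fk z h) / 2 := by
  have hne : ‖1 - ((1 : ℝ) : ℂ) * z‖ ≠ 0 := by
    rw [norm_ne_zero_iff, Complex.ofReal_one, one_mul]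
    exact sub_ne_zero.2 fun h => hz1 h.symm
  have h1 : Tendsto (fun x : ℝ => Real.log ‖1 - (x : ℂ) * z‖) (𝓝[<] 1) (𝓝 (Real.log ‖1 - ((1 : ℝ) : ℂ) * z‖)) := by
    refine Tendsto.mono_left ?_ nhdsWithin_le_nhds
    have : ContinuousAt (fun x : ℝ => Real.log ‖1 - (x : ℂ) * z‖) 1 := by
      refine ContinuousAt.log ?_ hne
      fun_prop
    exact this
  have h2 : Tendsto (fun x : ℝ => -∑ m ∈ range h, x ^ m / m * (z ^ m).re +
      (x ^ h / h * dk z h + (x ^ h / h - x ^ (h + 1) / (h + 1 : ℕ)) * fk z h) / 2) (𝓝[<] 1)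
      (𝓝 (-∑ m ∈ range h, (1 : ℝ) ^ m / m * (z ^ m).re +
      ((1 : ℝ) ^ h / h * dk z h + ((1 : ℝ) ^ h / h - (1 : ℝ) ^ (h + 1) / (h + 1 : ℕ)) * fk z h) / 2)) := by
    refine Tendsto.mono_left ?_ nhdsWithin_le_nhds
    have : Continuous (fun x : ℝ => -∑ m ∈ range h, x ^ m / m * (z ^ m).re +
      (x ^ h / h * dk z h + (x ^ h / h - x ^ (h + 1) / (h + 1 : ℕ)) * fk z h) / 2) := by fun_prop
    exact this.tendsto 1
  have h3 := le_of_tendsto_of_tendsto h1 h2 (by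
    have : ∀ᶠ x : ℝ in 𝓝[<] 1, x ∈ Set.Ioo (0 : ℝ) 1 := Ioo_mem_nhdsLT (by norm_num)
    filter_upwards [this] with x hx
    exact log_lt hz hh hx.1.le hx.2)
  simpa only [Complex.ofReal_one, one_mul, one_pow] using h3

/-- the coefficients of the majorant -/
noncomputable def lam (h m : ℕ) : ℝ := (1 - (m : ℝ) / h) * (1 / m - 1 / (h + 1))

/-- the majorant of `log |1 - z|` -/
theorem majorant {z : ℂ} (hz : ‖z‖ = 1) (hz1 : z ≠ 1) {h : ℕ} (hh : 1 ≤ h) :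
    Real.log ‖1 - z‖ ≤ 1 / h - ∑ m ∈ Ico 1 h, lam h m * (z ^ m).re := by
  have hh' : (1 : ℝ) ≤ h := by exact_mod_cast hh
  refine (log_le hz hz1 hh).trans ?_
  have h0 : ∀ φ : ℕ → ℝ, ∑ m ∈ range h, φ m = φ 0 + ∑ m ∈ Ico 1 h, φ m := by
    intro φ
    rw [range_eq_Ico, sum_eq_sum_Ico_succ_bot (by omega)]
  have h1 : dk z h = 1 + 2 * ∑ m ∈ Ico 1 h, (z ^ m).re := by
    unfold dk
    rw [h0]
    simp
    ring
  have h2 : fk z h = h + 2 * ∑ m ∈ Ico 1 h, ((h : ℝ) - m) * (z ^ m).re := by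
    unfold fk
    rw [Pool.Agent.TH180.RT.fejer hz, h0]
    simp
    ring
  rw [h1, h2, h0]
  have h3 : ∑ m ∈ Ico 1 h, lam h m * (z ^ m).re = ∑ m ∈ Ico 1 h, 1 / (m : ℝ) * (z ^ m).re - 1 / h * ∑ m ∈ Ico 1 h, (z ^ m).re -
      (1 / h - 1 / ((h : ℝ) + 1)) * ∑ m ∈ Ico 1 h, ((h : ℝ) - m) * (z ^ m).re := by
    rw [mul_sum, mul_sum, ← sum_sub_distrib, ← sum_sub_distrib]
    refine sum_congr rfl fun m hm => ?_
    rw [mem_Ico] at hm
    have hm' : (m : ℝ) ≠ 0 := by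
      have : m ≠ 0 := by omega
      exact_mod_cast this
    unfold lam
    field_simp
    ring
  rw [h3]
  have h4 : (1 / (h : ℝ) * 1 + (1 / h - 1 / (h + 1)) * h) / 2 ≤ 1 / h := by
    have : (1 / (h : ℝ) - 1 / (h + 1)) * h = 1 / (h + 1) := by field_simp; ring
    rw [this]
    have h5 : 1 / ((h : ℝ) + 1) ≤ 1 / h := one_div_le_one_div_of_le (by linarith) (by linarith)
    linarith
  simp only [Nat.cast_zero, div_zero, zero_mul, zero_add]
  push_cast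
  nlinarith [h4]

lemma lam_nonneg {h m : ℕ} (hm : 1 ≤ m) (hmh : m < h) : 0 ≤ lam h m := by
  unfold lam
  have hm' : (1 : ℝ) ≤ m := by exact_mod_cast hm
  have hh' : (m : ℝ) < h := by exact_mod_cast hmh
  have h1 : (m : ℝ) / h ≤ 1 := by
    rw [div_le_one (by linarith)]
    exact hh'.le
  have h2 : 1 / ((h : ℝ) + 1) ≤ 1 / m := one_div_le_one_div_of_le (by linarith) (by linarith)
  exact mul_nonneg (by linarith) (by linarith)

lemma lam_le {h m : ℕ} (hm : 1 ≤ m) (hmh : m < h) : lam h m ≤ 1 / m := by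
  unfold lam
  have hm' : (1 : ℝ) ≤ m := by exact_mod_cast hm
  have hh' : (m : ℝ) < h := by exact_mod_cast hmh
  have h1 : 0 ≤ (m : ℝ) / h := by positivity
  have h3 : 0 < 1 / ((h : ℝ) + 1) := by positivity
  have h4 : 1 / ((h : ℝ) + 1) ≤ 1 / m := one_div_le_one_div_of_le (by linarith) (by linarith)
  have h5 : 0 < 1 / (m : ℝ) := by positivity
  calc (1 - (m : ℝ) / h) * (1 / m - 1 / (h + 1)) ≤ 1 * (1 / m) := mul_le_mul (by linarith) (by linarith) (by linarith) (by norm_num)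
    _ = _ := one_mul _

lemma lam_ge {h m : ℕ} (hm : 1 ≤ m) (hmh : m < h) : 1 / m - 2 / h ≤ lam h m := by
  unfold lam
  have hm' : (1 : ℝ) ≤ m := by exact_mod_cast hm
  have hh' : (m : ℝ) < h := by exact_mod_cast hmh
  have h1 : (1 - (m : ℝ) / h) * (1 / m - 1 / (h + 1)) - (1 / m - 2 / h) = (1 / h - 1 / (h + 1)) + m / h * (1 / (h + 1)) := by
    field_simp
    ring
  have h2 : 0 ≤ 1 / (h : ℝ) - 1 / (h + 1) := by
    have := one_div_le_one_div_of_le (by linarith : (0 : ℝ) < h) (by linarith : (h : ℝ) ≤ h + 1)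
    linarith
  have h3 : 0 ≤ (m : ℝ) / h * (1 / (h + 1)) := by positivity
  linarith

end Q282.FF
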