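import Pool.Agent.Q282.FF.Tail2

/-!
# Smooth linear statistics of the zeros near the central point: the explicit formula
-/

set_option autoImplicit false
set_option linter.unusedSectionVars false

namespace Q282.FF

open Polynomial Finset
open Q282.JK (Idx fpol pts_eq fpol_map)
open Pool.Agent.H341R2.Sharp (T)
open Q282.CL (av av_add av_sub av_mul av_mono av_const av_nonneg abs_av_le av_sum)

section

variable {k : Type} [Field k] [Fintype k] [DecidableEq k]

/-- the sum over the powers -/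
noncomputable def LS (h : ℕ) (c : ℕ → ℝ) (S : Place k → ℕ → ℝ) (Γ : ℕ → ℝ) : ℝ :=
  ∑ m ∈ Ico 1 h, c m * ((Γ m + ∑ d ∈ m.divisors, ∑ v ∈ PL k d, (d : ℝ) * S v (m / d)) / (Nat.card k : ℝ) ^ m)

/-- the sum over the places -/
noncomputable def RR (h : ℕ) (c : ℕ → ℝ) (S : Place k → ℕ → ℝ) : ℝ :=
  ∑ v ∈ PB k h, ((deg v * c (deg v)) * S v 1 / Nat.card (Res v) +
        (if 2 * deg v < h then deg v * c (2 * deg v) else 0) * S v 2 / (Nat.card (Res v) : ℝ) ^ 2)

lemma LS_sub (h : ℕ) (c c' : ℕ → ℝ) (S : Place k → ℕ → ℝ) (Γ : ℕ → ℝ) :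
    LS h (fun m => c m - c' m) S Γ = LS h c S Γ + LS h c' (fun v j => -S v j) (fun j => -Γ j) := by
  unfold LS
  rw [← sum_add_distrib]
  refine sum_congr rfl fun m _ => ?_
  have h6 : ∑ d ∈ m.divisors, ∑ v ∈ PL k d, (d : ℝ) * (-S v (m / d)) = -∑ d ∈ m.divisors, ∑ v ∈ PL k d, (d : ℝ) * S v (m / d) := by
    rw [← sum_neg_distrib]
    refine sum_congr rfl fun d _ => ?_
    rw [← sum_neg_distrib]
    exact sum_congr rfl fun v _ => by ring
  rw [h6]
  ring

lemma LS_neg (h : ℕ) (c : ℕ → ℝ) (S : Place k → ℕ → ℝ) (Γ : ℕ → ℝ) :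
    LS h c (fun v j => -S v j) (fun j => -Γ j) = -LS h c S Γ := by
  unfold LS
  rw [← sum_neg_distrib]
  refine sum_congr rfl fun m _ => ?_
  have h6 : ∑ d ∈ m.divisors, ∑ v ∈ PL k d, (d : ℝ) * (-S v (m / d)) = -∑ d ∈ m.divisors, ∑ v ∈ PL k d, (d : ℝ) * S v (m / d) := by
    rw [← sum_neg_distrib]
    refine sum_congr rfl fun d _ => ?_
    rw [← sum_neg_distrib]
    exact sum_congr rfl fun v _ => by ring
  rw [h6]
  ring

lemma RR_sub (h : ℕ) (c c' : ℕ → ℝ) (S : Place k → ℕ → ℝ) :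
    RR h (fun m => c m - c' m) S = RR h c S + RR h c' (fun v j => -S v j) := by
  unfold RR
  rw [← sum_add_distrib]
  refine sum_congr rfl fun v _ => ?_
  split_ifs <;> ring

lemma RR_neg (h : ℕ) (c : ℕ → ℝ) (S : Place k → ℕ → ℝ) :
    RR h c (fun v j => -S v j) = -RR h c S := by
  unfold RR
  rw [← sum_neg_distrib]
  refine sum_congr rfl fun v _ => ?_
  ring

lemma one_sided (h2 : (2 : k) ≠ 0) (g h : ℕ) (c : ℕ → ℝ) (A : ℝ) (hA : 0 ≤ A) (hc : ∀ m ∈ Ico 1 h, |c m| ≤ A)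
    (S : Place k → ℕ → ℝ)
    (hS : ∀ v j, |S v j| ≤ 2 * g * Real.sqrt (Nat.card (Res v)) ^ j) (Γ : ℕ → ℝ)
    (hΓ : ∀ j, |Γ j| ≤ 2 * g * Real.sqrt (Nat.card k) ^ j) :
    LS h c S Γ ≤ 112 * g * A + RR h c S := by
  have e : c = fun m => max (c m) 0 - max (-c m) 0 := by
    funext m
    rw [max_zero_sub_max_neg_zero_eq_self]
  have h3 := main_sum' h2 g h (fun m => max (c m) 0) A hA (fun m _ => le_max_right _ _)
    (fun m hm => max_le (le_trans (le_abs_self _) (hc m hm)) hA) S hS Γ hΓ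
  have h4 := main_sum' h2 g h (fun m => max (-c m) 0) A hA (fun m _ => le_max_right _ _)
    (fun m hm => max_le (le_trans (neg_le_abs _) (hc m hm)) hA) (fun v j => -S v j)
    (fun v j => by rw [abs_neg]; exact hS v j) (fun j => -Γ j) (fun j => by rw [abs_neg]; exact hΓ j)
  have h3' : LS h (fun m => max (c m) 0) S Γ ≤ 56 * g * A + RR h (fun m => max (c m) 0) S := h3
  have h4' : LS h (fun m => max (-c m) 0) (fun v j => -S v j) (fun j => -Γ j) ≤
      56 * g * A + RR h (fun m => max (-c m) 0) (fun v j => -S v j) := h4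
  rw [e, LS_sub, RR_sub]
  linarith

lemma two_sided (h2 : (2 : k) ≠ 0) (g h : ℕ) (c : ℕ → ℝ) (A : ℝ) (hA : 0 ≤ A) (hc : ∀ m ∈ Ico 1 h, |c m| ≤ A)
    (S : Place k → ℕ → ℝ)
    (hS : ∀ v j, |S v j| ≤ 2 * g * Real.sqrt (Nat.card (Res v)) ^ j) (Γ : ℕ → ℝ)
    (hΓ : ∀ j, |Γ j| ≤ 2 * g * Real.sqrt (Nat.card k) ^ j) :
    |LS h c S Γ - RR h c S| ≤ 112 * g * A := by
  have h3 := one_sided h2 g h c A hA hc S hS Γ hΓ
  have h4 := one_sided h2 g h c A hA hc (fun v j => -S v j) (fun v j => by rw [abs_neg]; exact hS v j) (fun j => -Γ j)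
    (fun j => by rw [abs_neg]; exact hΓ j)
  rw [LS_neg, RR_neg] at h4
  rw [abs_le]
  constructor <;> linarith

/-- the weight of the first powers -/
noncomputable def m1 (φ : ℝ → ℝ) (M d : ℕ) : ℝ := d * (φ (d / M) / M)

/-- the weight of the squares -/
noncomputable def m2 (φ : ℝ → ℝ) (M d : ℕ) : ℝ := if 2 * d < M then d * (φ ((2 * d : ℕ) / M) / M) else 0

/-- the local function -/
noncomputable def psi (φ : ℝ → ℝ) (M : ℕ) {r m : ℕ} (v : Place k) (u : Idx r m → Res v) : ℝ :=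
  -2 * loc (m1 φ M (deg v)) (m2 φ M (deg v)) u

/-- the term for bad reduction -/
noncomputable def bx (g : ℕ) (φ : ℝ → ℝ) (M : ℕ) {r m : ℕ} (v : Place k) (u : Idx r m → Res v) : ℝ :=
  bd u * (2 * (|m1 φ M (deg v)| + |m2 φ M (deg v)|) * (12 * g + 5) / Real.sqrt (Nat.card (Res v)))

/-- The smooth linear statistic of the zeros near the central point. -/
noncomputable def stat (φ : ℝ → ℝ) (M : ℕ) {N : ℕ} (β : Fin N → ℂ) : ℝ :=
  (∑ j, (φ 0 + 2 * ∑ m ∈ Ico 1 M, φ (m / M) * (β j ^ m).re)) / M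

lemma term_one'' {x S Q s c : ℝ} (hs : 1 ≤ s) (hQ : Q = s ^ 2) (hS : |S| ≤ c * s) :
    |x * S / Q| ≤ |x| * c / s := by
  have h1 := term_one' (abs_nonneg x) hs hQ hS
  rw [abs_div, abs_mul, abs_abs] at h1
  rw [abs_div, abs_mul]
  exact h1

lemma term_two'' {x S Q s c : ℝ} (hc : 0 ≤ c) (hs : 1 ≤ s) (hQ : Q = s ^ 2) (hS : |S| ≤ c * s ^ 2) :
    |x * S / Q ^ 2| ≤ |x| * c / s := by
  have h1 := term_two' (abs_nonneg x) hc hs hQ hS
  rw [abs_div, abs_mul, abs_abs] at h1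
  rw [abs_div, abs_mul]
  exact h1

/-- the explicit formula -/
theorem explicit (h2 : (2 : k) ≠ 0) (g : ℕ) {r m n : ℕ} (hrm : r + m = 2 * g + 1) (hrg : r ≤ g) (t : Par k r m n) {N : ℕ}
    (β : Fin N → ℂ) (hβ : IsSpectrum g (curve t) β) (φ : ℝ → ℝ) (A : ℝ) (hφ : ∀ x ∈ Set.Icc (0 : ℝ) 1, |φ x| ≤ A) {M : ℕ} (hM : 1 ≤ M) :
    |stat φ M β - N * φ 0 / M - ∑ v ∈ PB k M, psi φ M v (rt v t)| ≤ 224 * g * A / M + ∑ v ∈ PB k M, bx g φ M v (rt v t) := by
  classical
  obtain ⟨-, α, γ, hα, hγ, hexp⟩ := hβ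
  have hM' : (1 : ℝ) ≤ M := by exact_mod_cast hM
  have hA : 0 ≤ A := (abs_nonneg _).trans (hφ 0 ⟨le_rfl, zero_le_one⟩)
  obtain ⟨q, hq⟩ : ∃ q : ℝ, q = Nat.card k := ⟨_, rfl⟩
  have hq3 : (3 : ℝ) ≤ q := by
    rw [hq]
    exact_mod_cast three_le h2
  obtain ⟨S, hS⟩ : ∃ S : Place k → ℕ → ℝ, S = fun v j => (∑ i, α v i ^ j).re := ⟨_, rfl⟩
  obtain ⟨Γ, hΓ⟩ : ∃ Γ : ℕ → ℝ, Γ = fun j => (∑ i, γ i ^ j).re := ⟨_, rfl⟩
  have hSb : ∀ v j, |S v j| ≤ 2 * g * Real.sqrt (Nat.card (Res v)) ^ j := fun v j => by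
    rw [hS]
    exact re_bound (hα v).1 j
  have hΓb : ∀ j, |Γ j| ≤ 2 * g * Real.sqrt (Nat.card k) ^ j := fun j => by
    rw [hΓ]
    exact re_bound hγ j
  -- the power sums
  have hpow : ∀ m : ℕ, 1 ≤ m → (∑ i, (β i ^ m).re) =
      (-Γ m + ∑ d ∈ m.divisors, ∑ v ∈ PL k d, (d : ℝ) * (-S v (m / d))) / (Nat.card k : ℝ) ^ m := by
    intro m hm
    have h3 := congrArg Complex.re (hexp m hm)
    rw [finsum_eq hm, Complex.neg_re, Complex.add_re, ← Nat.cast_pow, ← Complex.ofReal_natCast, Complex.re_ofReal_mul] at h3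
    have h4 : (∑ d ∈ m.divisors, ∑ v ∈ PL k d, (deg v : ℂ) * ∑ i, α v i ^ (m / deg v)).re =
        ∑ d ∈ m.divisors, ∑ v ∈ PL k d, (d : ℝ) * S v (m / d) := by
      rw [Complex.re_sum]
      refine sum_congr rfl fun d _ => ?_
      rw [Complex.re_sum]
      refine sum_congr rfl fun v hv => ?_
      rw [mem_PL.1 hv, ← Complex.ofReal_natCast, Complex.re_ofReal_mul, hS]
    rw [h4] at h3
    have h5 : (∑ i, γ i ^ m).re = Γ m := by rw [hΓ]
    rw [h5, Complex.re_sum] at h3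
    have h6 : ∑ d ∈ m.divisors, ∑ v ∈ PL k d, (d : ℝ) * (-S v (m / d)) = -∑ d ∈ m.divisors, ∑ v ∈ PL k d, (d : ℝ) * S v (m / d) := by
      rw [← sum_neg_distrib]
      refine sum_congr rfl fun d _ => ?_
      rw [← sum_neg_distrib]
      exact sum_congr rfl fun v _ => by ring
    have hq0 : 0 < ((Nat.card k : ℝ)) ^ m := by
      rw [← hq]
      positivity
    rw [h6, eq_div_iff hq0.ne']
    push_cast at h3
    linarith
  have hstat : stat φ M β - N * φ 0 / M = 2 * LS M (fun m => φ (m / M) / M) (fun v j => -S v j) (fun j => -Γ j) := by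
    unfold stat LS
    rw [sum_add_distrib, sum_const, card_univ, Fintype.card_fin, nsmul_eq_mul, ← mul_sum, sum_comm, add_div, add_sub_cancel_left, mul_div_assoc,
      sum_div]
    congr 1
    refine sum_congr rfl fun m hm => ?_
    rw [← mul_sum, hpow m (mem_Ico.1 hm).1]
    ring
  have h3 := two_sided h2 g M (fun m => φ (m / M) / M) (A / M) (by positivity) (fun m hm => by
    show |φ (m / M) / M| ≤ A / M
    rw [abs_div, abs_of_nonneg (by linarith : (0 : ℝ) ≤ M)]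
    refine div_le_div_of_nonneg_right (hφ _ ⟨by positivity, ?_⟩) (by linarith)
    rw [div_le_one (by linarith)]
    exact_mod_cast (mem_Ico.1 hm).2.le) (fun v j => -S v j) (fun v j => by rw [abs_neg]; exact hSb v j) (fun j => -Γ j)
    (fun j => by rw [abs_neg]; exact hΓb j)
  have h4 : |2 * RR M (fun m => φ (m / M) / M) (fun v j => -S v j) - ∑ v ∈ PB k M, psi φ M v (rt v t)| ≤ ∑ v ∈ PB k M, bx g φ M v (rt v t) := by
    unfold RR
    rw [mul_sum, ← sum_sub_distrib]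
    refine (abs_sum_le_sum_abs _ _).trans (sum_le_sum fun v hv => ?_)
    rw [mem_PB] at hv
    simp only
    obtain ⟨x, hx⟩ : ∃ x : ℝ, x = m1 φ M (deg v) := ⟨_, rfl⟩
    obtain ⟨y, hy⟩ : ∃ y : ℝ, y = m2 φ M (deg v) := ⟨_, rfl⟩
    have hx' : (deg v : ℝ) * (φ (deg v / M) / M) = x := by rw [hx]; rfl
    have hy' : (if 2 * deg v < M then (deg v : ℝ) * (φ ((2 * deg v : ℕ) / M) / M) else 0) = y := by rw [hy]; rfl
    rw [hx', hy']
    unfold psi bx
    rw [← hx, ← hy]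
    have hchar := ring_char h2 v
    have hcard : (Nat.card (Res v) : ℝ) = Fintype.card (Res v) := by rw [Nat.card_eq_fintype_card]
    have hmap : (curve t).map (red v) = fpol (rt v t) := fpol_map (red v) _
    obtain ⟨Q, hQ⟩ : ∃ Q : ℝ, Q = (Nat.card (Res v) : ℝ) := ⟨_, rfl⟩
    obtain ⟨s, hs⟩ : ∃ s : ℝ, s = Real.sqrt Q := ⟨_, rfl⟩
    have hQ1 : 1 ≤ Q := by
      rw [hQ]
      exact_mod_cast Nat.card_pos
    have hs1 : 1 ≤ s := by
      rw [hs, Real.le_sqrt (by norm_num) (by linarith)]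
      linarith
    have hs0 : 0 < s := by linarith
    have hsq : Q = s ^ 2 := by rw [hs, Real.sq_sqrt (by linarith)]
    by_cases hgood : Squarefree (fpol (rt v t))
    · have hb : bd (rt v t) = 0 := by
        unfold bd
        rw [if_pos hgood]
      rw [hb, zero_mul]
      have hG : Good (curve t) v := by
        unfold Good
        rw [hmap]
        exact hgood
      have hT : ∀ j : ℕ, 1 ≤ j → S v j = -(T (fpol (rt v t)) j : ℝ) := by
        intro j hj
        have h9 := congrArg Complex.re ((hα v).2 hG j hj)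
        rw [Complex.sub_re, ← Nat.cast_pow, Complex.natCast_re, Complex.natCast_re] at h9
        rw [← pts_eq hchar (fpol (rt v t)) j hj]
        have h10 : (∑ i, α v i ^ j).re = S v j := by rw [hS]
        rw [← h10, h9]
        unfold points
        rw [hmap]
        simp only [Nat.card_eq_fintype_card (α := Res v)]
        push_cast
        ring
      rw [hT 1 le_rfl, hT 2 (by norm_num)]
      unfold loc
      rw [hcard]
      have e : 2 * (x * - -(T (fpol (rt v t)) 1 : ℝ) / (Fintype.card (Res v) : ℝ) + y * - -(T (fpol (rt v t)) 2 : ℝ) / (Fintype.card (Res v) : ℝ) ^ 2) -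
          -2 * (-(x * (T (fpol (rt v t)) 1 : ℝ) / (Fintype.card (Res v) : ℝ)) - y * (T (fpol (rt v t)) 2 : ℝ) / (Fintype.card (Res v) : ℝ) ^ 2) = 0 := by ring
      rw [e, abs_zero]
    · have hb : bd (rt v t) = 1 := by
        unfold bd
        rw [if_neg hgood]
      rw [hb, one_mul, ← hQ]
      have h9 : |-S v 1| ≤ 2 * g * s := by
        have := hSb v 1
        rwa [pow_one, ← hQ, ← hs, ← abs_neg] at this
      have h10 : |-S v 2| ≤ 2 * g * s ^ 2 := by
        have := hSb v 2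
        rwa [← hQ, ← hs, ← abs_neg] at this
      have h11 : |(T (fpol (rt v t)) 1 : ℝ)| ≤ 5 * (2 * g + 1) * s := by
        have := T_le hchar hrm hrg (rt v t) 1 le_rfl
        rwa [pow_one, ← hcard, ← hQ, ← hs] at this
      have h12 : |(T (fpol (rt v t)) 2 : ℝ)| ≤ 5 * (2 * g + 1) * s ^ 2 := by
        have := T_le hchar hrm hrg (rt v t) 2 (by norm_num)
        rwa [← hcard, ← hQ, ← hs] at this
      unfold loc
      rw [← hcard, ← hQ]
      have hg0 : (0 : ℝ) ≤ g := Nat.cast_nonneg _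
      have b1 := abs_le.1 (term_one'' (x := x) hs1 hsq h9)
      have b2 := abs_le.1 (term_two'' (x := y) (by positivity) hs1 hsq h10)
      have b3 := abs_le.1 (term_one'' (x := x) hs1 hsq h11)
      have b4 := abs_le.1 (term_two'' (x := y) (by positivity) hs1 hsq h12)
      rw [← hs]
      have e : 2 * (|x| + |y|) * (12 * (g : ℝ) + 5) / s = 2 * (|x| * (2 * g) / s + |y| * (2 * g) / s + |x| * (5 * (2 * g + 1)) / s + |y| * (5 * (2 * g + 1)) / s) := by ring
      rw [e, abs_le]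
      constructor <;> linarith [b1.1, b1.2, b2.1, b2.2, b3.1, b3.2, b4.1, b4.2]
  rw [hstat]
  have h5 : 224 * (g : ℝ) * A / M = 2 * (112 * g * (A / M)) := by ring
  rw [h5]
  rw [abs_le] at h3 h4 ⊢
  constructor <;> linarith [h3.1, h3.2, h4.1, h4.2]

end

end Q282.FF
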