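import Pool.Agent.Q282.FF.Meso1

/-!
# Smooth linear statistics of the zeros near the central point: means and variances
-/

set_option autoImplicit false
set_option linter.unusedSectionVars false

namespace Q282.FF

open Polynomial Finset
open Q282.JK (Idx fpol pts_eq fpol_map)
open Pool.Agent.H341R2.Sharp (T)
open Q282.CL (av av_add av_sub av_mul av_mono av_const av_nonneg abs_av_le av_sum)

/-- Riemann sums -/
lemma riemann (f : ℝ → ℝ) (hf : Continuous f) (ε : ℝ) (hε : 0 < ε) : ∃ δ : ℝ, 0 < δ ∧ ∀ η : ℝ, 0 < η → η ≤ δ → ∀ L : ℕ,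
    L * η ≤ 1 → 1 ≤ (L + 2) * η → |η * ∑ j ∈ Ico 1 (L + 1), f (j * η) - ∫ x in (0 : ℝ)..1, f x| ≤ ε := by
  obtain ⟨A, hA⟩ := isCompact_Icc.exists_bound_of_continuousOn (s := Set.Icc (0 : ℝ) 1) hf.continuousOn
  have hA0 : 0 ≤ A := (norm_nonneg _).trans (hA 0 ⟨le_rfl, zero_le_one⟩)
  have huc := (isCompact_Icc (a := (0 : ℝ)) (b := 1)).uniformContinuousOn_of_continuous hf.continuousOn
  rw [Metric.uniformContinuousOn_iff] at huc
  obtain ⟨δ₁, hδ₁, hu⟩ := huc (ε / 2) (by positivity)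
  refine ⟨min (δ₁ / 2) (ε / (4 * (A + 1))), by positivity, ?_⟩
  intro η hη hηδ L hL1 hL2
  have hη1 : η < δ₁ := by
    have := hηδ.trans (min_le_left _ _)
    linarith
  have hη2 : η * (4 * (A + 1)) ≤ ε := by
    have := hηδ.trans (min_le_right _ _)
    rwa [le_div_iff₀ (by positivity)] at this
  have hint : ∀ a b : ℝ, IntervalIntegrable f MeasureTheory.volume a b := fun a b => hf.intervalIntegrable a b
  have h1 : ∫ x in (0 : ℝ)..1, f x = (∫ x in (0 : ℝ)..(L * η), f x) + ∫ x in (L * η)..1, f x :=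
    (intervalIntegral.integral_add_adjacent_intervals (hint _ _) (hint _ _)).symm
  have h2 : ∫ x in (0 : ℝ)..(L * η), f x = ∑ j ∈ range L, ∫ x in ((j : ℝ) * η)..((j + 1 : ℕ) * η), f x := by
    have := intervalIntegral.sum_integral_adjacent_intervals (f := f) (μ := MeasureTheory.volume) (a := fun j : ℕ => (j : ℝ) * η) (n := L)
      (fun j _ => hint _ _)
    rw [this]
    simp
  have h3 : ∑ j ∈ Ico 1 (L + 1), f (j * η) = ∑ j ∈ range L, f ((j + 1 : ℕ) * η) := by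
    rw [sum_Ico_eq_sum_range]
    refine sum_congr (by simp) fun j _ => ?_
    rw [add_comm 1 j]
  have h4 : |η * ∑ j ∈ range L, f ((j + 1 : ℕ) * η) - ∑ j ∈ range L, ∫ x in ((j : ℝ) * η)..((j + 1 : ℕ) * η), f x| ≤ ε / 2 := by
    rw [mul_sum, ← sum_sub_distrib]
    refine (abs_sum_le_sum_abs _ _).trans ?_
    have h5 : ∀ j ∈ range L, |η * f ((j + 1 : ℕ) * η) - ∫ x in ((j : ℝ) * η)..((j + 1 : ℕ) * η), f x| ≤ ε / 2 * η := by
      intro j hj
      rw [mem_range] at hj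
      have hj' : ((j : ℝ) + 1) ≤ L := by exact_mod_cast hj
      have hjη : ((j + 1 : ℕ) : ℝ) * η ≤ 1 := by
        push_cast
        nlinarith
      have hj0 : (0 : ℝ) ≤ j * η := by positivity
      have e : η * f ((j + 1 : ℕ) * η) = ∫ x in ((j : ℝ) * η)..((j + 1 : ℕ) * η), f ((j + 1 : ℕ) * η) := by
        rw [intervalIntegral.integral_const, smul_eq_mul]
        push_cast
        ring
      rw [e, ← intervalIntegral.integral_sub (intervalIntegrable_const) (hint _ _), ← Real.norm_eq_abs]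
      have h6 := intervalIntegral.norm_integral_le_of_norm_le_const (a := (j : ℝ) * η) (b := ((j + 1 : ℕ) : ℝ) * η) (C := ε / 2)
        (f := fun x => f ((j + 1 : ℕ) * η) - f x) (by
          intro x hx
          rw [Set.uIoc_of_le (by push_cast; nlinarith)] at hx
          have hx0 : 0 ≤ x := by linarith [hx.1]
          have hx1 : x ≤ 1 := hx.2.trans hjη
          have h7 := hu (((j + 1 : ℕ) : ℝ) * η) ⟨by positivity, hjη⟩ x ⟨hx0, hx1⟩ (by
            rw [Real.dist_eq, abs_of_nonneg (by linarith [hx.2])]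
            have h8 : ((j + 1 : ℕ) : ℝ) * η = j * η + η := by push_cast; ring
            linarith [hx.1])
          rw [← dist_eq_norm]
          exact h7.le)
      refine h6.trans (le_of_eq ?_)
      have e2 : ((j + 1 : ℕ) : ℝ) * η - j * η = η := by push_cast; ring
      rw [e2, abs_of_pos hη]
    refine (sum_le_sum h5).trans ?_
    rw [sum_const, card_range, nsmul_eq_mul]
    nlinarith
  have h5 : |∫ x in (L * η)..1, f x| ≤ ε / 2 := by
    have h6 := intervalIntegral.norm_integral_le_of_norm_le_const (a := (L : ℝ) * η) (b := 1) (C := A) (f := f) (by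
      intro x hx
      rw [Set.uIoc_of_le hL1] at hx
      exact hA x ⟨by
        have : 0 ≤ (L : ℝ) * η := by positivity
        linarith [hx.1], hx.2⟩)
    rw [Real.norm_eq_abs, abs_of_nonneg (by linarith : (0 : ℝ) ≤ 1 - L * η)] at h6
    refine h6.trans ?_
    have h7 : 1 - L * η ≤ 2 * η := by linarith
    nlinarith
  rw [h1, h2, h3]
  rw [abs_le] at h4 h5 ⊢
  constructor <;> linarith [h4.1, h4.2, h5.1, h5.2]

lemma geo1 (h : ℕ) : ∑ d ∈ Ico 1 h, (d : ℝ) * (2 / 3 : ℝ) ^ d ≤ 6 := by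
  have h1 : ∀ n : ℕ, ∑ d ∈ Ico 1 (n + 1), (d : ℝ) * (2 / 3 : ℝ) ^ d = 6 - (2 / 3) ^ n * (2 * n + 6) := by
    intro n
    induction n with
    | zero => simp
    | succ n ih =>
      rw [sum_Ico_succ_top (by omega), ih]
      push_cast
      ring
  rcases h with _ | n
  · simp
  · rw [h1]
    have : (0 : ℝ) ≤ (2 / 3) ^ n * (2 * n + 6) := by positivity
    linarith

section

variable {k : Type} [Field k] [Fintype k] [DecidableEq k]

/-- sums over the places of a function of the degree -/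
lemma sum_approx' (h2 : (2 : k) ≠ 0) (h : ℕ) (w : ℕ → ℝ) (a : ℝ) (ha : 0 ≤ a) (hw : ∀ d ∈ Ico 1 h, |w d| ≤ a * d) :
    |∑ v ∈ PB k h, w (deg v) / (Nat.card (Res v) : ℝ) - ∑ d ∈ Ico 1 h, w d / d| ≤ 12 * a := by
  rw [sum_PB_deg, ← sum_sub_distrib]
  refine (abs_sum_le_sum_abs _ _).trans ?_
  have h1 : ∀ d ∈ Ico 1 h, |pd k d * w d - w d / d| ≤ 2 * a * (d * (2 / 3) ^ d) := by
    intro d hd
    have hd1 : 1 ≤ d := (mem_Ico.1 hd).1
    have e : pd k d * w d - w d / d = (pd k d - 1 / d) * w d := by ring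
    rw [e, abs_mul]
    have h3 : |pd k d - 1 / (d : ℝ)| ≤ 2 * (2 / 3) ^ d := by
      rw [abs_le]
      have h4 := pd_le (k := k) d hd1
      have h5 := pd_ge h2 d hd1
      have h6 : (0 : ℝ) ≤ 2 * (2 / 3) ^ d := by positivity
      constructor <;> linarith
    calc |pd k d - 1 / (d : ℝ)| * |w d| ≤ 2 * (2 / 3) ^ d * (a * d) := mul_le_mul h3 (hw d hd) (abs_nonneg _) (by positivity)
      _ = _ := by ring
  refine (sum_le_sum h1).trans ?_
  rw [← mul_sum]
  have := geo1 h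
  nlinarith

end

lemma m1_le {φ : ℝ → ℝ} {A : ℝ} (hφ : ∀ x ∈ Set.Icc (0 : ℝ) 1, |φ x| ≤ A) {M d : ℕ} (hd : d < M) : |m1 φ M d| ≤ A * (d / M) := by
  have hM : (0 : ℝ) < M := by exact_mod_cast (by omega : 0 < M)
  unfold m1
  rw [abs_mul, abs_div, abs_of_pos hM, Nat.abs_cast]
  have h1 := hφ (d / M) ⟨by positivity, by
    rw [div_le_one hM]
    exact_mod_cast hd.le⟩
  calc (d : ℝ) * (|φ (d / M)| / M) ≤ d * (A / M) := mul_le_mul_of_nonneg_left (div_le_div_of_nonneg_right h1 hM.le) (Nat.cast_nonneg _)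
    _ = A * (d / M) := by ring

lemma m2_le {φ : ℝ → ℝ} {A : ℝ} (hφ : ∀ x ∈ Set.Icc (0 : ℝ) 1, |φ x| ≤ A) {M d : ℕ} (hd : d < M) : |m2 φ M d| ≤ A * (d / M) := by
  have hM : (0 : ℝ) < M := by exact_mod_cast (by omega : 0 < M)
  have hA : 0 ≤ A := (abs_nonneg _).trans (hφ 0 ⟨le_rfl, zero_le_one⟩)
  unfold m2
  split_ifs with h2
  · rw [abs_mul, abs_div, abs_of_pos hM, Nat.abs_cast]
    have h1 := hφ (((2 * d : ℕ) : ℝ) / M) ⟨by positivity, by
      rw [div_le_one hM]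
      exact_mod_cast h2.le⟩
    calc (d : ℝ) * (|φ (((2 * d : ℕ) : ℝ) / M)| / M) ≤ d * (A / M) :=
          mul_le_mul_of_nonneg_left (div_le_div_of_nonneg_right h1 hM.le) (Nat.cast_nonneg _)
      _ = A * (d / M) := by ring
  · rw [abs_zero]
    positivity

/-- the limits of the sums of the weights -/
lemma weight_sums (φ : ℝ → ℝ) (hφ : Continuous φ) (ε : ℝ) (hε : 0 < ε) : ∃ n₀ : ℕ, ∀ M ≥ n₀,
    |∑ d ∈ Ico 1 M, m1 φ M d / d - ∫ x in (0 : ℝ)..1, φ x| ≤ ε ∧
    |∑ d ∈ Ico 1 M, m2 φ M d / d - (∫ x in (0 : ℝ)..1, φ x) / 2| ≤ ε ∧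
    |∑ d ∈ Ico 1 M, m1 φ M d ^ 2 / d - ∫ x in (0 : ℝ)..1, x * φ x ^ 2| ≤ ε := by
  obtain ⟨δ₁, hδ₁, h1⟩ := riemann φ hφ ε hε
  obtain ⟨δ₂, hδ₂, h2⟩ := riemann (fun x => x * φ x ^ 2) (by fun_prop) ε hε
  obtain ⟨n₀, hn₀⟩ := exists_nat_ge (2 / δ₁ + 1 / δ₂ + 2)
  refine ⟨n₀, fun M hM => ?_⟩
  have hM' : 2 / δ₁ + 1 / δ₂ + 2 ≤ M := hn₀.trans (by exact_mod_cast hM)
  have hp1 : 0 < 2 / δ₁ := by positivity
  have hp2 : 0 < 1 / δ₂ := by positivity
  have hM0 : (0 : ℝ) < M := by linarith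
  have hM2 : 2 ≤ M := by
    have : (2 : ℝ) ≤ M := by linarith
    exact_mod_cast this
  have hd1 : 2 / (M : ℝ) ≤ δ₁ := by
    rw [div_le_iff₀ hM0]
    have h3 : 2 / δ₁ ≤ M := by linarith
    rw [div_le_iff₀ hδ₁] at h3
    linarith
  have hd1' : 1 / (M : ℝ) ≤ δ₁ := by
    have : 1 / (M : ℝ) ≤ 2 / M := div_le_div_of_nonneg_right (by norm_num) hM0.le
    linarith
  have hd2 : 1 / (M : ℝ) ≤ δ₂ := by
    rw [div_le_iff₀ hM0]
    have h3 : 1 / δ₂ ≤ M := by linarith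
    rw [div_le_iff₀ hδ₂] at h3
    linarith
  have hL : M - 1 + 1 = M := by omega
  have hLc : ((M - 1 : ℕ) : ℝ) = M - 1 := by
    rw [Nat.cast_sub (by omega)]
    norm_num
  have hL1 : ((M - 1 : ℕ) : ℝ) * (1 / M) ≤ 1 := by
    rw [hLc, mul_one_div, div_le_one hM0]
    linarith
  have hL2 : 1 ≤ (((M - 1 : ℕ) : ℝ) + 2) * (1 / M) := by
    rw [hLc, mul_one_div, one_le_div hM0]
    linarith
  refine ⟨?_, ?_, ?_⟩
  · have h3 := h1 (1 / M) (by positivity) hd1' (M - 1) hL1 hL2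
    rw [hL] at h3
    refine le_trans (le_of_eq ?_) h3
    congr 2
    rw [mul_sum]
    refine sum_congr rfl fun d hd => ?_
    have hd0 : (0 : ℝ) < d := by exact_mod_cast (mem_Ico.1 hd).1
    unfold m1
    rw [mul_one_div]
    field_simp
  · obtain ⟨L, hLd⟩ : ∃ L : ℕ, L = (M - 1) / 2 := ⟨_, rfl⟩
    have hLa : (L : ℝ) * (2 / M) ≤ 1 := by
      rw [mul_div_assoc', div_le_one hM0]
      have : L * 2 ≤ M := by omega
      exact_mod_cast this
    have hLb : 1 ≤ ((L : ℝ) + 2) * (2 / M) := by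
      rw [mul_div_assoc', one_le_div hM0]
      have : M ≤ (L + 2) * 2 := by omega
      exact_mod_cast this
    have h3 := h1 (2 / M) (by positivity) hd1 L hLa hLb
    have h4 : ∑ d ∈ Ico 1 M, m2 φ M d / d = (2 / (M : ℝ) * ∑ j ∈ Ico 1 (L + 1), φ (j * (2 / M))) / 2 := by
      rw [mul_sum, sum_div]
      symm
      refine sum_subset_zero_on_sdiff ?_ ?_ ?_
      · intro d hd
        rw [mem_Ico] at hd ⊢
        omega
      · intro d hd
        rw [mem_sdiff, mem_Ico, mem_Ico] at hd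
        unfold m2
        rw [if_neg (by omega), zero_div]
      · intro d hd
        rw [mem_Ico] at hd
        have hd0 : (0 : ℝ) < d := by exact_mod_cast hd.1
        unfold m2
        rw [if_pos (by omega)]
        have e : ((2 * d : ℕ) : ℝ) / M = d * (2 / M) := by push_cast; ring
        rw [e]
        field_simp
    rw [h4]
    have e : 2 / (M : ℝ) * ∑ j ∈ Ico 1 (L + 1), φ (j * (2 / M)) / 2 = 0 ∨ True := Or.inr trivial
    rw [← sub_div, abs_div, abs_two]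
    have := abs_nonneg (2 / (M : ℝ) * ∑ j ∈ Ico 1 (L + 1), φ (j * (2 / M)) - ∫ x in (0 : ℝ)..1, φ x)
    linarith
  · have h3 := h2 (1 / M) (by positivity) hd2 (M - 1) hL1 hL2
    rw [hL] at h3
    refine le_trans (le_of_eq ?_) h3
    congr 2
    rw [mul_sum]
    refine sum_congr rfl fun d hd => ?_
    have hd0 : (0 : ℝ) < d := by exact_mod_cast (mem_Ico.1 hd).1
    unfold m1
    rw [mul_one_div]
    field_simp

/-- The local functions: bounds, means and variances. -/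
theorem meso_facts (g r m : ℕ) (hrm : r + m = 2 * g + 1) (hrg : r ≤ g) (hg : 1 ≤ g) : ∃ B : ℝ, 1 ≤ B ∧
    ∀ (φ : ℝ → ℝ) (A : ℝ), 1 ≤ A → (∀ x ∈ Set.Icc (0 : ℝ) 1, |φ x| ≤ A) →
    ∀ (k : Type) [Field k] [Fintype k] [DecidableEq k], (2 : k) ≠ 0 → ∀ M : ℕ, 1 ≤ M →
    (∀ v : Place k, deg v < M → ∀ u : Idx r m → Res v, |psi φ M v u| ≤ B * A * (deg v / M) / Real.sqrt (Nat.card (Res v))) ∧
    |∑ v ∈ PB k M, av (fun u : Idx r m → Res v => psi φ M v u) - (2 * r * ∑ d ∈ Ico 1 M, m1 φ M d / d + 2 * ∑ d ∈ Ico 1 M, m2 φ M d / d)| ≤ B * A / M ∧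
    |∑ v ∈ PB k M, (av (fun u : Idx r m → Res v => psi φ M v u ^ 2) - av (fun u : Idx r m → Res v => psi φ M v u) ^ 2) -
      4 * ∑ d ∈ Ico 1 M, m1 φ M d ^ 2 / d| ≤ B * A ^ 2 / M ∧
    (∀ n : ℕ, M ≤ n + 1 → av (fun t : Par k r m n => ∑ v ∈ PB k M, bx g φ M v (rt v t)) ≤ B * A / M) ∧
    ∀ v : Place k, ∀ u : Idx r m → Res v, 0 ≤ bx g φ M v u := by
  obtain ⟨B₀, hB1, hB⟩ := loc_main g r m hrm hrg hg
  have hg0 : (0 : ℝ) ≤ g := Nat.cast_nonneg _
  have hr0 : (0 : ℝ) ≤ r := Nat.cast_nonneg _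
  obtain ⟨a, ha⟩ : ∃ a : ℝ, a = 5 * (2 * g + 1) := ⟨_, rfl⟩
  have ha1 : 1 ≤ a := by rw [ha]; linarith
  obtain ⟨c, hc⟩ : ∃ c : ℝ, c = (12 * g + 5) * (r ^ 2 + r + g) := ⟨_, rfl⟩
  have hc0 : 0 ≤ c := by rw [hc]; positivity
  obtain ⟨B, hBd⟩ : ∃ B : ℝ, B = 100 * (a ^ 2 * B₀) + 100 * (r + B₀ + 1) ^ 2 + 100 * (r + 1) + 8 * c := ⟨_, rfl⟩
  have ha2 : a ≤ a ^ 2 := by nlinarith
  have haB0 : a ^ 2 ≤ a ^ 2 * B₀ := by nlinarith
  have haB : 1 ≤ a ^ 2 * B₀ := by nlinarith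
  have hBB : B₀ ≤ a ^ 2 * B₀ := by nlinarith
  have hB1' : 1 ≤ B := by
    rw [hBd]
    linarith [sq_nonneg ((r : ℝ) + B₀ + 1)]
  refine ⟨B, hB1', ?_⟩
  intro φ A hA1 hφ k _ _ _ h2 M hM
  have hM' : (0 : ℝ) < M := by exact_mod_cast hM
  have hA0 : 0 < A := by linarith
  have hcard : ∀ v : Place k, (Nat.card (Res v) : ℝ) = Fintype.card (Res v) := fun v => by rw [Nat.card_eq_fintype_card]
  have hs1 : ∀ v : Place k, 1 ≤ Real.sqrt (Nat.card (Res v)) := by
    intro v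
    rw [Real.one_le_sqrt]
    exact_mod_cast Nat.card_pos
  have hconv := sum_conv' h2 M
  have hneO : ∀ v : Place k, Nonempty (Idx r m → Res v) := fun v => ⟨fun _ => 0⟩
  -- bounds of the two basic functions
  have hl1 : ∀ v : Place k, ∀ u : Idx r m → Res v, |loc 1 0 u| ≤ a / Real.sqrt (Nat.card (Res v)) := by
    intro v u
    have h3 := loc_le (F := Res v) (ring_char h2 v) hrm hrg (zero_le_one) le_rfl u (w₁ := 1) (w₂ := 0)
    rw [← hcard, ← ha] at h3
    refine h3.trans (le_of_eq ?_)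
    ring
  have hl2 : ∀ v : Place k, ∀ u : Idx r m → Res v, |loc 0 1 u| ≤ a / (Nat.card (Res v) : ℝ) := by
    intro v u
    have h3 := T_le (F := Res v) (ring_char h2 v) hrm hrg u 2 (by norm_num)
    rw [← ha, Real.sq_sqrt (Nat.cast_nonneg _)] at h3
    unfold loc
    rw [zero_mul, zero_div, neg_zero, zero_sub, one_mul, abs_neg, abs_div, ← hcard]
    have hQ0 : (0 : ℝ) < Nat.card (Res v) := by exact_mod_cast Nat.card_pos
    rw [abs_of_pos (by positivity : 0 < (Nat.card (Res v) : ℝ) ^ 2), div_le_div_iff₀ (by positivity) hQ0]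
    rw [← hcard] at h3
    calc |(T (fpol u) 2 : ℝ)| * (Nat.card (Res v) : ℝ) ≤ a * (Nat.card (Res v) : ℝ) * (Nat.card (Res v) : ℝ) :=
          mul_le_mul_of_nonneg_right h3 hQ0.le
      _ = a * (Nat.card (Res v) : ℝ) ^ 2 := by ring
  refine ⟨?_, ?_, ?_, ?_, ?_⟩
  · intro v hv u
    obtain ⟨s, hs⟩ : ∃ s : ℝ, s = Real.sqrt (Nat.card (Res v)) := ⟨_, rfl⟩
    have hs1' := hs1 v
    have q1 := hl1 v u
    have q2 := hl2 v u
    have hsq : (Nat.card (Res v) : ℝ) = Real.sqrt (Nat.card (Res v)) ^ 2 := by rw [Real.sq_sqrt (Nat.cast_nonneg _)]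
    rw [hsq] at q2
    rw [← hs] at hs1' q1 q2 ⊢
    have hs0 : 0 < s := by linarith
    have q2' : |loc 0 1 u| ≤ a / s := q2.trans (div_le_div_of_nonneg_left (by linarith) hs0 (le_self_pow₀ hs1' (by norm_num)))
    have p1 := m1_le hφ hv
    have p2 := m2_le hφ hv
    have hx0 : (0 : ℝ) ≤ deg v / M := by positivity
    unfold psi
    rw [loc_lin, abs_mul]
    have e : |(-2 : ℝ)| = 2 := by norm_num
    rw [e]
    have h3 : |m1 φ M (deg v) * loc 1 0 u + m2 φ M (deg v) * loc 0 1 u| ≤ A * (deg v / M) * (a / s) + A * (deg v / M) * (a / s) := by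
      refine (abs_add_le _ _).trans ?_
      rw [abs_mul, abs_mul]
      exact add_le_add (mul_le_mul p1 q1 (abs_nonneg _) (by positivity)) (mul_le_mul p2 q2' (abs_nonneg _) (by positivity))
    have h4 : 4 * a ≤ B := by
      rw [hBd]
      linarith [sq_nonneg ((r : ℝ) + B₀ + 1)]
    have h5 : 0 ≤ A * (deg v / M) / s := by positivity
    calc 2 * |m1 φ M (deg v) * loc 1 0 u + m2 φ M (deg v) * loc 0 1 u| ≤ 4 * a * (A * (deg v / M) / s) := by
          have e2 : 4 * a * (A * (deg v / M) / s) = 2 * (A * (deg v / M) * (a / s) + A * (deg v / M) * (a / s)) := by ring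
          rw [e2]
          linarith
      _ ≤ B * (A * (deg v / M) / s) := mul_le_mul_of_nonneg_right h4 h5
      _ = _ := by ring
  · -- the means
    have key : ∀ v ∈ PB k M, |av (fun u : Idx r m → Res v => psi φ M v u) -
        (2 * r * (m1 φ M (deg v) / (Nat.card (Res v) : ℝ)) + 2 * (m2 φ M (deg v) / (Nat.card (Res v) : ℝ)))| ≤
        4 * A * B₀ / M * (deg v * (1 / Real.sqrt (Nat.card (Res v)) ^ 3)) := by
      intro v hv
      rw [mem_PB] at hv
      obtain ⟨s, hs⟩ : ∃ s : ℝ, s = Real.sqrt (Nat.card (Res v)) := ⟨_, rfl⟩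
      have hs1' := hs1 v
      rw [← hs] at hs1' ⊢
      have hs0 : 0 < s := by linarith
      have hsq : (Nat.card (Res v) : ℝ) = s ^ 2 := by rw [hs, Real.sq_sqrt (Nat.cast_nonneg _)]
      have n1 := (hB (Res v) (ring_char h2 v) 1 0 (by norm_num) le_rfl le_rfl (by norm_num)).2.1
      have n2 := (hB (Res v) (ring_char h2 v) 0 1 le_rfl (by norm_num) (by norm_num) le_rfl).2.1
      rw [← hcard, ← hs] at n1 n2
      rw [hsq] at n1 n2 ⊢
      have p1 := m1_le hφ hv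
      have p2 := m2_le hφ hv
      obtain ⟨x, hx⟩ : ∃ x : ℝ, x = m1 φ M (deg v) := ⟨_, rfl⟩
      obtain ⟨y, hy⟩ : ∃ y : ℝ, y = m2 φ M (deg v) := ⟨_, rfl⟩
      have e1 : av (fun u : Idx r m → Res v => psi φ M v u) =
          -2 * (x * av (fun u : Idx r m → Res v => loc 1 0 u) + y * av (fun u : Idx r m → Res v => loc 0 1 u)) := by
        rw [← av_mul, ← av_mul, ← av_add, ← av_mul]
        congr 1
        funext u
        unfold psi
        rw [loc_lin, ← hx, ← hy]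
      rw [e1, ← hx, ← hy]
      rw [← hx] at p1
      rw [← hy] at p2
      have e2 : -2 * (x * av (fun u : Idx r m → Res v => loc 1 0 u) + y * av (fun u : Idx r m → Res v => loc 0 1 u)) -
          (2 * r * (x / s ^ 2) + 2 * (y / s ^ 2)) =
          -(2 * x) * (av (fun u : Idx r m → Res v => loc 1 0 u) + (1 * r + 0) / s ^ 2) +
            -(2 * y) * (av (fun u : Idx r m → Res v => loc 0 1 u) + (0 * r + 1) / s ^ 2) := by ring
      rw [e2]
      refine (abs_add_le _ _).trans ?_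
      rw [abs_mul, abs_mul, abs_neg, abs_neg, abs_mul, abs_mul, abs_two]
      have b1 : 2 * |x| * |av (fun u : Idx r m → Res v => loc 1 0 u) + (1 * r + 0) / s ^ 2| ≤ 2 * (A * (deg v / M)) * (B₀ / s ^ 3) :=
        mul_le_mul (by linarith) n1 (abs_nonneg _) (by positivity)
      have b2 : 2 * |y| * |av (fun u : Idx r m → Res v => loc 0 1 u) + (0 * r + 1) / s ^ 2| ≤ 2 * (A * (deg v / M)) * (B₀ / s ^ 3) :=
        mul_le_mul (by linarith) n2 (abs_nonneg _) (by positivity)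
      refine (add_le_add b1 b2).trans (le_of_eq ?_)
      ring
    have h3 : |∑ v ∈ PB k M, av (fun u : Idx r m → Res v => psi φ M v u) -
        (2 * r * ∑ v ∈ PB k M, m1 φ M (deg v) / (Nat.card (Res v) : ℝ) + 2 * ∑ v ∈ PB k M, m2 φ M (deg v) / (Nat.card (Res v) : ℝ))| ≤
        8 * A * B₀ / M := by
      have e : ∑ v ∈ PB k M, av (fun u : Idx r m → Res v => psi φ M v u) -
          (2 * r * ∑ v ∈ PB k M, m1 φ M (deg v) / (Nat.card (Res v) : ℝ) + 2 * ∑ v ∈ PB k M, m2 φ M (deg v) / (Nat.card (Res v) : ℝ)) =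
          ∑ v ∈ PB k M, (av (fun u : Idx r m → Res v => psi φ M v u) -
            (2 * r * (m1 φ M (deg v) / (Nat.card (Res v) : ℝ)) + 2 * (m2 φ M (deg v) / (Nat.card (Res v) : ℝ)))) := by
        rw [sum_sub_distrib, sum_add_distrib, mul_sum, mul_sum]
      rw [e]
      refine (abs_sum_le_sum_abs _ _).trans ((sum_le_sum key).trans ?_)
      rw [← mul_sum]
      calc 4 * A * B₀ / M * ∑ v ∈ PB k M, (deg v : ℝ) * (1 / Real.sqrt (Nat.card (Res v)) ^ 3) ≤ 4 * A * B₀ / M * 2 :=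
            mul_le_mul_of_nonneg_left hconv (by positivity)
        _ = _ := by ring
    have h4 := sum_approx' h2 M (m1 φ M) (A / M) (by positivity) (fun d hd => by
      have := m1_le hφ (mem_Ico.1 hd).2
      refine this.trans (le_of_eq ?_)
      ring)
    have h5 := sum_approx' h2 M (m2 φ M) (A / M) (by positivity) (fun d hd => by
      have := m2_le hφ (mem_Ico.1 hd).2
      refine this.trans (le_of_eq ?_)
      ring)
    obtain ⟨X, hX⟩ : ∃ X : ℝ, X = ∑ v ∈ PB k M, m1 φ M (deg v) / (Nat.card (Res v) : ℝ) := ⟨_, rfl⟩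
    obtain ⟨Y, hY⟩ : ∃ Y : ℝ, Y = ∑ v ∈ PB k M, m2 φ M (deg v) / (Nat.card (Res v) : ℝ) := ⟨_, rfl⟩
    obtain ⟨X', hX'⟩ : ∃ X' : ℝ, X' = ∑ d ∈ Ico 1 M, m1 φ M d / d := ⟨_, rfl⟩
    obtain ⟨Y', hY'⟩ : ∃ Y' : ℝ, Y' = ∑ d ∈ Ico 1 M, m2 φ M d / d := ⟨_, rfl⟩
    obtain ⟨Z, hZ⟩ : ∃ Z : ℝ, Z = ∑ v ∈ PB k M, av (fun u : Idx r m → Res v => psi φ M v u) := ⟨_, rfl⟩
    rw [← hX, ← hY, ← hZ] at h3
    rw [← hX, ← hX'] at h4
    rw [← hY, ← hY'] at h5
    rw [← hX', ← hY', ← hZ]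
    have e : Z - (2 * r * X' + 2 * Y') = (Z - (2 * r * X + 2 * Y)) + 2 * r * (X - X') + 2 * (Y - Y') := by ring
    rw [e]
    have b1 : |2 * (r : ℝ) * (X - X')| ≤ 2 * r * (12 * (A / M)) := by
      rw [abs_mul, abs_of_nonneg (by positivity : 0 ≤ 2 * (r : ℝ))]
      exact mul_le_mul_of_nonneg_left h4 (by positivity)
    have b2 : |2 * (Y - Y')| ≤ 2 * (12 * (A / M)) := by
      rw [abs_mul, abs_two]
      exact mul_le_mul_of_nonneg_left h5 (by norm_num)
    refine (abs_add_three _ _ _).trans ?_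
    have b3 : 8 * A * B₀ / M + 2 * r * (12 * (A / M)) + 2 * (12 * (A / M)) = (8 * B₀ + 24 * r + 24) * A / M := by ring
    have b4 : (8 * B₀ + 24 * r + 24) * A / M ≤ B * A / M := by
      refine div_le_div_of_nonneg_right (mul_le_mul_of_nonneg_right ?_ hA0.le) hM'.le
      rw [hBd]
      linarith [sq_nonneg ((r : ℝ) + B₀ + 1)]
    linarith
  · -- the variances
    have key : ∀ v ∈ PB k M, |(av (fun u : Idx r m → Res v => psi φ M v u ^ 2) - av (fun u : Idx r m → Res v => psi φ M v u) ^ 2) -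
        4 * (m1 φ M (deg v) ^ 2 / (Nat.card (Res v) : ℝ))| ≤
        (16 * (a ^ 2 * B₀) + 16 * (r + B₀ + 1) ^ 2) * A ^ 2 / M * (deg v * (1 / Real.sqrt (Nat.card (Res v)) ^ 3)) := by
      intro v hv
      rw [mem_PB] at hv
      obtain ⟨s, hs⟩ : ∃ s : ℝ, s = Real.sqrt (Nat.card (Res v)) := ⟨_, rfl⟩
      have hs1' := hs1 v
      have q1 := hl1 v
      have q2 := hl2 v
      have hsq : (Nat.card (Res v) : ℝ) = s ^ 2 := by rw [hs, Real.sq_sqrt (Nat.cast_nonneg _)]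
      rw [← hs] at hs1' q1 ⊢
      have hs0 : 0 < s := by linarith
      have n1 := (hB (Res v) (ring_char h2 v) 1 0 (by norm_num) le_rfl le_rfl (by norm_num)).2
      have n2 := (hB (Res v) (ring_char h2 v) 0 1 le_rfl (by norm_num) (by norm_num) le_rfl).2
      rw [← hcard, ← hs] at n1 n2
      rw [hsq] at n1 n2 q2 ⊢
      have p1 := m1_le hφ hv
      have p2 := m2_le hφ hv
      obtain ⟨x, hx⟩ : ∃ x : ℝ, x = m1 φ M (deg v) := ⟨_, rfl⟩
      obtain ⟨y, hy⟩ : ∃ y : ℝ, y = m2 φ M (deg v) := ⟨_, rfl⟩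
      obtain ⟨z, hz⟩ : ∃ z : ℝ, z = (deg v : ℝ) / M := ⟨_, rfl⟩
      have hz0 : 0 ≤ z := by rw [hz]; positivity
      have hz1 : z ≤ 1 := by
        rw [hz, div_le_one hM']
        exact_mod_cast hv.le
      rw [← hx, ← hz] at p1
      rw [← hy, ← hz] at p2
      rw [← hx]
      obtain ⟨P, hP⟩ : ∃ P : ℝ, P = av (fun u : Idx r m → Res v => loc 1 0 u) := ⟨_, rfl⟩
      obtain ⟨Q, hQ⟩ : ∃ Q : ℝ, Q = av (fun u : Idx r m → Res v => loc 0 1 u) := ⟨_, rfl⟩
      obtain ⟨P2, hP2⟩ : ∃ P2 : ℝ, P2 = av (fun u : Idx r m → Res v => loc 1 0 u ^ 2) := ⟨_, rfl⟩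
      obtain ⟨Q2, hQ2⟩ : ∃ Q2 : ℝ, Q2 = av (fun u : Idx r m → Res v => loc 0 1 u ^ 2) := ⟨_, rfl⟩
      obtain ⟨PQ, hPQ⟩ : ∃ PQ : ℝ, PQ = av (fun u : Idx r m → Res v => loc 1 0 u * loc 0 1 u) := ⟨_, rfl⟩
      rw [← hP, ← hP2] at n1
      rw [← hQ, ← hQ2] at n2
      have e1 : av (fun u : Idx r m → Res v => psi φ M v u) = -2 * (x * P + y * Q) := by
        rw [hP, hQ, ← av_mul, ← av_mul, ← av_add, ← av_mul]
        congr 1
        funext u
        unfold psi
        rw [loc_lin, ← hx, ← hy]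
      have e2 : av (fun u : Idx r m → Res v => psi φ M v u ^ 2) = 4 * (x ^ 2 * P2 + (2 * x * y) * PQ + y ^ 2 * Q2) := by
        rw [hP2, hQ2, hPQ, ← av_mul, ← av_mul, ← av_mul, ← av_add, ← av_add, ← av_mul]
        congr 1
        funext u
        unfold psi
        rw [loc_lin, ← hx, ← hy]
        ring
      rw [e1, e2]
      have hPQb : |PQ| ≤ a * a / s ^ 3 := by
        rw [hPQ]
        refine (abs_av_le _).trans ((av_mono fun u => ?_).trans (le_of_eq (av_const (a * a / s ^ 3))))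
        rw [abs_mul]
        calc |loc 1 0 u| * |loc 0 1 u| ≤ (a / s) * (a / s ^ 2) := mul_le_mul (q1 u) (q2 u) (abs_nonneg _) (by positivity)
          _ = _ := by field_simp
      have hPQb' : |PQ| ≤ a * a / s ^ 3 := hPQb
      have hQ2b : |Q2| ≤ B₀ / s ^ 3 := by
        have := n2.2
        have e : (0 : ℝ) ^ 2 / s ^ 2 = 0 := by norm_num
        rwa [e, sub_zero] at this
      have hP2b : |P2 - 1 / s ^ 2| ≤ B₀ / s ^ 3 := by
        have := n1.2
        rwa [one_pow] at this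
      have hPb : |P| ≤ (r + B₀ + 1) / s ^ 2 := by
        have h3 := n1.1
        have e : (1 * (r : ℝ) + 0) / s ^ 2 = r / s ^ 2 := by ring
        rw [e] at h3
        have h4 : |P| ≤ |P + r / s ^ 2| + |r / s ^ 2| := by
          have := abs_sub (P + r / s ^ 2) (r / s ^ 2)
          rwa [add_sub_cancel_right] at this
        rw [abs_of_nonneg (by positivity : 0 ≤ (r : ℝ) / s ^ 2)] at h4
        have h5 : B₀ / s ^ 3 ≤ B₀ / s ^ 2 := div_le_div_of_nonneg_left (by linarith) (by positivity) (pow_le_pow_right₀ hs1' (by norm_num))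
        have h6 : (0 : ℝ) ≤ 1 / s ^ 2 := by positivity
        have e2 : (r + B₀ + 1) / s ^ 2 = r / s ^ 2 + B₀ / s ^ 2 + 1 / s ^ 2 := by ring
        linarith
      have hQb : |Q| ≤ (r + B₀ + 1) / s ^ 2 := by
        have h3 := n2.1
        have e : (0 * (r : ℝ) + 1) / s ^ 2 = 1 / s ^ 2 := by ring
        rw [e] at h3
        have h4 : |Q| ≤ |Q + 1 / s ^ 2| + |1 / s ^ 2| := by
          have := abs_sub (Q + 1 / s ^ 2) (1 / s ^ 2)
          rwa [add_sub_cancel_right] at this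
        rw [abs_of_nonneg (by positivity : (0 : ℝ) ≤ 1 / s ^ 2)] at h4
        have h5 : B₀ / s ^ 3 ≤ B₀ / s ^ 2 := div_le_div_of_nonneg_left (by linarith) (by positivity) (pow_le_pow_right₀ hs1' (by norm_num))
        have h6 : (0 : ℝ) ≤ r / s ^ 2 := by positivity
        have e2 : (r + B₀ + 1) / s ^ 2 = r / s ^ 2 + B₀ / s ^ 2 + 1 / s ^ 2 := by ring
        linarith
      have hAz : A ^ 2 * z ^ 2 ≤ A ^ 2 * z := mul_le_mul_of_nonneg_left (by
        rw [sq]
        exact mul_le_of_le_one_left hz0 hz1) (by positivity)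
      have hx2 : x ^ 2 ≤ A ^ 2 * z := by
        calc x ^ 2 = |x| ^ 2 := (sq_abs _).symm
          _ ≤ (A * z) ^ 2 := pow_le_pow_left₀ (abs_nonneg _) p1 2
          _ = A ^ 2 * z ^ 2 := by ring
          _ ≤ _ := hAz
      have hy2 : y ^ 2 ≤ A ^ 2 * z := by
        calc y ^ 2 = |y| ^ 2 := (sq_abs _).symm
          _ ≤ (A * z) ^ 2 := pow_le_pow_left₀ (abs_nonneg _) p2 2
          _ = A ^ 2 * z ^ 2 := by ring
          _ ≤ _ := hAz
      have hxy : |x * y| ≤ A ^ 2 * z := by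
        rw [abs_mul]
        calc |x| * |y| ≤ (A * z) * (A * z) := mul_le_mul p1 p2 (abs_nonneg _) (by positivity)
          _ = A ^ 2 * z ^ 2 := by ring
          _ ≤ _ := hAz
      have e3 : 4 * (x ^ 2 * P2 + (2 * x * y) * PQ + y ^ 2 * Q2) - (-2 * (x * P + y * Q)) ^ 2 - 4 * (x ^ 2 / s ^ 2) =
          4 * (x ^ 2 * (P2 - 1 / s ^ 2)) + 8 * ((x * y) * PQ) + 4 * (y ^ 2 * Q2) - (2 * (x * P + y * Q)) ^ 2 := by ring
      rw [e3]
      have b1 : |4 * (x ^ 2 * (P2 - 1 / s ^ 2))| ≤ 4 * (A ^ 2 * z * (B₀ / s ^ 3)) := by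
        rw [abs_mul, abs_mul, abs_of_nonneg (by norm_num : (0 : ℝ) ≤ 4), abs_of_nonneg (sq_nonneg x)]
        exact mul_le_mul_of_nonneg_left (mul_le_mul hx2 hP2b (abs_nonneg _) (by positivity)) (by norm_num)
      have b2 : |8 * ((x * y) * PQ)| ≤ 8 * (A ^ 2 * z * (a * a / s ^ 3)) := by
        rw [abs_mul, abs_mul, abs_of_nonneg (by norm_num : (0 : ℝ) ≤ 8)]
        exact mul_le_mul_of_nonneg_left (mul_le_mul hxy hPQb' (abs_nonneg _) (by positivity)) (by norm_num)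
      have b3 : |4 * (y ^ 2 * Q2)| ≤ 4 * (A ^ 2 * z * (B₀ / s ^ 3)) := by
        rw [abs_mul, abs_mul, abs_of_nonneg (by norm_num : (0 : ℝ) ≤ 4), abs_of_nonneg (sq_nonneg y)]
        exact mul_le_mul_of_nonneg_left (mul_le_mul hy2 hQ2b (abs_nonneg _) (by positivity)) (by norm_num)
      have b4 : (2 * (x * P + y * Q)) ^ 2 ≤ 16 * (r + B₀ + 1) ^ 2 * (A ^ 2 * z) / s ^ 3 := by
        have h3 : |x * P + y * Q| ≤ 2 * (A * z) * ((r + B₀ + 1) / s ^ 2) := by
          refine (abs_add_le _ _).trans ?_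
          rw [abs_mul, abs_mul]
          have c1 := mul_le_mul p1 hPb (abs_nonneg _) (by positivity)
          have c2 := mul_le_mul p2 hQb (abs_nonneg _) (by positivity)
          linarith
        have h4 : (x * P + y * Q) ^ 2 ≤ (2 * (A * z) * ((r + B₀ + 1) / s ^ 2)) ^ 2 := by
          rw [← sq_abs (x * P + y * Q)]
          exact pow_le_pow_left₀ (abs_nonneg _) h3 2
        have h5 : (2 * (A * z) * ((r + B₀ + 1) / s ^ 2)) ^ 2 = 4 * (r + B₀ + 1) ^ 2 * (A ^ 2 * z ^ 2) / s ^ 4 := by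
          rw [mul_pow, div_pow, ← pow_mul]
          ring
        have h6 : 4 * (r + B₀ + 1) ^ 2 * (A ^ 2 * z ^ 2) / s ^ 4 ≤ 4 * (r + B₀ + 1) ^ 2 * (A ^ 2 * z) / s ^ 3 := by
          refine div_le_div₀ (by positivity) (mul_le_mul_of_nonneg_left hAz (by positivity)) (by positivity) (pow_le_pow_right₀ hs1' (by norm_num))
        have e : (2 * (x * P + y * Q)) ^ 2 = 4 * (x * P + y * Q) ^ 2 := by ring
        have e2 : 16 * ((r : ℝ) + B₀ + 1) ^ 2 * (A ^ 2 * z) / s ^ 3 = 4 * (4 * (r + B₀ + 1) ^ 2 * (A ^ 2 * z) / s ^ 3) := by ring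
        rw [e, e2]
        linarith
      have b5 := sq_nonneg (2 * (x * P + y * Q))
      have e4 : (16 * (a ^ 2 * B₀) + 16 * (r + B₀ + 1) ^ 2) * A ^ 2 / M * (deg v * (1 / s ^ 3)) =
          16 * (a ^ 2 * B₀) * (A ^ 2 * z / s ^ 3) + 16 * (r + B₀ + 1) ^ 2 * (A ^ 2 * z) / s ^ 3 := by
        rw [hz]
        ring
      rw [e4]
      have hpos : 0 ≤ A ^ 2 * z / s ^ 3 := by positivity
      have c1 : 4 * (A ^ 2 * z * (B₀ / s ^ 3)) = 4 * B₀ * (A ^ 2 * z / s ^ 3) := by ring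
      have c2 : 8 * (A ^ 2 * z * (a * a / s ^ 3)) = 8 * a ^ 2 * (A ^ 2 * z / s ^ 3) := by ring
      have c3 : (8 * B₀ + 8 * a ^ 2) * (A ^ 2 * z / s ^ 3) ≤ 16 * (a ^ 2 * B₀) * (A ^ 2 * z / s ^ 3) :=
        mul_le_mul_of_nonneg_right (by linarith) hpos
      rw [c1] at b1 b3
      rw [c2] at b2
      rw [abs_le] at b1 b2 b3 ⊢
      constructor <;> linarith [b1.1, b1.2, b2.1, b2.2, b3.1, b3.2]
    have h3 : |∑ v ∈ PB k M, (av (fun u : Idx r m → Res v => psi φ M v u ^ 2) - av (fun u : Idx r m → Res v => psi φ M v u) ^ 2) -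
        4 * ∑ v ∈ PB k M, m1 φ M (deg v) ^ 2 / (Nat.card (Res v) : ℝ)| ≤
        2 * ((16 * (a ^ 2 * B₀) + 16 * (r + B₀ + 1) ^ 2) * A ^ 2 / M) := by
      rw [mul_sum, ← sum_sub_distrib]
      refine (abs_sum_le_sum_abs _ _).trans ((sum_le_sum key).trans ?_)
      rw [← mul_sum]
      calc (16 * (a ^ 2 * B₀) + 16 * (r + B₀ + 1) ^ 2) * A ^ 2 / M * ∑ v ∈ PB k M, (deg v : ℝ) * (1 / Real.sqrt (Nat.card (Res v)) ^ 3) ≤
            (16 * (a ^ 2 * B₀) + 16 * (r + B₀ + 1) ^ 2) * A ^ 2 / M * 2 := mul_le_mul_of_nonneg_left hconv (by positivity)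
        _ = _ := by ring
    have h4 := sum_approx' h2 M (fun d => m1 φ M d ^ 2) (A ^ 2 / M) (by positivity) (fun d hd => by
      have hdM := (mem_Ico.1 hd).2
      have h5 := m1_le hφ hdM
      show |m1 φ M d ^ 2| ≤ A ^ 2 / M * d
      rw [abs_of_nonneg (sq_nonneg _), ← sq_abs]
      have h6 : (d : ℝ) / M ≤ 1 := by
        rw [div_le_one hM']
        exact_mod_cast hdM.le
      have h7 : 0 ≤ (d : ℝ) / M := by positivity
      calc |m1 φ M d| ^ 2 ≤ (A * (d / M)) ^ 2 := pow_le_pow_left₀ (abs_nonneg _) h5 2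
        _ = A ^ 2 * ((d / M) * (d / M)) := by ring
        _ ≤ A ^ 2 * ((d / M) * 1) := mul_le_mul_of_nonneg_left (mul_le_mul_of_nonneg_left h6 h7) (by positivity)
        _ = A ^ 2 / M * d := by ring)
    have h4' : |∑ v ∈ PB k M, m1 φ M (deg v) ^ 2 / (Nat.card (Res v) : ℝ) - ∑ d ∈ Ico 1 M, m1 φ M d ^ 2 / d| ≤ 12 * (A ^ 2 / M) := h4
    have e : 2 * ((16 * (a ^ 2 * B₀) + 16 * (r + B₀ + 1) ^ 2) * A ^ 2 / M) + 4 * (12 * (A ^ 2 / M)) =
        (32 * (a ^ 2 * B₀) + 32 * (r + B₀ + 1) ^ 2 + 48) * A ^ 2 / M := by ring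
    have e2 : (32 * (a ^ 2 * B₀) + 32 * (r + B₀ + 1) ^ 2 + 48) * A ^ 2 / M ≤ B * A ^ 2 / M := by
      refine div_le_div_of_nonneg_right (mul_le_mul_of_nonneg_right ?_ (by positivity)) hM'.le
      rw [hBd]
      linarith [sq_nonneg ((r : ℝ) + B₀ + 1)]
    rw [abs_le] at h3 h4' ⊢
    constructor <;> linarith [h3.1, h3.2, h4'.1, h4'.2]
  · intro n hMn
    rw [av_sum]
    refine (sum_le_sum (g := fun v : Place k => (4 * A * c / M) * ((deg v : ℝ) * (1 / Real.sqrt (Nat.card (Res v)) ^ 3))) fun v hv => ?_).trans ?_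
    · have hv' := mem_PB.1 hv
      have h3 := av_one (ι := Idx r m) v (n := n) (by omega) (fun u => bx g φ M v u)
      rw [h3]
      obtain ⟨W, hW⟩ : ∃ W : ℝ, W = 2 * (|m1 φ M (deg v)| + |m2 φ M (deg v)|) * (12 * g + 5) / Real.sqrt (Nat.card (Res v)) := ⟨_, rfl⟩
      have h4 : av (fun u : Idx r m → Res v => bx g φ M v u) = W * av (fun u : Idx r m → Res v => bd u) := by
        rw [← av_mul]
        congr 1
        funext u
        unfold bx
        rw [← hW]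
        ring
      rw [h4]
      have h5 : av (fun u : Idx r m → Res v => bd u) ≤ (r ^ 2 + r + g) / (Nat.card (Res v) : ℝ) := by
        classical
        have h6 := Q282.JK.bad_card (F := Res v) (r := r) (m := m) hrm hrg
        rw [av_def]
        have h7 : ∑ u : Idx r m → Res v, bd u = (((univ : Finset (Idx r m → Res v)).filter fun u => ¬ Squarefree (fpol u)).card : ℝ) := by
          unfold bd
          rw [card_filter]
          push_cast
          refine sum_congr rfl fun u _ => ?_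
          by_cases h8 : Squarefree (fpol u)
          · simp [h8]
          · simp [h8]
        have hQ0 : 0 < (Fintype.card (Res v) : ℝ) ^ Fintype.card (Idx r m) := by
          have : (0 : ℝ) < Fintype.card (Res v) := by exact_mod_cast Fintype.card_pos
          positivity
        have hR0 : (0 : ℝ) < Nat.card (Res v) := by exact_mod_cast Nat.card_pos
        rw [h7, div_le_div_iff₀ hQ0 hR0, hcard]
        refine le_trans (le_of_eq ?_) h6
        congr
      have p1 := m1_le hφ hv'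
      have p2 := m2_le hφ hv'
      have hs0 : 0 < Real.sqrt (Nat.card (Res v)) := by linarith [hs1 v]
      have hsq : (Nat.card (Res v) : ℝ) = Real.sqrt (Nat.card (Res v)) ^ 2 := by rw [Real.sq_sqrt (Nat.cast_nonneg _)]
      have hW2 : W ≤ 4 * (A * (deg v / M)) * (12 * g + 5) / Real.sqrt (Nat.card (Res v)) := by
        rw [hW]
        refine div_le_div_of_nonneg_right (mul_le_mul_of_nonneg_right ?_ (by positivity)) hs0.le
        linarith
      calc W * av (fun u : Idx r m → Res v => bd u) ≤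
          (4 * (A * (deg v / M)) * (12 * g + 5) / Real.sqrt (Nat.card (Res v))) * ((r ^ 2 + r + g) / (Nat.card (Res v) : ℝ)) :=
            mul_le_mul hW2 h5 (av_nonneg fun u => by unfold bd; split_ifs <;> norm_num) (by positivity)
        _ = (4 * (A * (deg v / M)) * (12 * g + 5) / Real.sqrt (Nat.card (Res v))) * ((r ^ 2 + r + g) / Real.sqrt (Nat.card (Res v)) ^ 2) := by rw [← hsq]
        _ = _ := by
          rw [hc]
          field_simp
    · rw [← mul_sum]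
      calc 4 * A * c / M * ∑ v ∈ PB k M, (deg v : ℝ) * (1 / Real.sqrt (Nat.card (Res v)) ^ 3) ≤ 4 * A * c / M * 2 :=
            mul_le_mul_of_nonneg_left hconv (by positivity)
        _ = 8 * c * A / M := by ring
        _ ≤ B * A / M := by
          refine div_le_div_of_nonneg_right (mul_le_mul_of_nonneg_right ?_ hA0.le) hM'.le
          rw [hBd]
          linarith [sq_nonneg ((r : ℝ) + B₀ + 1)]
  · intro v u
    unfold bx
    refine mul_nonneg ?_ (by positivity)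
    unfold bd
    split_ifs <;> norm_num

end Q282.FF
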