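import Pool.Agent.Q282.FF.Om
import Pool.Agent.Q282.JK.RankK

/-!
# The rank of almost all Jacobians with marked points over `k(T)`
-/

set_option autoImplicit false
set_option linter.unusedSectionVars false

namespace Q282.FF

open Polynomial Finset
open Q282.JK (Idx fpol mpt hpt lpt fpol_monic fpol_natDegree fpol_map mpt_map HasClassRank CoordRing red_id dens_irr dens_S)
open Q282.CL

/-- The polynomial `f_t` is irreducible over `k(T)` and the class group of the coordinate ring of the affine curve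
`y ^ 2 = f_t(x)` over `k(T)`, that is the group of the `k(T)`-rational points of its Jacobian, has rank at least `r`. -/
def Ok {k : Type} [Field k] {r m n : ℕ} (t : Par k r m n) : Prop :=
  Irreducible ((curve t).map (algebraMap k[X] (RatFunc k))) ∧
    HasClassRank (CoordRing ((curve t).map (algebraMap k[X] (RatFunc k)))) r

section

variable {k : Type} [Field k] [Fintype k] [DecidableEq k] {r m n : ℕ}

/-- the property of a set of marked points at a place -/
def RS (S : Finset (Fin r)) (v : Place k) (u : Idx r m → Res v) : Prop :=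
  ∀ α : Res v, (fpol u).eval α = 0 → (∀ i, u (Sum.inl i) ≠ α) → IsSquare (∏ i ∈ S, (u (Sum.inl i) - α))

/-- the conditions for the rank -/
theorem ok_of (h2k : (2 : k) ≠ 0) (g : ℕ) (hrm : r + m = 2 * g + 1) (hrg : r ≤ g) (hg : 1 ≤ g) (t : Par k r m n)
    (hirr : ∃ v : Place k, Irreducible (fpol (rt v t)))
    (hS : ∀ S : Finset (Fin r), S.Nonempty → ∃ v : Place k, ¬ RS S v (rt v t)) : Ok t := by
  classical
  have hrm' : r ≤ m := by omega
  obtain ⟨F, hF⟩ : ∃ F : (RatFunc k)[X], F = (curve t).map (algebraMap k[X] (RatFunc k)) := ⟨_, rfl⟩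
  have hmon : (curve t).Monic := fpol_monic hrm' _
  have hFmon : F.Monic := by rw [hF]; exact hmon.map _
  have hFdeg : F.natDegree = 2 * g + 1 := by
    rw [hF, hmon.natDegree_map]
    unfold curve
    rw [fpol_natDegree hrm', hrm]
  have hcd : (curve t).natDegree = 2 * g + 1 := by
    unfold curve
    rw [fpol_natDegree hrm', hrm]
  -- irreducibility
  have hFirr : Irreducible F := by
    obtain ⟨v, hv⟩ := hirr
    rw [hF, ← hmon.irreducible_iff_irreducible_map_fraction_map]
    refine Polynomial.Monic.irreducible_of_irreducible_map (red v) _ hmon ?_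
    have : (curve t).map (red v) = fpol (rt v t) := fpol_map (red v) _
    rw [this]
    exact hv
  have h2 : (2 : RatFunc k) ≠ 0 := by
    have h : (2 : RatFunc k) = algebraMap k (RatFunc k) 2 := by rw [map_ofNat]
    rw [h]
    exact (_root_.map_ne_zero _).2 h2k
  have hodd : Odd F.natDegree := ⟨g, hFdeg⟩
  have hded : IsDedekindDomain (Pool.Agent.TH943.HJ.CR F) :=
    Pool.Agent.TH943.HJ.dedekind h2 hodd hFirr.squarefree
  obtain ⟨a, ha⟩ : ∃ a : Fin r → RatFunc k, a = fun i => algebraMap k[X] (RatFunc k) (t (Sum.inl i)).1 := ⟨_, rfl⟩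
  obtain ⟨l, hl⟩ : ∃ l : (RatFunc k)[X], l = (lpt fun i => (t i).1).map (algebraMap k[X] (RatFunc k)) := ⟨_, rfl⟩
  have hFeq : F = (∏ i, (X - C (a i))) * (hpt fun i => (t i).1).map (algebraMap k[X] (RatFunc k)) + l ^ 2 := by
    rw [hF, hl, ha]
    unfold curve fpol
    rw [Polynomial.map_add, Polynomial.map_mul, Polynomial.map_pow, mpt_map]
    rfl
  -- the marked points are different
  have hdist : ∀ i j, i ≠ j → a i ≠ a j := by
    intro i j hij h
    obtain ⟨v, hv⟩ := hS {i, j} (insert_nonempty _ _)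
    apply hv
    intro α _ _
    rw [prod_pair hij]
    have h1 : (t (Sum.inl i)).1 = (t (Sum.inl j)).1 := by
      rw [ha] at h
      exact (IsFractionRing.injective k[X] (RatFunc k)) h
    show IsSquare ((red v (t (Sum.inl i)).1 - α) * (red v (t (Sum.inl j)).1 - α))
    rw [h1]
    exact ⟨_, rfl⟩
  have hPts : Pool.Agent.TH943.HJ.Pts F (fun i => X - C (a i)) (fun _ => l) := by
    refine ⟨fun i => monic_X_sub_C _, fun i => ?_, fun i => ?_, fun i j hij => ?_⟩
    · have e : F - l ^ 2 = (∏ i, (X - C (a i))) * (hpt fun i => (t i).1).map (algebraMap k[X] (RatFunc k)) := by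
        rw [hFeq]
        ring
      rw [e]
      exact (dvd_prod_of_mem (fun i => X - C (a i)) (mem_univ i)).mul_right _
    · rw [(irreducible_X_sub_C (a i)).coprime_iff_not_dvd]
      intro hd
      have h1 : X - C (a i) ∣ F := by
        rw [hFeq]
        exact dvd_add ((dvd_prod_of_mem (fun i => X - C (a i)) (mem_univ i)).mul_right _) (dvd_pow hd two_ne_zero)
      have h3 := ((irreducible_X_sub_C (a i)).dvd_irreducible_iff_associated hFirr).1 h1
      have h4 := natDegree_eq_of_degree_eq (degree_eq_degree_of_associated h3)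
      rw [natDegree_X_sub_C, hFdeg] at h4
      omega
    · exact isCoprime_X_sub_C_of_isUnit_sub (sub_ne_zero.2 (hdist i j hij)).isUnit
  have hrank := Pool.Agent.TH943.HJ.rank_ge h2 hodd hFirr hPts (by
    intro W V c e hc hid
    by_contra hno
    push Not at hno
    obtain ⟨i₀, hi₀⟩ := hno
    obtain ⟨v, hv⟩ := hS (univ.filter fun i => Odd (e i)) ⟨i₀, mem_filter.2 ⟨mem_univ _, Nat.not_even_iff_odd.1 hi₀⟩⟩
    apply hv
    intro α hα hne
    have hP : Ideal.span {v.1} ≠ (⊤ : Ideal k[X]) := by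
      rw [Ne, Ideal.span_singleton_eq_top]
      exact v.2.2.not_isUnit
    refine red_id (K := RatFunc k) (Ideal.span {v.1}) hP (red v) (fun x hx => ?_) (curve t) hmon
      (by rw [hcd]; exact ⟨g, rfl⟩) W V c hc (fun i => (t (Sum.inl i)).1) e ?_ α ?_ hne
    · rw [Ideal.mem_span_singleton]
      exact AdjoinRoot.mk_eq_zero.1 hx
    · rw [← hF, hid, ha]
    · have : (curve t).map (red v) = fpol (rt v t) := fpol_map (red v) _
      rw [this]
      exact hα)
  rw [Fintype.card_fin] at hrank
  refine ⟨?_, ?_⟩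
  · rw [← hF]
    exact hFirr
  · rw [← hF]
    exact ⟨hded, hrank⟩

open Classical in
/-- a property which fails at no place of a finite set -/
lemma sieve (S : Finset (Place k)) (hn : ∑ v ∈ S, deg v ≤ n) (Q : ∀ v : Place k, (Idx r m → Res v) → Prop) {c : ℝ} (_ : 0 ≤ c)
    (hQ : ∀ v ∈ S, (((univ : Finset (Idx r m → Res v)).filter fun u => Q v u).card : ℝ) ≤ c * (Fintype.card (Res v) : ℝ) ^ Fintype.card (Idx r m)) :
    ((univ.filter fun t : Par k r m n => ∀ v ∈ S, Q v (rt v t)).card : ℝ) ≤ c ^ S.card * Fintype.card (Par k r m n) := by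
  have h1 := av_prod (ι := Idx r m) S hn (fun v u => if Q v u then (1 : ℝ) else 0)
  have h2 : (fun t : Par k r m n => ∏ v ∈ S, if Q v (rt v t) then (1 : ℝ) else 0) = fun t => if ∀ v ∈ S, Q v (rt v t) then 1 else 0 := by
    funext t
    split_ifs with h
    · exact prod_eq_one fun v hv => by rw [if_pos (h v hv)]
    · push Not at h
      obtain ⟨v, hv, hQv⟩ := h
      exact prod_eq_zero hv (if_neg hQv)
  have h3 : ∀ v ∈ S, av (fun u : Idx r m → Res v => if Q v u then (1 : ℝ) else 0) ≤ c := by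
    intro v hv
    unfold av
    have hcard : (0 : ℝ) < Fintype.card (Idx r m → Res v) := by
      rw [Fintype.card_fun]
      have : 0 < Fintype.card (Res v) := Fintype.card_pos
      positivity
    rw [sum_boole, div_le_iff₀ hcard, Fintype.card_fun]
    push_cast
    exact hQ v hv
  have h4 : ∏ v ∈ S, av (fun u : Idx r m → Res v => if Q v u then (1 : ℝ) else 0) ≤ c ^ S.card := by
    rw [← prod_const]
    exact prod_le_prod (fun v _ => av_nonneg fun u => by split_ifs <;> norm_num) h3
  rw [h2] at h1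
  rw [← h1] at h4
  unfold av at h4
  rw [sum_boole] at h4
  have hcard : (0 : ℝ) < Fintype.card (Par k r m n) := by
    have : Nonempty (Par k r m n) := ⟨fun _ => 0⟩
    exact_mod_cast Fintype.card_pos
  rwa [div_le_iff₀ hcard] at h4

/-- many places of large degree -/
lemma exists_places (h2 : (2 : k) ≠ 0) (s M : ℕ) : ∃ S : Finset (Place k), M ≤ S.card ∧ (∀ v ∈ S, s ≤ Nat.card (Res v)) ∧
    ∑ v ∈ S, deg v ≤ M * (s + M + 2) := by
  have hq : 3 ≤ Nat.card k := three_le h2
  have hne : ∀ d : ℕ, 2 ≤ d → (PL k d).Nonempty := by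
    intro d hd
    rw [← card_pos]
    have h1 := card_ge h2 d (by omega)
    have h3 : (0 : ℝ) < (Nat.card k : ℝ) ^ d - 2 * (Nat.card k : ℝ) ^ (d / 2) := by
      have h4 : (Nat.card k : ℝ) ^ d = (Nat.card k : ℝ) ^ (d / 2) * (Nat.card k : ℝ) ^ (d - d / 2) := by
        rw [← pow_add]
        congr 1
        omega
      have hq' : (3 : ℝ) ≤ Nat.card k := by exact_mod_cast hq
      have h5 : (3 : ℝ) ≤ (Nat.card k : ℝ) ^ (d - d / 2) :=
        hq'.trans (le_self_pow₀ (by linarith) (by omega))
      have h6 : 0 < (Nat.card k : ℝ) ^ (d / 2) := by positivity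
      rw [h4]
      nlinarith
    have h4 : (0 : ℝ) < (PL k d).card * d := by linarith
    by_contra h5
    have h6 : (PL k d).card = 0 := by omega
    rw [h6] at h4
    simp at h4
  choose f hf using fun d : ℕ => hne (d + 2) (by omega)
  have hdeg : ∀ d, deg (f d) = d + 2 := fun d => mem_PL.1 (hf d)
  refine ⟨(range M).image fun i => f (s + i), ?_, ?_, ?_⟩
  · rw [card_image_of_injective, card_range]
    intro i j hij
    have h1 := hdeg (s + i)
    have h3 : f (s + i) = f (s + j) := hij
    rw [h3, hdeg] at h1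
    omega
  · intro v hv
    rw [mem_image] at hv
    obtain ⟨i, _, rfl⟩ := hv
    rw [res_card, hdeg]
    calc s ≤ s + i + 2 := by omega
      _ ≤ 2 ^ (s + i + 2) := Nat.lt_two_pow_self.le
      _ ≤ Nat.card k ^ (s + i + 2) := Nat.pow_le_pow_left (by omega) _
  · calc ∑ v ∈ (range M).image fun i => f (s + i), deg v ≤ ∑ v ∈ (range M).image fun i => f (s + i), (s + M + 2) := by
          refine sum_le_sum fun v hv => ?_
          rw [mem_image] at hv
          obtain ⟨i, hi, rfl⟩ := hv
          rw [mem_range] at hi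
          rw [hdeg]
          omega
      _ = ((range M).image fun i => f (s + i)).card * (s + M + 2) := by rw [sum_const, smul_eq_mul]
      _ ≤ M * (s + M + 2) := Nat.mul_le_mul_right _ (card_image_le.trans (by rw [card_range]))

end

open Classical in
/-- almost all members have the rank -/
theorem rank_FF (g r m : ℕ) (hrm : r + m = 2 * g + 1) (hrg : r ≤ g) (hg : 1 ≤ g) (ε : ℝ) (hε : 0 < ε) :
    ∃ n₀ : ℕ, ∀ (k : Type) [Field k] [Fintype k] [DecidableEq k], (2 : k) ≠ 0 → ∀ n ≥ n₀, ((univ.filter fun t : Par k r m n => ¬ Ok t).card : ℝ) ≤ ε * Fintype.card (Par k r m n) := by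
  obtain ⟨c, hc⟩ : ∃ c : ℝ, c = 1 - 1 / (2 * (2 * g + 1) * 16 ^ r) := ⟨_, rfl⟩
  have hx0 : 0 < 1 / (2 * (2 * (g : ℝ) + 1) * 16 ^ r) := by positivity
  have hx1 : 1 / (2 * (2 * (g : ℝ) + 1) * 16 ^ r) ≤ 1 / 6 := by
    refine one_div_le_one_div_of_le (by norm_num) ?_
    have h1 : (1 : ℝ) ≤ g := by exact_mod_cast hg
    have h2 : (1 : ℝ) ≤ 16 ^ r := one_le_pow₀ (by norm_num)
    nlinarith
  have hc1 : c < 1 := by rw [hc]; linarith
  have hc0 : 0 ≤ c := by rw [hc]; linarith
  have hc45 : 1 / (5 / 4) ≤ c := by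
    have : (1 : ℝ) / (5 / 4) = 4 / 5 := by norm_num
    rw [hc, this]
    linarith
  obtain ⟨M, hM⟩ := exists_pow_lt_of_lt_one (show 0 < ε / (2 ^ r + 1) by positivity) hc1
  refine ⟨M * ((4 * (2 * g + 1) ^ 2 + 16 * r + 3) + M + 2), fun k _ _ _ h2 n hn => ?_⟩
  obtain ⟨S, hSc, hSb, hSd⟩ := exists_places h2 (4 * (2 * g + 1) ^ 2 + 16 * r + 3) M
  replace hn := hSd.trans hn
  have hcS : c ^ S.card ≤ ε / (2 ^ r + 1) := (pow_le_pow_of_le_one hc0 hc1.le hSc).trans hM.le
  have hbig : ∀ v ∈ S, 4 * (2 * g + 1) ^ 2 + 16 * r + 3 ≤ Fintype.card (Res v) := by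
    intro v hv
    rw [← Nat.card_eq_fintype_card]
    exact hSb v hv
  obtain ⟨E₀, hE₀⟩ : ∃ E₀ : Finset (Par k r m n), E₀ = univ.filter fun t : Par k r m n => ∀ v ∈ S, ¬ Irreducible (fpol (rt v t)) := ⟨_, rfl⟩
  have hE₀c : (E₀.card : ℝ) ≤ c ^ S.card * Fintype.card (Par k r m n) := by
    rw [hE₀]
    refine le_trans (le_of_eq ?_) (sieve (r := r) (m := m) S hn (fun v u => ¬ Irreducible (fpol u)) hc0 ?_)
    · congr
    intro v hv
    have h3 := dens_irr (F := Res v) (r := r) (m := m) (ring_char h2 v) g hrm hrg (by have := hbig v hv; omega)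
    rw [← hc] at h3
    refine le_trans (le_of_eq ?_) h3
    congr
  obtain ⟨ES, hES⟩ : ∃ ES : Finset (Fin r) → Finset (Par k r m n), ES = fun T => univ.filter fun t : Par k r m n => ∀ v ∈ S, RS T v (rt v t) := ⟨_, rfl⟩
  have hESc : ∀ T : Finset (Fin r), T.Nonempty → ((ES T).card : ℝ) ≤ c ^ S.card * Fintype.card (Par k r m n) := by
    intro T hT
    rw [hES]
    refine sieve (r := r) (m := m) S hn (fun v u => RS T v u) hc0 ?_
    intro v hv
    have h3 := dens_S (F := Res v) (r := r) (m := m) (ring_char h2 v) (by omega) T hT (by have := hbig v hv; omega)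
    refine le_trans (le_of_eq ?_) (h3.trans (mul_le_mul_of_nonneg_right hc45 (by positivity)))
    congr
  have hcov : (univ.filter fun t : Par k r m n => ¬ Ok t) ⊆ E₀ ∪ ((univ : Finset (Finset (Fin r))).filter fun T => T.Nonempty).biUnion ES := by
    intro t ht
    rw [mem_union]
    by_contra hno
    rw [not_or] at hno
    refine (mem_filter.1 ht).2 (ok_of h2 g hrm hrg hg t ?_ ?_)
    · have h1 := hno.1
      rw [hE₀, mem_filter] at h1
      have h3 : ¬ ∀ v ∈ S, ¬ Irreducible (fpol (rt v t)) := fun h3 => h1 ⟨mem_univ _, h3⟩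
      push Not at h3
      obtain ⟨v, -, hv⟩ := h3
      exact ⟨v, hv⟩
    · intro T hT
      by_contra hcon
      push Not at hcon
      apply hno.2
      rw [mem_biUnion]
      refine ⟨T, mem_filter.2 ⟨mem_univ _, hT⟩, ?_⟩
      rw [hES]
      exact mem_filter.2 ⟨mem_univ _, fun v _ => hcon v⟩
  have h1 := (Nat.cast_le (α := ℝ)).2 ((card_le_card hcov).trans ((card_union_le _ _).trans (add_le_add le_rfl card_biUnion_le)))
  push_cast at h1
  obtain ⟨W, hW⟩ : ∃ W : ℝ, W = c ^ S.card * Fintype.card (Par k r m n) := ⟨_, rfl⟩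
  rw [← hW] at hE₀c hESc
  have hW0 : 0 ≤ W := by rw [hW]; positivity
  have h3 : ∑ T ∈ (univ : Finset (Finset (Fin r))).filter (fun T => T.Nonempty), ((ES T).card : ℝ) ≤ 2 ^ r * W := by
    refine (sum_le_sum fun T hT => hESc T (mem_filter.1 hT).2).trans ?_
    rw [sum_const, nsmul_eq_mul]
    refine mul_le_mul_of_nonneg_right ?_ hW0
    have h4 : ((univ : Finset (Finset (Fin r))).filter fun T => T.Nonempty).card ≤ 2 ^ r := by
      refine (card_le_univ _).trans (le_of_eq ?_)
      rw [Fintype.card_finset, Fintype.card_fin]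
    exact_mod_cast h4
  have h5 : (2 ^ r + 1) * W ≤ ε * Fintype.card (Par k r m n) := by
    rw [hW, ← mul_assoc]
    refine mul_le_mul_of_nonneg_right ?_ (Nat.cast_nonneg _)
    have := mul_le_mul_of_nonneg_left hcS (by positivity : (0 : ℝ) ≤ 2 ^ r + 1)
    refine this.trans (le_of_eq ?_)
    field_simp
  linarith

end Q282.FF
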