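import Pool.Agent.Q282.FF.Meso2

/-!
# The moments of the leading coefficient: the local functions
-/

set_option autoImplicit false
set_option linter.unusedSectionVars false

namespace Q282.FF

open Polynomial Finset
open Q282.JK (Idx fpol pts_eq fpol_map)
open Pool.Agent.H341R2.Sharp (T)
open Q282.CL (av av_add av_sub av_mul av_mono av_const av_nonneg abs_av_le av_sum)

section

variable {k : Type} [Field k] [Fintype k] [DecidableEq k]

/-- the term for the bad reduction -/
noncomputable def db (g : ℕ) {r m : ℕ} (v : Place k) (u : Idx r m → Res v) : ℝ :=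
  bd u * ((4 * g + 10 * (2 * g + 1)) / Real.sqrt (Nat.card (Res v)))

/-- the local function in the bound for the logarithm of the leading coefficient -/
noncomputable def lf (g h : ℕ) {r m : ℕ} (v : Place k) (u : Idx r m → Res v) : ℝ :=
  loc (w1 h (deg v)) (w2 h (deg v)) u + db g v u

lemma bd_av (h2 : (2 : k) ≠ 0) {g r m : ℕ} (hrm : r + m = 2 * g + 1) (hrg : r ≤ g) (v : Place k) :
    av (fun u : Idx r m → Res v => bd u) ≤ (r ^ 2 + r + g) / (Nat.card (Res v) : ℝ) := by
  classical
  have hcard : (Nat.card (Res v) : ℝ) = Fintype.card (Res v) := by rw [Nat.card_eq_fintype_card]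
  have h6 := Q282.JK.bad_card (F := Res v) (r := r) (m := m) hrm hrg
  rw [av_def]
  have h7 : ∑ u : Idx r m → Res v, bd u = (((univ : Finset (Idx r m → Res v)).filter fun u => ¬ Squarefree (fpol u)).card : ℝ) := by
    unfold bd
    rw [card_filter]
    push_cast
    refine sum_congr rfl fun u _ => ?_
    by_cases h8 : Squarefree (fpol u)
    · simp [h8]
    · simp [h8]
  have hQ0 : 0 < (Fintype.card (Res v) : ℝ) ^ Fintype.card (Idx r m) := by
    have : (0 : ℝ) < Fintype.card (Res v) := by exact_mod_cast Fintype.card_pos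
    positivity
  have hR0 : (0 : ℝ) < Nat.card (Res v) := by exact_mod_cast Nat.card_pos
  rw [h7, div_le_div_iff₀ hQ0 hR0, hcard]
  refine le_trans (le_of_eq ?_) h6
  congr

lemma bd_nonneg {F : Type} [Field F] {r m : ℕ} (u : Idx r m → F) : 0 ≤ bd u := by
  unfold bd
  split_ifs <;> norm_num

lemma bd_le_one {F : Type} [Field F] {r m : ℕ} (u : Idx r m → F) : bd u ≤ 1 := by
  unfold bd
  split_ifs <;> norm_num

end

/-- The local functions: bounds, means, variances. -/
theorem mt_facts (g r m : ℕ) (hrm : r + m = 2 * g + 1) (hrg : r ≤ g) (hg : 1 ≤ g) : ∃ B : ℝ, 1 ≤ B ∧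
    ∀ (k : Type) [Field k] [Fintype k] [DecidableEq k], (2 : k) ≠ 0 →
    (∀ (h : ℕ) (v : Place k), deg v < h → ∀ u : Idx r m → Res v, |lf g h v u| ≤ B / Real.sqrt (Nat.card (Res v))) ∧
    (∀ h : ℕ, 1 ≤ h → ∑ v ∈ PB k h, av (fun u : Idx r m → Res v => lf g h v u) ≤ -(r + 1 / 2) * Real.log h + B) ∧
    (∀ h : ℕ, 1 ≤ h → ∑ v ∈ PB k h, (av (fun u : Idx r m → Res v => lf g h v u ^ 2) -
      av (fun u : Idx r m → Res v => lf g h v u) ^ 2) ≤ Real.log h + B) := by
  obtain ⟨B₀, hB1, hB⟩ := sums g r m hrm hrg hg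
  obtain ⟨c, hc⟩ : ∃ c : ℝ, c = 4 * g + 10 * (2 * g + 1) := ⟨_, rfl⟩
  have hg0 : (0 : ℝ) ≤ g := Nat.cast_nonneg _
  have hr0 : (0 : ℝ) ≤ r := Nat.cast_nonneg _
  have hc1 : 1 ≤ c := by rw [hc]; linarith
  obtain ⟨C, hC⟩ : ∃ C : ℝ, C = r ^ 2 + r + g := ⟨_, rfl⟩
  have hC0 : 0 ≤ C := by rw [hC]; positivity
  obtain ⟨E, hE⟩ : ∃ E : ℝ, E = 2 * B₀ + c + 2 * ((4 * B₀ * c + c ^ 2) * C) := ⟨_, rfl⟩
  have hE0 : 0 ≤ (4 * B₀ * c + c ^ 2) * C := by positivity
  refine ⟨E, by rw [hE]; linarith, ?_⟩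
  intro k _ _ _ h2
  obtain ⟨f1, f2, f3, f4⟩ := hB k h2
  have hs1 : ∀ v : Place k, 1 ≤ Real.sqrt (Nat.card (Res v)) := by
    intro v
    rw [Real.one_le_sqrt]
    exact_mod_cast Nat.card_pos
  have hneO : ∀ v : Place k, Nonempty (Idx r m → Res v) := fun v => ⟨fun _ => 0⟩
  refine ⟨?_, ?_, ?_⟩
  · intro h v hv u
    have h3 := f1 h v hv u
    have hs0 : 0 < Real.sqrt (Nat.card (Res v)) := by linarith [hs1 v]
    unfold lf db
    rw [← hc]
    refine (abs_add_le _ _).trans ?_
    have h4 : |bd u * (c / Real.sqrt (Nat.card (Res v)))| ≤ c / Real.sqrt (Nat.card (Res v)) := by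
      rw [abs_of_nonneg (mul_nonneg (bd_nonneg u) (by positivity))]
      exact mul_le_of_le_one_left (by positivity) (bd_le_one u)
    have h5 : (B₀ + c) / Real.sqrt (Nat.card (Res v)) ≤ E / Real.sqrt (Nat.card (Res v)) :=
      div_le_div_of_nonneg_right (by rw [hE]; linarith) hs0.le
    have h6 : (B₀ + c) / Real.sqrt (Nat.card (Res v)) = B₀ / Real.sqrt (Nat.card (Res v)) + c / Real.sqrt (Nat.card (Res v)) := by ring
    linarith
  · intro h hh
    have h3 := f4 h h (by omega)
    have h4 : av (fun t : Par k r m h => ∑ v ∈ PB k h, bd (rt v t) * ((4 * g + 10 * (2 * g + 1)) / Real.sqrt (Nat.card (Res v)))) =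
        ∑ v ∈ PB k h, av (fun u : Idx r m → Res v => db g v u) := by
      rw [av_sum]
      refine sum_congr rfl fun v hv => ?_
      rw [mem_PB] at hv
      exact av_one (ι := Idx r m) v (n := h) (by omega) (fun u => db g v u)
    rw [h4] at h3
    have h5 := (abs_le.1 (f2 h hh)).2
    have h6 : ∑ v ∈ PB k h, av (fun u : Idx r m → Res v => lf g h v u) =
        ∑ v ∈ PB k h, av (fun u : Idx r m → Res v => loc (w1 h (deg v)) (w2 h (deg v)) u) +
          ∑ v ∈ PB k h, av (fun u : Idx r m → Res v => db g v u) := by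
      rw [← sum_add_distrib]
      refine sum_congr rfl fun v _ => ?_
      unfold lf
      rw [av_add]
    rw [h6]
    have h7 : 2 * B₀ ≤ E := by rw [hE]; linarith
    linarith
  · intro h hh
    have key : ∀ v ∈ PB k h, av (fun u : Idx r m → Res v => lf g h v u ^ 2) - av (fun u : Idx r m → Res v => lf g h v u) ^ 2 ≤
        (av (fun u : Idx r m → Res v => loc (w1 h (deg v)) (w2 h (deg v)) u ^ 2) -
          av (fun u : Idx r m → Res v => loc (w1 h (deg v)) (w2 h (deg v)) u) ^ 2) +
          ((4 * B₀ * c + c ^ 2) * C) * (1 / Real.sqrt (Nat.card (Res v)) ^ 3) := by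
      intro v hv
      rw [mem_PB] at hv
      obtain ⟨s, hs⟩ : ∃ s : ℝ, s = Real.sqrt (Nat.card (Res v)) := ⟨_, rfl⟩
      have hs1' := hs1 v
      have hl := f1 h v hv
      have hsq : (Nat.card (Res v) : ℝ) = s ^ 2 := by rw [hs, Real.sq_sqrt (Nat.cast_nonneg _)]
      have hba := bd_av h2 hrm hrg v
      rw [hsq, ← hC] at hba
      rw [← hs] at hs1' hl ⊢
      have hs0 : 0 < s := by linarith
      obtain ⟨ℓ, hℓ⟩ : ∃ ℓ : (Idx r m → Res v) → ℝ, ℓ = fun u => loc (w1 h (deg v)) (w2 h (deg v)) u := ⟨_, rfl⟩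
      obtain ⟨δ, hδ⟩ : ∃ δ : (Idx r m → Res v) → ℝ, δ = fun u => db g v u := ⟨_, rfl⟩
      have hδ0 : ∀ u, 0 ≤ δ u := by
        intro u
        rw [hδ]
        show 0 ≤ bd u * ((4 * g + 10 * (2 * g + 1)) / Real.sqrt (Nat.card (Res v)))
        exact mul_nonneg (bd_nonneg u) (by positivity)
      have hδ1 : ∀ u, δ u ≤ c / s := by
        intro u
        rw [hδ]
        show bd u * ((4 * g + 10 * (2 * g + 1)) / Real.sqrt (Nat.card (Res v))) ≤ c / s
        rw [← hc, ← hs]
        exact mul_le_of_le_one_left (by positivity) (bd_le_one u)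
      have hδm : av δ ≤ c * C / s ^ 3 := by
        have e : av δ = (c / s) * av (fun u : Idx r m → Res v => bd u) := by
          rw [← av_mul, hδ]
          congr 1
          funext u
          show bd u * ((4 * g + 10 * (2 * g + 1)) / Real.sqrt (Nat.card (Res v))) = _
          rw [← hc, ← hs]
          ring
        rw [e]
        calc (c / s) * av (fun u : Idx r m → Res v => bd u) ≤ (c / s) * (C / s ^ 2) := mul_le_mul_of_nonneg_left hba (by positivity)
          _ = _ := by field_simp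
      have hδm0 : 0 ≤ av δ := av_nonneg hδ0
      have hlb : ∀ u, |ℓ u| ≤ B₀ / s := by
        intro u
        rw [hℓ]
        exact hl u
      have hlm : |av ℓ| ≤ B₀ / s := (abs_av_le _).trans ((av_mono hlb).trans (le_of_eq (av_const _)))
      have e1 : av (fun u : Idx r m → Res v => lf g h v u) = av ℓ + av δ := by
        rw [← av_add, hℓ, hδ]
        rfl
      have e2 : av (fun u : Idx r m → Res v => lf g h v u ^ 2) = av (fun u => ℓ u ^ 2) + (2 * av (fun u => ℓ u * δ u) + av (fun u => δ u ^ 2)) := by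
        rw [← av_mul, ← av_add, ← av_add, hℓ, hδ]
        congr 1
        funext u
        unfold lf
        ring
      have e3 : av (fun u : Idx r m → Res v => loc (w1 h (deg v)) (w2 h (deg v)) u ^ 2) = av (fun u => ℓ u ^ 2) := by rw [hℓ]
      have e4 : av (fun u : Idx r m → Res v => loc (w1 h (deg v)) (w2 h (deg v)) u) = av ℓ := by rw [hℓ]
      rw [e1, e2, e3, e4]
      have b1 : av (fun u => ℓ u * δ u) ≤ B₀ / s * av δ := by
        rw [← av_mul]
        refine av_mono fun u => ?_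
        exact mul_le_mul_of_nonneg_right ((le_abs_self _).trans (hlb u)) (hδ0 u)
      have b2 : av (fun u => δ u ^ 2) ≤ c / s * av δ := by
        rw [← av_mul]
        refine av_mono fun u => ?_
        rw [sq]
        exact mul_le_mul_of_nonneg_right (hδ1 u) (hδ0 u)
      have b3 : -(2 * (av ℓ * av δ)) ≤ 2 * (B₀ / s * av δ) := by
        have := mul_le_mul_of_nonneg_right ((neg_le_abs _).trans hlm) hδm0
        linarith
      have b4 : (4 * (B₀ / s) + c / s) * av δ ≤ (4 * B₀ * c + c ^ 2) * C * (1 / s ^ 3) := by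
        calc (4 * (B₀ / s) + c / s) * av δ ≤ (4 * B₀ + c) * (c * C / s ^ 3) := by
              refine mul_le_mul ?_ hδm hδm0 (by positivity)
              have e : 4 * (B₀ / s) + c / s = (4 * B₀ + c) / s := by ring
              rw [e]
              exact div_le_self (by positivity) hs1'
          _ = _ := by ring
      have b5 := sq_nonneg (av δ)
      have e5 : (av ℓ + av δ) ^ 2 = av ℓ ^ 2 + 2 * (av ℓ * av δ) + av δ ^ 2 := by ring
      rw [e5]
      linarith
    refine (sum_le_sum key).trans ?_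
    rw [sum_add_distrib, ← mul_sum]
    have h3 := (abs_le.1 (f3 h hh)).2
    have h4 := mul_le_mul_of_nonneg_left (sum_conv h2 h) hE0
    have h5 : B₀ + (4 * B₀ * c + c ^ 2) * C * 2 ≤ E := by rw [hE]; linarith
    linarith

section

variable {k : Type} [Field k] [Fintype k] [DecidableEq k]

/-- the value `x` of the logarithm of the leading coefficient divided by `n ^ order` -/
def Val (g κ : ℕ) {r m n : ℕ} (t : Par k r m n) (x : ℝ) : Prop :=
  ∃ (N : ℕ) (β : Fin N → ℂ), N ≤ κ * n ∧ IsSpectrum g (curve t) β ∧ x = Real.log (leading β) - order β * Real.log n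

lemma val_le (h2 : (2 : k) ≠ 0) {g κ r m n : ℕ} (hrm : r + m = 2 * g + 1) (hrg : r ≤ g) (t : Par k r m n) {x : ℝ} (hx : Val g κ t x)
    {h : ℕ} (hh : 1 ≤ h) (hhn : 1 + Real.log h ≤ Real.log n) :
    x ≤ κ * n / h + 56 * g + ∑ v ∈ PB k h, lf g h v (rt v t) := by
  obtain ⟨N, β, hN, hβ, rfl⟩ := hx
  have h3 := upper h2 g hrm hrg t β hβ hh
  have hh0 : (0 : ℝ) < h := by exact_mod_cast hh
  have h4 : (N : ℝ) / h ≤ κ * n / h := by
    refine div_le_div_of_nonneg_right ?_ hh0.le
    exact_mod_cast hN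
  have h5 : (order β : ℝ) * (1 + Real.log h) ≤ order β * Real.log n := mul_le_mul_of_nonneg_left hhn (Nat.cast_nonneg _)
  have h6 : ∑ v ∈ PB k h, lf g h v (rt v t) = ∑ v ∈ PB k h, (loc (w1 h (deg v)) (w2 h (deg v)) (rt v t) +
        bd (rt v t) * ((4 * g + 10 * (2 * g + 1)) / Real.sqrt (Nat.card (Res v)))) := rfl
  rw [h6]
  linarith

end

end Q282.FF
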