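import Pool.Agent.Q282.CL.Chr

/-!
# Exponential moments of sums with the moments of independent sums
-/

set_option autoImplicit false
set_option linter.unusedSectionVars false

namespace Q282.CL

open Finset

/-- lower bound for the polynomials approximating the exponential function -/
lemma exp_le_pow {N : ℕ} (hN : 1 ≤ N) {x : ℝ} (hx : x ^ 2 ≤ N) : Real.exp x ≤ 3 * (1 + x / (2 * N)) ^ (2 * N) := by
  have hN' : (1 : ℝ) ≤ N := by exact_mod_cast hN
  have hN0 : (0 : ℝ) < N := by linarith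
  obtain ⟨u, hu⟩ : ∃ u : ℝ, u = x / (2 * N) := ⟨_, rfl⟩
  have hxu : x = 2 * N * u := by
    rw [hu]
    field_simp
  have hxN : x ^ 2 ≤ (N : ℝ) ^ 2 := hx.trans (by nlinarith)
  have hxa := abs_le.1 (abs_le_of_sq_le_sq hxN hN0.le)
  have hu1 : -(1 / 2) ≤ u := by
    rw [hu, le_div_iff₀ (by positivity)]
    linarith [hxa.1]
  have hpos : 0 < 1 + u := by linarith
  have h1 := Real.one_sub_inv_le_log_of_pos hpos
  have h2 : u - 2 * u ^ 2 ≤ Real.log (1 + u) := by
    refine le_trans ?_ h1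
    have e : 1 - (1 + u)⁻¹ = u - u ^ 2 / (1 + u) := by
      field_simp
      ring
    rw [e]
    have h3 : u ^ 2 / (1 + u) ≤ 2 * u ^ 2 := by
      rw [div_le_iff₀ hpos]
      nlinarith [sq_nonneg u]
    linarith
  have h3 : Real.exp (x - 1) ≤ (1 + u) ^ (2 * N) := by
    have h4 : (1 + u) ^ (2 * N) = Real.exp (2 * N * Real.log (1 + u)) := by
      have := Real.exp_nat_mul (Real.log (1 + u)) (2 * N)
      rw [Real.exp_log hpos] at this
      rw [← this]
      push_cast
      rfl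
    rw [h4]
    refine Real.exp_le_exp.2 ?_
    have h5 : 2 * N * (u - 2 * u ^ 2) ≤ 2 * N * Real.log (1 + u) := mul_le_mul_of_nonneg_left h2 (by positivity)
    have h6 : 4 * (N : ℝ) * u ^ 2 ≤ 1 := by
      have h7 : (4 * (N : ℝ) * u ^ 2) * N = x ^ 2 := by rw [hxu]; ring
      by_contra h8
      push Not at h8
      have h9 : 1 * (N : ℝ) < (4 * (N : ℝ) * u ^ 2) * N := mul_lt_mul_of_pos_right h8 hN0
      linarith
    have h7 : 2 * (N : ℝ) * (u - 2 * u ^ 2) = x - 4 * N * u ^ 2 := by rw [hxu]; ring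
    linarith
  have h4 : Real.exp x = Real.exp 1 * Real.exp (x - 1) := by
    rw [← Real.exp_add]
    congr 1
    ring
  have h5 : Real.exp 1 ≤ 3 := by linarith [Real.exp_one_lt_d9]
  rw [h4, ← hu]
  exact mul_le_mul h5 h3 (Real.exp_pos _).le (by norm_num)

/-- upper bound for the polynomials approximating the exponential function -/
lemma pow_le_exp_add {N : ℕ} (hN : 1 ≤ N) (x : ℝ) : (1 + x / (2 * N)) ^ (2 * N) ≤ Real.exp x + Real.exp (-x) := by
  have hN0 : (0 : ℝ) < N := by exact_mod_cast hN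
  have h1 : |1 + x / (2 * N)| ≤ Real.exp (|x| / (2 * N)) := by
    refine (abs_add_le _ _).trans ?_
    rw [abs_one, abs_div, abs_of_pos (by positivity : (0 : ℝ) < 2 * N), add_comm]
    exact Real.add_one_le_exp _
  have h2 : (1 + x / (2 * N)) ^ (2 * N) ≤ Real.exp |x| := by
    calc (1 + x / (2 * N)) ^ (2 * N) = |1 + x / (2 * N)| ^ (2 * N) := by
          rw [pow_mul, pow_mul, sq_abs]
      _ ≤ Real.exp (|x| / (2 * N)) ^ (2 * N) := pow_le_pow_left₀ (abs_nonneg _) h1 _
      _ = Real.exp |x| := by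
          rw [← Real.exp_nat_mul]
          congr 1
          push_cast
          field_simp
  refine h2.trans ?_
  rcases le_total 0 x with h | h
  · rw [abs_of_nonneg h]
    linarith [Real.exp_pos (-x)]
  · rw [abs_of_nonpos h]
    linarith [Real.exp_pos x]

/-- Taylor's formula -/
lemma exp_cubic (x : ℝ) : Real.exp x ≤ 1 + x + x ^ 2 / 2 + |x| ^ 3 * Real.exp |x| := by
  have h1 := Complex.norm_exp_sub_sum_le_norm_mul_exp (x : ℂ) 3
  rw [sum_range_succ, sum_range_succ, sum_range_one] at h1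
  simp only [pow_zero, Nat.factorial_zero, Nat.cast_one, div_one, pow_one, Nat.factorial_one, Nat.factorial_two,
    Complex.norm_real, Real.norm_eq_abs] at h1
  have e : Complex.exp (x : ℂ) - (1 + (x : ℂ) + (x : ℂ) ^ 2 / ((2 : ℕ) : ℂ)) = ((Real.exp x - (1 + x + x ^ 2 / 2) : ℝ) : ℂ) := by
    push_cast
    rfl
  rw [e, Complex.norm_real, Real.norm_eq_abs] at h1
  linarith [le_abs_self (Real.exp x - (1 + x + x ^ 2 / 2))]

section

variable {α : Type} [Fintype α] [Nonempty α]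

lemma av_exp_le' (Z : α → ℝ) (h0 : av Z = 0) {b : ℝ} (hb : ∀ a, |Z a| ≤ b) :
    av (fun a => Real.exp (Z a)) ≤ Real.exp (av (fun a => Z a ^ 2) / 2 + b ^ 3 * Real.exp b) := by
  have hb0 : 0 ≤ b := by
    obtain ⟨a⟩ : Nonempty α := inferInstance
    exact (abs_nonneg _).trans (hb a)
  have h1 : ∀ a, Real.exp (Z a) ≤ (1 + b ^ 3 * Real.exp b) + (Z a + (1 / 2) * Z a ^ 2) := by
    intro a
    have h2 := exp_cubic (Z a)
    have h3 : |Z a| ^ 3 * Real.exp |Z a| ≤ b ^ 3 * Real.exp b :=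
      mul_le_mul (pow_le_pow_left₀ (abs_nonneg _) (hb a) 3) (Real.exp_le_exp.2 (hb a)) (Real.exp_pos _).le (by positivity)
    linarith
  refine (av_mono h1).trans ?_
  rw [av_add, av_const, av_add, av_mul, h0]
  have h2 := Real.add_one_le_exp (av (fun a => Z a ^ 2) / 2 + b ^ 3 * Real.exp b)
  linarith

variable {ι : Type} [Fintype ι] [DecidableEq ι] {Ω : ι → Type} [∀ i, Fintype (Ω i)] [∀ i, Nonempty (Ω i)]

/-- the exponential moment of a sum of independent functions -/
lemma av_exp_sum_le' (Z : ∀ i, Ω i → ℝ) (h0 : ∀ i, av (Z i) = 0) {b : ι → ℝ} (hb : ∀ i a, |Z i a| ≤ b i) :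
    av (fun ω : ∀ i, Ω i => Real.exp (∑ i, Z i (ω i))) ≤
      Real.exp (∑ i, (av (fun a => Z i a ^ 2) / 2 + b i ^ 3 * Real.exp (b i))) := by
  have h1 : (fun ω : ∀ i, Ω i => Real.exp (∑ i, Z i (ω i))) = fun ω => ∏ i, Real.exp (Z i (ω i)) := by
    funext ω
    rw [Real.exp_sum]
  rw [h1, av_pi (fun i a => Real.exp (Z i a)), Real.exp_sum]
  refine prod_le_prod (fun i _ => av_nonneg fun a => (Real.exp_pos _).le) fun i _ => ?_
  exact av_exp_le' (Z i) (h0 i) (hb i)

/-- the exponential moment of a sum with the moments of a sum of independent functions, on the set where the sum is not too large -/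
theorem av_cut (z : ι → α → ℝ) (Z : ∀ i, Ω i → ℝ) (h0 : ∀ i, av (Z i) = 0) {b : ι → ℝ} (hb : ∀ i a, |Z i a| ≤ b i) {N : ℕ}
    (hN : 1 ≤ N) (h : ∀ m ≤ 2 * N, ∀ τ : Fin m → ι,
      av (fun a => ∏ j, z (τ j) a) = av (fun ω : ∀ i, Ω i => ∏ j, Z (τ j) (ω (τ j)))) :
    av (fun a => if (∑ i, z i a) ^ 2 ≤ N then Real.exp (∑ i, z i a) else 0) ≤
      6 * Real.exp (∑ i, (av (fun a => Z i a ^ 2) / 2 + b i ^ 3 * Real.exp (b i))) := by
  have hmom : ∀ m ≤ 2 * N, av (fun a => (∑ i, z i a) ^ m) = av (fun ω : ∀ i, Ω i => (∑ i, Z i (ω i)) ^ m) := by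
    intro m hm
    have h1 := mom_transfer z Z (η := 0) (m := m) (fun τ => by rw [h m hm τ, sub_self, abs_zero])
    rw [mul_zero] at h1
    exact sub_eq_zero.1 (abs_nonpos_iff.1 h1)
  have hexp : ∀ {β : Type} [Fintype β] (y : β → ℝ), av (fun a => (1 + y a / (2 * N)) ^ (2 * N)) =
      ∑ m ∈ range (2 * N + 1), ((2 * N).choose m : ℝ) * (1 / (2 * (N : ℝ))) ^ m * av (fun a => y a ^ m) := by
    intro β _ y
    have h1 : (fun a => (1 + y a / (2 * N)) ^ (2 * N)) = fun a => ∑ m ∈ range (2 * N + 1), ((2 * N).choose m : ℝ) * (1 / (2 * (N : ℝ))) ^ m * y a ^ m := by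
      funext a
      rw [add_comm, add_pow]
      refine sum_congr rfl fun m _ => ?_
      rw [one_pow, mul_one, div_eq_mul_one_div, mul_pow]
      ring
    rw [h1, av_sum]
    exact sum_congr rfl fun m _ => av_mul _ _
  have h1 : av (fun a => (1 + (∑ i, z i a) / (2 * N)) ^ (2 * N)) = av (fun ω : ∀ i, Ω i => (1 + (∑ i, Z i (ω i)) / (2 * N)) ^ (2 * N)) := by
    rw [hexp, hexp]
    refine sum_congr rfl fun m hm => ?_
    rw [mem_range] at hm
    rw [hmom m (by omega)]
  have h2 : av (fun a => if (∑ i, z i a) ^ 2 ≤ N then Real.exp (∑ i, z i a) else 0) ≤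
      3 * av (fun a => (1 + (∑ i, z i a) / (2 * N)) ^ (2 * N)) := by
    rw [← av_mul]
    refine av_mono fun a => ?_
    split_ifs with h3
    · exact exp_le_pow hN h3
    · rw [pow_mul]
      positivity
  have h3 : av (fun ω : ∀ i, Ω i => (1 + (∑ i, Z i (ω i)) / (2 * N)) ^ (2 * N)) ≤
      av (fun ω : ∀ i, Ω i => Real.exp (∑ i, Z i (ω i))) + av (fun ω : ∀ i, Ω i => Real.exp (∑ i, -Z i (ω i))) := by
    rw [← av_add]
    refine av_mono fun ω => ?_
    have := pow_le_exp_add hN (∑ i, Z i (ω i))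
    rwa [← sum_neg_distrib] at this
  have h4 := av_exp_sum_le' Z h0 hb
  have h5 := av_exp_sum_le' (fun i a => -Z i a) (fun i => by
    have := av_mul (-1 : ℝ) (Z i)
    simp only [neg_one_mul] at this
    rw [this, h0 i, neg_zero]) (b := b) (fun i a => by rw [abs_neg]; exact hb i a)
  simp only [neg_sq] at h5
  rw [h1] at h2
  linarith

end

end Q282.CL
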