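import Pool.Agent.Q282.FF.Tail2

/-!
# The tails of the law of the order of vanishing
-/

set_option autoImplicit false
set_option linter.unusedSectionVars false

namespace Q282.FF

open Polynomial Finset
open Q282.JK (Idx fpol)
open Q282.CL

/-- The moments of the bound for the order. -/
theorem moments (g r m : ℕ) (hrm : r + m = 2 * g + 1) (hrg : r ≤ g) (hg : 1 ≤ g) : ∃ B : ℝ, 1 ≤ B ∧
    ∀ (k : Type) [Field k] [Fintype k] [DecidableEq k], (2 : k) ≠ 0 → ∀ n h : ℕ, 1 ≤ h → h ≤ n → ∃ X : Par k r m n → ℝ,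
    (∀ t, ∑ v ∈ PB k h, yv g h v (rt v t) ≤ r + 1 / 2 + B / h + X t) ∧ av X = 0 ∧
    ∀ K : ℕ, 1 ≤ K → 2 * K * h ≤ n → av (fun t => X t ^ (2 * K)) ≤ 2 * (2 * K).factorial * (Real.exp 1 * (4 * B ^ 2) / K) ^ K := by
  obtain ⟨B, hB1, hB⟩ := yv_facts g r m hrm hrg hg
  refine ⟨B, hB1, ?_⟩
  intro k _ _ _ h2 n h hh hhn
  have hh' : (0 : ℝ) < h := by exact_mod_cast hh
  have hB0 : 0 < B := by linarith
  obtain ⟨f1, f2⟩ := hB k h2
  obtain ⟨ψ, hψ⟩ : ∃ ψ : ∀ v : Place k, (Idx r m → Res v) → ℝ, ψ = fun v x => yv g h v x := ⟨_, rfl⟩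
  obtain ⟨μ, hμ⟩ : ∃ μ : Place k → ℝ, μ = fun v => av (ψ v) := ⟨_, rfl⟩
  have hneO : ∀ v : Place k, Nonempty (Idx r m → Res v) := fun v => ⟨fun _ => 0⟩
  have hneA : Nonempty (Par k r m n) := ⟨fun _ => 0⟩
  have hψb : ∀ v ∈ PB k h, ∀ x, |ψ v x| ≤ B * (deg v / h) / Real.sqrt (Nat.card (Res v)) := by
    intro v hv x
    rw [hψ]
    exact f1 h v (mem_PB.1 hv) x
  have hμb : ∀ v ∈ PB k h, |μ v| ≤ B * (deg v / h) / Real.sqrt (Nat.card (Res v)) := by
    intro v hv
    rw [hμ]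
    exact (abs_av_le _).trans ((av_mono (hψb v hv)).trans (le_of_eq (av_const _)))
  have hsum : ∑ v ∈ PB k h, μ v ≤ r + 1 / 2 + B / h := by
    rw [hμ, hψ]
    exact f2 h hh
  refine ⟨fun t => ∑ v ∈ PB k h, (ψ v (rt v t) - μ v), ?_, ?_, ?_⟩
  · intro t
    show _ ≤ r + 1 / 2 + B / h + ∑ v ∈ PB k h, (ψ v (rt v t) - μ v)
    rw [sum_sub_distrib]
    have e : ∑ v ∈ PB k h, yv g h v (rt v t) = ∑ v ∈ PB k h, ψ v (rt v t) := by rw [hψ]
    rw [e]
    linarith
  · rw [av_sum]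
    refine sum_eq_zero fun v hv => ?_
    rw [mem_PB] at hv
    have h3 : av (fun t : Par k r m n => ψ v (rt v t)) = μ v := by
      rw [hμ]
      exact av_one (ι := Idx r m) v (n := n) (by omega) (ψ v)
    show av (fun t : Par k r m n => ψ v (rt v t) - μ v) = 0
    rw [av_sub, h3, av_const, sub_self]
  · intro K hK1 hKn
    have key := mom_transfer (α := Par k r m n) (ι := PB k h) (Ω := fun v => Idx r m → Res v.1)
      (fun v t => ψ v.1 (rt v.1 t) - μ v.1) (fun v x => ψ v.1 x - μ v.1) (η := 0) (m := 2 * K) (by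
        intro τ
        have h3 := mono (ι := Idx r m) (PB k h) (n := n) (D := h) (m := 2 * K) (fun v hv => (mem_PB.1 hv).le) hKn (fun v x => ψ v x - μ v) τ
        rw [h3, sub_self, abs_zero])
    rw [mul_zero] at key
    have key2 := sub_eq_zero.1 (abs_nonpos_iff.1 key)
    have e : (fun t : Par k r m n => (∑ v ∈ PB k h, (ψ v (rt v t) - μ v)) ^ (2 * K)) =
        fun t => (∑ v : PB k h, (ψ v.1 (rt v.1 t) - μ v.1)) ^ (2 * K) := by
      funext t
      rw [Finset.sum_coe_sort (PB k h) (fun v => ψ v (rt v t) - μ v)]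
    show av (fun t : Par k r m n => (∑ v ∈ PB k h, (ψ v (rt v t) - μ v)) ^ (2 * K)) ≤ _
    rw [e, key2]
    refine mom_le (ι := PB k h) (Ω := fun v => Idx r m → Res v.1) (fun v x => ψ v.1 x - μ v.1) (fun v => ?_)
      (b := fun v => 2 * (B * (deg v.1 / h) / Real.sqrt (Nat.card (Res v.1)))) (fun v x => ?_) (by positivity) ?_ hK1
    · show av (fun x => ψ v.1 x - μ v.1) = 0
      rw [av_sub, av_const, hμ, sub_self]
    · have h3 := hψb v.1 v.2 x
      have h4 := hμb v.1 v.2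
      have := abs_sub (ψ v.1 x) (μ v.1)
      show |ψ v.1 x - μ v.1| ≤ _
      linarith
    · rw [Finset.sum_coe_sort (PB k h) (fun v => (2 * (B * (deg v / h) / Real.sqrt (Nat.card (Res v)))) ^ 2)]
      have h3 : ∀ v ∈ PB k h, (2 * (B * (deg v / h) / Real.sqrt (Nat.card (Res v)))) ^ 2 =
          4 * B ^ 2 / (h : ℝ) ^ 2 * ((deg v : ℝ) ^ 2 / (Nat.card (Res v) : ℝ)) := by
        intro v _
        rw [mul_pow, div_pow, mul_pow, div_pow, Real.sq_sqrt (Nat.cast_nonneg _)]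
        have : (Nat.card (Res v) : ℝ) ≠ 0 := by
          have : Nat.card (Res v) ≠ 0 := Nat.card_pos.ne'
          exact_mod_cast this
        field_simp
        ring
      rw [sum_congr rfl h3, ← mul_sum]
      have h4 := sum_degsq (k := k) h
      calc 4 * B ^ 2 / (h : ℝ) ^ 2 * ∑ v ∈ PB k h, (deg v : ℝ) ^ 2 / (Nat.card (Res v) : ℝ) ≤ 4 * B ^ 2 / (h : ℝ) ^ 2 * (h : ℝ) ^ 2 :=
            mul_le_mul_of_nonneg_left h4 (by positivity)
        _ = 4 * B ^ 2 := by field_simp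

/-- The inequality of Markov. -/
lemma markov {α : Type} [Fintype α] [Nonempty α] (X : α → ℝ) (K : ℕ) (a M : ℝ) (ha : 0 < a) (hM : av (fun t => X t ^ (2 * K)) ≤ M)
    (p : α → Prop) [DecidablePred p] (hp : ∀ t, p t → a ≤ X t) :
    ((univ.filter p).card : ℝ) ≤ M / a ^ (2 * K) * Fintype.card α := by
  have hc : (0 : ℝ) < Fintype.card α := by exact_mod_cast Fintype.card_pos
  unfold av at hM
  rw [div_le_iff₀ hc] at hM
  have h1 : ((univ.filter p).card : ℝ) * a ^ (2 * K) ≤ ∑ t, X t ^ (2 * K) := by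
    calc ((univ.filter p).card : ℝ) * a ^ (2 * K) = ∑ t ∈ univ.filter p, a ^ (2 * K) := by rw [sum_const, nsmul_eq_mul]
      _ ≤ ∑ t ∈ univ.filter p, X t ^ (2 * K) := sum_le_sum fun t ht => pow_le_pow_left₀ ha.le (hp t (mem_filter.1 ht).2) _
      _ ≤ ∑ t, X t ^ (2 * K) := sum_le_sum_of_subset_of_nonneg (filter_subset _ _) fun t _ _ => by
        rw [pow_mul]
        positivity
  rw [div_mul_eq_mul_div, le_div_iff₀ (by positivity)]
  linarith

/-- the parameters of large order -/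
def Big (g κ : ℕ) {k : Type} [Field k] {r m n : ℕ} (t : Par k r m n) (R : ℕ) : Prop :=
  ∃ (N : ℕ) (β : Fin N → ℂ), N ≤ κ * n ∧ IsSpectrum g (curve t) β ∧ R ≤ order β

lemma order_le_card {N : ℕ} (β : Fin N → ℂ) : order β ≤ N := by
  unfold order
  refine (card_le_univ _).trans ?_
  rw [Fintype.card_fin]

open Classical in
/-- The tails. -/
theorem tail (g r m κ : ℕ) (hrm : r + m = 2 * g + 1) (hrg : r ≤ g) (hg : 1 ≤ g) : ∃ C D : ℕ, 1 ≤ C ∧ 1 ≤ D ∧
    ∀ (k : Type) [Field k] [Fintype k], (2 : k) ≠ 0 → ∀ n R : ℕ, 1 ≤ R →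
    ((univ.filter fun t : Par k r m n => Big g κ t R).card : ℝ) ≤ ((C : ℝ) / R) ^ (R / D) * Fintype.card (Par k r m n) := by
  obtain ⟨B, hB1, hB⟩ := moments g r m hrm hrg hg
  obtain ⟨C, hC⟩ := exists_nat_ge (384 * B ^ 2)
  obtain ⟨D, hD⟩ := exists_nat_ge (16 * (κ : ℝ) + 4 * (112 * g + r + 1 / 2 + B))
  have hg0 : (0 : ℝ) ≤ g := Nat.cast_nonneg _
  have hr0 : (0 : ℝ) ≤ r := Nat.cast_nonneg _
  have hκ0 : (0 : ℝ) ≤ κ := Nat.cast_nonneg _
  have hC1 : 1 ≤ C := by
    have : (1 : ℝ) ≤ C := by nlinarith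
    exact_mod_cast this
  have hD4 : (4 : ℝ) ≤ D := by nlinarith
  have hD1 : 1 ≤ D := by
    have : (1 : ℝ) ≤ D := by linarith
    exact_mod_cast this
  refine ⟨C, D, hC1, hD1, ?_⟩
  intro k _ _ h2 n R hR
  have hR' : (0 : ℝ) < R := by exact_mod_cast hR
  have hneA : Nonempty (Par k r m n) := ⟨fun _ => 0⟩
  have hM0 : (0 : ℝ) < Fintype.card (Par k r m n) := by exact_mod_cast Fintype.card_pos
  obtain ⟨K, hK⟩ : ∃ K : ℕ, K = R / D := ⟨_, rfl⟩
  rw [← hK]
  rcases Nat.eq_zero_or_pos K with hK0 | hK0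
  · rw [hK0, pow_zero, one_mul]
    exact_mod_cast card_le_univ _
  have hKD : K * D ≤ R := by
    rw [hK]
    exact Nat.div_mul_le_self R D
  have hKD' : (K : ℝ) * D ≤ R := by exact_mod_cast hKD
  have hK1 : (1 : ℝ) ≤ K := by exact_mod_cast hK0
  have hDR : (D : ℝ) ≤ R := by nlinarith
  by_cases hn : n < 2 * K
  · -- the order is at most `κ n`
    have h3 : (univ.filter fun t : Par k r m n => Big g κ t R) = ∅ := by
      rw [filter_eq_empty_iff]
      rintro t - ⟨N, β, hN, -, hβ⟩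
      have h4 : R ≤ κ * n := hβ.trans ((order_le_card β).trans hN)
      have h5 : (R : ℝ) ≤ κ * n := by exact_mod_cast h4
      have h6 : (n : ℝ) ≤ 2 * K := by exact_mod_cast hn.le
      have h7 : (κ : ℝ) * n ≤ κ * (2 * K) := mul_le_mul_of_nonneg_left h6 hκ0
      have h8 : (K : ℝ) * (16 * κ) ≤ K * D := mul_le_mul_of_nonneg_left (by linarith) (by linarith)
      nlinarith
    rw [h3, card_empty, Nat.cast_zero]
    positivity
  · obtain ⟨h, hh⟩ : ∃ h : ℕ, h = n / (2 * K) := ⟨_, rfl⟩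
    have hh1 : 1 ≤ h := by
      rw [hh]
      exact (Nat.one_le_div_iff (by omega)).2 (by omega)
    have hhn : 2 * K * h ≤ n := by
      rw [hh]
      exact Nat.mul_div_le n (2 * K)
    have hhn' : h ≤ n := le_trans (Nat.le_mul_of_pos_left h (by omega)) hhn
    have hh0 : (0 : ℝ) < h := by exact_mod_cast hh1
    have hh1' : (1 : ℝ) ≤ h := by exact_mod_cast hh1
    have hnh : (n : ℝ) ≤ 4 * K * h := by
      have h3 : n < (n / (2 * K) + 1) * (2 * K) := by
        have := Nat.lt_div_mul_add (a := n) (b := 2 * K) (by omega)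
        rw [add_mul, one_mul]
        exact this
      rw [← hh] at h3
      have h4 : (n : ℝ) ≤ (h + 1) * (2 * K) := by exact_mod_cast h3.le
      nlinarith
    obtain ⟨X, hX1, -, hX2⟩ := hB k h2 n h hh1 hhn'
    have hX := hX2 K hK0 hhn
    -- large orders give large values
    have hp : ∀ t : Par k r m n, Big g κ t R → (R : ℝ) / 2 ≤ X t := by
      rintro t ⟨N, β, hN, hβ, hR2⟩
      have h3 := order_le h2 g hrm hrg t β hβ hh1
      have h4 := hX1 t
      have h5 : (R : ℝ) ≤ order β := by exact_mod_cast hR2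
      have h6 : (N : ℝ) / h ≤ R / 4 := by
        have h7 : (N : ℝ) ≤ κ * n := by exact_mod_cast hN
        rw [div_le_iff₀ hh0]
        have h8 : (κ : ℝ) * n ≤ κ * (4 * K * h) := mul_le_mul_of_nonneg_left hnh hκ0
        have h9 : (K : ℝ) * (16 * κ) ≤ K * D := mul_le_mul_of_nonneg_left (by linarith) (by linarith)
        have h10 : (K : ℝ) * (16 * κ) * h ≤ R * h := mul_le_mul_of_nonneg_right (h9.trans hKD') hh0.le
        nlinarith
      have h7 : 112 * (g : ℝ) / h ≤ 112 * g := div_le_self (by positivity) hh1'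
      have h8 : B / h ≤ B := div_le_self (by linarith) hh1'
      linarith
    have h3 := markov X K ((R : ℝ) / 2) _ (by positivity) hX (fun t => Big g κ t R) hp
    refine h3.trans (mul_le_mul_of_nonneg_right ?_ hM0.le)
    -- the bound
    have hfac : ((2 * K).factorial : ℝ) ≤ ((2 * K : ℕ) : ℝ) ^ (2 * K) := by exact_mod_cast Nat.factorial_le_pow (2 * K)
    have he : Real.exp 1 ≤ 3 := by
      have := Real.exp_one_lt_d9
      linarith
    have hK0' : (0 : ℝ) < K := by linarith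
    have h4 : (Real.exp 1 * (4 * B ^ 2) / K) ^ K ≤ (12 * B ^ 2 / K) ^ K := by
      refine pow_le_pow_left₀ (by positivity) ?_ K
      refine div_le_div_of_nonneg_right ?_ hK0'.le
      nlinarith [sq_nonneg B]
    have h5 : 2 * ((2 * K).factorial : ℝ) * (Real.exp 1 * (4 * B ^ 2) / K) ^ K / ((R : ℝ) / 2) ^ (2 * K) ≤
        2 * ((2 * K : ℕ) : ℝ) ^ (2 * K) * (12 * B ^ 2 / K) ^ K / ((R : ℝ) / 2) ^ (2 * K) := by
      refine div_le_div_of_nonneg_right ?_ (by positivity)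
      exact mul_le_mul (mul_le_mul_of_nonneg_left hfac (by norm_num)) h4 (by positivity) (by positivity)
    refine h5.trans ?_
    have h6 : 2 * ((2 * K : ℕ) : ℝ) ^ (2 * K) * (12 * B ^ 2 / K) ^ K / ((R : ℝ) / 2) ^ (2 * K) = 2 * (192 * B ^ 2 * K / R ^ 2) ^ K := by
      rw [pow_mul, pow_mul, mul_assoc, ← mul_pow, mul_div_assoc, ← div_pow]
      congr 2
      push_cast
      field_simp
      ring
    rw [h6]
    have h7 : 192 * B ^ 2 * K / (R : ℝ) ^ 2 ≤ 192 * B ^ 2 / R := by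
      rw [div_le_div_iff₀ (by positivity) hR']
      have : (K : ℝ) ≤ R := by nlinarith
      have h8 : 0 ≤ 192 * B ^ 2 * R := by positivity
      nlinarith
    have h8 : (192 * B ^ 2 * K / (R : ℝ) ^ 2) ^ K ≤ (192 * B ^ 2 / R) ^ K := pow_le_pow_left₀ (by positivity) h7 K
    have h9 : (2 : ℝ) * (192 * B ^ 2 / R) ^ K ≤ (384 * B ^ 2 / R) ^ K := by
      have e : (384 * B ^ 2 / (R : ℝ)) ^ K = 2 ^ K * (192 * B ^ 2 / R) ^ K := by
        rw [← mul_pow]
        congr 1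
        ring
      rw [e]
      refine mul_le_mul_of_nonneg_right ?_ (by positivity)
      exact le_self_pow₀ (by norm_num) (by omega)
    have h10 : (384 * B ^ 2 / (R : ℝ)) ^ K ≤ ((C : ℝ) / R) ^ K :=
      pow_le_pow_left₀ (by positivity) (div_le_div_of_nonneg_right hC hR'.le) K
    linarith

end Q282.FF
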