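import Pool.Agent.Q282.FF.Mt1
import Pool.Agent.Q282.FF.Mt2
import Pool.Agent.Q282.FF.Tail3

/-!
# The moments of the leading coefficient: moments of the centred sums, a crude bound
-/

set_option autoImplicit false
set_option linter.unusedSectionVars false

namespace Q282.FF

open Polynomial Finset
open Q282.JK (Idx fpol)
open Q282.CL

section

variable {k : Type} [Field k] [Fintype k] [DecidableEq k]

lemma sum_inv_le {h : ℕ} (hh : 1 ≤ h) : ∑ v ∈ PB k h, 1 / (Nat.card (Res v) : ℝ) ≤ 1 + Real.log h := by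
  have h1 := sum_PB_deg (k := k) h (fun _ => (1 : ℝ))
  rw [h1]
  have h2 : ∑ d ∈ Ico 1 h, pd k d * 1 ≤ ∑ d ∈ Ico 1 h, 1 / (d : ℝ) := by
    refine sum_le_sum fun d hd => ?_
    rw [mem_Ico] at hd
    rw [mul_one]
    exact pd_le d hd.1
  have h3 := (abs_le.1 (harm_log hh)).2
  linarith

lemma sum_inv_ge (h2 : (2 : k) ≠ 0) {h : ℕ} (hh : 1 ≤ h) : Real.log h - 5 ≤ ∑ v ∈ PB k h, 1 / (Nat.card (Res v) : ℝ) := by
  have h1 := (abs_le.1 (sum_approx h2 h (fun _ => (1 : ℝ)) (fun d _ => by rw [abs_one]))).1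
  have h3 := (abs_le.1 (harm_log hh)).1
  linarith

lemma sum_inv_sub (h2 : (2 : k) ≠ 0) {z h : ℕ} (hz : 1 ≤ z) (hzh : z ≤ h) :
    ∑ v ∈ PB k h \ PB k z, 1 / (Nat.card (Res v) : ℝ) ≤ Real.log h - Real.log z + 6 := by
  have hsub : PB k z ⊆ PB k h := by
    intro v hv
    rw [mem_PB] at hv ⊢
    omega
  have h1 := sum_sdiff hsub (f := fun v => 1 / (Nat.card (Res v) : ℝ))
  have h3 := sum_inv_le (k := k) (hz.trans hzh)
  have h4 := sum_inv_ge h2 hz
  linarith

/-- the centred sum -/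
noncomputable def Zc (g h : ℕ) {r m n : ℕ} (S : Finset (Place k)) (t : Par k r m n) : ℝ :=
  ∑ v ∈ S, (lf g h v (rt v t) - av (fun u : Idx r m → Res v => lf g h v u))

lemma Zc_eq (g h : ℕ) {r m n : ℕ} (S : Finset (Place k)) (t : Par k r m n) :
    ∑ v ∈ S, lf g h v (rt v t) = ∑ v ∈ S, av (fun u : Idx r m → Res v => lf g h v u) + Zc g h S t := by
  unfold Zc
  rw [sum_sub_distrib]
  ring

/-- the moments of the centred sums -/
lemma cmom {g h r m : ℕ} {B : ℝ} (_ : 1 ≤ B)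
    (f1 : ∀ v : Place k, deg v < h → ∀ u : Idx r m → Res v, |lf g h v u| ≤ B / Real.sqrt (Nat.card (Res v)))
    {n D K : ℕ} (S : Finset (Place k)) (hS : ∀ v ∈ S, deg v < h ∧ deg v ≤ D) (hKD : 2 * K * D ≤ n) (hK : 1 ≤ K) {V : ℝ}
    (hV : 4 * B ^ 2 * ∑ v ∈ S, 1 / (Nat.card (Res v) : ℝ) ≤ V) (hV0 : 0 < V) :
    av (fun t : Par k r m n => Zc g h S t ^ (2 * K)) ≤ 2 * (2 * K).factorial * (Real.exp 1 * V / K) ^ K := by
  obtain ⟨ψ, hψ⟩ : ∃ ψ : ∀ v : Place k, (Idx r m → Res v) → ℝ, ψ = fun v x => lf g h v x := ⟨_, rfl⟩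
  obtain ⟨μ, hμ⟩ : ∃ μ : Place k → ℝ, μ = fun v => av (ψ v) := ⟨_, rfl⟩
  have hneO : ∀ v : Place k, Nonempty (Idx r m → Res v) := fun v => ⟨fun _ => 0⟩
  have hneA : Nonempty (Par k r m n) := ⟨fun _ => 0⟩
  have hψb : ∀ v ∈ S, ∀ x, |ψ v x| ≤ B / Real.sqrt (Nat.card (Res v)) := by
    intro v hv x
    rw [hψ]
    exact f1 v (hS v hv).1 x
  have hμb : ∀ v ∈ S, |μ v| ≤ B / Real.sqrt (Nat.card (Res v)) := by
    intro v hv
    rw [hμ]
    exact (abs_av_le _).trans ((av_mono (hψb v hv)).trans (le_of_eq (av_const _)))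
  have key := mom_transfer (α := Par k r m n) (ι := S) (Ω := fun v => Idx r m → Res v.1)
    (fun v t => ψ v.1 (rt v.1 t) - μ v.1) (fun v x => ψ v.1 x - μ v.1) (η := 0) (m := 2 * K) (by
      intro τ
      have h3 := mono (ι := Idx r m) S (n := n) (D := D) (m := 2 * K) (fun v hv => (hS v hv).2) hKD (fun v x => ψ v x - μ v) τ
      rw [h3, sub_self, abs_zero])
  rw [mul_zero] at key
  have key2 := sub_eq_zero.1 (abs_nonpos_iff.1 key)
  have e : (fun t : Par k r m n => Zc g h S t ^ (2 * K)) =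
      fun t => (∑ v : S, (ψ v.1 (rt v.1 t) - μ v.1)) ^ (2 * K) := by
    funext t
    rw [Finset.sum_coe_sort S (fun v => ψ v (rt v t) - μ v)]
    unfold Zc
    rw [hμ, hψ]
  rw [e, key2]
  refine mom_le (ι := S) (Ω := fun v => Idx r m → Res v.1) (fun v x => ψ v.1 x - μ v.1) (fun v => ?_)
    (b := fun v => 2 * (B / Real.sqrt (Nat.card (Res v.1)))) (fun v x => ?_) hV0 ?_ hK
  · show av (fun x => ψ v.1 x - μ v.1) = 0
    rw [av_sub, av_const, hμ, sub_self]
  · have h3 := hψb v.1 v.2 x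
    have h4 := hμb v.1 v.2
    have := abs_sub (ψ v.1 x) (μ v.1)
    show |ψ v.1 x - μ v.1| ≤ _
    linarith
  · rw [Finset.sum_coe_sort S (fun v => (2 * (B / Real.sqrt (Nat.card (Res v)))) ^ 2)]
    have h3 : ∀ v ∈ S, (2 * (B / Real.sqrt (Nat.card (Res v)))) ^ 2 =
        4 * B ^ 2 * (1 / (Nat.card (Res v) : ℝ)) := by
      intro v _
      rw [mul_pow, div_pow, Real.sq_sqrt (Nat.cast_nonneg _)]
      ring
    rw [sum_congr rfl h3, ← mul_sum]
    exact hV

/-- the exponential moments of the centred sums -/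
lemma ccut (h2 : (2 : k) ≠ 0) {g h r m : ℕ} {B : ℝ} (hB1 : 1 ≤ B)
    (f1 : ∀ v : Place k, deg v < h → ∀ u : Idx r m → Res v, |lf g h v u| ≤ B / Real.sqrt (Nat.card (Res v)))
    {n D N : ℕ} (hDh : D ≤ h) (hND : 2 * N * D ≤ n) (hN : 1 ≤ N) {s : ℝ} (hs : 0 ≤ s) :
    av (fun t : Par k r m n => if (s * Zc g h (PB k D) t) ^ 2 ≤ N then Real.exp (s * Zc g h (PB k D) t) else 0) ≤
      6 * Real.exp (s ^ 2 / 2 * ∑ v ∈ PB k D, (av (fun u : Idx r m → Res v => lf g h v u ^ 2) -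
        av (fun u : Idx r m → Res v => lf g h v u) ^ 2) + 2 * ((2 * s * B) ^ 3 * Real.exp (2 * s * B))) := by
  obtain ⟨S, hSdef⟩ : ∃ S : Finset (Place k), S = PB k D := ⟨_, rfl⟩
  have hS : ∀ v ∈ S, deg v < h ∧ deg v ≤ D := by
    intro v hv
    rw [hSdef, mem_PB] at hv
    exact ⟨by omega, by omega⟩
  obtain ⟨ψ, hψ⟩ : ∃ ψ : ∀ v : Place k, (Idx r m → Res v) → ℝ, ψ = fun v x => lf g h v x := ⟨_, rfl⟩
  obtain ⟨μ, hμ⟩ : ∃ μ : Place k → ℝ, μ = fun v => av (ψ v) := ⟨_, rfl⟩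
  have hneO : ∀ v : Place k, Nonempty (Idx r m → Res v) := fun v => ⟨fun _ => 0⟩
  have hneA : Nonempty (Par k r m n) := ⟨fun _ => 0⟩
  have hs1 : ∀ v : Place k, 1 ≤ Real.sqrt (Nat.card (Res v)) := by
    intro v
    rw [Real.one_le_sqrt]
    exact_mod_cast Nat.card_pos
  have hψb : ∀ v ∈ S, ∀ x, |ψ v x| ≤ B / Real.sqrt (Nat.card (Res v)) := by
    intro v hv x
    rw [hψ]
    exact f1 v (hS v hv).1 x
  have hμb : ∀ v ∈ S, |μ v| ≤ B / Real.sqrt (Nat.card (Res v)) := by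
    intro v hv
    rw [hμ]
    exact (abs_av_le _).trans ((av_mono (hψb v hv)).trans (le_of_eq (av_const _)))
  have key := av_cut (α := Par k r m n) (ι := S) (Ω := fun v => Idx r m → Res v.1)
    (fun v t => s * (ψ v.1 (rt v.1 t) - μ v.1)) (fun v x => s * (ψ v.1 x - μ v.1)) (fun v => by
      show av (fun x => s * (ψ v.1 x - μ v.1)) = 0
      rw [av_mul, av_sub, av_const, hμ, sub_self, mul_zero])
    (b := fun v => 2 * s * B / Real.sqrt (Nat.card (Res v.1))) (fun v x => by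
      have h3 := hψb v.1 v.2 x
      have h4 := hμb v.1 v.2
      have h5 := abs_sub (ψ v.1 x) (μ v.1)
      show |s * (ψ v.1 x - μ v.1)| ≤ _
      rw [abs_mul, abs_of_nonneg hs]
      have h6 : s * |ψ v.1 x - μ v.1| ≤ s * (2 * (B / Real.sqrt (Nat.card (Res v.1)))) :=
        mul_le_mul_of_nonneg_left (by linarith) hs
      refine h6.trans (le_of_eq ?_)
      ring) hN (fun m' hm' τ => by
      have h4 : m' * D ≤ 2 * N * D := Nat.mul_le_mul_right _ hm'
      exact mono (ι := Idx r m) S (n := n) (D := D) (m := m') (fun v hv => (hS v hv).2) (by omega)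
        (fun v x => s * (ψ v x - μ v)) τ)
  have e : ∀ t : Par k r m n, ∑ v : S, s * (ψ v.1 (rt v.1 t) - μ v.1) = s * Zc g h (PB k D) t := by
    intro t
    rw [Finset.sum_coe_sort S (fun v => s * (ψ v (rt v t) - μ v)), ← mul_sum, hSdef]
    unfold Zc
    rw [hμ, hψ]
  have e1 : (fun t : Par k r m n => if (∑ v : S, s * (ψ v.1 (rt v.1 t) - μ v.1)) ^ 2 ≤ (N : ℝ) then
      Real.exp (∑ v : S, s * (ψ v.1 (rt v.1 t) - μ v.1)) else 0) =
      fun t : Par k r m n => if (s * Zc g h (PB k D) t) ^ 2 ≤ (N : ℝ) then Real.exp (s * Zc g h (PB k D) t) else 0 := by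
    funext t
    rw [e]
  rw [e1] at key
  refine key.trans (mul_le_mul_of_nonneg_left (Real.exp_le_exp.2 ?_) (by norm_num))
  rw [sum_add_distrib]
  refine add_le_add ?_ ?_
  · rw [Finset.sum_coe_sort S (fun v => av (fun a => (s * (ψ v a - μ v)) ^ 2) / 2), mul_sum, hSdef]
    refine le_of_eq (sum_congr rfl fun v _ => ?_)
    have e2 : (fun a => (s * (ψ v a - μ v)) ^ 2) = fun a => s ^ 2 * (ψ v a ^ 2 - ((2 * μ v) * ψ v a - μ v ^ 2)) := by
      funext a
      ring
    rw [e2, av_mul, av_sub, av_sub, av_mul, av_const, hμ, hψ]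
    ring
  · rw [Finset.sum_coe_sort S (fun v => (2 * s * B / Real.sqrt (Nat.card (Res v))) ^ 3 * Real.exp (2 * s * B / Real.sqrt (Nat.card (Res v))))]
    have h3 : ∀ v ∈ S, (2 * s * B / Real.sqrt (Nat.card (Res v))) ^ 3 * Real.exp (2 * s * B / Real.sqrt (Nat.card (Res v))) ≤
        ((2 * s * B) ^ 3 * Real.exp (2 * s * B)) * (1 / Real.sqrt (Nat.card (Res v)) ^ 3) := by
      intro v _
      have h4 : Real.exp (2 * s * B / Real.sqrt (Nat.card (Res v))) ≤ Real.exp (2 * s * B) :=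
        Real.exp_le_exp.2 (div_le_self (by positivity) (hs1 v))
      have h5 : 0 ≤ (2 * s * B / Real.sqrt (Nat.card (Res v))) ^ 3 := by positivity
      refine (mul_le_mul_of_nonneg_left h4 h5).trans (le_of_eq ?_)
      rw [div_pow]
      ring
    refine (sum_le_sum h3).trans ?_
    rw [← mul_sum, hSdef]
    have h4 := sum_conv h2 D
    have h5 : 0 ≤ (2 * s * B) ^ 3 * Real.exp (2 * s * B) := by positivity
    nlinarith [mul_le_mul_of_nonneg_left h4 h5]

end

lemma fac_bound {V a : ℝ} (hV : 0 ≤ V) (ha : 0 < a) {K : ℕ} (hK : 1 ≤ K) :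
    2 * ((2 * K).factorial : ℝ) * (Real.exp 1 * V / K) ^ K / a ^ (2 * K) ≤ 2 * (12 * V * K / a ^ 2) ^ K := by
  have hK0 : (0 : ℝ) < K := by exact_mod_cast hK
  have hfac : ((2 * K).factorial : ℝ) ≤ ((2 * K : ℕ) : ℝ) ^ (2 * K) := by exact_mod_cast Nat.factorial_le_pow (2 * K)
  have he : Real.exp 1 ≤ 3 := by
    have := Real.exp_one_lt_d9
    linarith
  have h4 : (Real.exp 1 * V / K) ^ K ≤ (3 * V / K) ^ K := by
    refine pow_le_pow_left₀ (by positivity) ?_ K
    refine div_le_div_of_nonneg_right ?_ hK0.le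
    exact mul_le_mul_of_nonneg_right he hV
  have h5 : 2 * ((2 * K).factorial : ℝ) * (Real.exp 1 * V / K) ^ K / a ^ (2 * K) ≤
      2 * ((2 * K : ℕ) : ℝ) ^ (2 * K) * (3 * V / K) ^ K / a ^ (2 * K) := by
    refine div_le_div_of_nonneg_right ?_ (by positivity)
    exact mul_le_mul (mul_le_mul_of_nonneg_left hfac (by norm_num)) h4 (by positivity) (by positivity)
  refine h5.trans (le_of_eq ?_)
  rw [pow_mul, pow_mul, mul_assoc, ← mul_pow, mul_div_assoc, ← div_pow]
  congr 2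
  push_cast
  field_simp
  ring

open Classical in
/-- A crude bound for the probability of large values. -/
theorem crude (g r m κ : ℕ) (hrm : r + m = 2 * g + 1) (hrg : r ≤ g) (hg : 1 ≤ g) (p : ℝ) (hp : 0 ≤ p) : ∃ C : ℝ, 1 ≤ C ∧
    ∀ (k : Type) [Field k] [Fintype k], (2 : k) ≠ 0 → ∀ n : ℕ, 3 ≤ n → ∀ V : ℝ, C * (1 + Real.log n) ≤ V →
    ((univ.filter fun t : Par k r m n => ∃ x : ℝ, Val g κ t x ∧ V ≤ x).card : ℝ) ≤ 2 * Real.exp (-(p * V)) * Fintype.card (Par k r m n) := by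
  obtain ⟨B, hB1, hB⟩ := mt_facts g r m hrm hrg hg
  have hκ0 : (0 : ℝ) ≤ κ := Nat.cast_nonneg _
  have hg0 : (0 : ℝ) ≤ g := Nat.cast_nonneg _
  have hr0 : (0 : ℝ) ≤ r := Nat.cast_nonneg _
  obtain ⟨c, hc⟩ : ∃ c : ℝ, c = 1 / (16 * κ + 16) := ⟨_, rfl⟩
  have hc0 : 0 < c := by rw [hc]; positivity
  have hcκ : c * (16 * κ + 16) = 1 := by
    rw [hc]
    field_simp
  have hκc : 16 * (κ * c) ≤ 1 := by nlinarith
  obtain ⟨C, hC⟩ : ∃ C : ℝ, C = 192 * B ^ 2 * c * Real.exp (2 * p / c) + 2 / c + 4 * (56 * g + B) + 1 := ⟨_, rfl⟩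
  have e1 : 0 ≤ 192 * B ^ 2 * c * Real.exp (2 * p / c) := by positivity
  have e2 : 0 ≤ 2 / c := by positivity
  have hC1 : 1 ≤ C := by
    rw [hC]
    linarith
  refine ⟨C, hC1, ?_⟩
  intro k _ _ h2 n hn V hV
  obtain ⟨f1, f2, f3⟩ := hB k h2
  have hneA : Nonempty (Par k r m n) := ⟨fun _ => 0⟩
  have hM0 : (0 : ℝ) < Fintype.card (Par k r m n) := by exact_mod_cast Fintype.card_pos
  have hn3 : (3 : ℝ) ≤ n := by exact_mod_cast hn
  have hlog1 : 1 ≤ Real.log n := by
    rw [Real.le_log_iff_exp_le (by linarith)]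
    linarith [Real.exp_one_lt_d9]
  have hVC : C ≤ V := by nlinarith
  have hV0 : 0 < V := by linarith
  obtain ⟨K, hK⟩ : ∃ K : ℕ, K = ⌊c * V⌋₊ := ⟨_, rfl⟩
  have hcV : 2 ≤ c * V := by
    have h3 : 2 / c ≤ V := by linarith
    rw [div_le_iff₀ hc0] at h3
    linarith
  have hKle : (K : ℝ) ≤ c * V := by
    rw [hK]
    exact Nat.floor_le (by positivity)
  have hKge : c * V / 2 ≤ K := by
    have h3 : c * V < K + 1 := by
      rw [hK]
      exact Nat.lt_floor_add_one _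
    linarith
  have hK2 : 2 ≤ K := by
    rw [hK]
    exact Nat.le_floor (by exact_mod_cast hcV)
  have hK2' : (2 : ℝ) ≤ K := by exact_mod_cast hK2
  have hVg : 4 * (56 * g + B) ≤ V := by linarith
  by_cases hnK : n < 2 * K
  · -- no such parameters
    have h3 : (univ.filter fun t : Par k r m n => ∃ x : ℝ, Val g κ t x ∧ V ≤ x) = ∅ := by
      rw [filter_eq_empty_iff]
      rintro t - ⟨x, hx, hVx⟩
      have h4 := val_le h2 hrm hrg t hx (h := 1) le_rfl (by
        rw [Nat.cast_one, Real.log_one]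
        linarith)
      have h5 : PB k 1 = ∅ := by
        unfold PB
        simp
      rw [h5, sum_empty, Nat.cast_one, div_one, add_zero] at h4
      have h6 : (n : ℝ) ≤ 2 * K := by exact_mod_cast hnK.le
      have h7 : (κ : ℝ) * n ≤ κ * (2 * (c * V)) := mul_le_mul_of_nonneg_left (by linarith) hκ0
      have h8 : 16 * (κ * c) * V ≤ 1 * V := mul_le_mul_of_nonneg_right hκc hV0.le
      nlinarith
    rw [h3, card_empty, Nat.cast_zero]
    positivity
  · push Not at hnK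
    obtain ⟨h, hh⟩ : ∃ h : ℕ, h = n / (2 * K) := ⟨_, rfl⟩
    have hh1 : 1 ≤ h := by
      rw [hh]
      exact (Nat.one_le_div_iff (by omega)).2 (by omega)
    have hhn : 2 * K * h ≤ n := by
      rw [hh]
      exact Nat.mul_div_le n (2 * K)
    have hh0 : (0 : ℝ) < h := by exact_mod_cast hh1
    have hh1' : (1 : ℝ) ≤ h := by exact_mod_cast hh1
    have hnh : (n : ℝ) ≤ 4 * K * h := by
      have h3 : n < (n / (2 * K) + 1) * (2 * K) := by
        have := Nat.lt_div_mul_add (a := n) (b := 2 * K) (by omega)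
        rw [add_mul, one_mul]
        exact this
      rw [← hh] at h3
      have h4 : (n : ℝ) ≤ (h + 1) * (2 * K) := by exact_mod_cast h3.le
      nlinarith
    have h4h : 4 * (h : ℝ) ≤ n := by
      have h3 : ((2 * K * h : ℕ) : ℝ) ≤ n := by exact_mod_cast hhn
      push_cast at h3
      nlinarith
    have hlogh : 1 + Real.log h ≤ Real.log n := by
      have h3 : Real.log (Real.exp 1 * h) ≤ Real.log n := by
        refine Real.log_le_log (by positivity) ?_
        nlinarith [Real.exp_one_lt_d9]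
      rw [Real.log_mul (Real.exp_pos 1).ne' hh0.ne', Real.log_exp] at h3
      exact h3
    have hlogh0 : 0 ≤ Real.log h := Real.log_nonneg hh1'
    -- the moments
    obtain ⟨σ, hσ⟩ : ∃ σ : ℝ, σ = 4 * B ^ 2 * (1 + Real.log n) := ⟨_, rfl⟩
    have hσ0 : 0 < σ := by rw [hσ]; positivity
    have hmom := cmom (r := r) (m := m) (g := g) hB1 (f1 h) (n := n) (D := h) (K := K) (PB k h)
      (fun v hv => ⟨mem_PB.1 hv, (mem_PB.1 hv).le⟩) hhn (by omega) (V := σ) (by
        rw [hσ]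
        refine mul_le_mul_of_nonneg_left ?_ (by positivity)
        have := sum_inv_le (k := k) hh1
        linarith) hσ0
    have hpp : ∀ t : Par k r m n, (∃ x : ℝ, Val g κ t x ∧ V ≤ x) → V / 2 ≤ Zc g h (PB k h) t := by
      rintro t ⟨x, hx, hVx⟩
      have h4 := val_le h2 hrm hrg t hx hh1 hlogh
      rw [Zc_eq] at h4
      have h5 := f2 h hh1
      have h6 : (κ : ℝ) * n / h ≤ 4 * κ * K := by
        rw [div_le_iff₀ hh0]
        have := mul_le_mul_of_nonneg_left hnh hκ0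
        linarith
      have h7 : 4 * (κ : ℝ) * K ≤ 4 * κ * (c * V) := mul_le_mul_of_nonneg_left hKle (by positivity)
      have h8 : 16 * (κ * c) * V ≤ 1 * V := mul_le_mul_of_nonneg_right hκc hV0.le
      have h9 : -((r : ℝ) + 1 / 2) * Real.log h ≤ 0 := by
        have : 0 ≤ ((r : ℝ) + 1 / 2) * Real.log h := by positivity
        linarith
      nlinarith
    have h3 := markov (fun t : Par k r m n => Zc g h (PB k h) t) K (V / 2) _ (by positivity) hmom
      (fun t => ∃ x : ℝ, Val g κ t x ∧ V ≤ x) hpp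
    refine (le_trans (le_of_eq (by congr)) h3).trans (mul_le_mul_of_nonneg_right ?_ hM0.le)
    refine (fac_bound hσ0.le (by positivity) (by omega)).trans ?_
    refine mul_le_mul_of_nonneg_left ?_ (by norm_num)
    have h4 : 12 * σ * K / (V / 2) ^ 2 ≤ Real.exp (-(2 * p / c)) := by
      have h5 : 12 * σ * K / (V / 2) ^ 2 ≤ 192 * B ^ 2 * c * (1 + Real.log n) / V := by
        rw [div_le_div_iff₀ (by positivity) hV0, hσ]
        have h6 : 12 * (4 * B ^ 2 * (1 + Real.log n)) * K ≤ 12 * (4 * B ^ 2 * (1 + Real.log n)) * (c * V) :=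
          mul_le_mul_of_nonneg_left hKle (by positivity)
        have h7 := mul_le_mul_of_nonneg_right h6 hV0.le
        refine h7.trans (le_of_eq ?_)
        ring
      refine h5.trans ?_
      rw [div_le_iff₀ hV0, Real.exp_neg, ← div_eq_inv_mul, le_div_iff₀ (Real.exp_pos _)]
      have h6 : 192 * B ^ 2 * c * Real.exp (2 * p / c) ≤ C := by linarith
      have h7 : 192 * B ^ 2 * c * Real.exp (2 * p / c) * (1 + Real.log n) ≤ C * (1 + Real.log n) :=
        mul_le_mul_of_nonneg_right h6 (by linarith)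
      calc 192 * B ^ 2 * c * (1 + Real.log n) * Real.exp (2 * p / c) = 192 * B ^ 2 * c * Real.exp (2 * p / c) * (1 + Real.log n) := by ring
        _ ≤ C * (1 + Real.log n) := h7
        _ ≤ V := hV
    calc (12 * σ * K / (V / 2) ^ 2) ^ K ≤ Real.exp (-(2 * p / c)) ^ K := pow_le_pow_left₀ (by positivity) h4 K
      _ = Real.exp (-(2 * p / c) * K) := by
        rw [← Real.exp_nat_mul]
        congr 1
        ring
      _ ≤ Real.exp (-(p * V)) := by
        refine Real.exp_le_exp.2 ?_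
        have h5 : p * V ≤ 2 * p / c * K := by
          have h6 : 2 * p / c * (c * V / 2) ≤ 2 * p / c * K := mul_le_mul_of_nonneg_left hKge (by positivity)
          have h7 : 2 * p / c * (c * V / 2) = p * V := by field_simp
          linarith
        linarith

end Q282.FF
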