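import Pool.Agent.Q282.FF.Mt3

/-!
# The moments of the leading coefficient
-/

set_option autoImplicit false
set_option linter.unusedSectionVars false

namespace Q282.FF

open Polynomial Finset Filter
open Q282.JK (Idx fpol)
open Q282.CL

open Classical in
/-- All exponential moments are at most a power of `n`. -/
theorem crude_moment (g r m κ : ℕ) (hrm : r + m = 2 * g + 1) (hrg : r ≤ g) (hg : 1 ≤ g) (p : ℝ) (hp : 0 ≤ p) : ∃ C : ℝ, 1 ≤ C ∧
    ∀ (k : Type) [Field k] [Fintype k], (2 : k) ≠ 0 → ∀ n : ℕ, 3 ≤ n → ∀ (G : Finset (Par k r m n)) (x : Par k r m n → ℝ),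
      (∀ t ∈ G, Val g κ t (x t)) → ∑ t ∈ G, Real.exp (p * x t) ≤ Real.exp (C * (1 + Real.log n)) * Fintype.card (Par k r m n) := by
  obtain ⟨C, hC1, hC⟩ := crude g r m κ hrm hrg hg (p + 1) (by linarith)
  refine ⟨p * C + p + 2, by nlinarith [mul_nonneg hp (by linarith : 0 ≤ C)], ?_⟩
  intro k _ _ h2 n hn G x hx
  have hn3 : (3 : ℝ) ≤ n := by exact_mod_cast hn
  have hlog1 : 1 ≤ Real.log n := by
    rw [Real.le_log_iff_exp_le (by linarith)]
    linarith [Real.exp_one_lt_d9]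
  obtain ⟨M, hM⟩ : ∃ M : ℝ, M = Fintype.card (Par k r m n) := ⟨_, rfl⟩
  have hM0 : 0 ≤ M := by rw [hM]; exact Nat.cast_nonneg _
  obtain ⟨V, hV⟩ : ∃ V : ℝ, V = C * (1 + Real.log n) := ⟨_, rfl⟩
  have hV0 : 0 ≤ V := by rw [hV]; positivity
  obtain ⟨j, hj⟩ : ∃ j : Par k r m n → ℕ, ∀ t, j t = ⌊x t - V⌋₊ := ⟨_, fun _ => rfl⟩
  obtain ⟨J, hJ⟩ : ∃ J : ℕ, J = G.sup j := ⟨_, rfl⟩
  have h1 : ∀ t ∈ G, Real.exp (p * x t) ≤ Real.exp (p * (V + 1)) * ∑ i ∈ range (J + 1), if i ≤ j t then Real.exp (p * i) else 0 := by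
    intro t ht
    have h3 : Real.exp (p * x t) ≤ Real.exp (p * (V + 1)) * Real.exp (p * j t) := by
      rw [← Real.exp_add]
      refine Real.exp_le_exp.2 ?_
      have h4 : x t - V < j t + 1 := by
        rw [hj]
        exact Nat.lt_floor_add_one _
      rw [← mul_add]
      exact mul_le_mul_of_nonneg_left (by linarith) hp
    refine h3.trans (mul_le_mul_of_nonneg_left ?_ (Real.exp_pos _).le)
    have h4 : j t ∈ range (J + 1) := by
      rw [mem_range, hJ]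
      exact Nat.lt_succ_of_le (le_sup ht)
    refine le_trans ?_ (single_le_sum (f := fun i : ℕ => if i ≤ j t then Real.exp (p * i) else 0) ?_ h4)
    · simp
    · intro i _
      split_ifs
      · exact (Real.exp_pos _).le
      · exact le_rfl
  have h3 : ∀ i ∈ range (J + 1), (∑ t ∈ G, if i ≤ j t then Real.exp (p * i) else 0) ≤ 2 * (1 / 2) ^ i * M := by
    intro i _
    have h4 : (∑ t ∈ G, if i ≤ j t then Real.exp (p * i) else 0) = ((G.filter fun t => i ≤ j t).card : ℝ) * Real.exp (p * i) := by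
      rw [← sum_filter, sum_const, nsmul_eq_mul]
    rw [h4]
    rcases Nat.eq_zero_or_pos i with hi | hi
    · rw [hi, Nat.cast_zero, mul_zero, Real.exp_zero, mul_one, pow_zero, mul_one]
      have h5 : ((G.filter fun t => 0 ≤ j t).card : ℝ) ≤ M := by
        rw [hM]
        exact_mod_cast card_le_univ _
      linarith
    · have h5 : (G.filter fun t => i ≤ j t) ⊆ univ.filter fun t : Par k r m n => ∃ y : ℝ, Val g κ t y ∧ V + i ≤ y := by
        intro t ht
        rw [mem_filter] at ht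
        rw [mem_filter]
        refine ⟨mem_univ _, x t, hx t ht.1, ?_⟩
        have h6 : i ≤ ⌊x t - V⌋₊ := by
          rw [← hj]
          exact ht.2
        have h7 := (Nat.le_floor_iff' (by omega)).1 h6
        linarith
      have h6 : ((G.filter fun t => i ≤ j t).card : ℝ) ≤ 2 * Real.exp (-((p + 1) * (V + i))) * M := by
        refine le_trans (Nat.cast_le.2 (card_le_card h5)) ?_
        rw [hM]
        exact hC k h2 n hn (V + i) (by
          rw [← hV]
          linarith [(Nat.cast_nonneg i : (0 : ℝ) ≤ i)])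
      have h7 : Real.exp (-((p + 1) * (V + i))) * Real.exp (p * i) ≤ (1 / 2) ^ i := by
        rw [← Real.exp_add]
        have h8 : -((p + 1) * (V + i)) + p * i ≤ i * (-1) := by nlinarith [mul_nonneg (by linarith : 0 ≤ p + 1) hV0]
        refine (Real.exp_le_exp.2 h8).trans ?_
        rw [Real.exp_nat_mul]
        refine pow_le_pow_left₀ (Real.exp_pos _).le ?_ i
        rw [Real.exp_neg, ← one_div]
        exact one_div_le_one_div_of_le (by norm_num) (by linarith [Real.exp_one_gt_d9])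
      calc ((G.filter fun t => i ≤ j t).card : ℝ) * Real.exp (p * i) ≤ 2 * Real.exp (-((p + 1) * (V + i))) * M * Real.exp (p * i) :=
            mul_le_mul_of_nonneg_right h6 (Real.exp_pos _).le
        _ = 2 * (Real.exp (-((p + 1) * (V + i))) * Real.exp (p * i)) * M := by ring
        _ ≤ 2 * (1 / 2) ^ i * M := by
          refine mul_le_mul_of_nonneg_right ?_ hM0
          linarith
  have hgeo : ∑ i ∈ range (J + 1), (1 / 2 : ℝ) ^ i ≤ 2 := by
    have h4 := Summable.sum_le_tsum (f := fun i : ℕ => (1 / 2 : ℝ) ^ i) (range (J + 1)) (fun i _ => by positivity) summable_geometric_two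
    rw [tsum_geometric_two] at h4
    exact h4
  calc ∑ t ∈ G, Real.exp (p * x t) ≤ ∑ t ∈ G, Real.exp (p * (V + 1)) * ∑ i ∈ range (J + 1), (if i ≤ j t then Real.exp (p * i) else 0) :=
        sum_le_sum h1
    _ = Real.exp (p * (V + 1)) * ∑ i ∈ range (J + 1), ∑ t ∈ G, (if i ≤ j t then Real.exp (p * i) else 0) := by
        rw [← mul_sum, sum_comm]
    _ ≤ Real.exp (p * (V + 1)) * ∑ i ∈ range (J + 1), 2 * (1 / 2) ^ i * M :=
        mul_le_mul_of_nonneg_left (sum_le_sum h3) (Real.exp_pos _).le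
    _ = Real.exp (p * (V + 1)) * (2 * M * ∑ i ∈ range (J + 1), (1 / 2) ^ i) := by
        have e : ∑ i ∈ range (J + 1), 2 * (1 / 2) ^ i * M = 2 * M * ∑ i ∈ range (J + 1), (1 / 2) ^ i := by
          rw [mul_sum]
          exact sum_congr rfl fun i _ => by ring
        rw [e]
    _ ≤ Real.exp (p * (V + 1)) * (2 * M * 2) :=
        mul_le_mul_of_nonneg_left (mul_le_mul_of_nonneg_left hgeo (by positivity)) (Real.exp_pos _).le
    _ = 4 * Real.exp (p * (V + 1)) * M := by ring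
    _ ≤ Real.exp ((p * C + p + 2) * (1 + Real.log n)) * M := by
        refine mul_le_mul_of_nonneg_right ?_ hM0
        have h4 : (4 : ℝ) ≤ Real.exp 2 := by
          have h5 : Real.exp 2 = Real.exp 1 * Real.exp 1 := by
            rw [← Real.exp_add]
            norm_num
          rw [h5]
          nlinarith [Real.exp_one_gt_d9]
        calc 4 * Real.exp (p * (V + 1)) ≤ Real.exp 2 * Real.exp (p * (V + 1)) := mul_le_mul_of_nonneg_right h4 (Real.exp_pos _).le
          _ = Real.exp (2 + p * (V + 1)) := by rw [Real.exp_add]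
          _ ≤ _ := by
            refine Real.exp_le_exp.2 ?_
            rw [hV]
            nlinarith [mul_nonneg hp (by linarith : 0 ≤ Real.log n)]
    _ = _ := by rw [hM]

lemma var_nonneg {α : Type} [Fintype α] [Nonempty α] (f : α → ℝ) : 0 ≤ av (fun a => f a ^ 2) - av f ^ 2 := by
  have h1 : 0 ≤ av (fun a => (f a - av f) ^ 2) := av_nonneg fun a => sq_nonneg _
  have e : (fun a => (f a - av f) ^ 2) = fun a => f a ^ 2 - ((2 * av f) * f a - av f ^ 2) := by
    funext a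
    ring
  rw [e, av_sub, av_sub, av_mul, av_const] at h1
  linarith

/-- the choice of the parameters -/
lemma large_L (B s A η δ c₀ ε : ℝ) (hη : 0 < η) (hδ : 0 < δ) (hε : 0 < ε) : ∀ᶠ n : ℕ in atTop, 3 ≤ n ∧
    1 ≤ Real.log n ∧ Real.log (2 * η * Real.log n) ≤ η * Real.log n ∧
    4 * B ^ 2 * (4 * Real.log (Real.log n) + Real.log (2 / η) + 6) ≤ δ * Real.log n ∧
    2 * Real.log n ^ 5 ≤ n ∧ 4 ≤ η * Real.log n ∧ c₀ ≤ ε * Real.log n ∧ 2 * s ^ 2 + 2 ≤ Real.log n ∧ 2 * A + 2 ≤ Real.log n ∧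
    288 * B ^ 2 * (A + 1) ≤ Real.log n ∧ η ≤ Real.log n := by
  have hlog : Tendsto (fun n : ℕ => Real.log n) atTop atTop := Real.tendsto_log_atTop.comp tendsto_natCast_atTop_atTop
  have hc1 : ∀ c : ℝ, ∀ᶠ n : ℕ in atTop, c ≤ Real.log n := fun c => hlog.eventually (eventually_ge_atTop c)
  have hc2 : ∀ c : ℝ, 0 < c → ∀ᶠ n : ℕ in atTop, Real.log (Real.log n) ≤ c * Real.log n := by
    intro c hc
    have h1 := (Real.isLittleO_log_id_atTop.def hc)
    have h2 := hlog.eventually h1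
    filter_upwards [h2, hc1 1] with n hn hn1
    simp only [id, Real.norm_eq_abs] at hn
    rw [abs_of_pos (by linarith : 0 < Real.log n)] at hn
    exact (le_abs_self _).trans hn
  have hc3 : ∀ᶠ n : ℕ in atTop, 2 * Real.log n ^ 5 ≤ n := by
    have h1 := (Real.isLittleO_pow_exp_atTop (n := 5)).def (by norm_num : (0 : ℝ) < 1 / 2)
    have h2 := hlog.eventually h1
    filter_upwards [h2, hc1 1, eventually_ge_atTop 1] with n hn hn1 hn2
    have hn0 : (0 : ℝ) < n := by exact_mod_cast hn2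
    rw [Real.norm_eq_abs, Real.norm_eq_abs, Real.exp_log hn0, abs_of_pos hn0, abs_of_nonneg (by positivity)] at hn
    linarith
  filter_upwards [eventually_ge_atTop 3, hc1 1, hc2 (η / 2) (by positivity), hc1 (2 / η * Real.log (2 * η)), hc2 (δ / (32 * B ^ 2 + 1)) (by positivity),
    hc1 (2 / δ * (4 * B ^ 2 * (Real.log (2 / η) + 6))), hc3, hc1 (4 / η), hc1 (c₀ / ε), hc1 (2 * s ^ 2 + 2), hc1 (2 * A + 2), hc1 (288 * B ^ 2 * (A + 1)), hc1 η]
    with n a1 a2 a3 a4 a5 a6 a7 a8 a9 a10 a11 a12 a13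
  have hL : 0 < Real.log n := by linarith
  refine ⟨a1, a2, ?_, ?_, a7, ?_, ?_, a10, a11, a12, a13⟩
  · rw [Real.log_mul (by positivity) hL.ne']
    have h1 : η / 2 * (2 / η * Real.log (2 * η)) ≤ η / 2 * Real.log n := mul_le_mul_of_nonneg_left a4 (by positivity)
    have h2 : η / 2 * (2 / η * Real.log (2 * η)) = Real.log (2 * η) := by field_simp
    linarith
  · have h1 : δ / 2 * (2 / δ * (4 * B ^ 2 * (Real.log (2 / η) + 6))) ≤ δ / 2 * Real.log n := mul_le_mul_of_nonneg_left a6 (by positivity)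
    have h2 : δ / 2 * (2 / δ * (4 * B ^ 2 * (Real.log (2 / η) + 6))) = 4 * B ^ 2 * (Real.log (2 / η) + 6) := by field_simp
    have h3 : 16 * B ^ 2 * Real.log (Real.log n) ≤ 16 * B ^ 2 * (δ / (32 * B ^ 2 + 1) * Real.log n) := mul_le_mul_of_nonneg_left a5 (by positivity)
    have h4 : 16 * B ^ 2 * (δ / (32 * B ^ 2 + 1) * Real.log n) ≤ δ / 2 * Real.log n := by
      have h5 : 16 * B ^ 2 * (δ / (32 * B ^ 2 + 1)) ≤ δ / 2 := by
        rw [← mul_div_assoc, div_le_div_iff₀ (by positivity) (by norm_num)]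
        nlinarith
      calc 16 * B ^ 2 * (δ / (32 * B ^ 2 + 1) * Real.log n) = 16 * B ^ 2 * (δ / (32 * B ^ 2 + 1)) * Real.log n := by ring
        _ ≤ δ / 2 * Real.log n := mul_le_mul_of_nonneg_right h5 hL.le
    linarith
  · rw [div_le_iff₀ hη] at a8
    linarith
  · rw [div_le_iff₀ hε] at a9
    linarith

section

variable {k : Type} [Field k] [Fintype k] [DecidableEq k]

/-- the contribution of the places of large degree is small -/
lemma bad_one (h2 : (2 : k) ≠ 0) {g h r m z n : ℕ} {B : ℝ} (hB1 : 1 ≤ B)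
    (f1 : ∀ v : Place k, deg v < h → ∀ u : Idx r m → Res v, |lf g h v u| ≤ B / Real.sqrt (Nat.card (Res v)))
    (hz1 : 1 ≤ z) (hzh : z ≤ h) {η L A δ : ℝ} (hη0 : 0 < η) (hL0 : 0 < L) (hA0 : 0 < A) (q6 : 4 ≤ η * L)
    (hh_le : (h : ℝ) ≤ n / (η * L)) (hδ : δ = η / 6 * Real.exp (-(4 * A / η)))
    (hσ1 : 4 * B ^ 2 * (Real.log h - Real.log z + 6) ≤ δ * L) (p : Par k r m n → Prop) [DecidablePred p]
    (hp : ∀ t, p t → η * L ≤ Zc g h (PB k h \ PB k z) t) :
    ((univ.filter p).card : ℝ) ≤ 2 * Real.exp (-(A * L)) * Fintype.card (Par k r m n) := by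
  have hneA : Nonempty (Par k r m n) := ⟨fun _ => 0⟩
  have hηL : 0 < η * L := by positivity
  have hδ0 : 0 < δ := by rw [hδ]; positivity
  obtain ⟨K, hK⟩ : ∃ K : ℕ, K = ⌊η * L / 2⌋₊ := ⟨_, rfl⟩
  have hKle : (K : ℝ) ≤ η * L / 2 := by
    rw [hK]
    exact Nat.floor_le (by positivity)
  have hKge : η * L / 4 ≤ K := by
    have h3 : η * L / 2 < K + 1 := by
      rw [hK]
      exact Nat.lt_floor_add_one _
    linarith
  have hK1 : 1 ≤ K := by
    rw [hK]
    exact Nat.le_floor (by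
      rw [Nat.cast_one]
      linarith)
  have hKh : 2 * K * h ≤ n := by
    have h3 : (2 * K * h : ℝ) ≤ n := by
      calc (2 * K * h : ℝ) ≤ 2 * (η * L / 2) * (n / (η * L)) :=
            mul_le_mul (by linarith) hh_le (Nat.cast_nonneg _) (by positivity)
        _ = n := by field_simp
    exact_mod_cast h3
  obtain ⟨σ, hσ⟩ : ∃ σ : ℝ, σ = δ * L := ⟨_, rfl⟩
  have hσ0 : 0 < σ := by rw [hσ]; positivity
  have hmom := cmom (r := r) (m := m) (g := g) hB1 f1 (n := n) (D := h) (K := K) (PB k h \ PB k z)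
    (fun v hv => by
      rw [Finset.mem_sdiff, mem_PB] at hv
      exact ⟨hv.1, hv.1.le⟩) hKh hK1 (V := σ) (by
      have h3 := sum_inv_sub (k := k) h2 hz1 hzh
      have h4 : 4 * B ^ 2 * ∑ v ∈ PB k h \ PB k z, 1 / (Nat.card (Res v) : ℝ) ≤ 4 * B ^ 2 * (Real.log h - Real.log z + 6) :=
        mul_le_mul_of_nonneg_left h3 (by positivity)
      rw [hσ]
      linarith) hσ0
  have h3 := markov (fun t : Par k r m n => Zc g h (PB k h \ PB k z) t) K (η * L) _ hηL hmom p hp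
  refine h3.trans (mul_le_mul_of_nonneg_right ?_ (Nat.cast_nonneg _))
  refine (fac_bound hσ0.le hηL hK1).trans (mul_le_mul_of_nonneg_left ?_ (by norm_num))
  have h4 : 12 * σ * K / (η * L) ^ 2 ≤ Real.exp (-(4 * A / η)) := by
    rw [div_le_iff₀ (by positivity)]
    have h5 : 12 * σ * K ≤ 12 * σ * (η * L / 2) := mul_le_mul_of_nonneg_left hKle (by positivity)
    refine h5.trans (le_of_eq ?_)
    rw [hσ, hδ]
    ring
  calc (12 * σ * K / (η * L) ^ 2) ^ K ≤ Real.exp (-(4 * A / η)) ^ K := pow_le_pow_left₀ (by positivity) h4 K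
    _ = Real.exp (K * (-(4 * A / η))) := by rw [← Real.exp_nat_mul]
    _ ≤ Real.exp (-(A * L)) := by
      refine Real.exp_le_exp.2 ?_
      have h6 : 4 * A / η * (η * L / 4) ≤ 4 * A / η * K := mul_le_mul_of_nonneg_left hKge (by positivity)
      have h7 : 4 * A / η * (η * L / 4) = A * L := by field_simp
      linarith

/-- the contribution of the places of small degree is not too large -/
lemma bad_two {g h r m z n : ℕ} {B : ℝ} (hB1 : 1 ≤ B)
    (f1 : ∀ v : Place k, deg v < h → ∀ u : Idx r m → Res v, |lf g h v u| ≤ B / Real.sqrt (Nat.card (Res v)))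
    (hz1 : 1 ≤ z) (hzh : z ≤ h) {L A : ℝ} (hL1 : 1 ≤ L) (hA0 : 0 < A) (q9 : 2 * A + 2 ≤ L)
    (q10 : 288 * B ^ 2 * (A + 1) ≤ L)
    (hz_le : (z : ℝ) ≤ n / L ^ 5) (hlogz : Real.log z ≤ L) (p : Par k r m n → Prop) [DecidablePred p]
    (hp : ∀ t, p t → L ^ 2 ≤ |Zc g h (PB k z) t|) :
    ((univ.filter p).card : ℝ) ≤ 2 * Real.exp (-(A * L)) * Fintype.card (Par k r m n) := by
  have hneA : Nonempty (Par k r m n) := ⟨fun _ => 0⟩
  have hL0 : 0 < L := by linarith
  obtain ⟨K, hK⟩ : ∃ K : ℕ, K = ⌈A * L⌉₊ := ⟨_, rfl⟩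
  have hKge : A * L ≤ K := by
    rw [hK]
    exact Nat.le_ceil _
  have hKle : (K : ℝ) ≤ A * L + 1 := by
    rw [hK]
    exact (Nat.ceil_lt_add_one (by positivity)).le
  have hK1 : 1 ≤ K := by
    have : 0 < K := by
      rw [hK]
      exact Nat.ceil_pos.2 (by positivity)
    exact this
  have hK0 : (0 : ℝ) ≤ K := Nat.cast_nonneg _
  have hLL : L ≤ L * L := le_mul_of_one_le_left hL0.le hL1
  have hLLL : L * L ≤ L * L * L := le_mul_of_one_le_right (by positivity) hL1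
  have h4 : 2 * (K : ℝ) ≤ L ^ 5 := by
    have h6 : (2 * A + 2) * L ≤ L * L := mul_le_mul_of_nonneg_right q9 hL0.le
    have h7 : L ^ 2 ≤ L ^ 5 := pow_le_pow_right₀ hL1 (by norm_num)
    have h8 : L ^ 2 = L * L := sq L
    linarith
  have hKz : 2 * K * z ≤ n := by
    have h3 : (2 * K * z : ℝ) ≤ n := by
      calc (2 * K * z : ℝ) ≤ L ^ 5 * (n / L ^ 5) :=
            mul_le_mul h4 hz_le (Nat.cast_nonneg _) (by positivity)
        _ = n := by field_simp
    exact_mod_cast h3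
  obtain ⟨σ, hσ⟩ : ∃ σ : ℝ, σ = 4 * B ^ 2 * (1 + L) := ⟨_, rfl⟩
  have hσ0 : 0 < σ := by rw [hσ]; positivity
  have hmom := cmom (r := r) (m := m) (g := g) hB1 f1 (n := n) (D := z) (K := K) (PB k z)
    (fun v hv => by
      rw [mem_PB] at hv
      exact ⟨by omega, hv.le⟩) hKz hK1 (V := σ) (by
      have h3 := sum_inv_le (k := k) hz1
      rw [hσ]
      exact mul_le_mul_of_nonneg_left (by linarith) (by positivity)) hσ0
  have e : (fun t : Par k r m n => |Zc g h (PB k z) t| ^ (2 * K)) = fun t => Zc g h (PB k z) t ^ (2 * K) := by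
    funext t
    rw [pow_mul, pow_mul, sq_abs]
  rw [← e] at hmom
  have h3 := markov (fun t : Par k r m n => |Zc g h (PB k z) t|) K (L ^ 2) _ (by positivity) hmom p hp
  refine h3.trans (mul_le_mul_of_nonneg_right ?_ (Nat.cast_nonneg _))
  refine (fac_bound hσ0.le (by positivity) hK1).trans (mul_le_mul_of_nonneg_left ?_ (by norm_num))
  have h4 : 12 * σ * K / (L ^ 2) ^ 2 ≤ Real.exp (-1) := by
    have h6 : σ ≤ 8 * B ^ 2 * L := by
      rw [hσ]
      have := mul_le_mul_of_nonneg_left hL1 (by positivity : 0 ≤ 4 * B ^ 2)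
      linarith
    have h7 : (K : ℝ) ≤ (A + 1) * L := by linarith
    have h5 : 12 * σ * K ≤ 96 * B ^ 2 * (A + 1) * (L * L) := by
      calc 12 * σ * K ≤ 12 * (8 * B ^ 2 * L) * ((A + 1) * L) :=
            mul_le_mul (by linarith) h7 hK0 (by positivity)
        _ = _ := by ring
    have h8 : 288 * B ^ 2 * (A + 1) * (L * L) ≤ L * (L * L) := mul_le_mul_of_nonneg_right q10 (by positivity)
    have h9 : L * (L * L) ≤ L ^ 4 := by
      have e1 : L * (L * L) = L ^ 3 := by ring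
      rw [e1]
      exact pow_le_pow_right₀ hL1 (by norm_num)
    have h10 : (1 / 3 : ℝ) ≤ Real.exp (-1) := by
      rw [Real.exp_neg, ← one_div]
      exact one_div_le_one_div_of_le (Real.exp_pos _) (by linarith [Real.exp_one_lt_d9])
    rw [div_le_iff₀ (by positivity)]
    have h11 : (L ^ 2) ^ 2 = L ^ 4 := by ring
    rw [h11]
    have h12 := mul_le_mul_of_nonneg_right h10 (by positivity : 0 ≤ L ^ 4)
    linarith
  calc (12 * σ * K / (L ^ 2) ^ 2) ^ K ≤ Real.exp (-1) ^ K := pow_le_pow_left₀ (by positivity) h4 K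
    _ = Real.exp (K * (-1)) := by rw [← Real.exp_nat_mul]
    _ ≤ Real.exp (-(A * L)) := Real.exp_le_exp.2 (by linarith)

/-- the main part of the exponential moment -/
lemma good_sum (h2 : (2 : k) ≠ 0) {g h r m z n : ℕ} {B : ℝ} (hB1 : 1 ≤ B)
    (f1 : ∀ v : Place k, deg v < h → ∀ u : Idx r m → Res v, |lf g h v u| ≤ B / Real.sqrt (Nat.card (Res v)))
    (hz1 : 1 ≤ z) (hzh : z ≤ h) {L s E : ℝ} (hL1 : 1 ≤ L) (hs : 0 < s) (q8 : 2 * s ^ 2 + 2 ≤ L)
    (hz_le : (z : ℝ) ≤ n / L ^ 5)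
    (hvar : ∑ v ∈ PB k h, (av (fun u : Idx r m → Res v => lf g h v u ^ 2) - av (fun u : Idx r m → Res v => lf g h v u) ^ 2) ≤ L + B)
    (G : Finset (Par k r m n)) (x : Par k r m n → ℝ) (hx : ∀ t ∈ G, s * x t ≤ E + s * Zc g h (PB k z) t)
    (hZ : ∀ t ∈ G, |Zc g h (PB k z) t| ≤ L ^ 2) :
    ∑ t ∈ G, Real.exp (s * x t) ≤ 6 * Real.exp (E + (s ^ 2 / 2 * (L + B) + 2 * ((2 * s * B) ^ 3 * Real.exp (2 * s * B)))) *
      Fintype.card (Par k r m n) := by
  have hneA : Nonempty (Par k r m n) := ⟨fun _ => 0⟩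
  have hM0 : (0 : ℝ) < Fintype.card (Par k r m n) := by exact_mod_cast Fintype.card_pos
  have hL0 : 0 < L := by linarith
  obtain ⟨N, hN⟩ : ∃ N : ℕ, N = ⌈s ^ 2 * L ^ 4⌉₊ := ⟨_, rfl⟩
  have hNge : s ^ 2 * L ^ 4 ≤ N := by
    rw [hN]
    exact Nat.le_ceil _
  have hNle : (N : ℝ) ≤ s ^ 2 * L ^ 4 + 1 := by
    rw [hN]
    exact (Nat.ceil_lt_add_one (by positivity)).le
  have hN1 : 1 ≤ N := by
    have : 0 < N := by
      rw [hN]
      exact Nat.ceil_pos.2 (by positivity)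
    exact this
  have hNz : 2 * N * z ≤ n := by
    have h3 : (2 * N * z : ℝ) ≤ n := by
      have h4 : 2 * (N : ℝ) ≤ L ^ 5 := by
        have h5 : (2 * s ^ 2 + 2) * L ^ 4 ≤ L * L ^ 4 := mul_le_mul_of_nonneg_right q8 (by positivity)
        have h6 : L ^ 5 = L * L ^ 4 := by ring
        have h7 : 1 ≤ L ^ 4 := one_le_pow₀ hL1
        rw [h6]
        linarith
      calc (2 * N * z : ℝ) ≤ L ^ 5 * (n / L ^ 5) :=
            mul_le_mul h4 hz_le (Nat.cast_nonneg _) (by positivity)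
        _ = n := by field_simp
    exact_mod_cast h3
  have hcut := ccut (r := r) (m := m) (g := g) (h := h) h2 hB1 f1 (n := n) (D := z) (N := N) hzh hNz hN1 hs.le
  have hsub : PB k z ⊆ PB k h := by
    intro v hv
    rw [mem_PB] at hv ⊢
    omega
  have hvar' : ∑ v ∈ PB k z, (av (fun u : Idx r m → Res v => lf g h v u ^ 2) - av (fun u : Idx r m → Res v => lf g h v u) ^ 2) ≤ L + B := by
    refine (sum_le_sum_of_subset_of_nonneg hsub fun v _ _ => ?_).trans hvar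
    have : Nonempty (Idx r m → Res v) := ⟨fun _ => 0⟩
    exact var_nonneg _
  obtain ⟨c, hc⟩ : ∃ c : ℝ, c = 2 * ((2 * s * B) ^ 3 * Real.exp (2 * s * B)) := ⟨_, rfl⟩
  rw [← hc] at hcut ⊢
  have h3 : ∀ t ∈ G, Real.exp (s * x t) ≤ Real.exp E * (if (s * Zc g h (PB k z) t) ^ 2 ≤ (N : ℝ) then Real.exp (s * Zc g h (PB k z) t) else 0) := by
    intro t ht
    have h7 : (s * Zc g h (PB k z) t) ^ 2 ≤ (N : ℝ) := by
      have h8 : Zc g h (PB k z) t ^ 2 ≤ (L ^ 2) ^ 2 := by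
        rw [← sq_abs]
        exact pow_le_pow_left₀ (abs_nonneg _) (hZ t ht) 2
      rw [mul_pow]
      have h9 := mul_le_mul_of_nonneg_left h8 (sq_nonneg s)
      have h10 : (L ^ 2) ^ 2 = L ^ 4 := by ring
      rw [h10] at h9
      linarith
    rw [if_pos h7, ← Real.exp_add]
    exact Real.exp_le_exp.2 (hx t ht)
  have h4 : ∑ t ∈ G, (if (s * Zc g h (PB k z) t) ^ 2 ≤ (N : ℝ) then Real.exp (s * Zc g h (PB k z) t) else 0) ≤
      Fintype.card (Par k r m n) * av (fun t : Par k r m n => if (s * Zc g h (PB k z) t) ^ 2 ≤ (N : ℝ) then Real.exp (s * Zc g h (PB k z) t) else 0) := by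
    have h5 : Fintype.card (Par k r m n) * av (fun t : Par k r m n => if (s * Zc g h (PB k z) t) ^ 2 ≤ (N : ℝ) then Real.exp (s * Zc g h (PB k z) t) else 0) =
        ∑ t : Par k r m n, if (s * Zc g h (PB k z) t) ^ 2 ≤ (N : ℝ) then Real.exp (s * Zc g h (PB k z) t) else 0 := by
      unfold av
      rw [mul_div_assoc', mul_comm, mul_div_assoc, div_self hM0.ne', mul_one]
    rw [h5]
    refine sum_le_sum_of_subset_of_nonneg (subset_univ _) fun t _ _ => ?_
    split_ifs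
    · exact (Real.exp_pos _).le
    · exact le_rfl
  refine (sum_le_sum h3).trans ?_
  rw [← mul_sum]
  refine (mul_le_mul_of_nonneg_left (h4.trans (mul_le_mul_of_nonneg_left hcut hM0.le)) (Real.exp_pos _).le).trans ?_
  obtain ⟨y, hy⟩ : ∃ y : ℝ, y = s ^ 2 / 2 * ∑ v ∈ PB k z, (av (fun u : Idx r m → Res v => lf g h v u ^ 2) -
      av (fun u : Idx r m → Res v => lf g h v u) ^ 2) + c := ⟨_, rfl⟩
  have hy1 : y ≤ s ^ 2 / 2 * (L + B) + c := by
    rw [hy]
    have := mul_le_mul_of_nonneg_left hvar' (by positivity : 0 ≤ s ^ 2 / 2)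
    linarith
  rw [← hy]
  have h5 : Real.exp E * Real.exp y ≤ Real.exp (E + (s ^ 2 / 2 * (L + B) + c)) := by
    rw [← Real.exp_add]
    exact Real.exp_le_exp.2 (by linarith)
  calc Real.exp E * (Fintype.card (Par k r m n) * (6 * Real.exp y)) = 6 * (Real.exp E * Real.exp y) * Fintype.card (Par k r m n) := by ring
    _ ≤ _ := mul_le_mul_of_nonneg_right (by linarith) hM0.le

end

/-- the three degrees -/
lemma degrees {n : ℕ} {L η : ℝ} (hL : L = Real.log n) (hn0 : (0 : ℝ) < n) (hL1 : 1 ≤ L) (hη0 : 0 < η) (q3 : Real.log (2 * η * L) ≤ η * L)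
    (q5 : 2 * L ^ 5 ≤ n) (q6 : 4 ≤ η * L) (q11 : η ≤ L) : ∃ h z : ℕ, 1 ≤ z ∧ z ≤ h ∧ (h : ℝ) ≤ n / (η * L) ∧ (n : ℝ) ≤ 2 * (η * L) * h ∧
      (z : ℝ) ≤ n / L ^ 5 ∧ L - η * L ≤ Real.log h ∧ 1 + Real.log h ≤ L ∧
      Real.log h - Real.log z ≤ 4 * Real.log L + Real.log (2 / η) := by
  have hL0 : 0 < L := by linarith
  have hηL : 0 < η * L := by positivity
  have hη5 : η * L ≤ L ^ 5 := by
    have h3 : η * L ≤ L * L := mul_le_mul_of_nonneg_right q11 hL0.le
    have h4 : L ^ 2 ≤ L ^ 5 := pow_le_pow_right₀ hL1 (by norm_num)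
    have h5 : L ^ 2 = L * L := sq L
    linarith
  have hx1 : 1 ≤ n / L ^ 5 := by
    rw [le_div_iff₀ (by positivity)]
    have : 0 < L ^ 5 := by positivity
    linarith
  have hx2 : n / L ^ 5 ≤ n / (η * L) := div_le_div_of_nonneg_left hn0.le hηL hη5
  obtain ⟨h, hh⟩ : ∃ h : ℕ, h = ⌊n / (η * L)⌋₊ := ⟨_, rfl⟩
  obtain ⟨z, hz⟩ : ∃ z : ℕ, z = ⌊n / L ^ 5⌋₊ := ⟨_, rfl⟩
  have hh_le : (h : ℝ) ≤ n / (η * L) := by
    rw [hh]
    exact Nat.floor_le (by positivity)
  have hh1 : 1 ≤ h := by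
    rw [hh]
    exact Nat.le_floor (by
      rw [Nat.cast_one]
      linarith)
  have hh1' : (1 : ℝ) ≤ h := by exact_mod_cast hh1
  have hh0 : (0 : ℝ) < h := by linarith
  have hh_ge : n / (η * L) / 2 ≤ h := by
    have h3 : n / (η * L) < h + 1 := by
      rw [hh]
      exact Nat.lt_floor_add_one _
    linarith
  have hz_le : (z : ℝ) ≤ n / L ^ 5 := by
    rw [hz]
    exact Nat.floor_le (by positivity)
  have hz1 : 1 ≤ z := by
    rw [hz]
    exact Nat.le_floor (by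
      rw [Nat.cast_one]
      linarith)
  have hz1' : (1 : ℝ) ≤ z := by exact_mod_cast hz1
  have hz_ge : n / L ^ 5 / 2 ≤ z := by
    have h3 : n / L ^ 5 < z + 1 := by
      rw [hz]
      exact Nat.lt_floor_add_one _
    linarith
  have hlog1 : Real.log h ≤ L - Real.log (η * L) := by
    have h3 := Real.log_le_log hh0 hh_le
    rw [Real.log_div hn0.ne' hηL.ne', ← hL] at h3
    exact h3
  refine ⟨h, z, hz1, ?_, hh_le, ?_, hz_le, ?_, ?_, ?_⟩
  · rw [hz, hh]
    exact Nat.floor_le_floor hx2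
  · rw [div_div, div_le_iff₀ (by positivity)] at hh_ge
    linarith
  · have h3 := Real.log_le_log (by positivity) hh_ge
    have h4 : (n : ℝ) / (η * L) / 2 = n / (2 * η * L) := by
      field_simp
    rw [h4, Real.log_div hn0.ne' (by positivity), ← hL] at h3
    linarith
  · have h3 : 1 ≤ Real.log (η * L) := by
      rw [Real.le_log_iff_exp_le hηL]
      linarith [Real.exp_one_lt_d9]
    linarith
  · have h3 := Real.log_le_log (by positivity) hz_ge
    have h4 : (n : ℝ) / L ^ 5 / 2 = n / (2 * L ^ 5) := by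
      field_simp
    rw [h4, Real.log_div hn0.ne' (by positivity), ← hL, Real.log_mul (by norm_num) (by positivity), Real.log_pow] at h3
    rw [Real.log_mul hη0.ne' hL0.ne'] at hlog1
    rw [Real.log_div (by norm_num) hη0.ne']
    push_cast at h3
    linarith

/-- the inequality of Cauchy and Schwarz for the exceptional parameters -/
lemma bad_part {T : Type} (H : Finset T) (x : T → ℝ) {s C L A ρ M : ℝ} (hL1 : 1 ≤ L) (hC0 : 0 ≤ C) (hA : A = 2 * C + 2 * s * ρ) (hM0 : 0 ≤ M)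
    (h4 : ∑ t ∈ H, Real.exp (2 * s * x t) ≤ Real.exp (C * (1 + L)) * M)
    (h5 : (H.card : ℝ) ≤ 4 * Real.exp (-(A * L)) * M) :
    ∑ t ∈ H, Real.exp (s * x t) ≤ 2 * Real.exp (-(s * ρ * L)) * M := by
  have h3 := sq_sum_le_card_mul_sum_sq (s := H) (f := fun t => Real.exp (s * x t))
  have h4' : ∑ t ∈ H, Real.exp (s * x t) ^ 2 ≤ Real.exp (C * (1 + L)) * M := by
    refine le_trans (le_of_eq (sum_congr rfl fun t _ => ?_)) h4
    rw [← Real.exp_nat_mul]
    congr 1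
    push_cast
    ring
  have h6 : (∑ t ∈ H, Real.exp (s * x t)) ^ 2 ≤ (2 * Real.exp (-(s * ρ * L)) * M) ^ 2 := by
    refine h3.trans ((mul_le_mul h5 h4' (sum_nonneg fun _ _ => sq_nonneg _) (by positivity)).trans ?_)
    have h7 : Real.exp (-(A * L)) * Real.exp (C * (1 + L)) ≤ Real.exp (-(s * ρ * L)) ^ 2 := by
      rw [← Real.exp_add, ← Real.exp_nat_mul]
      refine Real.exp_le_exp.2 ?_
      rw [hA]
      push_cast
      have := mul_le_mul_of_nonneg_left hL1 hC0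
      linarith
    calc 4 * Real.exp (-(A * L)) * M * (Real.exp (C * (1 + L)) * M) = 4 * M ^ 2 * (Real.exp (-(A * L)) * Real.exp (C * (1 + L))) := by ring
      _ ≤ 4 * M ^ 2 * Real.exp (-(s * ρ * L)) ^ 2 := mul_le_mul_of_nonneg_left h7 (by positivity)
      _ = _ := by ring
  exact (abs_le_of_sq_le_sq' h6 (by positivity)).2

open Classical in
/-- The moments of the leading coefficient. -/
theorem all_moments (g r m κ : ℕ) (hrm : r + m = 2 * g + 1) (hrg : r ≤ g) (hg : 1 ≤ g) (s ε : ℝ) (hs : 0 < s) (hε : 0 < ε) : ∃ n₀ : ℕ,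
    ∀ (k : Type) [Field k] [Fintype k], (2 : k) ≠ 0 → ∀ n ≥ n₀, ∀ (G : Finset (Par k r m n)) (x : Par k r m n → ℝ),
      (∀ t ∈ G, Val g κ t (x t)) →
      ∑ t ∈ G, Real.exp (s * x t) ≤ Real.exp ((s ^ 2 / 2 - s * (r + 1 / 2) + ε) * Real.log n) * Fintype.card (Par k r m n) := by
  obtain ⟨B, hB1, hB⟩ := mt_facts g r m hrm hrg hg
  obtain ⟨C, hC1, hC⟩ := crude_moment g r m κ hrm hrg hg (2 * s) (by linarith)
  have hκ0 : (0 : ℝ) ≤ κ := Nat.cast_nonneg _
  have hg0 : (0 : ℝ) ≤ g := Nat.cast_nonneg _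
  have hr0 : (0 : ℝ) ≤ r := Nat.cast_nonneg _
  obtain ⟨ρ, hρ⟩ : ∃ ρ : ℝ, ρ = r + 1 / 2 := ⟨_, rfl⟩
  have hρ0 : 0 < ρ := by rw [hρ]; positivity
  obtain ⟨A, hA⟩ : ∃ A : ℝ, A = 2 * C + 2 * s * ρ := ⟨_, rfl⟩
  have hsρ : 0 < s * ρ := by positivity
  have hA0 : 0 < A := by rw [hA]; linarith
  obtain ⟨η, hη⟩ : ∃ η : ℝ, η = ε / (4 * s * (2 * κ + ρ + 1)) := ⟨_, rfl⟩
  have hη0 : 0 < η := by rw [hη]; positivity
  have hηs : s * (2 * κ + ρ + 1) * η = ε / 4 := by
    rw [hη]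
    field_simp
  obtain ⟨δ, hδ⟩ : ∃ δ : ℝ, δ = η / 6 * Real.exp (-(4 * A / η)) := ⟨_, rfl⟩
  have hδ0 : 0 < δ := by rw [hδ]; positivity
  obtain ⟨c₁, hc₁⟩ : ∃ c₁ : ℝ, c₁ = 2 * ((2 * s * B) ^ 3 * Real.exp (2 * s * B)) := ⟨_, rfl⟩
  have hc₁0 : 0 ≤ c₁ := by rw [hc₁]; positivity
  obtain ⟨c₀, hc₀⟩ : ∃ c₀ : ℝ, c₀ = s ^ 2 / 2 * B + c₁ + s * (56 * g + B) := ⟨_, rfl⟩
  have hc₀0 : 0 ≤ c₀ := by rw [hc₀]; positivity
  have hfin := large_L B s A η δ (c₀ + 3) (ε / 2) hη0 hδ0 (by positivity)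
  rw [eventually_atTop] at hfin
  obtain ⟨n₀, hn₀⟩ := hfin
  refine ⟨n₀, fun k _ _ h2 n hn G x hx => ?_⟩
  obtain ⟨f1, f2, f3⟩ := hB k h2
  obtain ⟨q1, q2, q3, q4, q5, q6, q7, q8, q9, q10, q11⟩ := hn₀ n hn
  obtain ⟨L, hL⟩ : ∃ L : ℝ, L = Real.log n := ⟨_, rfl⟩
  rw [← hL] at q2 q3 q4 q5 q6 q7 q8 q9 q10 q11 ⊢
  have hL0 : 0 < L := by linarith
  have hn0 : (0 : ℝ) < n := by
    have : (3 : ℝ) ≤ n := by exact_mod_cast q1
    linarith
  obtain ⟨h, z, hz1, hzh, hh_le, hh_ge, hz_le, hlog2, hone, hlog3⟩ := degrees hL hn0 q2 hη0 q3 q5 q6 q11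
  have hh1 : 1 ≤ h := hz1.trans hzh
  have hh0 : (0 : ℝ) < h := by exact_mod_cast hh1
  have hz0 : (0 : ℝ) < z := by exact_mod_cast hz1
  have hlogz : Real.log z ≤ L := by
    have h4 : Real.log z ≤ Real.log h := Real.log_le_log hz0 (by exact_mod_cast hzh)
    linarith
  obtain ⟨M, hM⟩ : ∃ M : ℝ, M = Fintype.card (Par k r m n) := ⟨_, rfl⟩
  have hneA : Nonempty (Par k r m n) := ⟨fun _ => 0⟩
  have hM0 : 0 < M := by rw [hM]; exact_mod_cast Fintype.card_pos
  have hηL : 0 < η * L := by positivity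
  have hsub : PB k z ⊆ PB k h := by
    intro v hv
    rw [mem_PB] at hv ⊢
    omega
  obtain ⟨Z, hZ⟩ : ∃ Z : Par k r m n → ℝ, ∀ t, Z t = Zc g h (PB k z) t := ⟨_, fun _ => rfl⟩
  obtain ⟨W, hW⟩ : ∃ W : Par k r m n → ℝ, ∀ t, W t = Zc g h (PB k h \ PB k z) t := ⟨_, fun _ => rfl⟩
  have hsplit : ∀ t : Par k r m n, Zc g h (PB k h) t = Z t + W t := by
    intro t
    rw [hZ, hW]
    unfold Zc
    rw [add_comm, sum_sdiff hsub]
  -- the pointwise bound
  have hpt : ∀ t ∈ G, x t ≤ 2 * κ * (η * L) + 56 * g + (-ρ * L + ρ * (η * L) + B) + (Z t + W t) := by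
    intro t ht
    have h4 := val_le h2 hrm hrg t (hx t ht) hh1 (by rw [← hL]; exact hone)
    rw [Zc_eq, hsplit] at h4
    have h5 := f2 h hh1
    rw [← hρ] at h5
    have h6 : (κ : ℝ) * n / h ≤ 2 * κ * (η * L) := by
      rw [div_le_iff₀ hh0]
      have := mul_le_mul_of_nonneg_left hh_ge hκ0
      linarith
    have h7 : -ρ * Real.log h ≤ -ρ * L + ρ * (η * L) := by
      have h8 : ρ * (L - η * L) ≤ ρ * Real.log h := mul_le_mul_of_nonneg_left hlog2 hρ0.le
      linarith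
    linarith
  -- the bad events
  have hbad1 := bad_one (r := r) (m := m) (g := g) (n := n) h2 hB1 (f1 h) hz1 hzh hη0 hL0 hA0 q6 hh_le hδ (by
    have h4 : 4 * B ^ 2 * (Real.log h - Real.log z + 6) ≤ 4 * B ^ 2 * (4 * Real.log L + Real.log (2 / η) + 6) :=
      mul_le_mul_of_nonneg_left (by linarith) (by positivity)
    exact h4.trans q4) (fun t => η * L ≤ W t) (fun t ht => by
    rw [← hW]
    exact ht)
  have hbad2 := bad_two (k := k) (r := r) (m := m) (g := g) (n := n) hB1 (f1 h) hz1 hzh q2 hA0 q9 q10 hz_le hlogz (fun t => L ^ 2 ≤ |Z t|)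
    (fun t ht => by
      rw [← hZ]
      exact ht)
  rw [← hM] at hbad1 hbad2 ⊢
  obtain ⟨Bad, hBad⟩ : ∃ Bad : Finset (Par k r m n), Bad = (univ.filter fun t : Par k r m n => η * L ≤ W t) ∪ (univ.filter fun t : Par k r m n => L ^ 2 ≤ |Z t|) := ⟨_, rfl⟩
  have hBadc : (Bad.card : ℝ) ≤ 4 * Real.exp (-(A * L)) * M := by
    rw [hBad]
    have h3 : (((univ.filter fun t : Par k r m n => η * L ≤ W t) ∪ (univ.filter fun t : Par k r m n => L ^ 2 ≤ |Z t|)).card : ℝ) ≤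
        ((univ.filter fun t : Par k r m n => η * L ≤ W t).card : ℝ) + ((univ.filter fun t : Par k r m n => L ^ 2 ≤ |Z t|).card : ℝ) := by
      exact_mod_cast card_union_le _ _
    linarith
  have hpart1 : ∑ t ∈ G ∩ Bad, Real.exp (s * x t) ≤ 2 * Real.exp (-(s * ρ * L)) * M := by
    refine bad_part (G ∩ Bad) x q2 (by linarith) hA hM0.le ?_ ?_
    · have h5 := hC k h2 n q1 (G ∩ Bad) x (fun t ht => hx t (Finset.mem_inter.1 ht).1)
      rw [← hL, ← hM] at h5
      exact h5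
    · exact le_trans (by exact_mod_cast card_le_card inter_subset_right) hBadc
  obtain ⟨E, hE⟩ : ∃ E : ℝ, E = s * (2 * κ * (η * L) + 56 * g + (-ρ * L + ρ * (η * L) + B) + η * L) := ⟨_, rfl⟩
  have hpart2 : ∑ t ∈ G \ Bad, Real.exp (s * x t) ≤ 6 * Real.exp (E + (s ^ 2 / 2 * (L + B) + c₁)) * M := by
    have hgood : ∀ t ∈ G \ Bad, t ∈ G ∧ W t ≤ η * L ∧ |Z t| ≤ L ^ 2 := by
      intro t ht
      rw [Finset.mem_sdiff] at ht
      have h4 := ht.2
      rw [hBad, Finset.mem_union, mem_filter, mem_filter, not_or] at h4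
      refine ⟨ht.1, ?_, ?_⟩
      · by_contra h6
        push Not at h6
        exact h4.1 ⟨mem_univ _, h6.le⟩
      · by_contra h7
        push Not at h7
        exact h4.2 ⟨mem_univ _, h7.le⟩
    rw [hM, hc₁]
    refine good_sum (r := r) (m := m) (g := g) (n := n) h2 hB1 (f1 h) hz1 hzh q2 hs q8 hz_le ((f3 h hh1).trans (by linarith)) (G \ Bad) x
      (fun t ht => ?_) (fun t ht => ?_)
    · obtain ⟨h3, h4, h5⟩ := hgood t ht
      rw [← hZ, hE, ← mul_add]
      have h6 := hpt t h3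
      exact mul_le_mul_of_nonneg_left (by linarith) hs.le
    · rw [← hZ]
      exact (hgood t ht).2.2
  -- the end
  have hsum : ∑ t ∈ G, Real.exp (s * x t) = ∑ t ∈ G ∩ Bad, Real.exp (s * x t) + ∑ t ∈ G \ Bad, Real.exp (s * x t) :=
    (sum_inter_add_sum_sdiff G Bad _).symm
  rw [hsum, ← hρ]
  refine (add_le_add hpart1 hpart2).trans ?_
  rw [← add_mul]
  refine mul_le_mul_of_nonneg_right ?_ hM0.le
  have h8e : (8 : ℝ) ≤ Real.exp 3 := by
    have h3 : Real.exp 3 = Real.exp 1 ^ 3 := by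
      rw [← Real.exp_nat_mul]
      norm_num
    have h4 : (2 : ℝ) ≤ Real.exp 1 := by linarith [Real.exp_one_gt_d9]
    have h5 : (2 : ℝ) ^ 3 ≤ Real.exp 1 ^ 3 := pow_le_pow_left₀ (by norm_num) h4 3
    rw [h3]
    linarith
  obtain ⟨y, hy⟩ : ∃ y : ℝ, y = (s ^ 2 / 2 - s * ρ + ε / 4) * L + c₀ := ⟨_, rfl⟩
  have h3 : Real.exp (-(s * ρ * L)) ≤ Real.exp y := by
    refine Real.exp_le_exp.2 ?_
    have : 0 ≤ (s ^ 2 / 2 + ε / 4) * L := by positivity
    rw [hy]
    linarith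
  have h4 : Real.exp (E + (s ^ 2 / 2 * (L + B) + c₁)) = Real.exp y := by
    congr 1
    have h7 : E = s * (2 * κ + ρ + 1) * η * L - s * ρ * L + s * (56 * g + B) := by
      rw [hE]
      ring
    rw [h7, hηs, hy, hc₀]
    ring
  rw [h4]
  have h5 : 2 * Real.exp (-(s * ρ * L)) + 6 * Real.exp y ≤ 8 * Real.exp y := by linarith
  refine h5.trans ((mul_le_mul_of_nonneg_right h8e (Real.exp_pos _).le).trans ?_)
  rw [← Real.exp_add]
  refine Real.exp_le_exp.2 ?_
  have : 0 ≤ ε / 4 * L := by positivity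
  rw [hy]
  linarith

end Q282.FF
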