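import Pool.Agent.Q282.FF.Exp

/-!
# The sums of the means and of the variances
-/

set_option autoImplicit false
set_option linter.unusedSectionVars false

namespace Q282.FF

open Polynomial Finset
open Q282.JK (Idx fpol pts_eq fpol_map)
open Q282.CL (av av_add av_sub av_mul av_mono av_const av_nonneg abs_av_le av_sum)

lemma harm_log {h : ℕ} (hh : 1 ≤ h) : |∑ d ∈ Ico 1 h, 1 / (d : ℝ) - Real.log h| ≤ 1 := by
  have hh' : (0 : ℝ) < h := by exact_mod_cast hh
  have h1 : ∑ d ∈ Ico 1 h, 1 / (d : ℝ) + 1 / h = (harmonic h : ℝ) := by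
    rw [harmonic_eq_sum_Icc, ← Finset.Ico_succ_right_eq_Icc, Order.succ_eq_add_one, sum_Ico_succ_top hh]
    push_cast
    rw [one_div (h : ℝ)]
    congr 1
    exact sum_congr rfl fun m _ => one_div _
  have h2 := harmonic_le_one_add_log h
  have h3 := log_add_one_le_harmonic h
  have h4 : Real.log h ≤ Real.log (h + 1 : ℕ) := Real.log_le_log hh' (by push_cast; linarith)
  have h5 : 0 < 1 / (h : ℝ) := by positivity
  have h6 : 1 / (h : ℝ) ≤ 1 := by
    rw [div_le_one hh']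
    exact_mod_cast hh
  rw [abs_le]
  push_cast at h3 h4
  constructor <;> linarith

lemma sum_w {h : ℕ} (hh : 1 ≤ h) (φ : ℕ → ℝ) (c C : ℝ) (h1 : ∀ d ∈ Ico 1 h, φ d ≤ c) (h2 : ∀ d ∈ Ico 1 h, c - C * d / h ≤ φ d) (hC : 0 ≤ C) :
    |∑ d ∈ Ico 1 h, φ d / d - c * ∑ d ∈ Ico 1 h, 1 / (d : ℝ)| ≤ C := by
  have hh' : (0 : ℝ) < h := by exact_mod_cast hh
  rw [mul_sum, ← sum_sub_distrib]
  refine (abs_sum_le_sum_abs _ _).trans ?_
  have h3 : ∀ d ∈ Ico 1 h, |φ d / d - c * (1 / (d : ℝ))| ≤ C / h := by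
    intro d hd
    have hd' : (0 : ℝ) < d := by
      have := (mem_Ico.1 hd).1
      exact_mod_cast this
    have e : φ d / d - c * (1 / (d : ℝ)) = (φ d - c) / d := by ring
    rw [e, abs_div, abs_of_pos hd', div_le_iff₀ hd']
    have h4 := h1 d hd
    have h5 := h2 d hd
    have e2 : C / h * d = C * d / h := by ring
    have h6 : 0 ≤ C * d / h := by positivity
    rw [e2, abs_le]
    constructor <;> linarith
  refine (sum_le_sum h3).trans ?_
  rw [sum_const, Nat.card_Ico, nsmul_eq_mul, mul_div_assoc', div_le_iff₀ hh', mul_comm]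
  refine mul_le_mul_of_nonneg_left ?_ hC
  exact_mod_cast Nat.sub_le _ _

/-- The sums of the means and of the variances of the local functions and of the terms at the bad places. -/
theorem sums (g r m : ℕ) (hrm : r + m = 2 * g + 1) (hrg : r ≤ g) (hg : 1 ≤ g) : ∃ B : ℝ, 1 ≤ B ∧
    ∀ (k : Type) [Field k] [Fintype k] [DecidableEq k], (2 : k) ≠ 0 →
    (∀ (h : ℕ) (v : Place k), deg v < h → ∀ u : Idx r m → Res v, |loc (w1 h (deg v)) (w2 h (deg v)) u| ≤ B / Real.sqrt (Nat.card (Res v))) ∧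
    (∀ h : ℕ, 1 ≤ h → |∑ v ∈ PB k h, av (fun u : Idx r m → Res v => loc (w1 h (deg v)) (w2 h (deg v)) u) + (r + 1 / 2) * Real.log h| ≤ B) ∧
    (∀ h : ℕ, 1 ≤ h → |∑ v ∈ PB k h, (av (fun u : Idx r m → Res v => loc (w1 h (deg v)) (w2 h (deg v)) u ^ 2) -
      av (fun u : Idx r m → Res v => loc (w1 h (deg v)) (w2 h (deg v)) u) ^ 2) - Real.log h| ≤ B) ∧
    (∀ n h : ℕ, h ≤ n + 1 → av (fun t : Par k r m n => ∑ v ∈ PB k h, bd (rt v t) * ((4 * g + 10 * (2 * g + 1)) / Real.sqrt (Nat.card (Res v)))) ≤ B) := by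
  obtain ⟨B, hB1, hB⟩ := loc_main g r m hrm hrg hg
  obtain ⟨c, hc⟩ : ∃ c : ℝ, c = 4 * g + 10 * (2 * g + 1) := ⟨_, rfl⟩
  have hc0 : 0 ≤ c := by rw [hc]; positivity
  obtain ⟨E, hE⟩ : ∃ E : ℝ, E = 2 * B + 2 * (B + r + 1) ^ 2 + 11 * (r + 1) + 20 + 2 * c * (r ^ 2 + r + g) := ⟨_, rfl⟩
  have hr0 : (0 : ℝ) ≤ r := Nat.cast_nonneg _
  refine ⟨E, by rw [hE]; nlinarith [mul_nonneg hc0 (by positivity : (0 : ℝ) ≤ r ^ 2 + r + g)], ?_⟩
  intro k _ _ _ h2
  have hcard : ∀ v : Place k, (Nat.card (Res v) : ℝ) = Fintype.card (Res v) := fun v => by rw [Nat.card_eq_fintype_card]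
  have hBE : B ≤ E := by
    rw [hE]
    nlinarith [mul_nonneg hc0 (by positivity : (0 : ℝ) ≤ r ^ 2 + r + g)]
  have hw : ∀ (h : ℕ) (v : Place k), deg v < h → 0 ≤ w1 h (deg v) ∧ w1 h (deg v) ≤ 1 ∧ 0 ≤ w2 h (deg v) ∧ w2 h (deg v) ≤ 1 := by
    intro h v hv
    exact ⟨w1_nonneg (deg_pos v) hv, w1_le (deg_pos v) hv, w2_nonneg (deg_pos v), (w2_le (deg_pos v)).trans (by norm_num)⟩
  have hs1 : ∀ v : Place k, 1 ≤ Real.sqrt (Nat.card (Res v)) := by
    intro v
    rw [Real.one_le_sqrt]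
    exact_mod_cast Nat.card_pos
  refine ⟨?_, ?_, ?_, ?_⟩
  · intro h v hv u
    obtain ⟨a, b, c, d⟩ := hw h v hv
    have h3 := (hB (Res v) (ring_char h2 v) (w1 h (deg v)) (w2 h (deg v)) a b c d).1 u
    rw [← hcard] at h3
    exact h3.trans (div_le_div_of_nonneg_right hBE (Real.sqrt_nonneg _))
  · intro h hh
    have h3 : |∑ v ∈ PB k h, av (fun u : Idx r m → Res v => loc (w1 h (deg v)) (w2 h (deg v)) u) +
        ∑ v ∈ PB k h, (w1 h (deg v) * r + w2 h (deg v)) / (Nat.card (Res v) : ℝ)| ≤ 2 * B := by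
      rw [← sum_add_distrib]
      refine (abs_sum_le_sum_abs _ _).trans ?_
      refine (sum_le_sum (g := fun v : Place k => B * (1 / Real.sqrt (Nat.card (Res v)) ^ 3)) fun v hv => ?_).trans ?_
      · obtain ⟨a, b, c, d⟩ := hw h v (mem_PB.1 hv)
        have h4 := (hB (Res v) (ring_char h2 v) (w1 h (deg v)) (w2 h (deg v)) a b c d).2.1
        rw [← hcard] at h4
        refine h4.trans (le_of_eq ?_)
        ring
      · rw [← mul_sum]
        have := sum_conv h2 h
        nlinarith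
    have h4 := sum_approx h2 h (w1 h) (fun d hd => by
      rw [mem_Ico] at hd
      rw [abs_of_nonneg (w1_nonneg hd.1 hd.2)]
      exact w1_le hd.1 hd.2)
    have h5 := sum_approx h2 h (w2 h) (fun d hd => by
      rw [mem_Ico] at hd
      rw [abs_of_nonneg (w2_nonneg hd.1)]
      exact (w2_le hd.1).trans (by norm_num))
    have h6 := sum_w hh (w1 h) 1 2 (fun d hd => w1_le (mem_Ico.1 hd).1 (mem_Ico.1 hd).2) (fun d hd => w1_ge (mem_Ico.1 hd).1 (mem_Ico.1 hd).2) (by norm_num)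
    have h7 := sum_w hh (w2 h) (1 / 2) 2 (fun d hd => w2_le (mem_Ico.1 hd).1) (fun d hd => w2_ge hh (mem_Ico.1 hd).1) (by norm_num)
    have h8 := harm_log hh
    obtain ⟨H, hH⟩ : ∃ H : ℝ, H = ∑ d ∈ Ico 1 h, 1 / (d : ℝ) := ⟨_, rfl⟩
    rw [← hH] at h6 h7 h8
    have h9 : ∑ v ∈ PB k h, (w1 h (deg v) * r + w2 h (deg v)) / (Nat.card (Res v) : ℝ) =
        r * ∑ v ∈ PB k h, w1 h (deg v) / (Nat.card (Res v) : ℝ) + ∑ v ∈ PB k h, w2 h (deg v) / (Nat.card (Res v) : ℝ) := by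
      rw [mul_sum, ← sum_add_distrib]
      exact sum_congr rfl fun v _ => by ring
    rw [h9] at h3
    obtain ⟨M, hM⟩ : ∃ M : ℝ, M = ∑ v ∈ PB k h, av (fun u : Idx r m → Res v => loc (w1 h (deg v)) (w2 h (deg v)) u) := ⟨_, rfl⟩
    obtain ⟨A1, hA1⟩ : ∃ A1 : ℝ, A1 = ∑ v ∈ PB k h, w1 h (deg v) / (Nat.card (Res v) : ℝ) := ⟨_, rfl⟩
    obtain ⟨A2, hA2⟩ : ∃ A2 : ℝ, A2 = ∑ v ∈ PB k h, w2 h (deg v) / (Nat.card (Res v) : ℝ) := ⟨_, rfl⟩
    rw [← hM, ← hA1, ← hA2] at h3
    rw [← hA1] at h4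
    rw [← hA2] at h5
    rw [← hM]
    obtain ⟨D1, hD1⟩ : ∃ D1 : ℝ, D1 = ∑ d ∈ Ico 1 h, w1 h d / d := ⟨_, rfl⟩
    obtain ⟨D2, hD2⟩ : ∃ D2 : ℝ, D2 = ∑ d ∈ Ico 1 h, w2 h d / d := ⟨_, rfl⟩
    rw [← hD1] at h4 h6
    rw [← hD2] at h5 h7
    have e : M + (r + 1 / 2) * Real.log h = (M + (r * A1 + A2)) - r * (A1 - D1) - (A2 - D2) - r * (D1 - 1 * H) - (D2 - 1 / 2 * H) -
        (r + 1 / 2) * (H - Real.log h) := by ring
    have b1 : |(r : ℝ) * (A1 - D1)| ≤ r * 4 := by
      rw [abs_mul, abs_of_nonneg hr0]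
      exact mul_le_mul_of_nonneg_left h4 hr0
    have b2 : |(r : ℝ) * (D1 - 1 * H)| ≤ r * 2 := by
      rw [abs_mul, abs_of_nonneg hr0]
      exact mul_le_mul_of_nonneg_left h6 hr0
    have b3 : |((r : ℝ) + 1 / 2) * (H - Real.log h)| ≤ (r + 1 / 2) * 1 := by
      rw [abs_mul, abs_of_nonneg (by positivity : 0 ≤ (r : ℝ) + 1 / 2)]
      exact mul_le_mul_of_nonneg_left h8 (by positivity)
    have hE2 : 2 * B + 11 * (r + 1) + 20 ≤ E := by
      rw [hE]
      nlinarith [mul_nonneg hc0 (by positivity : (0 : ℝ) ≤ r ^ 2 + r + g), sq_nonneg (B + r + 1)]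
    rw [e, abs_le]
    rw [abs_le] at h3 h5 h7 b1 b2 b3
    constructor <;> linarith [h3.1, h3.2, h5.1, h5.2, h7.1, h7.2, b1.1, b1.2, b2.1, b2.2, b3.1, b3.2]
  · intro h hh
    obtain ⟨M, hM⟩ : ∃ M : Place k → ℝ, M = fun v => av (fun u : Idx r m → Res v => loc (w1 h (deg v)) (w2 h (deg v)) u) := ⟨_, rfl⟩
    have h3 : |∑ v ∈ PB k h, (av (fun u : Idx r m → Res v => loc (w1 h (deg v)) (w2 h (deg v)) u ^ 2) - M v ^ 2) -
        ∑ v ∈ PB k h, (fun d => w1 h d ^ 2) (deg v) / (Nat.card (Res v) : ℝ)| ≤ 2 * (B + (B + r + 1) ^ 2) := by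
      rw [← sum_sub_distrib]
      refine (abs_sum_le_sum_abs _ _).trans ?_
      refine (sum_le_sum (g := fun v : Place k => (B + (B + r + 1) ^ 2) * (1 / Real.sqrt (Nat.card (Res v)) ^ 3)) fun v hv => ?_).trans ?_
      · obtain ⟨a, b, c, d⟩ := hw h v (mem_PB.1 hv)
        have h4 := (hB (Res v) (ring_char h2 v) (w1 h (deg v)) (w2 h (deg v)) a b c d).2.2
        have h5 := (hB (Res v) (ring_char h2 v) (w1 h (deg v)) (w2 h (deg v)) a b c d).2.1
        rw [← hcard] at h4 h5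
        obtain ⟨s, hs⟩ : ∃ s : ℝ, s = Real.sqrt (Nat.card (Res v)) := ⟨_, rfl⟩
        have hs1' : 1 ≤ s := by
          rw [hs]
          exact hs1 v
        have hs0 : 0 < s := by linarith
        have hsq : (Nat.card (Res v) : ℝ) = s ^ 2 := by rw [hs, Real.sq_sqrt (Nat.cast_nonneg _)]
        rw [← hs, hsq] at h4 h5
        rw [← hs, hsq]
        have hMv : av (fun u : Idx r m → Res v => loc (w1 h (deg v)) (w2 h (deg v)) u) = M v := by rw [hM]
        rw [hMv] at h5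
        have h6 : |M v| ≤ (B + r + 1) / s ^ 2 := by
          have h7 : |M v| ≤ |M v + (w1 h (deg v) * r + w2 h (deg v)) / s ^ 2| + |(w1 h (deg v) * r + w2 h (deg v)) / s ^ 2| := by
            have := abs_sub (M v + (w1 h (deg v) * r + w2 h (deg v)) / s ^ 2) ((w1 h (deg v) * r + w2 h (deg v)) / s ^ 2)
            rwa [add_sub_cancel_right] at this
          have h8 : |(w1 h (deg v) * r + w2 h (deg v)) / s ^ 2| ≤ (r + 1) / s ^ 2 := by
            rw [abs_div, abs_of_pos (by positivity : 0 < s ^ 2)]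
            refine div_le_div_of_nonneg_right ?_ (by positivity)
            rw [abs_of_nonneg (by positivity)]
            have := mul_le_mul_of_nonneg_right b hr0
            linarith
          have h9 : B / s ^ 3 ≤ B / s ^ 2 := div_le_div_of_nonneg_left (by linarith) (by positivity) (pow_le_pow_right₀ hs1' (by norm_num))
          have e : (B + r + 1) / s ^ 2 = B / s ^ 2 + (r + 1) / s ^ 2 := by ring
          linarith
        have h7 : M v ^ 2 ≤ (B + r + 1) ^ 2 / s ^ 3 := by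
          calc M v ^ 2 = |M v| ^ 2 := (sq_abs _).symm
            _ ≤ ((B + r + 1) / s ^ 2) ^ 2 := pow_le_pow_left₀ (abs_nonneg _) h6 2
            _ = (B + r + 1) ^ 2 / s ^ 4 := by rw [div_pow, ← pow_mul]
            _ ≤ _ := div_le_div_of_nonneg_left (by positivity) (by positivity) (pow_le_pow_right₀ hs1' (by norm_num))
        have e : (B + (B + r + 1) ^ 2) * (1 / s ^ 3) = B / s ^ 3 + (B + r + 1) ^ 2 / s ^ 3 := by ring
        have h8 := sq_nonneg (M v)
        rw [e]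
        show |av (fun u : Idx r m → Res v => loc (w1 h (deg v)) (w2 h (deg v)) u ^ 2) - M v ^ 2 - w1 h (deg v) ^ 2 / s ^ 2| ≤ _
        rw [abs_le] at h4 ⊢
        constructor <;> linarith [h4.1, h4.2]
      · rw [← mul_sum]
        have := sum_conv h2 h
        have h5 : 0 ≤ B + (B + r + 1) ^ 2 := by positivity
        nlinarith
    have h4 := sum_approx h2 h (fun d => w1 h d ^ 2) (fun d hd => by
      rw [mem_Ico] at hd
      rw [abs_of_nonneg (sq_nonneg _)]
      exact pow_le_one₀ (w1_nonneg hd.1 hd.2) (w1_le hd.1 hd.2))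
    have h6 := sum_w hh (fun d => w1 h d ^ 2) 1 4 (fun d hd => pow_le_one₀ (w1_nonneg (mem_Ico.1 hd).1 (mem_Ico.1 hd).2) (w1_le (mem_Ico.1 hd).1 (mem_Ico.1 hd).2))
      (fun d hd => by
        rw [mem_Ico] at hd
        have h7 := w1_ge hd.1 hd.2
        have h8 := w1_nonneg hd.1 hd.2
        have h9 := w1_le hd.1 hd.2
        have e : (4 : ℝ) * d / h = 2 * (2 * d / h) := by ring
        rw [e]
        nlinarith) (by norm_num)
    have h8 := harm_log hh
    have e1 : ∑ v ∈ PB k h, (av (fun u : Idx r m → Res v => loc (w1 h (deg v)) (w2 h (deg v)) u ^ 2) -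
        av (fun u : Idx r m → Res v => loc (w1 h (deg v)) (w2 h (deg v)) u) ^ 2) =
        ∑ v ∈ PB k h, (av (fun u : Idx r m → Res v => loc (w1 h (deg v)) (w2 h (deg v)) u ^ 2) - M v ^ 2) := by
      rw [hM]
    rw [e1]
    have hE2 : 2 * (B + (B + r + 1) ^ 2) + 9 ≤ E := by
      rw [hE]
      nlinarith [mul_nonneg hc0 (by positivity : (0 : ℝ) ≤ r ^ 2 + r + g)]
    rw [abs_le] at h3 h4 h6 h8 ⊢
    constructor <;> linarith [h3.1, h3.2, h4.1, h4.2, h6.1, h6.2, h8.1, h8.2]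
  · intro n h hhn
    rw [av_sum]
    refine (sum_le_sum (g := fun v : Place k => (c * (r ^ 2 + r + g)) * (1 / Real.sqrt (Nat.card (Res v)) ^ 3)) fun v hv => ?_).trans ?_
    · have hv' := mem_PB.1 hv
      have h3 := av_one (ι := Idx r m) v (n := n) (by omega) (fun u => bd u * (c / Real.sqrt (Nat.card (Res v))))
      rw [← hc, h3]
      have h4 : av (fun u : Idx r m → Res v => bd u * (c / Real.sqrt (Nat.card (Res v)))) =
          c / Real.sqrt (Nat.card (Res v)) * av (fun u : Idx r m → Res v => bd u) := by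
        rw [← av_mul]
        congr 1
        funext u
        ring
      rw [h4]
      have h5 : av (fun u : Idx r m → Res v => bd u) ≤ (r ^ 2 + r + g) / (Nat.card (Res v) : ℝ) := by
        classical
        have h6 := Q282.JK.bad_card (F := Res v) (r := r) (m := m) hrm hrg
        rw [av_def]
        have h7 : ∑ u : Idx r m → Res v, bd u = (((univ : Finset (Idx r m → Res v)).filter fun u => ¬ Squarefree (fpol u)).card : ℝ) := by
          unfold bd
          rw [card_filter]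
          push_cast
          refine sum_congr rfl fun u _ => ?_
          by_cases h8 : Squarefree (fpol u)
          · simp [h8]
          · simp [h8]
        have hQ0 : 0 < (Fintype.card (Res v) : ℝ) ^ Fintype.card (Idx r m) := by
          have : (0 : ℝ) < Fintype.card (Res v) := by exact_mod_cast Fintype.card_pos
          positivity
        have hR0 : (0 : ℝ) < Nat.card (Res v) := by exact_mod_cast Nat.card_pos
        rw [h7, div_le_div_iff₀ hQ0 hR0, hcard]
        refine le_trans (le_of_eq ?_) h6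
        congr
      have hs0 : 0 < Real.sqrt (Nat.card (Res v)) := by linarith [hs1 v]
      have hsq : (Nat.card (Res v) : ℝ) = Real.sqrt (Nat.card (Res v)) ^ 2 := by rw [Real.sq_sqrt (Nat.cast_nonneg _)]
      calc c / Real.sqrt (Nat.card (Res v)) * av (fun u : Idx r m → Res v => bd u) ≤
          c / Real.sqrt (Nat.card (Res v)) * ((r ^ 2 + r + g) / (Nat.card (Res v) : ℝ)) := mul_le_mul_of_nonneg_left h5 (by positivity)
        _ = c / Real.sqrt (Nat.card (Res v)) * ((r ^ 2 + r + g) / Real.sqrt (Nat.card (Res v)) ^ 2) := by rw [← hsq]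
        _ = (c * (r ^ 2 + r + g)) * (1 / Real.sqrt (Nat.card (Res v)) ^ 3) := by
          field_simp
    · rw [← mul_sum]
      have h3 := sum_conv h2 h
      have h4 : 0 ≤ c * (r ^ 2 + r + g) := by positivity
      have h5 : c * (r ^ 2 + r + g) * ∑ v ∈ PB k h, 1 / Real.sqrt (Nat.card (Res v)) ^ 3 ≤ c * (r ^ 2 + r + g) * 2 :=
        mul_le_mul_of_nonneg_left h3 h4
      rw [hE]
      nlinarith [sq_nonneg (B + r + 1)]

end Q282.FF
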