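import Pool.Agent.Q282.FF.Defs
import Pool.Agent.Q282.JK.Irr
import Pool.Agent.TH180.RT.Wt

/-!
# The places of `k(T)`
-/

set_option autoImplicit false
set_option linter.unusedSectionVars false

namespace Q282.FF

open Polynomial Finset
open Pool.Agent.TH180.RT (Pd mem_Pd card_Pd_real finAR cardAR)

section

variable {k : Type} [Field k] [Fintype k] [DecidableEq k]

instance resFinite (v : Place k) : Finite (Res v) := finAR v.2.2.ne_zero

noncomputable instance resFintype (v : Place k) : Fintype (Res v) := Fintype.ofFinite _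

noncomputable instance resDec (v : Place k) : DecidableEq (Res v) := Classical.decEq _

lemma res_card (v : Place k) : Nat.card (Res v) = Nat.card k ^ deg v := cardAR v.2.2.ne_zero

lemma res_card' (v : Place k) : Fintype.card (Res v) = Nat.card k ^ deg v := by
  rw [← Nat.card_eq_fintype_card]
  exact res_card v

lemma deg_pos (v : Place k) : 1 ≤ deg v := v.2.2.natDegree_pos

lemma two_ne (h2 : (2 : k) ≠ 0) (v : Place k) : (2 : Res v) ≠ 0 := by
  have h : (2 : Res v) = (AdjoinRoot.of v.1) 2 := by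
    rw [map_ofNat]
    rfl
  rw [h]
  have : Fact (Irreducible v.1) := ⟨v.2.2⟩
  exact (_root_.map_ne_zero (AdjoinRoot.of v.1)).2 h2

lemma ring_char (h2 : (2 : k) ≠ 0) (v : Place k) : ringChar (Res v) ≠ 2 := by
  intro hc
  apply two_ne h2 v
  have := CharP.cast_eq_zero (Res v) (ringChar (Res v))
  rw [hc] at this
  exact_mod_cast this

lemma three_le (h2 : (2 : k) ≠ 0) : 3 ≤ Nat.card k := by
  rw [Nat.card_eq_fintype_card]
  have h1 : 1 < Fintype.card k := Fintype.one_lt_card
  have h3 : Fintype.card k ≠ 2 := by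
    intro h
    apply h2
    have := Nat.cast_card_eq_zero k
    rw [h] at this
    exact_mod_cast this
  omega

noncomputable instance placeDec : DecidableEq (Place k) := Classical.decEq _

/-- the places of degree `d` -/
noncomputable def PL (k : Type) [Field k] [Fintype k] [DecidableEq k] (d : ℕ) : Finset (Place k) :=
  @Finset.subtype _ (fun P : k[X] => P.Monic ∧ Irreducible P) (Classical.decPred _) (Pd k d)

lemma mem_PL {d : ℕ} {v : Place k} : v ∈ PL k d ↔ deg v = d :=
  (@Finset.mem_subtype _ (fun P : k[X] => P.Monic ∧ Irreducible P) (Classical.decPred _) (Pd k d) v).trans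
    (mem_Pd.trans ⟨fun h => h.2.2, fun h => ⟨v.2.1, v.2.2, h⟩⟩)

lemma card_PL (d : ℕ) : (PL k d).card = (Pd k d).card := by
  refine (@Finset.card_subtype _ (fun P : k[X] => P.Monic ∧ Irreducible P) (Classical.decPred _) (Pd k d)).trans ?_
  congr 1
  exact @filter_true_of_mem _ _ (Classical.decPred _) _ fun P hP => ⟨(mem_Pd.1 hP).1, (mem_Pd.1 hP).2.1⟩

lemma card_le (d : ℕ) : ((PL k d).card : ℝ) * d ≤ (Nat.card k : ℝ) ^ d := by
  rw [card_PL]
  exact card_Pd_real d

/-- many places -/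
lemma card_ge (h2 : (2 : k) ≠ 0) (D : ℕ) (hD : 1 ≤ D) :
    (Nat.card k : ℝ) ^ D - 2 * (Nat.card k : ℝ) ^ (D / 2) ≤ (PL k D).card * D := by
  classical
  obtain ⟨p, hp⟩ := CharP.exists k
  have : Fact (Nat.Prime p) := ⟨CharP.char_is_prime k p⟩
  have : NeZero D := ⟨by omega⟩
  obtain ⟨E, _, _, _, hfr⟩ : ∃ (E : Type) (_ : Field E) (_ : Fintype E) (_ : Algebra k E), Module.finrank k E = D :=
    ⟨FiniteField.Extension k p D, inferInstance, Fintype.ofFinite _, inferInstance, FiniteField.finrank_extension k p D⟩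
  have hcard : Fintype.card E = Fintype.card k ^ D := by
    rw [Module.card_eq_pow_finrank (K := k) (V := E), hfr]
  obtain ⟨q, hqq⟩ : ∃ q : ℕ, q = Nat.card k := ⟨_, rfl⟩
  have hqf : Fintype.card k = q := by rw [hqq, Nat.card_eq_fintype_card]
  have hq : 3 ≤ q := by rw [hqq]; exact three_le h2
  rw [← hqq]
  rw [hqf] at hcard
  have hint : ∀ x : E, IsIntegral k x := fun x => Algebra.IsIntegral.isIntegral x
  have hdeg : ∀ x : E, 1 ≤ (minpoly k x).natDegree ∧ (minpoly k x).natDegree ∣ D := by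
    intro x
    refine ⟨minpoly.natDegree_pos (hint x), ?_⟩
    have := (Pool.Agent.H341R2.Sharp.finrank_div (F := k) x).2
    rw [hfr] at this
    exact this
  -- the elements of smaller degree
  have hsmall : ((univ : Finset E).filter fun x => (minpoly k x).natDegree ≠ D).card ≤ ∑ j ∈ range (D / 2 + 1), q ^ j := by
    have hsub : (univ : Finset E).filter (fun x => (minpoly k x).natDegree ≠ D) ⊆
        ((range (D / 2 + 1)).filter fun j => 1 ≤ j).biUnion fun j => (X ^ q ^ j - X : E[X]).roots.toFinset := by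
      intro x hx
      rw [mem_filter] at hx
      obtain ⟨h1, c, hc⟩ := hdeg x
      rw [mem_biUnion]
      refine ⟨(minpoly k x).natDegree, ?_, ?_⟩
      · rw [mem_filter, mem_range]
        refine ⟨?_, h1⟩
        rcases c with _ | _ | c
        · omega
        · rw [zero_add, mul_one] at hc
          exact absurd hc.symm hx.2
        · have : 2 * (minpoly k x).natDegree ≤ D := by
            rw [hc]
            nlinarith
          omega
      · have hk : 1 < q ^ (minpoly k x).natDegree := Nat.one_lt_pow (by omega) (by omega)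
        rw [Multiset.mem_toFinset, mem_roots (FiniteField.X_pow_card_sub_X_ne_zero E hk), IsRoot.def]
        have h2 : minpoly k x ∣ X ^ (Nat.card k) ^ (minpoly k x).natDegree - X :=
          ((minpoly.irreducible (hint x)).natDegree_dvd_iff_dvd_X_pow_card_pow_sub_X).1 dvd_rfl
        obtain ⟨G, hG⟩ := h2
        have h3 : aeval x (X ^ (Nat.card k) ^ (minpoly k x).natDegree - X : k[X]) = 0 := by
          rw [hG, map_mul, minpoly.aeval, zero_mul]
        simp only [map_sub, map_pow, aeval_X] at h3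
        rw [eval_sub, eval_pow, eval_X, hqq]
        exact h3
    refine (card_le_card hsub).trans (card_biUnion_le.trans ?_)
    refine le_trans (sum_le_sum (g := fun j => q ^ j) fun j hj => ?_) (sum_le_sum_of_subset (filter_subset _ _))
    rw [mem_filter] at hj
    have hk' : 1 < q ^ j := Nat.one_lt_pow (by omega) (by omega)
    refine (Multiset.toFinset_card_le _).trans ((card_roots' _).trans (le_of_eq ?_))
    exact FiniteField.X_pow_card_sub_X_natDegree_eq E hk'
  have hgeo : ∑ j ∈ range (D / 2 + 1), q ^ j ≤ 2 * q ^ (D / 2) := by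
    have h1 : ∀ n : ℕ, 2 * ∑ j ∈ range n, q ^ j ≤ q ^ n := by
      intro n
      induction n with
      | zero => simp
      | succ n ih =>
        rw [sum_range_succ, mul_add, pow_succ]
        have : q ^ n * 3 ≤ q ^ n * q := Nat.mul_le_mul_left _ hq
        omega
    have h3 := h1 (D / 2)
    rw [sum_range_succ]
    omega
  have hlarge : ((univ : Finset E).filter fun x => (minpoly k x).natDegree = D).card ≤ D * (Pd k D).card := by
    refine card_le_mul_card_image_of_maps_to (f := fun x => minpoly k x) ?_ D ?_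
    · intro x hx
      rw [mem_filter] at hx
      exact mem_Pd.2 ⟨minpoly.monic (hint x), minpoly.irreducible (hint x), hx.2⟩
    · intro P hP
      obtain ⟨p1, p2, p3⟩ := mem_Pd.1 hP
      have hsub : ((univ : Finset E).filter fun x => (minpoly k x).natDegree = D).filter (fun x => minpoly k x = P) ⊆
          (P.aroots E).toFinset := by
        intro x hx
        rw [mem_filter] at hx
        rw [Multiset.mem_toFinset, mem_aroots]
        refine ⟨p1.ne_zero, ?_⟩
        rw [← hx.2]
        exact minpoly.aeval k x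
      refine (card_le_card hsub).trans ((Multiset.toFinset_card_le _).trans ((card_roots' _).trans ?_))
      rw [natDegree_map, p3]
  have htot : ((univ : Finset E).filter fun x => (minpoly k x).natDegree = D).card +
      ((univ : Finset E).filter fun x => (minpoly k x).natDegree ≠ D).card = q ^ D := by
    rw [← hcard, ← card_univ]
    exact card_filter_add_card_filter_not _
  have hfin : q ^ D ≤ (PL k D).card * D + 2 * q ^ (D / 2) := by
    rw [card_PL, mul_comm _ D]
    omega
  have h3 : (q : ℝ) ^ D ≤ (PL k D).card * D + 2 * (q : ℝ) ^ (D / 2) := by exact_mod_cast hfin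
  linarith

/-- the places of degree less than `h` -/
noncomputable def PB (k : Type) [Field k] [Fintype k] [DecidableEq k] (h : ℕ) : Finset (Place k) :=
  (Ico 1 h).biUnion (PL k)

lemma mem_PB {h : ℕ} {v : Place k} : v ∈ PB k h ↔ deg v < h := by
  unfold PB
  rw [mem_biUnion]
  constructor
  · rintro ⟨d, hd, hv⟩
    rw [mem_Ico] at hd
    rw [mem_PL] at hv
    omega
  · intro hv
    exact ⟨deg v, mem_Ico.2 ⟨deg_pos v, hv⟩, mem_PL.2 rfl⟩

lemma sum_PB (h : ℕ) (φ : Place k → ℝ) : ∑ v ∈ PB k h, φ v = ∑ d ∈ Ico 1 h, ∑ v ∈ PL k d, φ v := by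
  unfold PB
  rw [sum_biUnion]
  intro a _ b _ hab
  rw [Function.onFun, disjoint_left]
  intro v hv hv'
  rw [mem_PL] at hv hv'
  exact hab (hv.symm.trans hv')

/-- the density of the places of degree `d` -/
noncomputable def pd (k : Type) [Field k] [Fintype k] [DecidableEq k] (d : ℕ) : ℝ := (PL k d).card / (Nat.card k : ℝ) ^ d

lemma sum_PB_deg (h : ℕ) (φ : ℕ → ℝ) : ∑ v ∈ PB k h, φ (deg v) / (Nat.card (Res v) : ℝ) = ∑ d ∈ Ico 1 h, pd k d * φ d := by
  rw [sum_PB]
  refine sum_congr rfl fun d _ => ?_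
  have h1 : ∀ v ∈ PL k d, φ (deg v) / (Nat.card (Res v) : ℝ) = φ d / (Nat.card k : ℝ) ^ d := by
    intro v hv
    rw [res_card, mem_PL.1 hv]
    push_cast
    rfl
  rw [sum_congr rfl h1, sum_const, nsmul_eq_mul]
  unfold pd
  ring

lemma sqrt_ge (h2 : (2 : k) ≠ 0) : (3 / 2 : ℝ) ≤ Real.sqrt (Nat.card k) := by
  rw [Real.le_sqrt (by norm_num) (Nat.cast_nonneg _)]
  have : (3 : ℝ) ≤ Nat.card k := by exact_mod_cast three_le h2
  linarith

lemma inv_sqrt (h2 : (2 : k) ≠ 0) (d : ℕ) : 1 / Real.sqrt (Nat.card k) ^ d ≤ (2 / 3) ^ d := by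
  have h1 := sqrt_ge h2
  rw [← one_div_pow]
  refine pow_le_pow_left₀ (by positivity) ?_ d
  rw [div_le_div_iff₀ (by linarith) (by norm_num)]
  linarith

lemma pd_nonneg (d : ℕ) : 0 ≤ pd k d := by
  unfold pd
  positivity

lemma pd_le (d : ℕ) (hd : 1 ≤ d) : pd k d ≤ 1 / d := by
  have hd' : (0 : ℝ) < d := by exact_mod_cast hd
  have hq : (0 : ℝ) < Nat.card k := by exact_mod_cast Nat.card_pos
  unfold pd
  rw [div_le_div_iff₀ (by positivity) hd', one_mul]
  exact card_le d

lemma pd_ge (h2 : (2 : k) ≠ 0) (d : ℕ) (hd : 1 ≤ d) : 1 / (d : ℝ) - 2 * (2 / 3) ^ d ≤ pd k d := by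
  have hd' : (1 : ℝ) ≤ d := by exact_mod_cast hd
  have hq3 : (3 : ℝ) ≤ Nat.card k := by exact_mod_cast three_le h2
  have hq : (0 : ℝ) < Nat.card k := by linarith
  have h1 := card_ge h2 d hd
  have h3 : (Nat.card k : ℝ) ^ (d / 2) ≤ Real.sqrt (Nat.card k) ^ d := by
    have h4 : (Nat.card k : ℝ) ^ (d / 2) = Real.sqrt (Nat.card k) ^ (2 * (d / 2)) := by
      rw [pow_mul, Real.sq_sqrt hq.le]
    rw [h4]
    exact pow_le_pow_right₀ (by linarith [sqrt_ge h2]) (by omega)
  have h5 : Real.sqrt (Nat.card k) ^ d * Real.sqrt (Nat.card k) ^ d = (Nat.card k : ℝ) ^ d := by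
    rw [← mul_pow, Real.mul_self_sqrt hq.le]
  have hs : 0 < Real.sqrt (Nat.card k) ^ d := by
    have := sqrt_ge h2
    positivity
  have h6 : 1 / (d : ℝ) - 2 * (1 / Real.sqrt (Nat.card k) ^ d) ≤ pd k d := by
    unfold pd
    rw [← h5] at h1 ⊢
    obtain ⟨s, hs'⟩ : ∃ s : ℝ, s = Real.sqrt (Nat.card k) ^ d := ⟨_, rfl⟩
    rw [← hs'] at h1 h3 hs ⊢
    have h7 : (s * s - 2 * s) / d ≤ (PL k d).card := by
      rw [div_le_iff₀ (by linarith)]
      linarith
    have h8 : (1 / (d : ℝ) - 2 * (1 / s)) * (s * s) ≤ (s * s - 2 * s) / d := by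
      have e1 : (1 / (d : ℝ) - 2 * (1 / s)) * (s * s) = s * s / d - 2 * s := by
        field_simp
      have e2 : (s * s - 2 * s) / d = s * s / d - 2 * s / d := by ring
      rw [e1, e2]
      have : 2 * s / d ≤ 2 * s := div_le_self (by linarith) hd'
      linarith
    rw [le_div_iff₀ (by positivity)]
    linarith
  have := inv_sqrt h2 d
  linarith

lemma geo (h : ℕ) : ∑ d ∈ Ico 1 h, (2 / 3 : ℝ) ^ d ≤ 2 := by
  have h1 : ∀ n : ℕ, ∑ d ∈ Ico 1 (n + 1), (2 / 3 : ℝ) ^ d = 2 - 2 * (2 / 3) ^ n := by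
    intro n
    induction n with
    | zero => simp
    | succ n ih =>
      rw [sum_Ico_succ_top (by omega), ih]
      ring
  rcases h with _ | n
  · simp
  · rw [h1]
    have : (0 : ℝ) ≤ (2 / 3) ^ n := by positivity
    linarith

/-- sums over the places of a function of the degree -/
lemma sum_approx (h2 : (2 : k) ≠ 0) (h : ℕ) (φ : ℕ → ℝ) (hφ : ∀ d ∈ Ico 1 h, |φ d| ≤ 1) :
    |∑ v ∈ PB k h, φ (deg v) / (Nat.card (Res v) : ℝ) - ∑ d ∈ Ico 1 h, φ d / d| ≤ 4 := by
  rw [sum_PB_deg, ← sum_sub_distrib]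
  refine (abs_sum_le_sum_abs _ _).trans ?_
  have h1 : ∀ d ∈ Ico 1 h, |pd k d * φ d - φ d / d| ≤ 2 * (2 / 3) ^ d := by
    intro d hd
    have hd1 : 1 ≤ d := (mem_Ico.1 hd).1
    have e : pd k d * φ d - φ d / d = (pd k d - 1 / d) * φ d := by ring
    rw [e, abs_mul]
    have h3 : |pd k d - 1 / (d : ℝ)| ≤ 2 * (2 / 3) ^ d := by
      rw [abs_le]
      have h4 := pd_le (k := k) d hd1
      have h5 := pd_ge h2 d hd1
      have h6 : (0 : ℝ) ≤ 2 * (2 / 3) ^ d := by positivity
      constructor <;> linarith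
    calc |pd k d - 1 / (d : ℝ)| * |φ d| ≤ 2 * (2 / 3) ^ d * 1 := mul_le_mul h3 (hφ d hd) (abs_nonneg _) (by positivity)
      _ = _ := mul_one _
  refine (sum_le_sum h1).trans ?_
  rw [← mul_sum]
  have := geo h
  linarith

/-- convergent sums over the places -/
lemma sum_conv (h2 : (2 : k) ≠ 0) (h : ℕ) : ∑ v ∈ PB k h, 1 / (Real.sqrt (Nat.card (Res v)) ^ 3) ≤ 2 := by
  have h1 : ∀ v ∈ PB k h, 1 / (Real.sqrt (Nat.card (Res v)) ^ 3) ≤ (fun d => (2 / 3 : ℝ) ^ d) (deg v) / (Nat.card (Res v) : ℝ) := by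
    intro v _
    have hq : (0 : ℝ) < Nat.card k := by exact_mod_cast Nat.card_pos
    have e1 : (Nat.card (Res v) : ℝ) = Real.sqrt (Nat.card (Res v)) ^ 2 := by rw [Real.sq_sqrt (Nat.cast_nonneg _)]
    have e2 : Real.sqrt (Nat.card (Res v)) = Real.sqrt (Nat.card k) ^ deg v := by
      rw [res_card, Real.sqrt_eq_iff_mul_self_eq (by positivity) (by positivity), ← mul_pow, Real.mul_self_sqrt hq.le]
      push_cast
      rfl
    have hs : 0 < Real.sqrt (Nat.card (Res v)) := by
      rw [e2]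
      have := sqrt_ge h2
      positivity
    have h3 := inv_sqrt h2 (deg v)
    rw [← e2] at h3
    have e3 : 1 / Real.sqrt (Nat.card (Res v)) ^ 3 = 1 / Real.sqrt (Nat.card (Res v)) / (Nat.card (Res v) : ℝ) := by
      rw [div_div]
      congr 1
      rw [pow_succ', ← e1]
    rw [e3]
    exact div_le_div_of_nonneg_right h3 (Nat.cast_nonneg _)
  refine (sum_le_sum h1).trans ?_
  rw [sum_PB_deg]
  refine le_trans (sum_le_sum fun d hd => ?_) (geo h)
  have hd1 : 1 ≤ d := (mem_Ico.1 hd).1
  have h3 := pd_le (k := k) d hd1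
  have h4 : 1 / (d : ℝ) ≤ 1 := by
    rw [div_le_one (by exact_mod_cast hd1)]
    exact_mod_cast hd1
  calc pd k d * (2 / 3) ^ d ≤ 1 * (2 / 3) ^ d := mul_le_mul_of_nonneg_right (h3.trans h4) (by positivity)
    _ = _ := one_mul _

end

end Q282.FF
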