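import Pool.Agent.Q282.FF.Mv

/-!
# The upper bound for the order of vanishing by the first Euler factors
-/

set_option autoImplicit false
set_option linter.unusedSectionVars false

namespace Q282.FF

open Polynomial Finset
open Q282.JK (Idx fpol pts_eq fpol_map)
open Pool.Agent.H341R2.Sharp (T)
open Q282.CL (av av_add av_sub av_mul av_mono av_const av_nonneg abs_av_le av_sum)

section

variable {k : Type} [Field k] [Fintype k] [DecidableEq k]

/-- the explicit formula with general weights -/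
lemma main_sum' (h2 : (2 : k) ≠ 0) (g h : ℕ) (c : ℕ → ℝ) (A : ℝ) (hA : 0 ≤ A) (hc0 : ∀ m ∈ Ico 1 h, 0 ≤ c m) (hcA : ∀ m ∈ Ico 1 h, c m ≤ A)
    (S : Place k → ℕ → ℝ)
    (hS : ∀ v j, |S v j| ≤ 2 * g * Real.sqrt (Nat.card (Res v)) ^ j) (Γ : ℕ → ℝ)
    (hΓ : ∀ j, |Γ j| ≤ 2 * g * Real.sqrt (Nat.card k) ^ j) :
    ∑ m ∈ Ico 1 h, c m * ((Γ m + ∑ d ∈ m.divisors, ∑ v ∈ PL k d, (d : ℝ) * S v (m / d)) / (Nat.card k : ℝ) ^ m) ≤
      56 * g * A + ∑ v ∈ PB k h, ((deg v * c (deg v)) * S v 1 / Nat.card (Res v) +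
        (if 2 * deg v < h then deg v * c (2 * deg v) else 0) * S v 2 / (Nat.card (Res v) : ℝ) ^ 2) := by
  obtain ⟨q, hq⟩ : ∃ q : ℝ, q = Nat.card k := ⟨_, rfl⟩
  have hq3 : (3 : ℝ) ≤ q := by
    rw [hq]
    exact_mod_cast three_le h2
  rw [← hq] at hΓ ⊢
  have e1 : ∀ m ∈ Ico 1 h, c m * ((Γ m + ∑ d ∈ m.divisors, ∑ v ∈ PL k d, (d : ℝ) * S v (m / d)) / q ^ m) ≤
      A * (4 * g * (7 / 8) ^ m) + c m * ((∑ v ∈ PL k m, (m : ℝ) * S v 1) / q ^ m) +
        ∑ d ∈ Ico 1 h, (if 2 * d = m then c m * ((∑ v ∈ PL k d, (d : ℝ) * S v 2) / q ^ m) else 0) + A * (4 * g * (7 / 8) ^ m) := by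
    intro m hm'
    have hl0 := hc0 m hm'
    have hl1 := hcA m hm'
    have hm := mem_Ico.1 hm'
    have hqm : 0 < q ^ m := by positivity
    rw [split hm.1 fun d => ∑ v ∈ PL k d, (d : ℝ) * S v (m / d), Nat.div_self hm.1]
    have t1 : c m * (Γ m / q ^ m) ≤ A * (4 * g * (7 / 8) ^ m) := by
      have h3 : Γ m / q ^ m ≤ 2 * g * (2 / 3) ^ m := by
        rw [div_le_iff₀ hqm]
        refine (le_abs_self _).trans ((hΓ m).trans ?_)
        have h4 : Real.sqrt q ^ m ≤ (2 / 3) ^ m * q ^ m := by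
          rw [← mul_pow]
          refine pow_le_pow_left₀ (Real.sqrt_nonneg _) ?_ m
          have h5 : (3 / 2 : ℝ) ≤ Real.sqrt q := by
            rw [hq]
            exact sqrt_ge h2
          have h6 : q = Real.sqrt q * Real.sqrt q := (Real.mul_self_sqrt (by linarith)).symm
          nlinarith
        calc 2 * g * Real.sqrt q ^ m ≤ 2 * g * ((2 / 3) ^ m * q ^ m) := mul_le_mul_of_nonneg_left h4 (by positivity)
          _ = _ := by ring
      have h7 : (2 / 3 : ℝ) ^ m ≤ (7 / 8) ^ m := pow_le_pow_left₀ (by norm_num) (by norm_num) m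
      have h8 : 2 * (g : ℝ) * (2 / 3) ^ m ≤ 4 * g * (7 / 8) ^ m := by
        have hg0 : (0 : ℝ) ≤ g := Nat.cast_nonneg _
        have : 0 ≤ (7 / 8 : ℝ) ^ m := by positivity
        calc 2 * (g : ℝ) * (2 / 3) ^ m ≤ 2 * g * (7 / 8) ^ m := mul_le_mul_of_nonneg_left h7 (by positivity)
          _ ≤ 4 * g * (7 / 8) ^ m := by nlinarith [mul_nonneg hg0 this]
      calc c m * (Γ m / q ^ m) ≤ c m * (4 * g * (7 / 8) ^ m) := mul_le_mul_of_nonneg_left (h3.trans h8) hl0
        _ ≤ A * (4 * g * (7 / 8) ^ m) := mul_le_mul_of_nonneg_right hl1 (by positivity)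
    have t2 : c m * ((∑ d ∈ m.divisors, (if 3 * d ≤ m then ∑ v ∈ PL k d, (d : ℝ) * S v (m / d) else 0)) / q ^ m) ≤ A * (4 * g * (7 / 8) ^ m) := by
      have h3 := rest_le h2 g S hS hm.1
      rw [← hq] at h3
      calc _ ≤ c m * (4 * g * (7 / 8) ^ m) := mul_le_mul_of_nonneg_left h3 hl0
        _ ≤ A * (4 * g * (7 / 8) ^ m) := mul_le_mul_of_nonneg_right hl1 (by positivity)
    have t3 : c m * ((∑ d ∈ m.divisors, (if 2 * d = m then ∑ v ∈ PL k d, (d : ℝ) * S v (m / d) else 0)) / q ^ m) =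
        ∑ d ∈ Ico 1 h, (if 2 * d = m then c m * ((∑ v ∈ PL k d, (d : ℝ) * S v 2) / q ^ m) else 0) := by
      rw [sum_div, mul_sum]
      have h3 : ∀ d ∈ m.divisors, c m * ((if 2 * d = m then ∑ v ∈ PL k d, (d : ℝ) * S v (m / d) else 0) / q ^ m) =
          if 2 * d = m then c m * ((∑ v ∈ PL k d, (d : ℝ) * S v 2) / q ^ m) else 0 := by
        intro d hd
        split_ifs with h4
        · have h5 : m / d = 2 := by
            rw [← h4]
            exact Nat.mul_div_cancel _ (Nat.pos_of_mem_divisors hd)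
          rw [h5]
        · rw [zero_div, mul_zero]
      rw [sum_congr rfl h3]
      refine sum_subset ?_ ?_
      · intro d hd
        have h4 := Nat.pos_of_mem_divisors hd
        have h5 := Nat.divisor_le hd
        rw [mem_Ico]
        omega
      · intro d hd hd'
        rw [if_neg]
        intro h4
        exact hd' (Nat.mem_divisors.2 ⟨⟨2, by omega⟩, by omega⟩)
    have e : c m * ((Γ m + (∑ v ∈ PL k m, (m : ℝ) * S v 1 +
        ∑ d ∈ m.divisors, (if 2 * d = m then ∑ v ∈ PL k d, (d : ℝ) * S v (m / d) else 0) +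
        ∑ d ∈ m.divisors, (if 3 * d ≤ m then ∑ v ∈ PL k d, (d : ℝ) * S v (m / d) else 0))) / q ^ m) =
        c m * (Γ m / q ^ m) + c m * ((∑ v ∈ PL k m, (m : ℝ) * S v 1) / q ^ m) +
        c m * ((∑ d ∈ m.divisors, (if 2 * d = m then ∑ v ∈ PL k d, (d : ℝ) * S v (m / d) else 0)) / q ^ m) +
        c m * ((∑ d ∈ m.divisors, (if 3 * d ≤ m then ∑ v ∈ PL k d, (d : ℝ) * S v (m / d) else 0)) / q ^ m) := by
      ring
    rw [e, t3]
    linarith
  refine (sum_le_sum e1).trans ?_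
  rw [sum_add_distrib, sum_add_distrib, sum_add_distrib, ← mul_sum, ← mul_sum]
  have s1 : ∑ m ∈ Ico 1 h, c m * ((∑ v ∈ PL k m, (m : ℝ) * S v 1) / q ^ m) = ∑ v ∈ PB k h, (deg v * c (deg v)) * S v 1 / Nat.card (Res v) := by
    rw [sum_PB]
    refine sum_congr rfl fun m _ => ?_
    rw [sum_div, mul_sum]
    refine sum_congr rfl fun v hv => ?_
    rw [res_card, mem_PL.1 hv, hq]
    push_cast
    ring
  have s2 : ∑ m ∈ Ico 1 h, ∑ d ∈ Ico 1 h, (if 2 * d = m then c m * ((∑ v ∈ PL k d, (d : ℝ) * S v 2) / q ^ m) else 0) =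
      ∑ v ∈ PB k h, (if 2 * deg v < h then deg v * c (2 * deg v) else 0) * S v 2 / (Nat.card (Res v) : ℝ) ^ 2 := by
    rw [sum_comm, sum_PB]
    refine sum_congr rfl fun d hd => ?_
    rw [mem_Ico] at hd
    rw [sum_ite_eq (Ico 1 h) (2 * d) fun m => c m * ((∑ v ∈ PL k d, (d : ℝ) * S v 2) / q ^ m)]
    by_cases h3 : 2 * d < h
    · rw [if_pos (mem_Ico.2 ⟨by omega, h3⟩), sum_div, mul_sum]
      refine sum_congr rfl fun v hv => ?_
      rw [res_card, mem_PL.1 hv, hq, if_pos h3, pow_mul']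
      push_cast
      ring
    · rw [if_neg fun h4 => h3 (mem_Ico.1 h4).2]
      symm
      refine sum_eq_zero fun v hv => ?_
      rw [mem_PL.1 hv, if_neg h3]
      ring
  rw [s1, s2, sum_add_distrib]
  have h3 := geo2 h
  have hg0 : (0 : ℝ) ≤ g := Nat.cast_nonneg _
  have h4 : 4 * (g : ℝ) * ∑ m ∈ Ico 1 h, (7 / 8 : ℝ) ^ m ≤ 4 * g * 7 := mul_le_mul_of_nonneg_left h3 (by positivity)
  have h5 := mul_le_mul_of_nonneg_left h4 hA
  linarith

/-- the weight of the first powers in the bound for the order -/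
noncomputable def u1 (h d : ℕ) : ℝ := d * (2 * ((h : ℝ) - d) / (h : ℝ) ^ 2)

/-- the weight of the squares in the bound for the order -/
noncomputable def u2 (h d : ℕ) : ℝ := if 2 * d < h then d * (2 * ((h : ℝ) - (2 * d : ℕ)) / (h : ℝ) ^ 2) else 0

lemma u1_nonneg {h d : ℕ} (hdh : d < h) : 0 ≤ u1 h d := by
  unfold u1
  have : (d : ℝ) ≤ h := by exact_mod_cast hdh.le
  have h1 : 0 ≤ (h : ℝ) - d := by linarith
  positivity

lemma u1_le {h d : ℕ} (hdh : d < h) : u1 h d ≤ 2 * d / h := by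
  unfold u1
  have hh : (0 : ℝ) < h := by exact_mod_cast (by omega : 0 < h)
  have hd0 : (0 : ℝ) ≤ d := Nat.cast_nonneg _
  rw [mul_div_assoc', div_le_div_iff₀ (by positivity) hh]
  nlinarith [mul_nonneg (mul_nonneg hd0 hd0) hh.le]

lemma u1_le1 {h d : ℕ} (hdh : d < h) : u1 h d ≤ 1 := by
  unfold u1
  have hh : (0 : ℝ) < h := by exact_mod_cast (by omega : 0 < h)
  rw [mul_div_assoc', div_le_one (by positivity)]
  nlinarith [sq_nonneg ((h : ℝ) - 2 * d)]

lemma u2_nonneg {h d : ℕ} : 0 ≤ u2 h d := by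
  unfold u2
  split_ifs with h2
  · have h3 : ((2 * d : ℕ) : ℝ) ≤ h := by exact_mod_cast h2.le
    have h1 : 0 ≤ (h : ℝ) - (2 * d : ℕ) := by linarith
    positivity
  · exact le_rfl

lemma u2_le {h d : ℕ} (hdh : d < h) : u2 h d ≤ 2 * d / h := by
  unfold u2
  have hh : (0 : ℝ) < h := by exact_mod_cast (by omega : 0 < h)
  have hd0 : (0 : ℝ) ≤ d := Nat.cast_nonneg _
  split_ifs with h2
  · rw [mul_div_assoc', div_le_div_iff₀ (by positivity) hh]
    push_cast
    nlinarith [mul_nonneg (mul_nonneg hd0 hd0) hh.le]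
  · positivity

lemma u2_le1 {h d : ℕ} (hdh : d < h) : u2 h d ≤ 1 := by
  unfold u2
  have hh : (0 : ℝ) < h := by exact_mod_cast (by omega : 0 < h)
  split_ifs with h2
  · rw [mul_div_assoc', div_le_one (by positivity)]
    push_cast
    nlinarith [sq_nonneg ((h : ℝ) - 4 * d)]
  · norm_num

/-- the local function of the bound for the order -/
noncomputable def yv (g h : ℕ) {r m : ℕ} (v : Place k) (u : Idx r m → Res v) : ℝ :=
  -loc (u1 h (deg v)) (u2 h (deg v)) u +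
    bd u * ((u1 h (deg v) + u2 h (deg v)) * (12 * g + 5) / Real.sqrt (Nat.card (Res v)))

lemma term_one' {x S Q s c : ℝ} (hx : 0 ≤ x) (hs : 1 ≤ s) (hQ : Q = s ^ 2) (hS : |S| ≤ c * s) :
    |x * S / Q| ≤ x * c / s := by
  have hs0 : 0 < s := by linarith
  rw [abs_div, abs_mul, abs_of_nonneg hx, hQ, abs_of_pos (by positivity : 0 < s ^ 2), div_le_div_iff₀ (by positivity) hs0]
  have h1 : x * |S| ≤ x * (c * s) := mul_le_mul_of_nonneg_left hS hx
  calc x * |S| * s ≤ x * (c * s) * s := mul_le_mul_of_nonneg_right h1 hs0.le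
    _ = x * c * s ^ 2 := by ring

lemma term_two' {x S Q s c : ℝ} (hx : 0 ≤ x) (hc : 0 ≤ c) (hs : 1 ≤ s) (hQ : Q = s ^ 2) (hS : |S| ≤ c * s ^ 2) :
    |x * S / Q ^ 2| ≤ x * c / s := by
  have hs0 : 0 < s := by linarith
  rw [abs_div, abs_mul, abs_of_nonneg hx, hQ, abs_of_pos (by positivity : 0 < (s ^ 2) ^ 2), div_le_div_iff₀ (by positivity) hs0]
  have h1 : x * |S| ≤ x * (c * s ^ 2) := mul_le_mul_of_nonneg_left hS hx
  calc x * |S| * s ≤ x * (c * s ^ 2) * s := mul_le_mul_of_nonneg_right h1 hs0.le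
    _ = x * c * s ^ 3 := by ring
    _ ≤ x * c * s ^ 4 := mul_le_mul_of_nonneg_left (pow_le_pow_right₀ hs (by norm_num)) (mul_nonneg hx hc)
    _ = x * c * (s ^ 2) ^ 2 := by ring

/-- the upper bound for the order of vanishing -/
theorem order_le (h2 : (2 : k) ≠ 0) (g : ℕ) {r m n : ℕ} (hrm : r + m = 2 * g + 1) (hrg : r ≤ g) (t : Par k r m n) {N : ℕ}
    (β : Fin N → ℂ) (hβ : IsSpectrum g (curve t) β) {h : ℕ} (hh : 1 ≤ h) :
    (order β : ℝ) ≤ N / h + 112 * g / h + ∑ v ∈ PB k h, yv g h v (rt v t) := by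
  classical
  obtain ⟨hβ1, α, γ, hα, hγ, hexp⟩ := hβ
  have hh' : (1 : ℝ) ≤ h := by exact_mod_cast hh
  obtain ⟨q, hq⟩ : ∃ q : ℝ, q = Nat.card k := ⟨_, rfl⟩
  have hq3 : (3 : ℝ) ≤ q := by
    rw [hq]
    exact_mod_cast three_le h2
  obtain ⟨S, hS⟩ : ∃ S : Place k → ℕ → ℝ, S = fun v j => (∑ i, α v i ^ j).re := ⟨_, rfl⟩
  obtain ⟨Γ, hΓ⟩ : ∃ Γ : ℕ → ℝ, Γ = fun j => (∑ i, γ i ^ j).re := ⟨_, rfl⟩
  have hSb : ∀ v j, |S v j| ≤ 2 * g * Real.sqrt (Nat.card (Res v)) ^ j := fun v j => by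
    rw [hS]
    exact re_bound (hα v).1 j
  have hΓb : ∀ j, |Γ j| ≤ 2 * g * Real.sqrt (Nat.card k) ^ j := fun j => by
    rw [hΓ]
    exact re_bound hγ j
  -- the power sums
  have hpow : ∀ m : ℕ, 1 ≤ m → (∑ i, (β i ^ m).re) =
      (-Γ m + ∑ d ∈ m.divisors, ∑ v ∈ PL k d, (d : ℝ) * (-S v (m / d))) / (Nat.card k : ℝ) ^ m := by
    intro m hm
    have h3 := congrArg Complex.re (hexp m hm)
    rw [finsum_eq hm, Complex.neg_re, Complex.add_re, ← Nat.cast_pow, ← Complex.ofReal_natCast, Complex.re_ofReal_mul] at h3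
    have h4 : (∑ d ∈ m.divisors, ∑ v ∈ PL k d, (deg v : ℂ) * ∑ i, α v i ^ (m / deg v)).re =
        ∑ d ∈ m.divisors, ∑ v ∈ PL k d, (d : ℝ) * S v (m / d) := by
      rw [Complex.re_sum]
      refine sum_congr rfl fun d _ => ?_
      rw [Complex.re_sum]
      refine sum_congr rfl fun v hv => ?_
      rw [mem_PL.1 hv, ← Complex.ofReal_natCast, Complex.re_ofReal_mul, hS]
    rw [h4] at h3
    have h5 : (∑ i, γ i ^ m).re = Γ m := by rw [hΓ]
    rw [h5, Complex.re_sum] at h3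
    have h6 : ∑ d ∈ m.divisors, ∑ v ∈ PL k d, (d : ℝ) * (-S v (m / d)) = -∑ d ∈ m.divisors, ∑ v ∈ PL k d, (d : ℝ) * S v (m / d) := by
      rw [← sum_neg_distrib]
      refine sum_congr rfl fun d _ => ?_
      rw [← sum_neg_distrib]
      exact sum_congr rfl fun v _ => by ring
    have hq0 : 0 < ((Nat.card k : ℝ)) ^ m := by
      rw [← hq]
      positivity
    rw [h6, eq_div_iff hq0.ne']
    push_cast at h3
    linarith
  have h3 := Pool.Agent.TH180.RT.fejer_bound hβ1 h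
  have h4 : (order β : ℝ) ≤ N / h + ∑ m ∈ Ico 1 h, (2 * ((h : ℝ) - m) / (h : ℝ) ^ 2) * (∑ i, (β i ^ m).re) := by
    have h5 : (order β : ℝ) * h ^ 2 ≤ h * N + 2 * ∑ m ∈ Ico 1 h, ((h : ℝ) - m) * (∑ i, β i ^ m).re := by
      unfold order
      convert h3
    have h6 : (N : ℝ) / h + ∑ m ∈ Ico 1 h, (2 * ((h : ℝ) - m) / (h : ℝ) ^ 2) * (∑ i, (β i ^ m).re) =
        (h * N + 2 * ∑ m ∈ Ico 1 h, ((h : ℝ) - m) * (∑ i, β i ^ m).re) / h ^ 2 := by
      rw [add_div, mul_div_assoc, mul_sum, sum_div]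
      congr 1
      · field_simp
      · refine sum_congr rfl fun m _ => ?_
        rw [Complex.re_sum]
        ring
    rw [h6, le_div_iff₀ (by positivity)]
    exact h5
  have h5 : ∑ m ∈ Ico 1 h, (2 * ((h : ℝ) - m) / (h : ℝ) ^ 2) * (∑ i, (β i ^ m).re) =
      ∑ m ∈ Ico 1 h, (2 * ((h : ℝ) - m) / (h : ℝ) ^ 2) *
        ((-Γ m + ∑ d ∈ m.divisors, ∑ v ∈ PL k d, (d : ℝ) * (-S v (m / d))) / (Nat.card k : ℝ) ^ m) :=
    sum_congr rfl fun m hm => by rw [hpow m (mem_Ico.1 hm).1]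
  have h6 := main_sum' h2 g h (fun m => 2 * ((h : ℝ) - m) / (h : ℝ) ^ 2) (2 / h) (by positivity) (by
      intro m hm
      have : (m : ℝ) ≤ h := by exact_mod_cast (mem_Ico.1 hm).2.le
      have h7 : 0 ≤ (h : ℝ) - m := by linarith
      positivity) (by
      intro m hm
      show 2 * ((h : ℝ) - m) / (h : ℝ) ^ 2 ≤ 2 / h
      rw [div_le_div_iff₀ (by positivity) (by linarith)]
      have : (0 : ℝ) ≤ m := Nat.cast_nonneg _
      nlinarith) (fun v j => -S v j) (fun v j => by rw [abs_neg]; exact hSb v j) (fun j => -Γ j) (fun j => by rw [abs_neg]; exact hΓb j)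
  have h8 : ∑ v ∈ PB k h, ((deg v * (2 * ((h : ℝ) - deg v) / (h : ℝ) ^ 2)) * (-S v 1) / Nat.card (Res v) +
        (if 2 * deg v < h then deg v * (2 * ((h : ℝ) - (2 * deg v : ℕ)) / (h : ℝ) ^ 2) else 0) * (-S v 2) / (Nat.card (Res v) : ℝ) ^ 2) ≤
      ∑ v ∈ PB k h, yv g h v (rt v t) := by
    refine sum_le_sum fun v hv => ?_
    rw [mem_PB] at hv
    have hw1 := u1_nonneg hv
    have hw2 : 0 ≤ u2 h (deg v) := u2_nonneg
    obtain ⟨x, hx⟩ : ∃ x : ℝ, x = u1 h (deg v) := ⟨_, rfl⟩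
    obtain ⟨y, hy⟩ : ∃ y : ℝ, y = u2 h (deg v) := ⟨_, rfl⟩
    have hx' : (deg v : ℝ) * (2 * ((h : ℝ) - deg v) / (h : ℝ) ^ 2) = x := by rw [hx]; rfl
    have hy' : (if 2 * deg v < h then (deg v : ℝ) * (2 * ((h : ℝ) - (2 * deg v : ℕ)) / (h : ℝ) ^ 2) else 0) = y := by rw [hy]; rfl
    rw [hx', hy']
    unfold yv
    rw [← hx] at hw1 ⊢
    rw [← hy] at hw2 ⊢
    have hchar := ring_char h2 v
    have hcard : (Nat.card (Res v) : ℝ) = Fintype.card (Res v) := by rw [Nat.card_eq_fintype_card]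
    have hmap : (curve t).map (red v) = fpol (rt v t) := fpol_map (red v) _
    obtain ⟨Q, hQ⟩ : ∃ Q : ℝ, Q = (Nat.card (Res v) : ℝ) := ⟨_, rfl⟩
    obtain ⟨s, hs⟩ : ∃ s : ℝ, s = Real.sqrt Q := ⟨_, rfl⟩
    have hQ1 : 1 ≤ Q := by
      rw [hQ]
      exact_mod_cast Nat.card_pos
    have hs1 : 1 ≤ s := by
      rw [hs, Real.le_sqrt (by norm_num) (by linarith)]
      linarith
    have hs0 : 0 < s := by linarith
    have hsq : Q = s ^ 2 := by rw [hs, Real.sq_sqrt (by linarith)]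
    by_cases hgood : Squarefree (fpol (rt v t))
    · have hb : bd (rt v t) = 0 := by
        unfold bd
        rw [if_pos hgood]
      rw [hb, zero_mul, add_zero]
      have hG : Good (curve t) v := by
        unfold Good
        rw [hmap]
        exact hgood
      have hT : ∀ j : ℕ, 1 ≤ j → S v j = -(T (fpol (rt v t)) j : ℝ) := by
        intro j hj
        have h9 := congrArg Complex.re ((hα v).2 hG j hj)
        rw [Complex.sub_re, ← Nat.cast_pow, Complex.natCast_re, Complex.natCast_re] at h9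
        rw [← pts_eq hchar (fpol (rt v t)) j hj]
        have h10 : (∑ i, α v i ^ j).re = S v j := by rw [hS]
        rw [← h10, h9]
        unfold points
        rw [hmap]
        simp only [Nat.card_eq_fintype_card (α := Res v)]
        push_cast
        ring
      rw [hT 1 le_rfl, hT 2 (by norm_num)]
      unfold loc
      rw [hcard]
      refine le_of_eq ?_
      ring
    · have hb : bd (rt v t) = 1 := by
        unfold bd
        rw [if_neg hgood]
      rw [hb, one_mul, ← hQ]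
      have h9 : |-S v 1| ≤ 2 * g * s := by
        have := hSb v 1
        rwa [pow_one, ← hQ, ← hs, ← abs_neg] at this
      have h10 : |-S v 2| ≤ 2 * g * s ^ 2 := by
        have := hSb v 2
        rwa [← hQ, ← hs, ← abs_neg] at this
      have h11 : |(T (fpol (rt v t)) 1 : ℝ)| ≤ 5 * (2 * g + 1) * s := by
        have := T_le hchar hrm hrg (rt v t) 1 le_rfl
        rwa [pow_one, ← hcard, ← hQ, ← hs] at this
      have h12 : |(T (fpol (rt v t)) 2 : ℝ)| ≤ 5 * (2 * g + 1) * s ^ 2 := by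
        have := T_le hchar hrm hrg (rt v t) 2 (by norm_num)
        rwa [← hcard, ← hQ, ← hs] at this
      unfold loc
      rw [← hcard, ← hQ]
      have hg0 : (0 : ℝ) ≤ g := Nat.cast_nonneg _
      have b1 := (abs_le.1 (term_one' hw1 hs1 hsq h9)).2
      have b2 := (abs_le.1 (term_two' hw2 (by positivity) hs1 hsq h10)).2
      have b3 := (abs_le.1 (term_one' hw1 hs1 hsq h11)).1
      have b4 := (abs_le.1 (term_two' hw2 (by positivity) hs1 hsq h12)).1
      rw [← hs]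
      have e : (x + y) * (12 * (g : ℝ) + 5) / s = x * (2 * g) / s + y * (2 * g) / s + x * (5 * (2 * g + 1)) / s + y * (5 * (2 * g + 1)) / s := by ring
      rw [e]
      linarith
  rw [h5] at h4
  have h9 : (112 : ℝ) * g / h = 56 * g * (2 / h) := by ring
  rw [h9]
  linarith

end

end Q282.FF
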