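import Pool.Agent.Q282.FF.Tail
import Pool.Agent.Q282.CL.Chr

/-!
# The means and the bounds of the local functions in the bound for the order
-/

set_option autoImplicit false
set_option linter.unusedSectionVars false

namespace Q282.FF

open Polynomial Finset
open Q282.JK (Idx fpol pts_eq fpol_map)
open Pool.Agent.H341R2.Sharp (T)
open Q282.CL (av av_add av_sub av_mul av_mono av_const av_nonneg abs_av_le av_sum)

section

variable {F : Type} [Field F] [Fintype F] [DecidableEq F] {r m : ℕ}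

lemma loc_lin (w₁ w₂ : ℝ) (u : Idx r m → F) : loc w₁ w₂ u = w₁ * loc 1 0 u + w₂ * loc 0 1 u := by
  unfold loc
  ring

lemma loc_le (hF : ringChar F ≠ 2) {g : ℕ} (hrm : r + m = 2 * g + 1) (hrg : r ≤ g) {w₁ w₂ : ℝ} (h1 : 0 ≤ w₁) (h2 : 0 ≤ w₂)
    (u : Idx r m → F) : |loc w₁ w₂ u| ≤ (w₁ + w₂) * (5 * (2 * g + 1)) / Real.sqrt (Fintype.card F) := by
  obtain ⟨Q, hQ⟩ : ∃ Q : ℝ, Q = Fintype.card F := ⟨_, rfl⟩
  obtain ⟨s, hs⟩ : ∃ s : ℝ, s = Real.sqrt Q := ⟨_, rfl⟩
  have hQ1 : 1 ≤ Q := by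
    rw [hQ]
    exact_mod_cast Fintype.card_pos
  have hs1 : 1 ≤ s := by
    rw [hs, Real.le_sqrt (by norm_num) (by linarith)]
    linarith
  have hsq : Q = s ^ 2 := by rw [hs, Real.sq_sqrt (by linarith)]
  have hT1 : |(T (fpol u) 1 : ℝ)| ≤ 5 * (2 * g + 1) * s := by
    have := T_le hF hrm hrg u 1 le_rfl
    rwa [pow_one, ← hQ, ← hs] at this
  have hT2 : |(T (fpol u) 2 : ℝ)| ≤ 5 * (2 * g + 1) * s ^ 2 := by
    have := T_le hF hrm hrg u 2 (by norm_num)
    rwa [← hQ, ← hs] at this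
  have hg0 : (0 : ℝ) ≤ g := Nat.cast_nonneg _
  have b1 := term_one' h1 hs1 hsq hT1
  have b2 := term_two' h2 (by positivity) hs1 hsq hT2
  unfold loc
  rw [← hQ, ← hs]
  have e : (w₁ + w₂) * (5 * (2 * (g : ℝ) + 1)) / s = w₁ * (5 * (2 * g + 1)) / s + w₂ * (5 * (2 * g + 1)) / s := by ring
  rw [e]
  rw [abs_le] at b1 b2 ⊢
  constructor <;> linarith [b1.1, b1.2, b2.1, b2.2]

end

lemma sum_lin (x : ℝ) (n : ℕ) : ∑ d ∈ Ico 1 (n + 1), (x - d) = n * x - n * (n + 1) / 2 := by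
  induction n with
  | zero => simp
  | succ n ih =>
    rw [sum_Ico_succ_top (by omega), ih]
    push_cast
    ring

lemma sum_u1 {h : ℕ} (hh : 1 ≤ h) : ∑ d ∈ Ico 1 h, u1 h d / d ≤ 1 := by
  have hh' : (1 : ℝ) ≤ h := by exact_mod_cast hh
  have h1 : ∑ d ∈ Ico 1 h, u1 h d / d = 2 / (h : ℝ) ^ 2 * ∑ d ∈ Ico 1 h, ((h : ℝ) - d) := by
    rw [mul_sum]
    refine sum_congr rfl fun d hd => ?_
    have hd1 : (0 : ℝ) < d := by exact_mod_cast (mem_Ico.1 hd).1
    unfold u1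
    field_simp
  have h2 : ∑ d ∈ Ico 1 h, ((h : ℝ) - d) ≤ (h : ℝ) ^ 2 / 2 := by
    obtain ⟨n, rfl⟩ : ∃ n, h = n + 1 := ⟨h - 1, by omega⟩
    rw [sum_lin]
    push_cast
    have : (0 : ℝ) ≤ n := Nat.cast_nonneg _
    nlinarith
  rw [h1]
  calc 2 / (h : ℝ) ^ 2 * ∑ d ∈ Ico 1 h, ((h : ℝ) - d) ≤ 2 / (h : ℝ) ^ 2 * ((h : ℝ) ^ 2 / 2) := mul_le_mul_of_nonneg_left h2 (by positivity)
    _ = 1 := by field_simp

lemma sum_u2 {h : ℕ} (hh : 1 ≤ h) : ∑ d ∈ Ico 1 h, u2 h d / d ≤ 1 / 2 := by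
  have hh' : (1 : ℝ) ≤ h := by exact_mod_cast hh
  obtain ⟨H, hH⟩ : ∃ H : ℕ, H = (h - 1) / 2 := ⟨_, rfl⟩
  have h1 : ∑ d ∈ Ico 1 h, u2 h d / d = 4 / (h : ℝ) ^ 2 * ∑ d ∈ Ico 1 (H + 1), ((h : ℝ) / 2 - d) := by
    rw [mul_sum]
    symm
    refine sum_subset_zero_on_sdiff ?_ ?_ ?_
    · intro d hd
      rw [mem_Ico] at hd ⊢
      omega
    · intro d hd
      rw [mem_sdiff, mem_Ico, mem_Ico] at hd
      unfold u2
      rw [if_neg (by omega), zero_div]
    · intro d hd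
      rw [mem_Ico] at hd
      have hd1 : (0 : ℝ) < d := by exact_mod_cast hd.1
      unfold u2
      rw [if_pos (by omega)]
      push_cast
      field_simp
      ring
  have h2 : ∑ d ∈ Ico 1 (H + 1), ((h : ℝ) / 2 - d) ≤ (h : ℝ) ^ 2 / 8 := by
    rw [sum_lin]
    nlinarith [sq_nonneg ((h : ℝ) - 1 - 2 * H)]
  rw [h1]
  calc 4 / (h : ℝ) ^ 2 * ∑ d ∈ Ico 1 (H + 1), ((h : ℝ) / 2 - d) ≤ 4 / (h : ℝ) ^ 2 * ((h : ℝ) ^ 2 / 8) := mul_le_mul_of_nonneg_left h2 (by positivity)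
    _ = 1 / 2 := by field_simp; norm_num

section

variable {k : Type} [Field k] [Fintype k] [DecidableEq k]

/-- convergent sums over the places, with the degree -/
lemma sum_conv' (h2 : (2 : k) ≠ 0) (h : ℕ) : ∑ v ∈ PB k h, (deg v : ℝ) * (1 / (Real.sqrt (Nat.card (Res v)) ^ 3)) ≤ 2 := by
  have h1 : ∀ v ∈ PB k h, (deg v : ℝ) * (1 / (Real.sqrt (Nat.card (Res v)) ^ 3)) ≤ (fun d : ℕ => (d : ℝ) * (2 / 3 : ℝ) ^ d) (deg v) / (Nat.card (Res v) : ℝ) := by
    intro v _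
    have hq : (0 : ℝ) < Nat.card k := by exact_mod_cast Nat.card_pos
    have e1 : (Nat.card (Res v) : ℝ) = Real.sqrt (Nat.card (Res v)) ^ 2 := by rw [Real.sq_sqrt (Nat.cast_nonneg _)]
    have e2 := sqrt_res v
    have hs : 0 < Real.sqrt (Nat.card (Res v)) := by
      rw [e2]
      have := sqrt_ge h2
      positivity
    have h3 := inv_sqrt h2 (deg v)
    rw [← e2] at h3
    have e3 : 1 / Real.sqrt (Nat.card (Res v)) ^ 3 = 1 / Real.sqrt (Nat.card (Res v)) / (Nat.card (Res v) : ℝ) := by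
      rw [div_div]
      congr 1
      rw [pow_succ', ← e1]
    show _ ≤ (deg v : ℝ) * (2 / 3 : ℝ) ^ deg v / (Nat.card (Res v) : ℝ)
    rw [e3, mul_div_assoc']
    exact div_le_div_of_nonneg_right (mul_le_mul_of_nonneg_left h3 (Nat.cast_nonneg _)) (Nat.cast_nonneg _)
  refine (sum_le_sum h1).trans ?_
  rw [sum_PB_deg (k := k) h (fun d : ℕ => (d : ℝ) * (2 / 3 : ℝ) ^ d)]
  refine le_trans (sum_le_sum fun d hd => ?_) (geo h)
  have hd1 : 1 ≤ d := (mem_Ico.1 hd).1
  have h3 := pd_le (k := k) d hd1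
  have h4 : (0 : ℝ) < d := by exact_mod_cast hd1
  calc pd k d * ((d : ℝ) * (2 / 3) ^ d) ≤ 1 / d * (d * (2 / 3) ^ d) := mul_le_mul_of_nonneg_right h3 (by positivity)
    _ = _ := by field_simp

/-- the sum of the squares of the degrees -/
lemma sum_degsq (h : ℕ) : ∑ v ∈ PB k h, (deg v : ℝ) ^ 2 / (Nat.card (Res v) : ℝ) ≤ (h : ℝ) ^ 2 := by
  have h1 := sum_PB_deg (k := k) h (fun d => (d : ℝ) ^ 2)
  have h2 : ∑ v ∈ PB k h, (deg v : ℝ) ^ 2 / (Nat.card (Res v) : ℝ) = ∑ v ∈ PB k h, (fun d : ℕ => (d : ℝ) ^ 2) (deg v) / (Nat.card (Res v) : ℝ) := rfl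
  rw [h2, h1]
  refine (sum_le_sum (g := fun _ => (h : ℝ)) fun d hd => ?_).trans ?_
  · have hd1 : 1 ≤ d := (mem_Ico.1 hd).1
    have h3 := pd_le (k := k) d hd1
    have h4 : (0 : ℝ) < d := by exact_mod_cast hd1
    have h5 : (d : ℝ) ≤ h := by exact_mod_cast (mem_Ico.1 hd).2.le
    calc pd k d * (d : ℝ) ^ 2 ≤ 1 / d * (d : ℝ) ^ 2 := mul_le_mul_of_nonneg_right h3 (by positivity)
      _ = d := by field_simp
      _ ≤ h := h5
  · rw [sum_const, Nat.card_Ico, nsmul_eq_mul, sq]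
    refine mul_le_mul_of_nonneg_right ?_ (Nat.cast_nonneg _)
    exact_mod_cast Nat.sub_le _ _

end

/-- The bounds and the means of the local functions. -/
theorem yv_facts (g r m : ℕ) (hrm : r + m = 2 * g + 1) (hrg : r ≤ g) (hg : 1 ≤ g) : ∃ B : ℝ, 1 ≤ B ∧
    ∀ (k : Type) [Field k] [Fintype k] [DecidableEq k], (2 : k) ≠ 0 →
    (∀ (h : ℕ) (v : Place k), deg v < h → ∀ u : Idx r m → Res v, |yv g h v u| ≤ B * (deg v / h) / Real.sqrt (Nat.card (Res v))) ∧
    (∀ h : ℕ, 1 ≤ h → ∑ v ∈ PB k h, av (fun u : Idx r m → Res v => yv g h v u) ≤ r + 1 / 2 + B / h) := by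
  obtain ⟨B₀, hB1, hB⟩ := loc_main g r m hrm hrg hg
  obtain ⟨c, hc⟩ : ∃ c : ℝ, c = 12 * g + 5 := ⟨_, rfl⟩
  have hc0 : 0 ≤ c := by rw [hc]; positivity
  obtain ⟨E, hE⟩ : ∃ E : ℝ, E = B₀ + c * (r ^ 2 + r + g) := ⟨_, rfl⟩
  have hE1 : 1 ≤ E := by
    rw [hE]
    have := mul_nonneg hc0 (by positivity : (0 : ℝ) ≤ r ^ 2 + r + g)
    linarith
  obtain ⟨B, hBd⟩ : ∃ B : ℝ, B = 8 * E + 4 * (22 * g + 10) := ⟨_, rfl⟩
  have hg0 : (0 : ℝ) ≤ g := Nat.cast_nonneg _
  have hr0 : (0 : ℝ) ≤ r := Nat.cast_nonneg _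
  refine ⟨B, by rw [hBd]; linarith, ?_⟩
  intro k _ _ _ h2
  have hcard : ∀ v : Place k, (Nat.card (Res v) : ℝ) = Fintype.card (Res v) := fun v => by rw [Nat.card_eq_fintype_card]
  have hs1 : ∀ v : Place k, 1 ≤ Real.sqrt (Nat.card (Res v)) := by
    intro v
    rw [Real.one_le_sqrt]
    exact_mod_cast Nat.card_pos
  refine ⟨?_, ?_⟩
  · intro h v hv u
    obtain ⟨s, hs⟩ : ∃ s : ℝ, s = Real.sqrt (Nat.card (Res v)) := ⟨_, rfl⟩
    have hs1' := hs1 v
    rw [← hs] at hs1' ⊢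
    have hs0 : 0 < s := by linarith
    have a1 := u1_nonneg hv
    have a2 := u1_le hv
    have a3 : 0 ≤ u2 h (deg v) := u2_nonneg
    have a4 := u2_le hv
    have hl := loc_le (F := Res v) (ring_char h2 v) hrm hrg a1 a3 u
    rw [← hcard, ← hs] at hl
    have hb0 : 0 ≤ bd u := by unfold bd; split_ifs <;> norm_num
    have hb1 : bd u ≤ 1 := by unfold bd; split_ifs <;> norm_num
    unfold yv
    rw [← hs]
    obtain ⟨x, hx⟩ : ∃ x : ℝ, x = u1 h (deg v) + u2 h (deg v) := ⟨_, rfl⟩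
    rw [← hx] at hl ⊢
    have hx0 : 0 ≤ x := by rw [hx]; linarith
    have hx4 : x ≤ 4 * (deg v / h) := by
      rw [hx]
      have e : 2 * (deg v : ℝ) / h = 2 * (deg v / h) := by ring
      rw [e] at a2 a4
      linarith
    have h5 : bd u * (x * (12 * g + 5) / s) ≤ 1 * (x * (12 * g + 5) / s) := mul_le_mul_of_nonneg_right hb1 (by positivity)
    have h6 : 0 ≤ bd u * (x * (12 * g + 5) / s) := by positivity
    have h7 : |-loc (u1 h (deg v)) (u2 h (deg v)) u + bd u * (x * (12 * g + 5) / s)| ≤ x * (22 * g + 10) / s := by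
      have e : x * (22 * (g : ℝ) + 10) / s = x * (5 * (2 * g + 1)) / s + x * (12 * g + 5) / s := by ring
      rw [e]
      rw [abs_le] at hl ⊢
      constructor <;> linarith [hl.1, hl.2]
    refine h7.trans ?_
    refine div_le_div_of_nonneg_right ?_ hs0.le
    have h8 : x * (22 * g + 10) ≤ 4 * (deg v / h) * (22 * g + 10) := mul_le_mul_of_nonneg_right hx4 (by positivity)
    have h9 : 0 ≤ (deg v : ℝ) / h := by positivity
    rw [hBd]
    nlinarith
  · intro h hh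
    have hh' : (0 : ℝ) < h := by exact_mod_cast hh
    have key : ∀ v ∈ PB k h, av (fun u : Idx r m → Res v => yv g h v u) ≤
        r * (u1 h (deg v) / (Nat.card (Res v) : ℝ)) + u2 h (deg v) / (Nat.card (Res v) : ℝ) + 4 * E / h * ((deg v : ℝ) * (1 / (Real.sqrt (Nat.card (Res v)) ^ 3))) := by
      intro v hv
      rw [mem_PB] at hv
      obtain ⟨s, hs⟩ : ∃ s : ℝ, s = Real.sqrt (Nat.card (Res v)) := ⟨_, rfl⟩
      have hs1' := hs1 v
      rw [← hs] at hs1' ⊢
      have hs0 : 0 < s := by linarith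
      have hsq : (Nat.card (Res v) : ℝ) = s ^ 2 := by rw [hs, Real.sq_sqrt (Nat.cast_nonneg _)]
      have a1 := u1_nonneg hv
      have a2 := u1_le hv
      have a3 : 0 ≤ u2 h (deg v) := u2_nonneg
      have a4 := u2_le hv
      have m1 := (hB (Res v) (ring_char h2 v) 1 0 (by norm_num) le_rfl le_rfl (by norm_num)).2.1
      have m2 := (hB (Res v) (ring_char h2 v) 0 1 le_rfl (by norm_num) (by norm_num) le_rfl).2.1
      rw [← hcard, ← hs] at m1 m2
      rw [hsq] at m1 m2 ⊢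
      obtain ⟨x, hx⟩ : ∃ x : ℝ, x = u1 h (deg v) := ⟨_, rfl⟩
      obtain ⟨y, hy⟩ : ∃ y : ℝ, y = u2 h (deg v) := ⟨_, rfl⟩
      have e1 : av (fun u : Idx r m → Res v => yv g h v u) =
          -(x * av (fun u : Idx r m → Res v => loc 1 0 u)) - y * av (fun u : Idx r m → Res v => loc 0 1 u) +
            ((x + y) * c / s) * av (fun u : Idx r m → Res v => bd u) := by
        rw [← av_mul, ← av_mul, ← av_mul]
        have e2 : (fun u : Idx r m → Res v => yv g h v u) = fun u =>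
            (((x + y) * c / s) * bd u - (x * loc 1 0 u + y * loc 0 1 u)) := by
          funext u
          unfold yv
          rw [loc_lin, ← hs, ← hx, ← hy, hc]
          ring
        rw [e2, av_sub, av_add]
        ring
      have h5 : av (fun u : Idx r m → Res v => bd u) ≤ (r ^ 2 + r + g) / s ^ 2 := by
        classical
        have h6 := Q282.JK.bad_card (F := Res v) (r := r) (m := m) hrm hrg
        rw [av_def]
        have h7 : ∑ u : Idx r m → Res v, bd u = (((univ : Finset (Idx r m → Res v)).filter fun u => ¬ Squarefree (fpol u)).card : ℝ) := by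
          unfold bd
          rw [card_filter]
          push_cast
          refine sum_congr rfl fun u _ => ?_
          by_cases h8 : Squarefree (fpol u)
          · simp [h8]
          · simp [h8]
        have hQ0 : 0 < (Fintype.card (Res v) : ℝ) ^ Fintype.card (Idx r m) := by
          have : (0 : ℝ) < Fintype.card (Res v) := by exact_mod_cast Fintype.card_pos
          positivity
        rw [← hsq]
        have hR0 : (0 : ℝ) < Nat.card (Res v) := by exact_mod_cast Nat.card_pos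
        rw [h7, div_le_div_iff₀ hQ0 hR0, hcard]
        refine le_trans (le_of_eq ?_) h6
        congr
      rw [e1, ← hx, ← hy]
      rw [← hx] at a1 a2
      rw [← hy] at a3 a4
      have m1' : -av (fun u : Idx r m → Res v => loc 1 0 u) ≤ r / s ^ 2 + B₀ / s ^ 3 := by
        have := (abs_le.1 m1).1
        have e : (1 * (r : ℝ) + 0) / s ^ 2 = r / s ^ 2 := by ring
        rw [e] at this
        linarith
      have m2' : -av (fun u : Idx r m → Res v => loc 0 1 u) ≤ 1 / s ^ 2 + B₀ / s ^ 3 := by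
        have := (abs_le.1 m2).1
        have e : (0 * (r : ℝ) + 1) / s ^ 2 = 1 / s ^ 2 := by ring
        rw [e] at this
        linarith
      have b1 := mul_le_mul_of_nonneg_left m1' a1
      have b2 := mul_le_mul_of_nonneg_left m2' a3
      have b3 : ((x + y) * c / s) * av (fun u : Idx r m → Res v => bd u) ≤ ((x + y) * c / s) * ((r ^ 2 + r + g) / s ^ 2) :=
        mul_le_mul_of_nonneg_left h5 (by positivity)
      have b4 : ((x + y) * c / s) * ((r ^ 2 + r + g) / s ^ 2) = (x + y) * (c * (r ^ 2 + r + g)) / s ^ 3 := by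
        field_simp
      have b5 : (x + y) * E / s ^ 3 ≤ 4 * E / h * (deg v * (1 / s ^ 3)) := by
        have e : 4 * E / h * (deg v * (1 / s ^ 3)) = (2 * (deg v : ℝ) / h + 2 * (deg v : ℝ) / h) * E / s ^ 3 := by ring
        rw [e]
        refine div_le_div_of_nonneg_right (mul_le_mul_of_nonneg_right (by linarith) (by linarith)) (by positivity)
      have b6 : (x + y) * E / s ^ 3 = x * (B₀ / s ^ 3) + y * (B₀ / s ^ 3) + (x + y) * (c * (r ^ 2 + r + g)) / s ^ 3 := by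
        rw [hE]
        ring
      have b7 : x * (r / s ^ 2 + B₀ / s ^ 3) = r * (x / s ^ 2) + x * (B₀ / s ^ 3) := by ring
      have b8 : y * (1 / s ^ 2 + B₀ / s ^ 3) = y / s ^ 2 + y * (B₀ / s ^ 3) := by ring
      have b9 : x * -av (fun u : Idx r m → Res v => loc 1 0 u) = -(x * av (fun u : Idx r m → Res v => loc 1 0 u)) := by ring
      have b10 : y * -av (fun u : Idx r m → Res v => loc 0 1 u) = -(y * av (fun u : Idx r m → Res v => loc 0 1 u)) := by ring
      linarith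
    refine (sum_le_sum key).trans ?_
    rw [sum_add_distrib, sum_add_distrib, ← mul_sum, ← mul_sum]
    have s1 : ∑ v ∈ PB k h, u1 h (deg v) / (Nat.card (Res v) : ℝ) ≤ 1 := by
      rw [sum_PB_deg]
      refine le_trans (sum_le_sum fun d hd => ?_) (sum_u1 hh)
      have hd := mem_Ico.1 hd
      have := mul_le_mul_of_nonneg_right (pd_le (k := k) d hd.1) (u1_nonneg hd.2)
      refine this.trans (le_of_eq ?_)
      ring
    have s2 : ∑ v ∈ PB k h, u2 h (deg v) / (Nat.card (Res v) : ℝ) ≤ 1 / 2 := by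
      rw [sum_PB_deg]
      refine le_trans (sum_le_sum fun d hd => ?_) (sum_u2 hh)
      have hd := mem_Ico.1 hd
      have := mul_le_mul_of_nonneg_right (pd_le (k := k) d hd.1) (u2_nonneg (h := h) (d := d))
      refine this.trans (le_of_eq ?_)
      ring
    have s3 := sum_conv' h2 h
    have s4 : 4 * E / h * ∑ v ∈ PB k h, (deg v : ℝ) * (1 / (Real.sqrt (Nat.card (Res v)) ^ 3)) ≤ 4 * E / h * 2 :=
      mul_le_mul_of_nonneg_left s3 (by positivity)
    have s5 : (r : ℝ) * ∑ v ∈ PB k h, u1 h (deg v) / (Nat.card (Res v) : ℝ) ≤ r * 1 := mul_le_mul_of_nonneg_left s1 hr0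
    have s6 : 4 * E / h * 2 ≤ B / h := by
      rw [hBd, div_mul_eq_mul_div]
      refine div_le_div_of_nonneg_right ?_ hh'.le
      linarith
    linarith

end Q282.FF
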